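import Pool.Agent.Lib.MP_ce3247_an.Alg1

/-! A high power of the companion matrix and the contraction ratio `ρ`. -/

open Finset

namespace Pool.Agent.Lib.MP_ce3247_an

structure Alg (d k r : ℕ) (C0 : ℝ) where
  A : Matrix (Fin (k + 1)) (Fin (k + 1)) ℕ
  m : ℕ
  ρ : ℝ
  L : ℝ
  lam : ℝ
  Λ : ℝ
  ct : Fin (k + 1) → ℝ
  f : Fin (k + 1) → ℝ
  two_le : ∀ a b, 2 ≤ A a b
  total : ∑ b, ∑ a, A a b ≤ m ^ d
  ρ_pos : 0 < ρ
  ρ_le : ρ * (C0 * (m + 1)) ≤ 1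
  L_le : ∀ b, L ≤ ((∑ a, A a b : ℕ) : ℝ)
  left : ∀ b, ∑ a, ct a * (A a b : ℝ) = lam * ct b
  ct_ne : ∃ a, ct a ≠ ct 0
  hX : 1 < ρ ^ (d - 1) * L
  hV1 : |lam| < ρ ^ r * L
  hV2 : lam ^ 2 < ρ ^ (r + 2)
  f_pos : ∀ a, 0 < f a
  f_sum : ∑ a, f a = 1
  right : ∀ a, ∑ b, (A a b : ℝ) * f b = Λ * f a
  orth : ∑ a, ct a * f a = 0
  f_ind : LinearIndependent ℚ f

theorem Alg2_left {n : ℕ} (A : Matrix (Fin n) (Fin n) ℕ) (v : Fin n → ℝ) (l : ℝ)
    (h : ∀ b, ∑ a, v a * (A a b : ℝ) = l * v b) (p : ℕ) :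
    ∀ b, ∑ a, v a * ((A ^ p) a b : ℝ) = l ^ p * v b := by
  induction p with
  | zero =>
    intro b
    simp [Matrix.one_apply]
  | succ p ih =>
    intro b
    simp only [pow_succ, Matrix.mul_apply]
    push_cast
    simp only [Finset.mul_sum]
    rw [Finset.sum_comm]
    have e : ∀ c, ∑ a, v a * (((A ^ p) a c : ℝ) * (A c b : ℝ)) = l ^ p * (v c * (A c b : ℝ)) := by
      intro c
      rw [← mul_assoc, ← ih c, Finset.sum_mul]
      exact Finset.sum_congr rfl fun a _ => by ring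
    simp only [e]
    rw [← Finset.mul_sum, h b]
    ring

theorem Alg2_right {n : ℕ} (A : Matrix (Fin n) (Fin n) ℕ) (v : Fin n → ℝ) (l : ℝ)
    (h : ∀ a, ∑ b, (A a b : ℝ) * v b = l * v a) (p : ℕ) :
    ∀ a, ∑ b, ((A ^ p) a b : ℝ) * v b = l ^ p * v a := by
  intro a
  have h1 := Alg2_left A.transpose v l (fun b => by
    rw [← h b]
    exact Finset.sum_congr rfl fun a _ => by rw [Matrix.transpose_apply]; ring) p a
  rw [← h1, ← Matrix.transpose_pow]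
  exact Finset.sum_congr rfl fun b _ => by rw [Matrix.transpose_apply]; ring

theorem Alg2_orth {k : ℕ} (S : Alg0 k) : ∑ a, S.ct a * S.f a = 0 := by
  have h1 : ∑ a, ∑ b, S.ct a * (S.A0 a b : ℝ) * S.f b = S.l1 * ∑ a, S.ct a * S.f a := by
    rw [Finset.mul_sum]
    refine Finset.sum_congr rfl fun a _ => ?_
    have : ∑ b, S.ct a * (S.A0 a b : ℝ) * S.f b = S.ct a * ∑ b, (S.A0 a b : ℝ) * S.f b := by
      rw [Finset.mul_sum]
      exact Finset.sum_congr rfl fun b _ => by ring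
    rw [this, S.f_right]
    ring
  have h2 : ∑ a, ∑ b, S.ct a * (S.A0 a b : ℝ) * S.f b = S.ls * ∑ a, S.ct a * S.f a := by
    rw [Finset.sum_comm, Finset.mul_sum]
    refine Finset.sum_congr rfl fun b _ => ?_
    rw [← Finset.sum_mul, S.ct_left]
    ring
  have h3 : S.l1 - S.ls ≠ 0 := by
    have := S.one_lt
    have := (abs_lt.1 S.ls_lt).2
    linarith
  apply mul_left_cancel₀ h3
  linear_combination h2 - h1

theorem Alg2_root {N d : ℕ} (hN : 1 ≤ N) (hd : 1 ≤ d) :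
    ∃ m : ℕ, N ≤ m ^ d ∧ (m + 1) ^ d ≤ 3 ^ d * N := by
  classical
  have hex : ∃ m : ℕ, N ≤ m ^ d := ⟨N, Nat.le_self_pow (by omega) N⟩
  refine ⟨Nat.find hex, Nat.find_spec hex, ?_⟩
  by_cases h2 : 2 ≤ Nat.find hex
  · have h3 := Nat.find_min hex (m := Nat.find hex - 1) (by omega)
    calc (Nat.find hex + 1) ^ d ≤ (3 * (Nat.find hex - 1)) ^ d :=
          Nat.pow_le_pow_left (by omega) d
      _ = 3 ^ d * (Nat.find hex - 1) ^ d := mul_pow _ _ _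
      _ ≤ 3 ^ d * N := Nat.mul_le_mul_left _ (by omega)
  · calc (Nat.find hex + 1) ^ d ≤ 3 ^ d := Nat.pow_le_pow_left (by omega) d
      _ ≤ 3 ^ d * N := Nat.le_mul_of_pos_right _ hN

theorem Alg2_cols {k : ℕ} (S : Alg0 k) : ∃ c1 c2 : ℝ, 0 < c1 ∧ 0 < c2 ∧ ∀ (p : ℕ) b,
    c1 * S.l1 ^ p ≤ ((∑ a, (S.A0 ^ p) a b : ℕ) : ℝ) ∧
      ((∑ a, (S.A0 ^ p) a b : ℕ) : ℝ) ≤ c2 * S.l1 ^ p := by
  obtain ⟨i, -, hi⟩ := Finset.exists_min_image Finset.univ S.y ⟨0, Finset.mem_univ _⟩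
  obtain ⟨j, -, hj⟩ := Finset.exists_max_image Finset.univ S.y ⟨0, Finset.mem_univ _⟩
  have h0 := S.y_pos i
  have h1 := S.y_pos j
  refine ⟨S.y i / S.y j, S.y j / S.y i, div_pos h0 h1, div_pos h1 h0, fun p b => ?_⟩
  have h2 := Alg2_left S.A0 S.y S.l1 S.y_left p b
  have hl : 0 < S.l1 ^ p := pow_pos (by linarith [S.one_lt]) p
  push_cast
  constructor
  · rw [div_mul_eq_mul_div, div_le_iff₀ h1, Finset.sum_mul]
    calc S.y i * S.l1 ^ p ≤ S.l1 ^ p * S.y b := by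
          rw [mul_comm]
          exact mul_le_mul_of_nonneg_left (hi b (Finset.mem_univ _)) hl.le
      _ = _ := h2.symm
      _ ≤ _ := Finset.sum_le_sum fun a _ => by
          rw [mul_comm]
          exact mul_le_mul_of_nonneg_left (hj a (Finset.mem_univ _)) (Nat.cast_nonneg _)
  · rw [div_mul_eq_mul_div, le_div_iff₀ h0, Finset.sum_mul]
    calc _ ≤ ∑ a, S.y a * ((S.A0 ^ p) a b : ℝ) := Finset.sum_le_sum fun a _ => by
          rw [mul_comm (S.y a)]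
          exact mul_le_mul_of_nonneg_left (hi a (Finset.mem_univ _)) (Nat.cast_nonneg _)
      _ = _ := h2
      _ ≤ S.y j * S.l1 ^ p := by
          rw [mul_comm (S.y j)]
          exact mul_le_mul_of_nonneg_left (hj b (Finset.mem_univ _)) hl.le

theorem exists_alg {d k r : ℕ} (S : Alg0 k) (hd : 2 ≤ d) (hr : r ≤ d)
    (h : S.ls ^ (2 * d) * S.l1 ^ (r + 2) < 1) {C0 : ℝ} (hC : 1 ≤ C0) :
    ∃ (T : Alg d k r C0) (p : ℕ), T.A = S.A0 ^ p ∧ T.lam = S.ls ^ p ∧ T.f = S.f := by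
  obtain ⟨c1, c2, hc1, hc2, hcol⟩ := Alg2_cols S
  have hl1 : 0 < S.l1 := by linarith [S.one_lt]
  have hC0 : 0 < C0 := by linarith
  set c5 : ℝ := 1 / (C0 ^ d * 3 ^ d * ((k + 1) * c2)) with hc5def
  have hc5 : 0 < c5 := by positivity
  have hκ : 0 < c1 * c5 := mul_pos hc1 hc5
  have hq0 : 0 ≤ S.ls ^ (2 * d) * S.l1 ^ (r + 2) :=
    mul_nonneg (by rw [pow_mul]; positivity) (by positivity)
  have e1 : ∀ᶠ p : ℕ in Filter.atTop, 2 * (k + 1) ≤ p := Filter.eventually_ge_atTop _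
  have e2 : ∀ᶠ p : ℕ in Filter.atTop, 1 / (c1 * (c1 * c5) ^ d) < S.l1 ^ p :=
    (tendsto_pow_atTop_atTop_of_one_lt S.one_lt).eventually_gt_atTop _
  have e3 : ∀ᶠ p : ℕ in Filter.atTop, |S.ls| ^ p < c1 * c5 :=
    (tendsto_pow_atTop_nhds_zero_of_lt_one (abs_nonneg _) S.ls_lt).eventually
      (gt_mem_nhds hκ)
  have e4 : ∀ᶠ p : ℕ in Filter.atTop, (S.ls ^ (2 * d) * S.l1 ^ (r + 2)) ^ p < c5 ^ (r + 2) :=
    (tendsto_pow_atTop_nhds_zero_of_lt_one hq0 h).eventually (gt_mem_nhds (by positivity))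
  obtain ⟨p, h1, h2, h3, h4⟩ := (e1.and (e2.and (e3.and e4))).exists
  have hl : 0 < S.l1 ^ p := pow_pos hl1 p
  set N : ℕ := ∑ b, ∑ a, (S.A0 ^ p) a b with hN
  have hN0 : ∑ a, (S.A0 ^ p) a 0 ≤ N :=
    Finset.single_le_sum (f := fun b => ∑ a, (S.A0 ^ p) a b) (fun _ _ => Nat.zero_le _)
      (Finset.mem_univ 0)
  have hNlo : c1 * S.l1 ^ p ≤ (N : ℝ) := (hcol p 0).1.trans (by exact_mod_cast hN0)
  have hN1 : 1 ≤ N := by
    have : (0 : ℝ) < N := lt_of_lt_of_le (mul_pos hc1 hl) hNlo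
    exact_mod_cast this
  have hNhi : (N : ℝ) ≤ (k + 1) * c2 * S.l1 ^ p := by
    rw [hN, Nat.cast_sum]
    calc _ ≤ ∑ _b : Fin (k + 1), c2 * S.l1 ^ p := Finset.sum_le_sum fun b _ => (hcol p b).2
      _ = _ := by
        rw [Finset.sum_const, Finset.card_univ, Fintype.card_fin, nsmul_eq_mul]
        push_cast
        ring
  obtain ⟨m, hm1, hm2⟩ := Alg2_root hN1 (d := d) (by omega)
  have hm1' : (N : ℝ) ≤ (m : ℝ) ^ d := by exact_mod_cast hm1
  have hm2' : ((m : ℝ) + 1) ^ d ≤ 3 ^ d * N := by exact_mod_cast hm2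
  have hm0 : (0 : ℝ) ≤ m := Nat.cast_nonneg m
  set ρ : ℝ := 1 / (C0 * (m + 1)) with hρ
  have hρ0 : 0 < ρ := by positivity
  have hρd : ρ ^ d = 1 / (C0 ^ d * ((m : ℝ) + 1) ^ d) := by
    rw [hρ, one_div_pow, mul_pow]
  have hlo : c5 / S.l1 ^ p ≤ ρ ^ d := by
    rw [hρd, hc5def, div_div]
    apply one_div_le_one_div_of_le (by positivity)
    calc C0 ^ d * ((m : ℝ) + 1) ^ d ≤ C0 ^ d * (3 ^ d * ((k + 1) * c2 * S.l1 ^ p)) := by
          gcongr
          exact hm2'.trans (by gcongr)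
      _ = _ := by ring
  have hhi : ρ ^ d ≤ 1 / (c1 * S.l1 ^ p) := by
    rw [hρd]
    apply one_div_le_one_div_of_le (by positivity)
    calc c1 * S.l1 ^ p ≤ (m : ℝ) ^ d := hNlo.trans hm1'
      _ ≤ 1 * ((m : ℝ) + 1) ^ d := by
          rw [one_mul]
          gcongr
          linarith
      _ ≤ _ := by
          gcongr
          exact one_le_pow₀ hC
  have hκle : c1 * c5 ≤ ρ ^ d * (c1 * S.l1 ^ p) := by
    calc c1 * c5 = c5 / S.l1 ^ p * (c1 * S.l1 ^ p) := by field_simp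
      _ ≤ _ := by gcongr
  have hρκ : ρ < c1 * c5 := by
    apply lt_of_pow_lt_pow_left₀ d hκ.le
    refine hhi.trans_lt ?_
    rw [div_lt_iff₀ (by positivity)] at h2 ⊢
    linarith
  refine ⟨{
    A := S.A0 ^ p
    m := m
    ρ := ρ
    L := c1 * S.l1 ^ p
    lam := S.ls ^ p
    Λ := S.l1 ^ p
    ct := S.ct
    f := S.f
    two_le := S.two_le p h1
    total := hm1
    ρ_pos := hρ0
    ρ_le := ?_
    L_le := fun b => (hcol p b).1
    left := Alg2_left S.A0 S.ct S.ls S.ct_left p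
    ct_ne := S.ct_ne
    hX := ?_
    hV1 := ?_
    hV2 := ?_
    f_pos := S.f_pos
    f_sum := S.f_sum
    right := Alg2_right S.A0 S.f S.l1 S.f_right p
    orth := Alg2_orth S
    f_ind := S.f_ind }, p, rfl, rfl, rfl⟩
  · rw [hρ, one_div_mul_cancel (by positivity)]
  · have e : ρ ^ d = ρ * ρ ^ (d - 1) := by
      rw [← pow_succ']
      congr 1
      omega
    rw [e] at hκle
    apply lt_of_mul_lt_mul_left _ hρ0.le
    linarith
  · rw [abs_pow]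
    refine h3.trans_le (hκle.trans (mul_le_mul_of_nonneg_right
      (pow_le_pow_of_le_one hρ0.le ?_ hr) (by positivity)))
    rw [hρ, div_le_one (by positivity)]
    nlinarith
  · apply lt_of_pow_lt_pow_left₀ d (by positivity)
    have e5 : (ρ ^ (r + 2)) ^ d = (ρ ^ d) ^ (r + 2) := by
      rw [← pow_mul, ← pow_mul, mul_comm]
    have e6 : ((S.ls ^ p) ^ 2) ^ d * (S.l1 ^ p) ^ (r + 2) =
        (S.ls ^ (2 * d) * S.l1 ^ (r + 2)) ^ p := by
      rw [mul_pow, ← pow_mul, ← pow_mul, ← pow_mul, ← pow_mul, ← pow_mul]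
      congr 2 <;> ring
    rw [e5]
    calc ((S.ls ^ p) ^ 2) ^ d < (c5 / S.l1 ^ p) ^ (r + 2) := by
          rw [div_pow, lt_div_iff₀ (by positivity), e6]
          exact h4
      _ ≤ _ := by gcongr

end Pool.Agent.Lib.MP_ce3247_an
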