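import Pool.Agent.Lib.MP_ce3247_an.Alg2

/-! Companion matrices with many small real eigenvalues. -/

open Finset

namespace Pool.Agent.Lib.MP_ce3247_an

section gen

variable (co : ℕ → ℕ)

/-- The companion matrix. -/
private def AlgM_A (k : ℕ) : Matrix (Fin (k + 1)) (Fin (k + 1)) ℕ := fun i b =>
  if (b : ℕ) < k then (if (i : ℕ) = b + 1 then 1 else 0) else co i

/-- The right eigenvector before normalisation. -/
private noncomputable def AlgM_g (l : ℝ) (j : ℕ) : ℝ :=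
  (∑ i ∈ range (j + 1), (co i : ℝ) * l ^ i) / l ^ (j + 1)

variable {co}

private lemma AlgM_left {k : ℕ} {r : ℝ}
    (hr : r ^ (k + 1) = ∑ i ∈ range (k + 1), (co i : ℝ) * r ^ i)
    (b : Fin (k + 1)) : ∑ a : Fin (k + 1), r ^ (a : ℕ) * (AlgM_A co k a b : ℝ) = r * r ^ (b : ℕ) := by
  by_cases hb : (b : ℕ) < k
  · rw [Finset.sum_eq_single (⟨b + 1, by omega⟩ : Fin (k + 1))]
    · simp [AlgM_A, hb, pow_succ']
    · intro a _ ha
      have : (a : ℕ) ≠ b + 1 := fun h => ha (Fin.ext h)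
      simp [AlgM_A, hb, this]
    · simp
  · have hb' : (b : ℕ) = k := by omega
    simp only [AlgM_A, if_neg hb]
    rw [Fin.sum_univ_eq_sum_range (fun a => r ^ a * (co a : ℝ)) (k + 1), hb', ← pow_succ', hr]
    exact sum_congr rfl fun _ _ => mul_comm _ _

private lemma AlgM_row {k : ℕ} (g : ℕ → ℝ) (a : Fin (k + 1)) :
    ∑ b : Fin (k + 1), (AlgM_A co k a b : ℝ) * g b =
      (if (a : ℕ) = 0 then 0 else g (a - 1)) + co a * g k := by
  rw [Fin.sum_univ_castSucc]
  congr 1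
  · split_ifs with h
    · refine sum_eq_zero fun b _ => ?_
      simp [AlgM_A, h]
    · rw [Finset.sum_eq_single (⟨a - 1, by omega⟩ : Fin k)]
      · have h1 : (a : ℕ) - 1 < k := by omega
        have h2 : (a : ℕ) = a - 1 + 1 := by omega
        simp only [AlgM_A, Fin.val_castSucc, if_pos h1, if_pos h2, Nat.cast_one, one_mul]
      · intro b _ hb
        have : (a : ℕ) ≠ b + 1 := fun h' => hb (Fin.ext (by simp only; omega))
        simp [AlgM_A, this]
      · simp
  · simp [AlgM_A]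

private lemma AlgM_g_pos (h0 : 2 ≤ co 0) {l : ℝ} (hl : 0 < l) (j : ℕ) : 0 < AlgM_g co l j := by
  refine div_pos (sum_pos' (fun i _ => by positivity) ⟨0, by simp, ?_⟩) (by positivity)
  have : 0 < co 0 := by omega
  positivity

private lemma AlgM_right {k : ℕ} {l : ℝ} (hl : 0 < l)
    (hr : l ^ (k + 1) = ∑ i ∈ range (k + 1), (co i : ℝ) * l ^ i) (a : Fin (k + 1)) :
    ∑ b : Fin (k + 1), (AlgM_A co k a b : ℝ) * AlgM_g co l b = l * AlgM_g co l a := by
  have h1 : AlgM_g co l k = 1 := by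
    rw [AlgM_g, ← hr, div_self (by positivity)]
  rw [AlgM_row, h1, mul_one]
  obtain ⟨j, hj⟩ := a
  rcases j with _ | j
  · simp [AlgM_g]
    field_simp
  · simp only [Nat.succ_ne_zero, if_false, Nat.add_sub_cancel, AlgM_g]
    rw [sum_range_succ _ (j + 1)]
    field_simp
    ring

private lemma AlgM_last {k : ℕ} (c0 : 2 ≤ co 0) (ck : 2 ≤ co k) (n : ℕ) :
    ∀ a : Fin (k + 1), ((a : ℕ) ≤ n ∨ (a : ℕ) = k) →
    2 ≤ (AlgM_A co k ^ (n + 1)) a (Fin.last k) := by
  have h0 : ∀ a : Fin (k + 1), ((a : ℕ) = 0 ∨ (a : ℕ) = k) → 2 ≤ AlgM_A co k a (Fin.last k) := by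
    intro a ha
    simp only [AlgM_A, Fin.val_last, lt_irrefl, if_false]
    rcases ha with h | h
    · rwa [h]
    · rwa [h]
  induction n with
  | zero => intro a ha; rw [zero_add, pow_one]; exact h0 a (by omega)
  | succ n ih =>
    intro a ha
    rw [pow_succ', Matrix.mul_apply]
    by_cases h : (a : ℕ) = 0 ∨ (a : ℕ) = k
    · refine le_trans ?_ (single_le_sum (fun _ _ => Nat.zero_le _) (mem_univ (Fin.last k)))
      have h1 := h0 a h
      have h2 := ih (Fin.last k) (Or.inr rfl)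
      nlinarith
    · have hlt := a.2
      refine le_trans ?_ (single_le_sum (fun _ _ => Nat.zero_le _)
        (mem_univ (⟨a - 1, by omega⟩ : Fin (k + 1))))
      have h1 : (a : ℕ) - 1 < k := by omega
      have h2 : (a : ℕ) = a - 1 + 1 := by omega
      have h3 := ih ⟨a - 1, by omega⟩ (Or.inl (by simp only; omega))
      simp only [AlgM_A, if_pos h1, if_pos h2, one_mul] at h3 ⊢
      exact h3

private lemma AlgM_two {k : ℕ} (c0 : 2 ≤ co 0) (ck : 2 ≤ co k) (m : ℕ) :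
    ∀ b : Fin (k + 1), (b : ℕ) + m = k → ∀ n, k + m ≤ n →
    ∀ a, 2 ≤ (AlgM_A co k ^ (n + 1)) a b := by
  induction m with
  | zero =>
    intro b hb n hn a
    have : b = Fin.last k := Fin.ext (by simpa using hb)
    have ha := a.2
    exact this ▸ AlgM_last c0 ck n a (Or.inl (by omega))
  | succ m ih =>
    intro b hb n hn a
    obtain ⟨n, rfl⟩ : ∃ n', n = n' + 1 := ⟨n - 1, by omega⟩
    rw [pow_succ, Matrix.mul_apply]
    refine le_trans ?_ (single_le_sum (fun _ _ => Nat.zero_le _)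
      (mem_univ (⟨b + 1, by omega⟩ : Fin (k + 1))))
    have h1 : (b : ℕ) < k := by omega
    have h3 := ih ⟨b + 1, by omega⟩ (by simp only; omega) n (by omega) a
    have h4 : AlgM_A co k ⟨b + 1, by omega⟩ b = 1 := by simp [AlgM_A, h1]
    rw [h4, mul_one]
    exact h3

private lemma AlgM_ind {k : ℕ} {A : Matrix (Fin (k + 1)) (Fin (k + 1)) ℕ} {l : ℝ}
    (hl : (minpoly ℚ l).natDegree = k + 1) {f : Fin (k + 1) → ℝ} (h0 : f 0 ≠ 0)
    (hf : ∀ a, ∑ b, (A a b : ℝ) * f b = l * f a) : LinearIndependent ℚ f := by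
  set V := Submodule.span ℚ (Set.range f) with hV
  have h1 : ∀ x ∈ V, l * x ∈ V := fun x hx => by
    induction hx using Submodule.span_induction with
    | mem x hx =>
      obtain ⟨a, rfl⟩ := hx
      rw [← hf]
      refine Submodule.sum_mem _ fun b _ => ?_
      rw [← nsmul_eq_mul]
      exact nsmul_mem (Submodule.subset_span (Set.mem_range_self b)) _
    | zero => simp
    | add x y _ _ hx hy => rw [mul_add]; exact V.add_mem hx hy
    | smul c x _ hx => rw [mul_smul_comm]; exact V.smul_mem c hx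
  have h2 : ∀ n : ℕ, l ^ n * f 0 ∈ V := fun n => by
    induction n with
    | zero => rw [pow_zero, one_mul]; exact Submodule.subset_span ⟨0, rfl⟩
    | succ n ih => rw [pow_succ', mul_assoc]; exact h1 _ ih
  have h3 : LinearIndependent ℚ fun i : Fin (minpoly ℚ l).natDegree => l ^ (i : ℕ) * f 0 :=
    (linearIndependent_pow (K := ℚ) l).map' (LinearMap.mulRight ℚ (f 0))
      (LinearMap.ker_eq_bot.2 fun x y h => mul_right_cancel₀ h0 h)
  have h4 : LinearIndependent ℚ fun i : Fin (minpoly ℚ l).natDegree =>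
      (⟨l ^ (i : ℕ) * f 0, h2 i⟩ : V) := LinearIndependent.of_comp V.subtype h3
  have : Module.Finite ℚ V := Module.Finite.span_of_finite ℚ (Set.finite_range f)
  have h5 := h4.fintype_card_le_finrank
  rw [linearIndependent_iff_card_le_finrank_span]
  simpa [hl, Set.finrank] using h5

end gen

open Polynomial in
/-- The polynomial with the roots `-1 / (j N)`. -/
private noncomputable def AlgM_q (s N : ℕ) : ℕ[X] := ∏ j ∈ range s, (1 + C ((j + 1) * N) * X)

/-- The coefficients of `2 q + 2 x^k`. -/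
private noncomputable def AlgM_co (k s N i : ℕ) : ℕ :=
  2 * ((AlgM_q s N).coeff i + if i = k then 1 else 0)

open Polynomial in
private lemma AlgM_q_deg (s N : ℕ) : (AlgM_q s N).natDegree ≤ s := by
  refine (natDegree_prod_le _ _).trans ?_
  refine (sum_le_card_nsmul _ _ 1 fun j _ => ?_).trans (by simp)
  exact (natDegree_add_le _ _).trans (max_le (by simp) ((natDegree_C_mul_le _ _).trans (by simp)))

open Polynomial in
private lemma AlgM_q_zero (s N : ℕ) : (AlgM_q s N).coeff 0 = 1 := by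
  rw [coeff_zero_eq_eval_zero, AlgM_q, eval_prod]
  simp

open Polynomial in
private lemma AlgM_sum {k s : ℕ} (hs : s ≤ k) (N : ℕ) (r : ℝ) :
    ∑ i ∈ range (k + 1), (AlgM_co k s N i : ℝ) * r ^ i =
      2 * ∏ j ∈ range s, (1 + (j + 1) * N * r) + 2 * r ^ k := by
  have h1 : aeval r (AlgM_q s N) = ∏ j ∈ range s, (1 + (j + 1) * N * r) := by
    simp [AlgM_q, map_prod]
  rw [← h1, aeval_eq_sum_range' (Nat.lt_succ_of_le ((AlgM_q_deg s N).trans hs)), mul_sum]
  simp only [AlgM_co, Nat.cast_mul, Nat.cast_add, Nat.cast_ite, mul_add, add_mul, mul_ite, ite_mul,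
    sum_add_distrib, Nat.cast_zero, mul_zero, zero_mul, sum_ite_eq', mem_range, nsmul_eq_mul,
    Nat.lt_succ_self, if_true, mul_one, Nat.cast_ofNat, mul_assoc]

open Polynomial in
private lemma AlgM_deg {k s : ℕ} (hk : 1 ≤ k) (hs : s ≤ k) (N : ℕ) {l : ℝ}
    (hr : l ^ (k + 1) = 2 * ∏ j ∈ range s, (1 + (j + 1) * N * l) + 2 * l ^ k) :
    (minpoly ℚ l).natDegree = k + 1 := by
  let q : ℤ[X] := C 2 * ((AlgM_q s N).map (Nat.castRingHom ℤ) + X ^ k)
  let p : ℤ[X] := X ^ (k + 1) - q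
  have hq : q.degree < (k + 1 : ℕ) := by
    have : q.natDegree ≤ k := (natDegree_C_mul_le _ _).trans ((natDegree_add_le _ _).trans
      (max_le (natDegree_map_le.trans ((AlgM_q_deg s N).trans hs)) (by simp)))
    exact lt_of_le_of_lt (degree_le_of_natDegree_le this) (by exact_mod_cast Nat.lt_succ_self k)
  have hm : p.Monic := monic_X_pow_sub hq
  have hd : p.natDegree = k + 1 := by
    apply natDegree_eq_of_degree_eq_some
    rw [degree_sub_eq_left_of_degree_lt (by rwa [degree_X_pow]), degree_X_pow]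
  have hP : (Ideal.span {(2 : ℤ)}).IsPrime := (Ideal.span_singleton_prime two_ne_zero).2 Int.prime_two
  have hE : p.IsEisensteinAt (Ideal.span {(2 : ℤ)}) := by
    refine hm.isEisensteinAt_of_mem_of_notMem hP.ne_top (fun {n} hn => ?_) ?_
    · rw [hd] at hn
      rw [Ideal.mem_span_singleton, coeff_sub, coeff_X_pow, if_neg hn.ne, zero_sub, coeff_C_mul]
      exact (dvd_mul_right _ _).neg_right
    · have hk' : (0 : ℕ) ≠ k := by omega
      rw [Ideal.span_singleton_pow, Ideal.mem_span_singleton]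
      simp [p, q, coeff_X_pow, hk', AlgM_q_zero]
  have hI := (IsPrimitive.Int.irreducible_iff_irreducible_map_cast hm.isPrimitive).1
    (hE.irreducible hP hm.isPrimitive (by omega))
  have h0 : aeval l (p.map (Int.castRingHom ℚ)) = 0 := by
    simp [p, q, hr, map_ofNat, AlgM_q, Polynomial.map_prod, map_prod]
    ring
  rw [← minpoly.eq_of_irreducible_of_monic hI h0 (hm.map _), hm.natDegree_map, hd]

private lemma AlgM_root {φ : ℝ → ℝ} (hc : Continuous φ) {u v : ℝ} (huv : u ≤ v)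
    (h : φ u * φ v < 0) : ∃ r, u < r ∧ r < v ∧ φ r = 0 := by
  rcases mul_neg_iff.1 h with h | h
  · obtain ⟨r, hr, h0⟩ := intermediate_value_Ioo' huv hc.continuousOn
      (show (0 : ℝ) ∈ Set.Ioo _ _ from ⟨h.2, h.1⟩)
    exact ⟨r, hr.1, hr.2, h0⟩
  · obtain ⟨r, hr, h0⟩ := intermediate_value_Ioo huv hc.continuousOn
      (show (0 : ℝ) ∈ Set.Ioo _ _ from ⟨h.1, h.2⟩)
    exact ⟨r, hr.1, hr.2, h0⟩

/-- The values of `q` between its roots. -/
private noncomputable def AlgM_Q (s i : ℕ) : ℝ :=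
  ∏ j ∈ range s, (1 - ((j : ℝ) + 1) / (i + 1 / 2))

private lemma AlgM_Q_alt {s i : ℕ} (hi : i < s) : AlgM_Q s i * AlgM_Q s (i + 1) < 0 := by
  have h0 : (0 : ℝ) ≤ i := Nat.cast_nonneg i
  rw [AlgM_Q, AlgM_Q, ← prod_mul_distrib, ← mul_prod_erase _ _ (mem_range.2 hi)]
  push_cast
  refine mul_neg_of_neg_of_pos (mul_neg_of_neg_of_pos ?_ ?_) (prod_pos fun j hj => ?_)
  · rw [sub_neg, one_lt_div (by linarith)]
    linarith
  · rw [sub_pos, div_lt_one (by linarith)]
    linarith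
  · rcases lt_or_gt_of_ne (ne_of_mem_erase hj) with h | h
    · have h1 : (j : ℝ) + 1 ≤ i := by exact_mod_cast h
      refine mul_pos ?_ ?_ <;> rw [sub_pos, div_lt_one (by linarith)] <;> linarith
    · have h1 : (i : ℝ) + 1 ≤ j := by exact_mod_cast h
      refine mul_pos_of_neg_of_neg ?_ ?_ <;> rw [sub_neg, one_lt_div (by linarith)] <;> linarith

private lemma AlgM_small {k s N : ℕ} (hk : 1 ≤ k) (hN : 2 ≤ N)
    (h : ∀ i ≤ s, 3 / (N : ℝ) < |AlgM_Q s i|) {i : ℕ} (hi : i < s) :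
    ∃ r : ℝ, -(1 / ((i + 1 / 2) * N)) < r ∧ r < -(1 / (((i + 1 : ℕ) + 1 / 2) * N)) ∧
      r ^ (k + 1) = 2 * ∏ j ∈ range s, (1 + (j + 1) * N * r) + 2 * r ^ k := by
  have hN' : (2 : ℝ) ≤ N := by exact_mod_cast hN
  set φ : ℝ → ℝ := fun r => r ^ (k + 1) - (2 * ∏ j ∈ range s, (1 + (j + 1) * N * r) + 2 * r ^ k)
  have key : ∀ i ≤ s, φ (-(1 / ((i + 1 / 2) * N))) * AlgM_Q s i < 0 := by
    intro i hi
    have h0 : (0 : ℝ) ≤ i := Nat.cast_nonneg i
    set t : ℝ := -(1 / ((i + 1 / 2) * N)) with ht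
    have h1 : |t| ≤ 2 / N := by
      rw [ht, abs_neg, abs_of_pos (by positivity), div_le_div_iff₀ (by positivity) (by positivity)]
      nlinarith
    have h2 : |t| ≤ 1 := h1.trans (by rw [div_le_one (by linarith)]; exact hN')
    have h3 : ∀ n : ℕ, n ≠ 0 → |t ^ n| ≤ 2 / N := fun n hn => by
      rw [abs_pow]
      exact (pow_le_of_le_one (abs_nonneg _) h2 hn).trans h1
    have h4 : ∏ j ∈ range s, (1 + (j + 1) * N * t) = AlgM_Q s i :=
      prod_congr rfl fun j _ => by rw [ht]; field_simp; ring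
    have h5 := abs_le.1 (h3 k (by omega))
    have h6 := abs_le.1 (h3 (k + 1) (by omega))
    have h7 := h i hi
    have e : (3 : ℝ) / N = 3 / 2 * (2 / N) := by ring
    simp only [φ, h4]
    rcases le_or_gt 0 (AlgM_Q s i) with h8 | h8
    · rw [abs_of_nonneg h8] at h7
      have : (0 : ℝ) < 3 / N := by positivity
      exact mul_neg_of_neg_of_pos (by linarith [h5.1, h6.2]) (by linarith)
    · rw [abs_of_neg h8] at h7
      exact mul_neg_of_pos_of_neg (by linarith [h5.2, h6.1]) h8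
  have h1 := key i hi.le
  have h2 := key (i + 1) hi
  have h3 := AlgM_Q_alt hi
  have h0 : (0 : ℝ) ≤ i := Nat.cast_nonneg i
  obtain ⟨r, a1, a2, a3⟩ := AlgM_root (φ := φ) (by fun_prop)
    (u := -(1 / ((i + 1 / 2) * N))) (v := -(1 / (((i + 1 : ℕ) + 1 / 2) * N)))
    (neg_le_neg (one_div_le_one_div_of_le (by positivity) (by push_cast; nlinarith))) (by
      by_contra hc
      nlinarith [mul_pos_of_neg_of_neg h1 h2, mul_nonneg (not_lt.1 hc) (neg_pos.2 h3).le])
  exact ⟨r, a1, a2, sub_eq_zero.1 a3⟩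

private lemma AlgM_prod {s N : ℕ} (hN : 1 ≤ N) {l : ℝ} (hl : 1 ≤ l) :
    0 ≤ ∏ j ∈ range s, (1 + ((j : ℝ) + 1) * N * l) ∧
      ∏ j ∈ range s, (1 + ((j : ℝ) + 1) * N * l) ≤ ((s + 1) * N) ^ s * l ^ s := by
  have hN' : (1 : ℝ) ≤ N := by exact_mod_cast hN
  refine ⟨prod_nonneg fun j _ => by positivity, ?_⟩
  rw [← mul_pow]
  refine (prod_le_prod (g := fun _ => ((s : ℝ) + 1) * N * l) (fun j _ => by positivity)
    fun j hj => ?_).trans (by simp)
  have h1 : (j : ℝ) + 1 ≤ s := by exact_mod_cast mem_range.1 hj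
  have h2 : 1 ≤ (N : ℝ) * l := one_le_mul_of_one_le_of_one_le hN' hl
  nlinarith

private lemma AlgM_big {k s N : ℕ} (hs : s ≤ k) (hN : 1 ≤ N) :
    ∃ l : ℝ, 1 < l ∧ l ^ (k + 1 - s) ≤ 4 ^ (k + 1) * ((s + 1) * N) ^ s ∧
      l ^ (k + 1) = 2 * ∏ j ∈ range s, (1 + (j + 1) * N * l) + 2 * l ^ k := by
  have hN' : (1 : ℝ) ≤ N := by exact_mod_cast hN
  set B : ℝ := ((s + 1) * N) ^ s with hB
  have hB1 : 1 ≤ B := one_le_pow₀ (one_le_mul_of_one_le_of_one_le
    (by linarith [Nat.cast_nonneg (α := ℝ) s]) hN')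
  obtain ⟨l, a1, -, a3⟩ := AlgM_root (φ := fun r : ℝ =>
      r ^ (k + 1) - (2 * ∏ j ∈ range s, (1 + (j + 1) * N * r) + 2 * r ^ k)) (by fun_prop)
    (u := 1) (v := 3 + 2 * B) (by linarith) (mul_neg_of_neg_of_pos (by
      have := (AlgM_prod (s := s) hN (le_refl (1 : ℝ))).1
      rw [one_pow, one_pow]
      linarith) (by
      have h1 : (1 : ℝ) ≤ 3 + 2 * B := by linarith
      have h2 := (AlgM_prod (s := s) hN h1).2
      have h3 := pow_le_pow_right₀ h1 hs
      have h4 : 0 < (3 + 2 * B) ^ k := by positivity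
      rw [pow_succ]
      nlinarith))
  have a4 := sub_eq_zero.1 a3
  refine ⟨l, a1, ?_, a4⟩
  have h4 : (1 : ℝ) ≤ 4 ^ k := one_le_pow₀ (by norm_num)
  rcases le_or_gt l 4 with h | h
  · calc l ^ (k + 1 - s) ≤ 4 ^ (k + 1 - s) := pow_le_pow_left₀ (by linarith) h _
      _ ≤ 4 ^ (k + 1) := pow_le_pow_right₀ (by norm_num) (by omega)
      _ ≤ _ := le_mul_of_one_le_right (by positivity) hB1
  · have h2 := (AlgM_prod (s := s) hN a1.le).2
    have h3 : 0 < l ^ s := by positivity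
    have h5 : 0 < l ^ k := by positivity
    have h6 : l ^ (k + 1) ≤ 4 * B * l ^ s := by
      have := pow_succ l k
      nlinarith
    have h7 : l ^ (k + 1) = l ^ (k + 1 - s) * l ^ s := by
      rw [← pow_add, Nat.sub_add_cancel (by omega)]
    rw [h7] at h6
    refine (le_of_mul_le_mul_right h6 h3).trans ?_
    rw [pow_succ]
    nlinarith

open Filter Topology in
theorem exists_algM {k s a b : ℕ} (hs : 1 ≤ s) (hsk : s ≤ k) (h : s * b < (k + 1 - s) * a) :
    ∃ (S : Alg0 k) (x : Fin s → ℝ), Function.Injective x ∧ (∀ i, x i < 0) ∧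
      (∀ i, |x i| ≤ |S.ls|) ∧ |S.ls| ^ a * S.l1 ^ b < 1 ∧
      ∀ i c, ∑ e : Fin (k + 1), x i ^ (e : ℕ) * (S.A0 e c : ℝ) = x i * x i ^ (c : ℕ) := by
  have hk : 1 ≤ k := hs.trans hsk
  have hQ : ∀ i, i ≤ s → 0 < |AlgM_Q s i| := fun i hi => abs_pos.2 fun h0 => by
    rcases Nat.lt_or_ge i s with h1 | h1
    · simpa [h0] using AlgM_Q_alt h1
    · obtain ⟨i, rfl⟩ : ∃ j, i = j + 1 := ⟨i - 1, by omega⟩
      simpa [h0] using AlgM_Q_alt (show i < s by omega)
  set κ : ℝ := 2 ^ ((k + 1 - s) * a) * (4 ^ (k + 1) * (s + 1) ^ s) ^ b with hκ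
  have e1 : ∀ᶠ N : ℕ in atTop, ∀ i ∈ range (s + 1), 3 / (N : ℝ) < |AlgM_Q s i| :=
    (eventually_all_finset _).2 fun i hi => (tendsto_const_div_atTop_nhds_zero_nat 3).eventually
      (gt_mem_nhds (hQ i (Nat.le_of_lt_succ (mem_range.1 hi))))
  obtain ⟨N, h1, h2, h3⟩ := (e1.and ((eventually_ge_atTop 3).and
    (tendsto_natCast_atTop_atTop.eventually_gt_atTop κ))).exists
  have hN : (3 : ℝ) ≤ N := by exact_mod_cast h2
  obtain ⟨l, hl1, hlU, hl⟩ := AlgM_big hsk (show 1 ≤ N by omega)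
  choose x x1 x2 x3 using fun i : Fin s => AlgM_small hk (show 2 ≤ N by omega)
    (fun i hi => h1 i (mem_range.2 (Nat.lt_succ_of_le hi))) i.2
  have x4 : ∀ i, x i < 0 := fun i => (x2 i).trans (neg_lt_zero.2 (by positivity))
  have x5 : StrictMono x := fun i j hij => by
    have h4 : ((i : ℕ) + 1 : ℕ) ≤ ((j : ℕ) : ℝ) := by exact_mod_cast hij
    refine ((x2 i).trans_le (neg_le_neg (one_div_le_one_div_of_le (by positivity) ?_))).trans (x1 j)
    gcongr
  have x6 : |x ⟨0, hs⟩| ≤ 2 / N := by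
    have h4 := x1 ⟨0, hs⟩
    rw [abs_of_neg (x4 _)]
    have e : (1 : ℝ) / ((((0 : ℕ) : ℝ) + 1 / 2) * N) = 2 / N := by
      push_cast
      field_simp
      ring
    rw [e] at h4
    linarith
  have hl0 : 0 < l := by linarith
  have c0 : 2 ≤ AlgM_co k s N 0 := by
    rw [AlgM_co, AlgM_q_zero]
    omega
  have ck : 2 ≤ AlgM_co k s N k := by
    rw [AlgM_co, if_pos rfl]
    omega
  have hl' := hl.trans (AlgM_sum hsk N l).symm
  have x7 := fun i => AlgM_left ((x3 i).trans (AlgM_sum hsk N (x i)).symm)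
  set Z := ∑ a : Fin (k + 1), AlgM_g (AlgM_co k s N) l a with hZ
  have hZ0 : 0 < Z := sum_pos (fun a _ => AlgM_g_pos c0 hl0 a) univ_nonempty
  have hright : ∀ a : Fin (k + 1), ∑ b : Fin (k + 1), (AlgM_A (AlgM_co k s N) k a b : ℝ) *
      (AlgM_g (AlgM_co k s N) l b / Z) = l * (AlgM_g (AlgM_co k s N) l a / Z) := fun a => by
    simp only [← mul_div_assoc]
    rw [← sum_div, AlgM_right hl0 hl']
  refine ⟨{ A0 := AlgM_A (AlgM_co k s N) k
            l1 := l
            ls := x ⟨0, hs⟩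
            y := fun a => l ^ (a : ℕ)
            ct := fun a => x ⟨0, hs⟩ ^ (a : ℕ)
            f := fun a => AlgM_g (AlgM_co k s N) l a / Z
            two_le := fun p hp a b => ?_
            one_lt := hl1
            ls_lt := x6.trans_lt (by rw [div_lt_one (by linarith)]; linarith)
            y_pos := fun a => by positivity
            y_left := AlgM_left hl'
            ct_left := x7 _
            ct_ne := ⟨⟨1, by omega⟩, by simpa using (x4 _).ne.imp fun h => by linarith [x4 ⟨0, hs⟩]⟩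
            f_pos := fun a => div_pos (AlgM_g_pos c0 hl0 a) hZ0
            f_sum := by rw [← sum_div, div_self hZ0.ne']
            f_right := hright
            f_ind := AlgM_ind (AlgM_deg hk hsk N hl) (div_pos (AlgM_g_pos c0 hl0 _) hZ0).ne'
              hright }, x, x5.injective, x4, fun i => ?_, ?_, x7⟩
  · obtain ⟨n, rfl⟩ : ∃ n, p = n + 1 := ⟨p - 1, by omega⟩
    have hb := b.2
    exact AlgM_two c0 ck (k - b) b (by omega) n (by omega) a
  · change |x i| ≤ |x ⟨0, hs⟩|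
    rw [abs_of_neg (x4 _), abs_of_neg (x4 _)]
    exact neg_le_neg (x5.monotone (Nat.zero_le _))
  · change |x ⟨0, hs⟩| ^ a * l ^ b < 1
    refine lt_of_pow_lt_pow_left₀ (k + 1 - s) zero_le_one ?_
    have h4 : (N : ℝ) ^ (s * b) * N ≤ N ^ ((k + 1 - s) * a) := by
      rw [← pow_succ]
      exact pow_le_pow_right₀ (by linarith) h
    calc (|x ⟨0, hs⟩| ^ a * l ^ b) ^ (k + 1 - s)
        = |x ⟨0, hs⟩| ^ ((k + 1 - s) * a) * (l ^ (k + 1 - s)) ^ b := by ring
      _ ≤ (2 / N) ^ ((k + 1 - s) * a) * (4 ^ (k + 1) * ((s + 1) * N) ^ s) ^ b := by gcongr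
      _ = κ * N ^ (s * b) / N ^ ((k + 1 - s) * a) := by
          rw [hκ, div_pow, mul_pow ((s : ℝ) + 1), ← mul_assoc, mul_pow _ ((N : ℝ) ^ s), ← pow_mul]
          ring
      _ < 1 ^ (k + 1 - s) := by
          rw [one_pow, div_lt_one (by positivity)]
          refine lt_of_lt_of_le ?_ h4
          rw [mul_comm]
          gcongr

theorem AlgM_orth {k : ℕ} (S : Alg0 k) {x : ℝ} (hx : x < 0)
    (h : ∀ c, ∑ e : Fin (k + 1), x ^ (e : ℕ) * (S.A0 e c : ℝ) = x * x ^ (c : ℕ)) :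
    ∑ a : Fin (k + 1), x ^ (a : ℕ) * S.f a = 0 := by
  have h1 : ∑ a : Fin (k + 1), ∑ b, x ^ (a : ℕ) * (S.A0 a b : ℝ) * S.f b =
      S.l1 * ∑ a : Fin (k + 1), x ^ (a : ℕ) * S.f a := by
    simp only [mul_assoc, ← Finset.mul_sum, S.f_right]
    rw [Finset.mul_sum]
    exact Finset.sum_congr rfl fun a _ => by ring
  rw [Finset.sum_comm] at h1
  simp only [← Finset.sum_mul, h] at h1
  simp only [mul_assoc, ← Finset.mul_sum] at h1
  exact (mul_eq_zero.1 (by linear_combination h1 : (x - S.l1) * _ = 0)).resolve_left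
    (by linarith [S.one_lt])

end Pool.Agent.Lib.MP_ce3247_an
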