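import Pool.Agent.Lib.MP_ce3247_an.Data

/-! The curves of level zero, the staircase and the cutoff around finitely many strands. -/

open Finset
open scoped ContDiff

namespace Pool.Agent.Lib.MP_ce3247_an

structure Bases (d k : ℕ) (i0 i1 : Fin d) (e : Fin (k + 1) → Fin d → ℤ) (σ0 : ℝ) where
  G0 : Fin (k + 1) → ℝ → E d
  G0_smooth : ∀ a, ContDiff ℝ ∞ (G0 a)
  G0_init : ∀ a τ, τ ≤ 1 / 16 → G0 a τ = 0
  G0_fin : ∀ a τ, 15 / 16 ≤ τ → G0 a τ = ic (e a)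
  G0_range : ∀ a τ (j : Fin d), k ≤ j.val → 0 ≤ G0 a τ j ∧ G0 a τ j ≤ 1 / 2
  G0_sep : ∀ a a' (z z' : Fin d → ℤ) τ, (a, z) ≠ (a', z') →
    σ0 ≤ ‖(ic z + G0 a τ) - (ic z' + G0 a' τ)‖ ∨
    (a ≠ a' ∧ τ ≤ 1 / 4 ∧ (a < a' → (ic z + G0 a τ) i0 ≤ (ic z' + G0 a' τ) i0) ∧
      (a' < a → (ic z' + G0 a' τ) i0 ≤ (ic z + G0 a τ) i0)) ∨
    (a ≠ a' ∧ 3 / 4 ≤ τ ∧ (a < a' → (ic z + G0 a τ) i1 ≤ (ic z' + G0 a' τ) i1) ∧
      (a' < a → (ic z' + G0 a' τ) i1 ≤ (ic z + G0 a τ) i1))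

theorem Base_int {s : ℕ} (a a' : Fin s) (h : a ≠ a') (m : ℤ) :
    1 / (2 * (s : ℝ)) ≤ |(m : ℝ) + ((a.val : ℝ) / (2 * s) - (a'.val : ℝ) / (2 * s))| := by
  have hs : (0 : ℝ) < s := by exact_mod_cast a.pos
  have h1 : (2 * (s : ℤ) * m + a.val - a'.val : ℤ) ≠ 0 := by
    intro h0
    have e1 := a.2
    have e2 := a'.2
    have e3 : a.val ≠ a'.val := fun e => h (Fin.ext e)
    rcases lt_trichotomy m 0 with hm | rfl | hm
    · nlinarith
    · omega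
    · nlinarith
  have h2 : (1 : ℝ) ≤ |((2 * (s : ℤ) * m + a.val - a'.val : ℤ) : ℝ)| := by
    exact_mod_cast Int.one_le_abs h1
  have h3 : (m : ℝ) + ((a.val : ℝ) / (2 * s) - (a'.val : ℝ) / (2 * s)) =
      ((2 * (s : ℤ) * m + a.val - a'.val : ℤ) : ℝ) / (2 * s) := by
    push_cast
    field_simp
    ring
  rw [h3, abs_div, abs_of_pos (by positivity : (0 : ℝ) < 2 * s)]
  exact div_le_div_of_nonneg_right h2 (by positivity)

theorem Base_half {m : ℤ} (hm : m ≠ 0) {u v t : ℝ} (hu : 0 ≤ u ∧ u ≤ 1 / 2)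
    (hv : 0 ≤ v ∧ v ≤ 1 / 2) (ht : 0 ≤ t ∧ t ≤ 1) : 1 / 2 ≤ |(m : ℝ) + (u - v) * t| := by
  have h1 : -(1 / 2) ≤ (u - v) * t := by nlinarith [hu.1, hu.2, hv.1, hv.2, ht.1, ht.2]
  have h2 : (u - v) * t ≤ 1 / 2 := by nlinarith [hu.1, hu.2, hv.1, hv.2, ht.1, ht.2]
  rcases lt_or_gt_of_ne hm with h | h
  · have : (m : ℝ) ≤ -1 := by exact_mod_cast (by omega : m ≤ -1)
    exact le_abs.2 (Or.inr (by linarith))
  · have : (1 : ℝ) ≤ m := by exact_mod_cast (by omega : 1 ≤ m)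
    exact le_abs.2 (Or.inl (by linarith))

theorem exists_bases {d k : ℕ} {i0 i1 : Fin d} (h01 : i0 ≠ i1) {e : Fin (k + 1) → Fin d → ℤ}
    (he : ∀ a (j : Fin d), k ≤ j.val → e a j = 0) :
    Nonempty (Bases d k i0 i1 e (1 / (2 * (k + 1)))) := by
  have h10 : i1 ≠ i0 := h01.symm
  obtain ⟨S1, S2, S3, S4, c1, c2, c3, c4, r1, r2, r3, r4, z1, z2, z3, z4, o1, o2, o3, o4⟩ :
      ∃ S1 S2 S3 S4 : ℝ → ℝ, ContDiff ℝ ∞ S1 ∧ ContDiff ℝ ∞ S2 ∧ ContDiff ℝ ∞ S3 ∧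
        ContDiff ℝ ∞ S4 ∧ (∀ τ, 0 ≤ S1 τ ∧ S1 τ ≤ 1) ∧ (∀ τ, 0 ≤ S2 τ ∧ S2 τ ≤ 1) ∧
        (∀ τ, 0 ≤ S3 τ ∧ S3 τ ≤ 1) ∧ (∀ τ, 0 ≤ S4 τ ∧ S4 τ ≤ 1) ∧
        (∀ τ, τ ≤ 1 / 16 → S1 τ = 0) ∧ (∀ τ, τ ≤ 1 / 4 → S2 τ = 0) ∧
        (∀ τ, τ ≤ 1 / 2 → S3 τ = 0) ∧ (∀ τ, τ ≤ 3 / 4 → S4 τ = 0) ∧
        (∀ τ, 1 / 4 ≤ τ → S1 τ = 1) ∧ (∀ τ, 1 / 2 ≤ τ → S2 τ = 1) ∧
        (∀ τ, 3 / 4 ≤ τ → S3 τ = 1) ∧ (∀ τ, 15 / 16 ≤ τ → S4 τ = 1) := by
    have hc : ∀ a b : ℝ, ContDiff ℝ ∞ fun τ : ℝ => Real.smoothTransition ((τ - a) * b) :=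
      fun a b => Real.smoothTransition.contDiff.comp (by fun_prop)
    have hr : ∀ x, 0 ≤ Real.smoothTransition x ∧ Real.smoothTransition x ≤ 1 :=
      fun x => ⟨Real.smoothTransition.nonneg x, Real.smoothTransition.le_one x⟩
    refine ⟨_, _, _, _, hc (1 / 16) (16 / 3), hc (1 / 4) 4, hc (1 / 2) 4, hc (3 / 4) (16 / 3),
      fun _ => hr _, fun _ => hr _, fun _ => hr _, fun _ => hr _, ?_, ?_, ?_, ?_, ?_, ?_, ?_, ?_⟩
    iterate 4 exact fun τ h => Real.smoothTransition.zero_of_nonpos (by linarith)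
    iterate 4 exact fun τ h => Real.smoothTransition.one_of_one_le (by linarith)
  have hk : (0 : ℝ) < (k : ℝ) + 1 := by positivity
  obtain ⟨u, hu, hmono, hsep⟩ : ∃ u : Fin (k + 1) → ℝ, (∀ a, 0 ≤ u a ∧ u a ≤ 1 / 2) ∧
      (∀ a a', a < a' → u a ≤ u a') ∧ ∀ a a', a ≠ a' → ∀ m : ℤ,
        1 / (2 * ((k : ℝ) + 1)) ≤ |(m : ℝ) + (u a - u a')| := by
    refine ⟨fun a => (a.val : ℝ) / (2 * ((k : ℝ) + 1)), fun a => ⟨by positivity, ?_⟩,
      fun a a' h => ?_, fun a a' h m => ?_⟩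
    · have : (a.val : ℝ) ≤ (k : ℝ) + 1 := by exact_mod_cast a.2.le
      rw [div_le_iff₀ (by positivity)]
      linarith
    · exact div_le_div_of_nonneg_right (by exact_mod_cast h.le) (by positivity)
    · simpa using Base_int a a' h m
  have hσ : 1 / (2 * ((k : ℝ) + 1)) ≤ 1 / 2 := by
    have : (0 : ℝ) ≤ k := by positivity
    exact one_div_le_one_div_of_le (by norm_num) (by linarith)
  let G : Fin (k + 1) → ℝ → E d := fun a τ j =>
    if j = i0 then u a * S1 τ + (e a j - u a) * S3 τ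
    else if j = i1 then (e a j + u a) * S2 τ - u a * S4 τ else e a j * S2 τ
  have G0 : ∀ a τ, G a τ i0 = u a * S1 τ + (e a i0 - u a) * S3 τ := fun a τ => by simp [G]
  have G1 : ∀ a τ, G a τ i1 = (e a i1 + u a) * S2 τ - u a * S4 τ := fun a τ => by simp [G, h10]
  have hn : ∀ (v : E d) (j : Fin d) (x : ℝ), v j = x → 1 / (2 * ((k : ℝ) + 1)) ≤ |x| →
      1 / (2 * ((k : ℝ) + 1)) ≤ ‖v‖ := by
    rintro v j _ rfl h
    exact h.trans (norm_le_pi_norm v j)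
  refine ⟨⟨G, fun a => ?_, fun a τ h => ?_, fun a τ h => ?_, fun a τ j hj => ?_,
    fun a a' z z' τ hne => ?_⟩⟩
  · refine contDiff_pi.2 fun j => ?_
    simp only [G]
    split_ifs <;> fun_prop
  · funext j
    simp [G, z1 τ h, z2 τ (by linarith), z3 τ (by linarith), z4 τ (by linarith)]
  · funext j
    simp [G, ic, o1 τ (by linarith), o2 τ (by linarith), o3 τ (by linarith), o4 τ h]
  · simp only [G, he a j hj, Int.cast_zero, zero_sub, zero_add, zero_mul]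
    obtain ⟨h1, h2⟩ := hu a
    split_ifs
    · have : S3 τ ≤ S1 τ := by
        rcases le_total τ (1 / 2) with h | h
        · rw [z3 τ h]; exact (r1 τ).1
        · rw [o1 τ (by linarith)]; exact (r3 τ).2
      constructor <;> nlinarith [(r1 τ).2, (r3 τ).1]
    · have : S4 τ ≤ S2 τ := by
        rcases le_total τ (1 / 2) with h | h
        · rw [z4 τ (by linarith)]; exact (r2 τ).1
        · rw [o2 τ h]; exact (r4 τ).2
      constructor <;> nlinarith [(r2 τ).2, (r4 τ).1]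
    · norm_num
  · by_cases ha : a = a'
    · subst ha
      obtain ⟨j, hj⟩ : ∃ j, z j ≠ z' j := Function.ne_iff.1 fun h => hne (by rw [h])
      refine Or.inl (hn _ j ((z j - z' j : ℤ) : ℝ) (by simp [ic]) (hσ.trans ?_))
      have : (1 : ℝ) ≤ |((z j - z' j : ℤ) : ℝ)| := by
        exact_mod_cast Int.one_le_abs (sub_ne_zero.2 hj)
      linarith
    rcases le_total τ (1 / 4) with h1 | h1
    · by_cases hz : z i0 = z' i0
      · refine Or.inr (Or.inl ⟨ha, h1, fun h => ?_, fun h => ?_⟩)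
        · simp only [Pi.add_apply, ic, G0, z3 τ (by linarith), hz]
          nlinarith [hmono _ _ h, (r1 τ).1]
        · simp only [Pi.add_apply, ic, G0, z3 τ (by linarith), hz]
          nlinarith [hmono _ _ h, (r1 τ).1]
      · refine Or.inl (hn _ i0 _ ?_ (hσ.trans
          (Base_half (sub_ne_zero.2 hz) (hu a) (hu a') (r1 τ))))
        simp only [Pi.add_apply, Pi.sub_apply, ic, G0, z3 τ (by linarith)]
        push_cast
        ring
    rcases le_total τ (1 / 2) with h2 | h2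
    · refine Or.inl (hn _ i0 _ ?_ (hsep a a' ha (z i0 - z' i0)))
      simp only [Pi.add_apply, Pi.sub_apply, ic, G0, z3 τ h2, o1 τ h1]
      push_cast
      ring
    rcases le_total τ (3 / 4) with h3 | h3
    · refine Or.inl (hn _ i1 _ ?_ (hsep a a' ha (z i1 + e a i1 - (z' i1 + e a' i1))))
      simp only [Pi.add_apply, Pi.sub_apply, ic, G1, z4 τ h3, o2 τ h2]
      push_cast
      ring
    · by_cases hz : z i1 + e a i1 = z' i1 + e a' i1
      · have hz' : (z i1 : ℝ) + e a i1 = z' i1 + e a' i1 := by exact_mod_cast hz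
        refine Or.inr (Or.inr ⟨ha, h3, fun h => ?_, fun h => ?_⟩)
        · simp only [Pi.add_apply, ic, G1, o2 τ h2]
          nlinarith [hmono _ _ h, (r4 τ).2]
        · simp only [Pi.add_apply, ic, G1, o2 τ h2]
          nlinarith [hmono _ _ h, (r4 τ).2]
      · refine Or.inl (hn _ i1 _ ?_ (hσ.trans (Base_half (t := 1 - S4 τ) (sub_ne_zero.2 hz)
          (hu a) (hu a') ⟨by linarith [(r4 τ).2], by linarith [(r4 τ).1]⟩)))
        simp only [Pi.add_apply, Pi.sub_apply, ic, G1, o2 τ h2]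
        push_cast
        ring

theorem exists_zeta : ∃ ζ : ℝ → ℝ, ContDiff ℝ ∞ ζ ∧ (∀ x (m : ℤ), ζ (x + m) = ζ x + m) ∧
    ∀ x, -1 / 10 ≤ x → x ≤ 6 / 10 → ζ x = 0 := by
  refine ⟨fun x => (⌊x + 1 / 5⌋ : ℝ) +
    Real.smoothTransition ((Int.fract (x + 1 / 5) - 17 / 20) * 10), ?_, fun x m => ?_,
    fun x h1 h2 => ?_⟩
  · refine contDiff_iff_contDiffAt.2 fun x₀ => ?_
    obtain ⟨m, hm⟩ : ∃ m : ℤ, m = ⌊x₀ + 1 / 5⌋ := ⟨_, rfl⟩
    have hc : ∀ a : ℝ, ContDiff ℝ ∞ fun τ : ℝ => Real.smoothTransition ((τ - a) * 10) :=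
      fun a => Real.smoothTransition.contDiff.comp (by fun_prop)
    have h1 : ContDiff ℝ ∞ fun x : ℝ => ((m : ℝ) - 1) +
        Real.smoothTransition ((x - (m - 1 + 13 / 20)) * 10) +
        Real.smoothTransition ((x - (m + 13 / 20)) * 10) :=
      (contDiff_const.add (hc _)).add (hc _)
    refine h1.contDiffAt.congr_of_eventuallyEq ?_
    have h2 := Int.floor_le (x₀ + 1 / 5)
    have h3 := Int.lt_floor_add_one (x₀ + 1 / 5)
    rw [← hm] at h2 h3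
    filter_upwards [Ioo_mem_nhds (show (m : ℝ) - 1 - 1 / 5 < x₀ by linarith)
      (show x₀ < (m : ℝ) + 1 - 1 / 5 by linarith)] with x hx
    obtain ⟨h4, h5⟩ := hx
    rcases lt_or_ge (x + 1 / 5) m with h | h
    · have e1 : ⌊x + 1 / 5⌋ = m - 1 := Int.floor_eq_iff.2 ⟨by push_cast; linarith,
        by push_cast; linarith⟩
      rw [Int.fract, e1, Real.smoothTransition.zero_of_nonpos
        (x := (x - (m + 13 / 20)) * 10) (by linarith)]
      push_cast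
      ring_nf
    · have e1 : ⌊x + 1 / 5⌋ = m := Int.floor_eq_iff.2 ⟨h, by linarith⟩
      rw [Int.fract, e1, Real.smoothTransition.one_of_one_le
        (x := (x - (m - 1 + 13 / 20)) * 10) (by linarith)]
      ring_nf
  · simp only
    rw [add_right_comm x (m : ℝ), Int.floor_add_intCast, Int.fract_add_intCast]
    push_cast
    ring
  · have e1 : ⌊x + 1 / 5⌋ = 0 := Int.floor_eq_iff.2 ⟨by push_cast; linarith,
      by push_cast; linarith⟩
    simp only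
    rw [Int.fract, e1, Real.smoothTransition.zero_of_nonpos (by push_cast; linarith)]
    simp

theorem exists_bump {d : ℕ} {ι : Type} (s : Finset ι) {q : ι → ℝ → E d}
    (hq : ∀ i, ContDiff ℝ ∞ (q i)) {R : ℝ} (hR : ∀ i ∈ s, ∀ θ, ‖q i θ‖ ≤ R) :
    ∃ B : E d × ℝ → ℝ, ContDiff ℝ ∞ B ∧ HasCompactSupport B ∧ (∀ y, 0 ≤ B y ∧ B y ≤ 1) ∧
      (∀ y, ∀ i ∈ s, 0 ≤ y.2 → y.2 ≤ 1 → ‖y.1 - q i y.2‖ ≤ 1 / 8 → B y = 1) ∧
      ∀ y ∈ tsupport B, (∃ i ∈ s, ‖y.1 - q i y.2‖ < 1 / 4) ∧ -1 / 16 < y.2 ∧ y.2 < 17 / 16 := by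
  let φ : ContDiffBump (0 : E d) := ⟨1 / 8, 3 / 16, by norm_num, by norm_num⟩
  let χ : ContDiffBump (1 / 2 : ℝ) := ⟨1 / 2, 17 / 32, by norm_num, by norm_num⟩
  let B : E d × ℝ → ℝ := fun y => 1 - ∏ i ∈ s, (1 - φ (y.1 - q i y.2) * χ y.2)
  let K : Set (E d × ℝ) := ⋃ i ∈ s, {y | ‖y.1 - q i y.2‖ ≤ 3 / 16 ∧ |y.2 - 1 / 2| ≤ 17 / 32}
  have hK : IsClosed K := by
    refine s.finite_toSet.isClosed_biUnion fun i _ => ?_
    have := (hq i).continuous
    exact (isClosed_le (f := fun y : E d × ℝ => ‖y.1 - q i y.2‖) (by fun_prop)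
      continuous_const).inter
      (isClosed_le (f := fun y : E d × ℝ => |y.2 - 1 / 2|) (by fun_prop) continuous_const)
  have hz : ∀ y, y ∉ K → B y = 0 := by
    intro y hy
    simp only [K, Set.mem_iUnion, Set.mem_ofPred_eq, not_exists, not_and_or, not_le] at hy
    have : ∀ i ∈ s, 1 - φ (y.1 - q i y.2) * χ y.2 = 1 := by
      intro i hi
      rcases hy i hi with h | h
      · rw [φ.zero_of_le_dist (by simpa [φ] using h.le)]
        simp
      · rw [χ.zero_of_le_dist (by simpa [χ, Real.dist_eq] using h.le)]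
        simp
    simp only [B]
    rw [Finset.prod_eq_one this, sub_self]
  have hf : ∀ y : E d × ℝ, ∀ i ∈ s, 0 ≤ 1 - φ (y.1 - q i y.2) * χ y.2 ∧
      1 - φ (y.1 - q i y.2) * χ y.2 ≤ 1 := fun y i _ =>
    ⟨sub_nonneg.2 (mul_le_one₀ φ.le_one χ.nonneg χ.le_one),
      sub_le_self _ (mul_nonneg φ.nonneg χ.nonneg)⟩
  refine ⟨B, ?_, ?_, fun y => ⟨?_, ?_⟩, fun y i hi h0 h1 h2 => ?_, fun y hy => ?_⟩
  · refine contDiff_const.sub (contDiff_prod fun i _ => contDiff_const.sub (ContDiff.mul ?_ ?_))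
    · exact φ.contDiff.comp (contDiff_fst.sub ((hq i).comp contDiff_snd))
    · exact χ.contDiff.comp contDiff_snd
  · refine HasCompactSupport.intro ((isCompact_closedBall (0 : E d) (R + 3 / 16)).prod
      (isCompact_closedBall (1 / 2 : ℝ) (17 / 32))) fun y hy => hz y fun hyK => hy ?_
    simp only [K, Set.mem_iUnion, Set.mem_ofPred_eq] at hyK
    obtain ⟨i, hi, h1, h2⟩ := hyK
    refine ⟨?_, by simpa [Real.dist_eq] using h2⟩
    have := norm_add_le (y.1 - q i y.2) (q i y.2)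
    rw [sub_add_cancel] at this
    simp only [mem_closedBall_zero_iff]
    linarith [hR i hi y.2]
  · exact sub_nonneg.2 (Finset.prod_le_one (fun i hi => (hf y i hi).1) fun i hi => (hf y i hi).2)
  · exact sub_le_self _ (Finset.prod_nonneg fun i hi => (hf y i hi).1)
  · simp only [B]
    rw [Finset.prod_eq_zero hi, sub_zero]
    rw [φ.one_of_mem_closedBall (by simpa [φ] using h2), χ.one_of_mem_closedBall (by
      simp only [χ, Metric.mem_closedBall, Real.dist_eq, abs_le]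
      constructor <;> linarith)]
    simp
  · have : y ∈ K := closure_minimal (s := Function.support B)
      (fun y (hy : B y ≠ 0) => by_contra fun h => hy (hz y h)) hK hy
    simp only [K, Set.mem_iUnion, Set.mem_ofPred_eq, abs_le] at this
    obtain ⟨i, hi, h1, h2, h3⟩ := this
    exact ⟨⟨i, hi, by linarith⟩, by linarith, by linarith⟩

end Pool.Agent.Lib.MP_ce3247_an
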