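import Pool.Agent.Lib.MP_ce3247_an.Cur2

/-! The cutoffs of the tubes. -/

open Finset Filter Topology
open scoped ContDiff

namespace Pool.Agent.Lib.MP_ce3247_an.Geo

variable {d k : ℕ} (S : Geo d k)

/-- The chart of the level `n` tube of `a`. -/
noncomputable def Bn_chart (n : ℕ) (a : Fin (k + 1)) (y : E d × ℝ) : E d × ℝ :=
  ((S.ρ ^ (n + 1))⁻¹ • (y.1 - S.Γ n a y.2), y.2 / S.ℓ n a)

lemma Bn_eq (n : ℕ) (a : Fin (k + 1)) : S.Bn n a = S.B a ∘ S.Bn_chart n a := rfl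

lemma Bn_eps_pos (n : ℕ) : 0 < S.ρ ^ (n + 1) := pow_pos S.ρ_pos _

lemma Bn_inv_ge (n : ℕ) : 1 ≤ (S.ρ ^ (n + 1))⁻¹ := by
  have h1 : S.ρ ≤ 1 := by linarith [S.ρ_lt]
  exact (one_le_inv₀ (S.Bn_eps_pos n)).2 (pow_le_one₀ S.ρ_pos.le h1)

lemma Bn_ell_ge (n : ℕ) (a : Fin (k + 1)) : (1 : ℝ) ≤ S.ℓ n a := by
  exact_mod_cast S.ℓ_pos n a

lemma Bn_chart_smooth (n : ℕ) (a : Fin (k + 1)) : ContDiff ℝ ∞ (S.Bn_chart n a) := by
  unfold Bn_chart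
  exact ((contDiff_fst.sub ((S.Γ_smooth n a).comp contDiff_snd)).const_smul _).prodMk
    (contDiff_snd.div_const _)

lemma Bn_smooth (n : ℕ) (a : Fin (k + 1)) : ContDiff ℝ ∞ (S.Bn n a) :=
  (S.B_smooth a).comp (S.Bn_chart_smooth n a)

lemma Bn_mem (n : ℕ) (a : Fin (k + 1)) (y : E d × ℝ) : 0 ≤ S.Bn n a y ∧ S.Bn n a y ≤ 1 :=
  S.B_mem a _

lemma Bn_norm {ε : ℝ} (hε : 0 < ε) (x q : E d) : ‖ε⁻¹ • x - q‖ = ε⁻¹ * ‖x - ε • q‖ := by
  have : ε⁻¹ • x - q = ε⁻¹ • (x - ε • q) := by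
    rw [smul_sub, smul_smul, inv_mul_cancel₀ hε.ne', one_smul]
  rw [this, norm_smul, Real.norm_eq_abs, abs_of_pos (inv_pos.2 hε)]

lemma Bn_one {n : ℕ} {a b : Fin (k + 1)} {m : ℤ} {z : Fin d → ℤ} {i : ℕ} {y : E d × ℝ}
    (hv : S.Val n a m b i y.2) (hy : ‖y.1 - S.sub n a m z b i y.2‖ ≤ S.ρ ^ (n + 1) / 8) :
    S.Bn n a (y.1 - ic z, y.2 - m) = 1 := by
  obtain ⟨h1, h2, h3, h4⟩ := hv
  have hε := S.Bn_eps_pos n
  have hl : (0 : ℝ) < S.ℓ n a := lt_of_lt_of_le one_pos (S.Bn_ell_ge n a)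
  refine S.B_one a _ b i h1 h2 (div_nonneg h3 hl.le) ((div_le_one hl).2 h4.le) ?_
  show ‖(S.ρ ^ (n + 1))⁻¹ • (y.1 - ic z - S.Γ n a (y.2 - m)) -
    S.rt.p b i ((y.2 - m) / S.ℓ n a)‖ ≤ 1 / 8
  rw [Bn_norm hε, inv_mul_le_iff₀ hε]
  have e : y.1 - ic z - S.Γ n a (y.2 - m) - S.ρ ^ (n + 1) • S.rt.p b i ((y.2 - m) / S.ℓ n a) =
      y.1 - S.sub n a m z b i y.2 := by
    unfold sub
    abel
  rw [e]
  linarith

lemma Bn_supp {n : ℕ} {a : Fin (k + 1)} {y : E d × ℝ}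
    (h : S.Bn n a y ≠ 0 ∨ fderiv ℝ (S.Bn n a) y ≠ 0) :
    (∃ b i, i < S.len b ∧ S.w b i = a ∧ ‖y.1 - S.sub n a 0 0 b i y.2‖ < S.ρ ^ (n + 1) / 4) ∧
      -1 / 16 < y.2 / S.ℓ n a ∧ y.2 / S.ℓ n a < 17 / 16 := by
  have hε := S.Bn_eps_pos n
  have hm : S.Bn_chart n a y ∈ tsupport (S.B a) := by
    rcases h with h | h
    · exact subset_tsupport _ h
    · refine support_fderiv_subset ℝ fun h0 => h ?_
      rw [Bn_eq, fderiv_comp y ((S.B_smooth a).differentiable (by simp) _)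
        ((S.Bn_chart_smooth n a).differentiable (by simp) _), h0, ContinuousLinearMap.zero_comp]
  obtain ⟨⟨b, i, h1, h2, h3⟩, h4, h5⟩ := S.B_supp a _ hm
  refine ⟨⟨b, i, h1, h2, ?_⟩, h4, h5⟩
  have h3' : ‖(S.ρ ^ (n + 1))⁻¹ • (y.1 - S.Γ n a y.2) - S.rt.p b i (y.2 / S.ℓ n a)‖ < 1 / 4 := h3
  rw [Bn_norm hε, inv_mul_lt_iff₀ hε] at h3'
  have hz : ic (0 : Fin d → ℤ) = 0 := by
    funext j
    simp [ic]
  have e : y.1 - S.sub n a 0 0 b i y.2 =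
      y.1 - S.Γ n a y.2 - S.ρ ^ (n + 1) • S.rt.p b i (y.2 / S.ℓ n a) := by
    unfold sub
    rw [hz, Int.cast_zero, sub_zero, zero_add]
    abel
  rw [e]
  linarith

lemma Bn_snd {F : Type*} [NormedAddCommGroup F] [NormedSpace ℝ F] {f : ℝ → F}
    (hf : ContDiff ℝ ∞ f) (j : ℕ) (y : E d × ℝ) :
    ‖iteratedFDeriv ℝ j (fun y : E d × ℝ => f y.2) y‖ ≤ ‖iteratedDeriv j f y.2‖ := by
  have e := (ContinuousLinearMap.snd ℝ (E d) ℝ).iteratedFDeriv_comp_right hf y (i := j)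
    (by exact_mod_cast le_top)
  have e' : iteratedFDeriv ℝ j (fun y : E d × ℝ => f y.2) y = _ := e
  rw [e']
  refine (ContinuousMultilinearMap.norm_compContinuousLinearMap_le _ _).trans ?_
  rw [norm_iteratedFDeriv_eq_norm_iteratedDeriv]
  refine mul_le_of_le_one_right (norm_nonneg _) ?_
  exact Finset.prod_le_one (fun _ _ => norm_nonneg _)
    fun _ _ => ContinuousLinearMap.norm_snd_le ..

lemma Bn_id {F : Type*} [NormedAddCommGroup F] [NormedSpace ℝ F] {j : ℕ} (hj : 1 ≤ j) (y : F) :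
    ‖iteratedFDeriv ℝ j (fun y : F => y) y‖ ≤ 1 := by
  obtain ⟨i, rfl⟩ : ∃ i, j = i + 1 := ⟨j - 1, by omega⟩
  rw [← norm_iteratedFDeriv_fderiv]
  have e : fderiv ℝ (fun y : F => y) = fun _ => ContinuousLinearMap.id ℝ F := by
    funext x
    exact fderiv_fun_id
  rw [e]
  rcases Nat.eq_zero_or_pos i with h | h
  · subst h
    rw [norm_iteratedFDeriv_zero]
    exact ContinuousLinearMap.norm_id_le
  · rw [iteratedFDeriv_const_of_ne h.ne']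
    simp

lemma Bn_chart_bound (r : ℕ) : ∃ C, 1 ≤ C ∧ ∀ n a j y, 1 ≤ j → j ≤ r →
    ‖iteratedFDeriv ℝ j (S.Bn_chart n a) y‖ ≤ C * (S.ρ ^ (n + 1))⁻¹ := by
  obtain ⟨C, hC0, hC⟩ := S.Γ_bound r
  refine ⟨1 + C, by linarith, fun n a j y h1 h2 => ?_⟩
  have hε := S.Bn_inv_ge n
  have hl := S.Bn_ell_ge n a
  have hj : (j : WithTop ℕ∞) ≤ ∞ := by exact_mod_cast le_top
  let A : (E d × ℝ) →L[ℝ] (E d × ℝ) :=
    ((S.ρ ^ (n + 1))⁻¹ • ContinuousLinearMap.fst ℝ (E d) ℝ).prod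
      (((S.ℓ n a : ℝ))⁻¹ • ContinuousLinearMap.snd ℝ (E d) ℝ)
  have hA : ‖A‖ ≤ (S.ρ ^ (n + 1))⁻¹ := by
    refine ContinuousLinearMap.opNorm_le_bound _ (by linarith) fun x => ?_
    have e : A x = ((S.ρ ^ (n + 1))⁻¹ • x.1, ((S.ℓ n a : ℝ))⁻¹ • x.2) := rfl
    rw [e, Prod.norm_def]
    refine max_le ?_ ?_
    · rw [norm_smul, Real.norm_eq_abs, abs_of_nonneg (by linarith)]
      exact mul_le_mul_of_nonneg_left (norm_fst_le x) (by linarith)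
    · rw [norm_smul, Real.norm_eq_abs, abs_of_nonneg (by positivity)]
      exact mul_le_mul ((inv_le_one_of_one_le₀ hl).trans hε) (norm_snd_le x) (norm_nonneg _)
        (by linarith)
  have hG : ContDiff ℝ ∞ fun y : E d × ℝ => S.Γ n a y.2 := (S.Γ_smooth n a).comp contDiff_snd
  have hI : ContDiff ℝ ∞ (ContinuousLinearMap.inl ℝ (E d) ℝ ∘ fun y : E d × ℝ => S.Γ n a y.2) :=
    (ContinuousLinearMap.inl ℝ (E d) ℝ).contDiff.comp hG
  have hT : ContDiff ℝ ∞ ((fun y : E d × ℝ => y) -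
      (ContinuousLinearMap.inl ℝ (E d) ℝ ∘ fun y : E d × ℝ => S.Γ n a y.2)) :=
    contDiff_id.sub hI
  have e : S.Bn_chart n a = A ∘ ((fun y : E d × ℝ => y) -
      (ContinuousLinearMap.inl ℝ (E d) ℝ ∘ fun y : E d × ℝ => S.Γ n a y.2)) := by
    funext x
    refine Prod.ext rfl ?_
    show x.2 / S.ℓ n a = ((S.ℓ n a : ℝ))⁻¹ • (x.2 - 0)
    rw [sub_zero, smul_eq_mul, div_eq_inv_mul]
  rw [e]
  refine (A.norm_iteratedFDeriv_comp_left hT.contDiffAt hj).trans ?_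
  rw [mul_comm]
  refine mul_le_mul ?_ hA (norm_nonneg _) (by linarith)
  rw [iteratedFDeriv_sub_apply (f := fun y : E d × ℝ => y) contDiffAt_id
    ((hI.of_le hj).contDiffAt)]
  refine (norm_sub_le _ _).trans (add_le_add (Bn_id h1 y) ?_)
  refine ((ContinuousLinearMap.inl ℝ (E d) ℝ).norm_iteratedFDeriv_comp_left
    hG.contDiffAt hj).trans ?_
  have h3 : ‖ContinuousLinearMap.inl ℝ (E d) ℝ‖ ≤ 1 :=
    ContinuousLinearMap.opNorm_le_bound _ zero_le_one fun x => by simp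
  exact (mul_le_of_le_one_left (norm_nonneg _) h3).trans
    ((Bn_snd (S.Γ_smooth n a) j y).trans (hC n a j _ h1 h2))

lemma Bn_B_bound (r : ℕ) : ∃ C, 0 ≤ C ∧ ∀ a j y, j ≤ r →
    ‖iteratedFDeriv ℝ j (S.B a) y‖ ≤ C := by
  have h : ∀ (a : Fin (k + 1)) (j : ℕ), ∃ C, ∀ y, ‖iteratedFDeriv ℝ j (S.B a) y‖ ≤ C :=
    fun a j => ((S.B_cpt a).iteratedFDeriv j).exists_bound_of_continuous
      ((S.B_smooth a).continuous_iteratedFDeriv (by exact_mod_cast le_top))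
  choose C hC using h
  have h0 : ∀ a j, 0 ≤ C a j := fun a j => (norm_nonneg _).trans (hC a j 0)
  refine ⟨∑ a, ∑ j ∈ range (r + 1), C a j,
    sum_nonneg fun a _ => sum_nonneg fun j _ => h0 a j, fun a j y hj => (hC a j y).trans ?_⟩
  calc C a j ≤ ∑ j ∈ range (r + 1), C a j :=
        single_le_sum (f := fun j => C a j) (fun j _ => h0 a j) (mem_range.2 (by omega))
    _ ≤ _ := single_le_sum (f := fun a => ∑ j ∈ range (r + 1), C a j)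
        (fun a _ => sum_nonneg fun j _ => h0 a j) (mem_univ a)

lemma Bn_bound (r : ℕ) : ∃ C, 0 ≤ C ∧ ∀ n a j y, j ≤ r →
    ‖iteratedFDeriv ℝ j (S.Bn n a) y‖ ≤ C * ((S.ρ ^ (n + 1))⁻¹) ^ j := by
  obtain ⟨C, hC1, hC⟩ := S.Bn_chart_bound r
  obtain ⟨K, hK0, hK⟩ := S.Bn_B_bound r
  refine ⟨(r.factorial : ℝ) * K * C ^ r, by positivity, fun n a j y hj => ?_⟩
  have hε := S.Bn_inv_ge n
  have hD : 1 ≤ C * (S.ρ ^ (n + 1))⁻¹ := one_le_mul_of_one_le_of_one_le hC1 hε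
  rw [Bn_eq]
  refine (norm_iteratedFDeriv_comp_le (S.B_smooth a) (S.Bn_chart_smooth n a)
    (by exact_mod_cast le_top) y (C := K) (D := C * (S.ρ ^ (n + 1))⁻¹)
    (fun i hi => hK a i _ (hi.trans hj))
    (fun i h1 hi => (hC n a i y h1 (hi.trans hj)).trans (le_self_pow₀ hD (by omega)))).trans ?_
  rw [mul_pow, ← mul_assoc]
  have h1 : (j.factorial : ℝ) ≤ r.factorial := by exact_mod_cast Nat.factorial_le hj
  have h2 : C ^ j ≤ C ^ r := pow_le_pow_right₀ hC1 hj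
  have h3 : 0 ≤ C := by linarith
  gcongr

lemma Bn_chart_fderiv (n : ℕ) (a : Fin (k + 1)) (y : E d × ℝ) (v : E d) :
    fderiv ℝ (S.Bn_chart n a) y (v, 1) =
      ((S.ρ ^ (n + 1))⁻¹ • (v - deriv (S.Γ n a) y.2), 1 / (S.ℓ n a : ℝ)) := by
  have h1 : HasDerivAt (S.Γ n a) (deriv (S.Γ n a) y.2) y.2 :=
    ((S.Γ_smooth n a).differentiable (by simp) _).hasDerivAt
  have h2 := h1.hasFDerivAt.comp y (hasFDerivAt_snd (𝕜 := ℝ) (p := y))
  have h3 := ((hasFDerivAt_fst (𝕜 := ℝ) (p := y)).sub h2).const_smul (S.ρ ^ (n + 1))⁻¹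
  have h4 := (hasFDerivAt_snd (𝕜 := ℝ) (p := y)).mul_const ((S.ℓ n a : ℝ))⁻¹
  have h5 := h3.prodMk h4
  have h6 : HasFDerivAt (S.Bn_chart n a) _ y := h5
  rw [h6.fderiv]
  simp

lemma Bn_fine : ∃ C, 0 ≤ C ∧ ∀ n a y v, |fderiv ℝ (S.Bn n a) y (v, 1)| ≤
    C * (‖v - deriv (S.Γ n a) y.2‖ / S.ρ ^ (n + 1) + 1 / S.L ^ n) := by
  obtain ⟨K, hK0, hK⟩ := S.Bn_B_bound 1
  refine ⟨K, hK0, fun n a y v => ?_⟩
  have hε := S.Bn_eps_pos n
  have hL : 0 < S.L ^ n := pow_pos (by linarith [S.one_lt_L]) n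
  have hl := S.ℓ_ge n a
  rw [Bn_eq, fderiv_comp y ((S.B_smooth a).differentiable (by simp) _)
    ((S.Bn_chart_smooth n a).differentiable (by simp) _), ContinuousLinearMap.comp_apply,
    Bn_chart_fderiv, ← Real.norm_eq_abs]
  refine (ContinuousLinearMap.le_opNorm _ _).trans (mul_le_mul ?_ ?_ (norm_nonneg _) hK0)
  · have := hK a 1 (S.Bn_chart n a y) le_rfl
    rwa [norm_iteratedFDeriv_one] at this
  · rw [Prod.norm_def]
    have h1 : 0 ≤ ‖v - deriv (S.Γ n a) y.2‖ / S.ρ ^ (n + 1) := by positivity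
    have h2 : 0 ≤ 1 / S.L ^ n := by positivity
    refine max_le ?_ ?_
    · rw [norm_smul, Real.norm_eq_abs, abs_of_pos (inv_pos.2 hε), ← div_eq_inv_mul]
      linarith
    · rw [Real.norm_eq_abs, abs_of_nonneg (by positivity)]
      have := one_div_le_one_div_of_le hL hl
      linarith

lemma Xt_smooth (n : ℕ) (a : Fin (k + 1)) :
    ContDiff ℝ ∞ fun y : E d × ℝ => S.Bn n a y • S.U n a y.2 :=
  (S.Bn_smooth n a).smul ((S.U_smooth n a).comp contDiff_snd)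

lemma Xt_supp (n : ℕ) : S.Supp n fun a (y : E d × ℝ) => S.Bn n a y • S.U n a y.2 := by
  intro a y h
  have h' : S.Bn n a y • S.U n a y.2 ≠ 0 := h
  have h1 : S.Bn n a y ≠ 0 := fun e => h' (by rw [e, zero_smul])
  have h2 : S.U n a y.2 ≠ 0 := fun e => h' (by rw [e, smul_zero])
  refine ⟨lt_of_not_ge fun e => h2 (S.U_zero n a (Or.inl e)),
    lt_of_not_ge fun e => h2 (S.U_zero n a (Or.inr e)), (S.Bn_supp (Or.inl h1)).1⟩

lemma Xt_bound (r : ℕ) : ∃ C, 0 ≤ C ∧ ∀ n a j y, j ≤ r →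
    ‖iteratedFDeriv ℝ j (fun y : E d × ℝ => S.Bn n a y • S.U n a y.2) y‖ ≤
      C * (S.ρ / S.L) ^ n * ((S.ρ ^ (n + 1))⁻¹) ^ j := by
  obtain ⟨C, hC0, hC⟩ := S.Bn_bound r
  obtain ⟨K, hK0, hK⟩ := S.U_bound r
  refine ⟨2 ^ r * (C * K), by positivity, fun n a j y hj => ?_⟩
  have hε := S.Bn_inv_ge n
  have hq : 0 ≤ (S.ρ / S.L) ^ n :=
    pow_nonneg (div_nonneg S.ρ_pos.le (by linarith [S.one_lt_L])) n
  have hU : ContDiff ℝ ∞ fun y : E d × ℝ => S.U n a y.2 := (S.U_smooth n a).comp contDiff_snd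
  refine (norm_iteratedFDeriv_smul_le (S.Bn_smooth n a) hU y (n := j)
    (by exact_mod_cast le_top)).trans ?_
  have hM : 0 ≤ C * K * (S.ρ / S.L) ^ n * ((S.ρ ^ (n + 1))⁻¹) ^ j := by positivity
  calc _ ≤ ∑ i ∈ range (j + 1),
        (j.choose i : ℝ) * (C * K * (S.ρ / S.L) ^ n * ((S.ρ ^ (n + 1))⁻¹) ^ j) := by
        refine sum_le_sum fun i hi => ?_
        have hi' : i ≤ j := by have := mem_range.1 hi; omega
        have h1 := hC n a i y (hi'.trans hj)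
        have h2 := (Bn_snd (S.U_smooth n a) (j - i) y).trans (hK n a (j - i) y.2 (by omega))
        have h3 : ((S.ρ ^ (n + 1))⁻¹) ^ i ≤ ((S.ρ ^ (n + 1))⁻¹) ^ j := pow_le_pow_right₀ hε hi'
        have h4 := h1.trans (mul_le_mul_of_nonneg_left h3 hC0)
        rw [mul_assoc]
        refine mul_le_mul_of_nonneg_left ?_ (Nat.cast_nonneg _)
        refine (mul_le_mul h4 h2 (norm_nonneg _) (by positivity)).trans_eq ?_
        ring
    _ = 2 ^ j * (C * K * (S.ρ / S.L) ^ n * ((S.ρ ^ (n + 1))⁻¹) ^ j) := by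
        rw [← sum_mul, ← Nat.cast_sum, Nat.sum_range_choose]
        norm_num
    _ ≤ 2 ^ r * (C * K * (S.ρ / S.L) ^ n * ((S.ρ ^ (n + 1))⁻¹) ^ j) :=
        mul_le_mul_of_nonneg_right (pow_le_pow_right₀ one_le_two hj) hM
    _ = _ := by ring

end Pool.Agent.Lib.MP_ce3247_an.Geo
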