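import Pool.Agent.Lib.MP_ce3247_an.Geo

/-! The unfolding equations of two recursive definitions, realised once. -/

namespace Pool.Agent.Lib.MP_ce3247_an

theorem eqfix1 : True := by
  have := @Geo.Γ.eq_def
  trivial

theorem eqfix2 : True := by
  have := @Geo.ℓ.eq_def
  trivial

end Pool.Agent.Lib.MP_ce3247_an
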