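import Pool.Agent.Lib.MP_ce3247_an.Geo
import Pool.Agent.Lib.MP_ce3247_an.EqFix

/-! Basic properties of the level curves. -/

open Finset
open scoped ContDiff

namespace Pool.Agent.Lib.MP_ce3247_an.Geo

variable {d k : ℕ} (S : Geo d k)

lemma ρ_lt : S.ρ ≤ 1 / 256 := by
  have h1 := S.ρ_small
  have h2 := S.σ0_le
  have h3 := mul_nonneg S.ρ_pos.le S.R_nonneg
  nlinarith

lemma one_lt_L : 1 < S.L := by
  have h1 := S.hX
  have h2 : S.ρ ^ (d - 1) ≤ 1 := pow_le_one₀ S.ρ_pos.le (by linarith [S.ρ_lt])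
  have h3 : 0 < S.ρ ^ (d - 1) := pow_pos S.ρ_pos _
  by_contra h
  push Not at h
  nlinarith

lemma lam_lt : |S.lam| < S.ρ := S.hV

private lemma Cur1_two (n : ℕ) : ∀ a : Fin (k + 1), 2 ^ n ≤ S.ℓ n a := by
  induction n with
  | zero => intro a; simp [ℓ]
  | succ n ih =>
    intro b
    have h1 : (range (S.len b)).card • 2 ^ n ≤ ∑ i ∈ range (S.len b), S.ℓ n (S.w b i) :=
      Finset.card_nsmul_le_sum _ _ _ fun i _ => ih _
    rw [card_range, smul_eq_mul] at h1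
    have h2 := Nat.mul_le_mul_right (2 ^ n) (S.len_two b)
    rw [ℓ, pow_succ]
    omega

lemma ℓ_pos (n : ℕ) (a : Fin (k + 1)) : 1 ≤ S.ℓ n a :=
  le_trans Nat.one_le_two_pow (Cur1_two S n a)

lemma ℓ_ge (n : ℕ) (a : Fin (k + 1)) : S.L ^ n ≤ (S.ℓ n a : ℝ) := by
  induction n generalizing a with
  | zero => simp [ℓ]
  | succ n ih =>
    have h1 : (range (S.len a)).card • S.L ^ n ≤
        ∑ i ∈ range (S.len a), (S.ℓ n (S.w a i) : ℝ) :=
      Finset.card_nsmul_le_sum _ _ _ fun i _ => ih _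
    rw [card_range, nsmul_eq_mul] at h1
    have h2 : 0 ≤ S.L ^ n := pow_nonneg (by linarith [S.one_lt_L]) n
    have h3 := mul_le_mul_of_nonneg_right (S.L_le a) h2
    rw [ℓ, pow_succ']
    push_cast
    linarith

lemma ℓ_ge_two (n : ℕ) (a : Fin (k + 1)) : 2 ^ n ≤ S.ℓ n a := Cur1_two S n a

lemma Tm_zero (n : ℕ) (b : Fin (k + 1)) : S.Tm n b 0 = 0 := by simp [Tm]

lemma Tm_succ (n : ℕ) (b : Fin (k + 1)) (i : ℕ) :
    S.Tm n b (i + 1) = S.Tm n b i + S.ℓ n (S.w b i) := by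
  simp [Tm, sum_range_succ]

lemma Tm_len (n : ℕ) (b : Fin (k + 1)) : S.Tm n b (S.len b) = S.ℓ (n + 1) b := rfl

lemma Tm_mono (n : ℕ) (b : Fin (k + 1)) : StrictMono (S.Tm n b) := by
  refine strictMono_nat_of_lt_succ fun i => ?_
  have := S.ℓ_pos n (S.w b i)
  rw [Tm_succ]
  omega

lemma Kp_zero (n : ℕ) (b : Fin (k + 1)) : S.Kp n b 0 = 0 := by simp [Kp]

private lemma Cur1_le (n : ℕ) (b : Fin (k + 1)) {i j : ℕ} (h : i ≤ j) :
    (S.Tm n b i : ℝ) ≤ S.Tm n b j := by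
  exact_mod_cast (S.Tm_mono n b).monotone h

private lemma Cur1_lt (n : ℕ) (b : Fin (k + 1)) {i j : ℕ} (h : i < j) :
    (S.Tm n b i : ℝ) + S.ℓ n (S.w b i) ≤ S.Tm n b j := by
  have h1 := Cur1_le S n b (Nat.succ_le_of_lt h)
  rw [Tm_succ] at h1
  exact_mod_cast h1

private lemma Cur1_one (n : ℕ) (a : Fin (k + 1)) : (1 : ℝ) ≤ S.ℓ n a := by
  exact_mod_cast S.ℓ_pos n a

private lemma Cur1_div_le (n : ℕ) (a : Fin (k + 1)) {τ : ℝ} (h : τ ≤ 1 / 16) :
    τ / S.ℓ n a ≤ 1 / 16 := by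
  have h1 := Cur1_one S n a
  rw [div_le_iff₀ (by linarith)]
  linarith

private lemma Cur1_le_div (n : ℕ) (a : Fin (k + 1)) {τ : ℝ} (h : S.ℓ n a - 1 / 16 ≤ τ) :
    15 / 16 ≤ τ / S.ℓ n a := by
  have h1 := Cur1_one S n a
  rw [le_div_iff₀ (by linarith)]
  linarith

lemma exists_piece (n : ℕ) (b : Fin (k + 1)) {τ : ℝ} (h0 : 0 ≤ τ) (h1 : τ < S.ℓ (n + 1) b) :
    ∃ i, i < S.len b ∧ 0 ≤ τ - S.Tm n b i ∧ τ - S.Tm n b i < S.ℓ n (S.w b i) := by
  have key : ∀ N : ℕ, τ < S.Tm n b N →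
      ∃ i, i < N ∧ 0 ≤ τ - S.Tm n b i ∧ τ - S.Tm n b i < S.ℓ n (S.w b i) := by
    intro N
    induction N with
    | zero =>
      intro h
      rw [Tm_zero] at h
      simp at h
      linarith
    | succ N ih =>
      intro h
      by_cases hN : τ < S.Tm n b N
      · obtain ⟨i, hi, h2⟩ := ih hN
        exact ⟨i, by omega, h2⟩
      · rw [Tm_succ] at h
        push_cast at h
        exact ⟨N, by omega, by linarith, by linarith⟩
  exact key _ h1

lemma off_smooth (n : ℕ) (b : Fin (k + 1)) (i : ℕ) : ContDiff ℝ ∞ (S.off n b i) := by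
  have h1 : ContDiff ℝ ∞ fun τ : ℝ => (τ - S.Tm n b i) / S.ℓ n (S.w b i) :=
    (contDiff_id.sub contDiff_const).div_const _
  exact (((S.rt.p_smooth b i).comp h1).sub contDiff_const).const_smul (S.ρ ^ (n + 1))

lemma Γ_smooth (n : ℕ) (a : Fin (k + 1)) : ContDiff ℝ ∞ (S.Γ n a) := by
  induction n generalizing a with
  | zero => exact S.bs.G0_smooth a
  | succ n ih =>
    exact ContDiff.sum fun i _ =>
      ((ih (S.w a i)).comp (contDiff_id.sub contDiff_const)).add (S.off_smooth n a i)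

lemma U_smooth (n : ℕ) (a : Fin (k + 1)) : ContDiff ℝ ∞ (S.U n a) := by
  cases n with
  | zero => exact (contDiff_infty_iff_deriv.mp (S.bs.G0_smooth a)).2
  | succ n => exact ContDiff.sum fun i _ => (contDiff_infty_iff_deriv.mp (S.off_smooth n a i)).2

lemma g_smooth (n : ℕ) (a : Fin (k + 1)) : ContDiff ℝ ∞ (S.g n a) := by
  have h1 : ContDiff ℝ ∞ fun τ : ℝ => (τ / S.ℓ n a - 1 / 16) * (8 / 7) :=
    ((contDiff_id.div_const _).sub contDiff_const).mul contDiff_const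
  exact contDiff_const.mul (Real.smoothTransition.contDiff.comp h1)

lemma wt_smooth (n : ℕ) (a : Fin (k + 1)) : ContDiff ℝ ∞ (S.wt n a) :=
  (S.g_smooth (n + 1) a).sub (ContDiff.sum fun i _ =>
    (S.g_smooth n (S.w a i)).comp (contDiff_id.sub contDiff_const))

private lemma Cur1_off_init (n : ℕ) (b : Fin (k + 1)) {i : ℕ} (hi : i < S.len b) {τ : ℝ}
    (h : τ - S.Tm n b i ≤ 1 / 16) : S.off n b i τ = 0 := by
  rw [off, S.rt.p_init b i _ hi (Cur1_div_le S n _ h), sub_self, smul_zero]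

private lemma Cur1_off_fin (n : ℕ) (b : Fin (k + 1)) {i : ℕ} (hi : i < S.len b) {τ : ℝ}
    (h : S.ℓ n (S.w b i) - 1 / 16 ≤ τ - S.Tm n b i) :
    S.off n b i τ = S.ρ ^ (n + 1) • (S.rt.J b (i + 1) - S.rt.J b i) := by
  rw [off, S.rt.p_fin b i _ hi (Cur1_le_div S n _ h)]

private lemma Cur1_ic_sum (s : Finset ℕ) (f : ℕ → Fin d → ℤ) :
    ic (∑ i ∈ s, f i) = ∑ i ∈ s, ic (f i) := by
  ext j
  simp [ic]

private lemma Cur1_ic_add (f g : Fin d → ℤ) : ic (f + g) = ic f + ic g := by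
  ext j
  simp [ic]

private lemma Cur1_deriv_le {f : ℝ → E d} (hf : ContDiff ℝ ∞ f) {a τ : ℝ} {c : E d}
    (h : ∀ t, t ≤ a → f t = c) (hτ : τ ≤ a) : deriv f τ = 0 := by
  have h1 : HasDerivWithinAt f (deriv f τ) (Set.Iic τ) τ :=
    ((contDiff_infty_iff_deriv.mp hf).1 τ).hasDerivAt.hasDerivWithinAt
  have h2 : HasDerivWithinAt f 0 (Set.Iic τ) τ :=
    (hasDerivWithinAt_const τ (Set.Iic τ) c).congr (fun t ht => h t (le_trans ht hτ)) (h τ hτ)
  exact (uniqueDiffWithinAt_Iic τ).eq_deriv _ h1 h2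

private lemma Cur1_deriv_ge {f : ℝ → E d} (hf : ContDiff ℝ ∞ f) {a τ : ℝ} {c : E d}
    (h : ∀ t, a ≤ t → f t = c) (hτ : a ≤ τ) : deriv f τ = 0 := by
  have h1 : HasDerivWithinAt f (deriv f τ) (Set.Ici τ) τ :=
    ((contDiff_infty_iff_deriv.mp hf).1 τ).hasDerivAt.hasDerivWithinAt
  have h2 : HasDerivWithinAt f 0 (Set.Ici τ) τ :=
    (hasDerivWithinAt_const τ (Set.Ici τ) c).congr (fun t ht => h t (le_trans hτ ht)) (h τ hτ)
  exact (uniqueDiffWithinAt_Ici τ).eq_deriv _ h1 h2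

private lemma Cur1_end (n : ℕ) (b : Fin (k + 1)) {i : ℕ} (hi : i < S.len b) {τ : ℝ}
    (h : S.ℓ (n + 1) b - 1 / 16 ≤ τ) : S.ℓ n (S.w b i) - 1 / 16 ≤ τ - S.Tm n b i := by
  have h1 := Cur1_lt S n b hi
  rw [Tm_len] at h1
  linarith

private lemma Cur1_start (n : ℕ) (b : Fin (k + 1)) (i : ℕ) {τ : ℝ} (h : τ ≤ 1 / 16) :
    τ - S.Tm n b i ≤ 1 / 16 := by
  have : (0 : ℝ) ≤ S.Tm n b i := Nat.cast_nonneg _
  linarith

/-- Splitting a sum over the pieces at the piece `i`, later terms being zero. -/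
private lemma Cur1_split {M : Type} [AddCommMonoid M] {N i : ℕ} (hi : i < N) (f g : ℕ → M)
    (h1 : ∀ j, j < i → f j = g j) (h2 : ∀ j, i < j → j < N → f j = 0) :
    ∑ j ∈ range N, f j = ∑ j ∈ range i, g j + f i := by
  rw [← sum_range_add_sum_Ico f (Nat.succ_le_of_lt hi), sum_range_succ,
    sum_congr rfl fun j hj => h1 j (mem_range.mp hj),
    sum_eq_zero fun j hj => h2 j (mem_Ico.mp hj).1 (mem_Ico.mp hj).2, add_zero]

lemma Γ_init (n : ℕ) (a : Fin (k + 1)) {τ : ℝ} (h : τ ≤ 1 / 16) : S.Γ n a τ = 0 := by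
  induction n generalizing a τ with
  | zero => exact S.bs.G0_init a τ h
  | succ n ih =>
    refine sum_eq_zero fun i hi => ?_
    rw [ih _ (Cur1_start S n a i h), Cur1_off_init S n a (mem_range.mp hi) (Cur1_start S n a i h),
      add_zero]

lemma Γ_fin (n : ℕ) (a : Fin (k + 1)) {τ : ℝ} (h : S.ℓ n a - 1 / 16 ≤ τ) :
    S.Γ n a τ = ic (S.κ n a) := by
  induction n generalizing a τ with
  | zero =>
    refine S.bs.G0_fin a τ ?_
    simp only [ℓ, Nat.cast_one] at h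
    linarith
  | succ n ih =>
    have h1 : S.Γ (n + 1) a τ = ∑ i ∈ range (S.len a),
        (ic (S.κ n (S.w a i)) + S.ρ ^ (n + 1) • (S.rt.J a (i + 1) - S.rt.J a i)) := by
      refine sum_congr rfl fun i hi => ?_
      have h2 := Cur1_end S n a (mem_range.mp hi) h
      rw [ih _ h2, Cur1_off_fin S n a (mem_range.mp hi) h2]
    rw [h1, sum_add_distrib, ← smul_sum, sum_range_sub, S.rt.J_len, S.rt.J_zero, sub_zero,
      smul_zero, add_zero, κ, Cur1_ic_sum]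

lemma U_zero (n : ℕ) (a : Fin (k + 1)) {τ : ℝ} (h : τ ≤ 1 / 16 ∨ S.ℓ n a - 1 / 16 ≤ τ) :
    S.U n a τ = 0 := by
  cases n with
  | zero =>
    rcases h with h | h
    · exact Cur1_deriv_le (S.bs.G0_smooth a) (S.bs.G0_init a) h
    · refine Cur1_deriv_ge (S.bs.G0_smooth a) (S.bs.G0_fin a) ?_
      simp only [ℓ, Nat.cast_one] at h
      linarith
  | succ n =>
    refine sum_eq_zero fun i hi => ?_
    rcases h with h | h
    · exact Cur1_deriv_le (S.off_smooth n a i)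
        (fun t ht => Cur1_off_init S n a (mem_range.mp hi) (Cur1_start S n a i ht)) h
    · exact Cur1_deriv_ge (S.off_smooth n a i)
        (fun t ht => Cur1_off_fin S n a (mem_range.mp hi) (Cur1_end S n a (mem_range.mp hi) ht)) h

lemma g_init (n : ℕ) (a : Fin (k + 1)) {τ : ℝ} (h : τ ≤ 1 / 16) : S.g n a τ = 0 := by
  have h1 := Cur1_div_le S n a h
  rw [g, Real.smoothTransition.zero_of_nonpos (by linarith), mul_zero]

lemma g_fin (n : ℕ) (a : Fin (k + 1)) {τ : ℝ} (h : S.ℓ n a - 1 / 16 ≤ τ) :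
    S.g n a τ = S.lam ^ n * S.ct a := by
  have h1 := Cur1_le_div S n a h
  rw [g, Real.smoothTransition.one_of_one_le (by linarith), mul_one]

lemma wt_zero (n : ℕ) (b : Fin (k + 1)) {τ : ℝ} (h : τ ≤ 1 / 16 ∨ S.ℓ (n + 1) b - 1 / 16 ≤ τ) :
    S.wt n b τ = 0 := by
  rcases h with h | h
  · rw [wt, S.g_init _ _ h, sum_eq_zero fun i _ => S.g_init _ _ (Cur1_start S n b i h), sub_zero]
  · rw [wt, S.g_fin _ _ h,
      sum_congr rfl fun i hi => S.g_fin _ _ (Cur1_end S n b (mem_range.mp hi) h), ← mul_sum,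
      S.left]
    ring

private lemma Cur1_hom_sum (n : ℕ) (b : Fin (k + 1)) (i : ℕ)
    (h : ∀ a, ∑ j, S.c j * (S.κ n a j : ℝ) - S.a0 * S.ℓ n a = S.lam ^ n * S.ct a) :
    ∑ j, S.c j * (S.Kp n b i j : ℝ) - S.a0 * S.Tm n b i =
      ∑ r ∈ range i, S.lam ^ n * S.ct (S.w b r) := by
  rw [← sum_congr rfl fun r _ => h (S.w b r), sum_sub_distrib, sum_comm, ← mul_sum]
  simp only [Kp, Tm, Finset.sum_apply, Int.cast_sum, Nat.cast_sum, mul_sum]

lemma hom (n : ℕ) (a : Fin (k + 1)) :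
    ∑ j, S.c j * (S.κ n a j : ℝ) - S.a0 * S.ℓ n a = S.lam ^ n * S.ct a := by
  induction n generalizing a with
  | zero => simpa [κ, ℓ] using S.hom0 a
  | succ n ih =>
    have h1 := Cur1_hom_sum S n a (S.len a) ih
    rw [← mul_sum, S.left] at h1
    rw [pow_succ, mul_assoc, ← h1]
    rfl

lemma Γ_piece (n : ℕ) (b : Fin (k + 1)) {i : ℕ} (hi : i < S.len b) {τ : ℝ}
    (h0 : -1 / 16 ≤ τ - S.Tm n b i) (h1 : τ - S.Tm n b i ≤ S.ℓ n (S.w b i) + 1 / 16) :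
    S.Γ (n + 1) b τ = ic (S.Kp n b i) + S.Γ n (S.w b i) (τ - S.Tm n b i) +
      S.ρ ^ (n + 1) • S.rt.p b i ((τ - S.Tm n b i) / S.ℓ n (S.w b i)) := by
  have h2 := Cur1_split hi (fun j => S.Γ n (S.w b j) (τ - S.Tm n b j) + S.off n b j τ)
    (fun j => ic (S.κ n (S.w b j)) + S.ρ ^ (n + 1) • (S.rt.J b (j + 1) - S.rt.J b j))
    (fun j hj => by
      have h3 : S.ℓ n (S.w b j) - 1 / 16 ≤ τ - S.Tm n b j := by
        have := Cur1_lt S n b hj
        linarith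
      simp only [S.Γ_fin _ _ h3, Cur1_off_fin S n b (hj.trans hi) h3])
    (fun j hj hj' => by
      have h3 : τ - S.Tm n b j ≤ 1 / 16 := by
        have := Cur1_lt S n b hj
        linarith
      simp only [S.Γ_init _ _ h3, Cur1_off_init S n b hj' h3, add_zero])
  rw [sum_add_distrib (s := range i), ← smul_sum, sum_range_sub, S.rt.J_zero, sub_zero,
    ← Cur1_ic_sum] at h2
  refine h2.trans ?_
  simp only [off, Kp, smul_sub]
  abel

lemma deriv_piece (n : ℕ) (b : Fin (k + 1)) {i : ℕ} (hi : i < S.len b) {τ : ℝ}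
    (h0 : 0 ≤ τ - S.Tm n b i) (h1 : τ - S.Tm n b i ≤ S.ℓ n (S.w b i)) :
    deriv (S.Γ (n + 1) b) τ = deriv (S.Γ n (S.w b i)) (τ - S.Tm n b i) + S.U (n + 1) b τ := by
  have hd : HasDerivAt (S.Γ (n + 1) b) (∑ j ∈ range (S.len b),
      (deriv (S.Γ n (S.w b j)) (τ - S.Tm n b j) + deriv (S.off n b j) τ)) τ := by
    refine HasDerivAt.fun_sum fun j _ => HasDerivAt.add ?_ ?_
    · exact ((contDiff_infty_iff_deriv.mp (S.Γ_smooth n (S.w b j))).1 _).hasDerivAt.comp_sub_const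
        τ (S.Tm n b j : ℝ)
    · exact ((contDiff_infty_iff_deriv.mp (S.off_smooth n b j)).1 _).hasDerivAt
  rw [hd.deriv, sum_add_distrib]
  congr 1
  rw [Cur1_split hi _ (fun _ => 0)]
  · simp
  · intro j hj
    refine Cur1_deriv_ge (S.Γ_smooth n _) (fun t ht => S.Γ_fin n _ ht) ?_
    have := Cur1_lt S n b hj
    linarith
  · intro j hj _
    refine Cur1_deriv_le (S.Γ_smooth n _) (fun t ht => S.Γ_init n _ ht) ?_
    have := Cur1_lt S n b hj
    linarith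

lemma wt_piece (n : ℕ) (b : Fin (k + 1)) {i : ℕ} (hi : i < S.len b) {τ : ℝ}
    (h0 : 0 ≤ τ - S.Tm n b i) (h1 : τ - S.Tm n b i ≤ S.ℓ n (S.w b i)) :
    S.wt n b τ = S.g (n + 1) b τ - (∑ j, S.c j * (S.Kp n b i j : ℝ) - S.a0 * S.Tm n b i) -
      S.g n (S.w b i) (τ - S.Tm n b i) := by
  rw [wt, Cur1_hom_sum S n b i (S.hom n),
    Cur1_split hi _ (fun r => S.lam ^ n * S.ct (S.w b r))]
  · ring
  · intro j hj
    refine S.g_fin n _ ?_
    have := Cur1_lt S n b hj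
    linarith
  · intro j hj _
    refine S.g_init n _ ?_
    have := Cur1_lt S n b hj
    linarith

/-- A point of a level `n + 1` curve is a strand point over a level `n` curve. -/
lemma exists_sub (n : ℕ) (b : Fin (k + 1)) (m : ℤ) (z : Fin d → ℤ) {t : ℝ} (h0 : 0 ≤ t - m)
    (h1 : t - m < S.ℓ (n + 1) b) : ∃ i, S.Val n (S.w b i) (m + S.Tm n b i) b i t ∧
      ic z + S.Γ (n + 1) b (t - m) =
        S.sub n (S.w b i) (m + S.Tm n b i) (z + S.Kp n b i) b i t := by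
  obtain ⟨i, hi, h2, h3⟩ := S.exists_piece n b h0 h1
  have e : t - ((m + S.Tm n b i : ℤ) : ℝ) = t - m - S.Tm n b i := by
    push_cast
    ring
  refine ⟨i, ⟨hi, rfl, by rwa [e], by rwa [e]⟩, ?_⟩
  rw [sub, e, S.Γ_piece n b hi (by linarith) (by linarith), Cur1_ic_add]
  abel

private lemma Cur1_step (n : ℕ) {t : ℝ} (h0 : 0 ≤ t) (h1 : t ≤ S.ℓ n 0) :
    S.Γ (n + 1) 0 t = S.Γ n 0 t + S.ρ ^ (n + 1) • S.rt.p 0 0 (t / S.ℓ n 0) := by
  have hi : 0 < S.len 0 := by have := S.len_two 0; omega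
  have h2 := S.Γ_piece n 0 hi (τ := t) (by rw [Tm_zero]; simp only [Nat.cast_zero]; linarith)
    (by rw [Tm_zero, S.w_first]; simp only [Nat.cast_zero]; linarith)
  rw [Tm_zero, S.w_first, Kp_zero] at h2
  have h3 : ic (0 : Fin d → ℤ) = 0 := by
    ext j
    simp [ic]
  simpa [h3] using h2

private lemma Cur1_ℓ_mono : Monotone fun n => S.ℓ n 0 := by
  refine monotone_nat_of_le_succ fun n => ?_
  have hi : 1 ≤ S.len 0 := by have := S.len_two 0; omega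
  have h1 := (S.Tm_mono n 0).monotone hi
  rw [Tm_len, Tm_succ, Tm_zero, S.w_first, zero_add] at h1
  exact h1

lemma γ_eq {n : ℕ} {t : ℝ} (h : 4 * t ≤ n) : S.γ t = S.Γ n 0 t := by
  have h1 : ⌈4 * t⌉₊ ≤ n := Nat.ceil_le.mpr h
  clear h
  induction n, h1 using Nat.le_induction with
  | base => rfl
  | succ n hn ih =>
    rw [ih]
    by_cases ht : t ≤ 1 / 16
    · rw [S.Γ_init _ _ ht, S.Γ_init _ _ ht]
    · have h2 : 4 * t ≤ n := Nat.ceil_le.mp hn
      have h3 : (n : ℝ) ≤ S.ℓ n 0 := by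
        exact_mod_cast (Nat.lt_two_pow_self.le).trans (S.ℓ_ge_two n 0)
      have h4 := Cur1_one S n 0
      rw [Cur1_step S n (by linarith) (by linarith), S.rt.p_00, smul_zero, add_zero]
      rw [div_le_iff₀ (by linarith)]
      linarith

lemma γ_near (n : ℕ) {t : ℝ} (h0 : 0 ≤ t) (h1 : t ≤ S.ℓ n 0) :
    ‖S.γ t - S.Γ n 0 t‖ ≤ 2 * S.R * S.ρ ^ (n + 1) := by
  have key : ∀ r : ℕ, ‖S.Γ (n + r) 0 t - S.Γ n 0 t‖ ≤
      2 * S.R * S.ρ ^ (n + 1) - 2 * S.R * S.ρ ^ (n + r + 1) := by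
    intro r
    induction r with
    | zero => simp
    | succ r ih =>
      have h2 : t ≤ S.ℓ (n + r) 0 := by
        refine h1.trans ?_
        exact_mod_cast Cur1_ℓ_mono S (Nat.le_add_right n r)
      have hi : 0 < S.len 0 := by have := S.len_two 0; omega
      have h3 : 0 < S.ρ ^ (n + r + 1) := pow_pos S.ρ_pos _
      have h4 : ‖S.ρ ^ (n + r + 1) • S.rt.p 0 0 (t / S.ℓ (n + r) 0)‖ ≤ S.ρ ^ (n + r + 1) * S.R := by
        rw [norm_smul, Real.norm_of_nonneg h3.le]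
        exact mul_le_mul_of_nonneg_left (S.rt.p_bd 0 0 _ hi) h3.le
      rw [← add_assoc, Cur1_step S (n + r) h0 h2, add_sub_right_comm, pow_succ S.ρ (n + r + 1)]
      refine (norm_add_le _ _).trans ?_
      have h5 := mul_nonneg h3.le S.R_nonneg
      have h6 := mul_le_mul_of_nonneg_left S.ρ_lt h5
      nlinarith
  have h2 : 4 * t ≤ ((n + ⌈4 * t⌉₊ : ℕ) : ℝ) := by
    have := Nat.le_ceil (4 * t)
    have h3 : (0 : ℝ) ≤ n := Nat.cast_nonneg n
    push_cast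
    linarith
  rw [S.γ_eq h2]
  refine (key _).trans ?_
  have := mul_nonneg S.R_nonneg (pow_pos S.ρ_pos (n + ⌈4 * t⌉₊ + 1)).le
  linarith

end Pool.Agent.Lib.MP_ce3247_an.Geo
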