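import Pool.Agent.Lib.MP_ce3247_an.Cur1
import Pool.Agent.Lib.MP_ce3247_an.EqFix

/-! Uniform derivative bounds along the level curves. -/

open Finset
open scoped ContDiff

namespace Pool.Agent.Lib.MP_ce3247_an.Geo

variable {d k : ℕ} (S : Geo d k)

section General

variable {F : Type} [NormedAddCommGroup F] [NormedSpace ℝ F]

lemma Cur2_le {f : ℝ → F} (hf : ContDiff ℝ ∞ f) (j : ℕ) : ContDiff ℝ j f :=
  hf.of_le (by exact_mod_cast le_top)

lemma Cur2_left {f : ℝ → F} {a θ : ℝ} {u : F} (h : ∀ x, x ≤ a → f x = u) (hθ : θ < a) (j : ℕ) :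
    iteratedDeriv j f θ = if j = 0 then u else 0 := by
  have : f =ᶠ[nhds θ] fun _ => u :=
    (eventually_lt_nhds hθ).mono fun x hx => h x hx.le
  rw [this.iteratedDeriv_eq, iteratedDeriv_const]

lemma Cur2_right {f : ℝ → F} {a θ : ℝ} {u : F} (h : ∀ x, a ≤ x → f x = u) (hθ : a < θ) (j : ℕ) :
    iteratedDeriv j f θ = if j = 0 then u else 0 := by
  have : f =ᶠ[nhds θ] fun _ => u :=
    (eventually_gt_nhds hθ).mono fun x hx => h x hx.le
  rw [this.iteratedDeriv_eq, iteratedDeriv_const]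

lemma Cur2_step {f : ℝ → F} (hf : ContDiff ℝ ∞ f) {a b : ℝ} {u v : F} (hu : ∀ x, x ≤ a → f x = u)
    (hv : ∀ x, b ≤ x → f x = v) (j : ℕ) : ∃ C, ∀ θ, ‖iteratedDeriv j f θ‖ ≤ C := by
  obtain ⟨C, hC⟩ := (isCompact_Icc (a := a) (b := b)).exists_bound_of_continuousOn
    ((Cur2_le hf j).continuous_iteratedDeriv' j).continuousOn
  refine ⟨max C (max ‖u‖ ‖v‖), fun θ => ?_⟩
  rcases lt_or_ge θ a with h | h
  · rw [Cur2_left hu h]
    refine le_max_of_le_right (le_max_of_le_left ?_)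
    split_ifs <;> simp
  rcases lt_or_ge b θ with h' | h'
  · rw [Cur2_right hv h']
    refine le_max_of_le_right (le_max_of_le_right ?_)
    split_ifs <;> simp
  exact le_max_of_le_left (hC θ ⟨h, h'⟩)

lemma Cur2_fin {ι : Type} [Finite ι] (φ : ι → ℝ → ℝ) (h : ∀ i, ∃ C, ∀ θ, φ i θ ≤ C) :
    ∃ C, 0 ≤ C ∧ ∀ i θ, φ i θ ≤ C := by
  choose C hC using h
  obtain ⟨M, hM⟩ := (Set.finite_range C).bddAbove
  exact ⟨max M 0, le_max_right _ _, fun i θ =>
    (hC i θ).trans ((hM ⟨i, rfl⟩).trans (le_max_left _ _))⟩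

lemma Cur2_scale {f : ℝ → F} (hf : ContDiff ℝ ∞ f) (T l : ℝ) (j : ℕ) (τ : ℝ) :
    iteratedDeriv j (fun x => f ((x - T) / l)) τ = l⁻¹ ^ j • iteratedDeriv j f ((τ - T) / l) := by
  have h1 := congrFun (iteratedDeriv_comp_sub_const j (fun x => f (l⁻¹ * x)) T) τ
  have h2 := congrFun (iteratedDeriv_comp_const_smul (Cur2_le hf j) l⁻¹) (τ - T)
  simp only [div_eq_inv_mul]
  rw [← h2]
  exact h1

lemma Cur2_scale_smooth {f : ℝ → F} (hf : ContDiff ℝ ∞ f) (T l : ℝ) :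
    ContDiff ℝ ∞ fun x => f ((x - T) / l) :=
  hf.comp ((contDiff_id.sub contDiff_const).div_const l)

lemma Cur2_lip {f : ℝ → F} (hf : ContDiff ℝ ∞ f) {C : ℝ} (h : ∀ x, ‖iteratedDeriv 1 f x‖ ≤ C)
    (x y : ℝ) : ‖f x - f y‖ ≤ C * |x - y| := by
  have hd : Differentiable ℝ f := hf.differentiable (by simp)
  have := convex_univ.norm_image_sub_le_of_norm_deriv_le (f := f) (C := C) (fun z _ => hd z)
    (fun z _ => by simpa using h z) (Set.mem_univ y) (Set.mem_univ x)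
  simpa using this

end General

lemma Cur2_len (b : Fin (k + 1)) : (S.len b : ℝ) ≤ ∑ a, (S.len a : ℝ) :=
  single_le_sum (f := fun a => (S.len a : ℝ)) (fun _ _ => Nat.cast_nonneg _) (mem_univ b)

lemma Cur2_sum {b : Fin (k + 1)} {φ : ℕ → ℝ} {C : ℝ} (hC : 0 ≤ C)
    (h : ∀ i, i < S.len b → φ i ≤ C) : ∑ i ∈ range (S.len b), φ i ≤ (∑ a, (S.len a : ℝ)) * C := by
  have := sum_le_card_nsmul (range (S.len b)) φ C fun i hi => h i (mem_range.1 hi)
  rw [card_range, nsmul_eq_mul] at this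
  exact this.trans (mul_le_mul_of_nonneg_right (S.Cur2_len b) hC)

lemma Cur2_inv (n : ℕ) (a : Fin (k + 1)) {j : ℕ} (hj : 1 ≤ j) :
    (S.ℓ n a : ℝ)⁻¹ ^ j ≤ (S.L ^ n)⁻¹ := by
  have h1 : (1 : ℝ) ≤ S.ℓ n a := by exact_mod_cast S.ℓ_pos n a
  have hL : 0 < S.L := by linarith [S.one_lt_L]
  calc (S.ℓ n a : ℝ)⁻¹ ^ j ≤ (S.ℓ n a : ℝ)⁻¹ ^ 1 :=
        pow_le_pow_of_le_one (by positivity) (inv_le_one_of_one_le₀ h1) hj
    _ ≤ (S.L ^ n)⁻¹ := by
        rw [pow_one]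
        exact inv_anti₀ (by positivity) (S.ℓ_ge n a)

lemma Cur2_ratio : 0 < S.ρ / S.L ∧ S.ρ / S.L ≤ 1 / 2 := by
  have hL := S.one_lt_L
  have h1 := S.ρ_lt
  have h0 := S.ρ_pos
  refine ⟨by positivity, ?_⟩
  rw [div_le_iff₀ (by linarith)]
  linarith

lemma p_bound (r : ℕ) : ∃ C, 0 ≤ C ∧ ∀ b i j θ, i < S.len b → j ≤ r →
    ‖iteratedDeriv j (S.rt.p b i) θ‖ ≤ C := by
  obtain ⟨C, hC, h⟩ := Cur2_fin (ι := (Σ b : Fin (k + 1), Fin (S.len b)) × Fin (r + 1))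
    (fun q θ => ‖iteratedDeriv q.2 (S.rt.p q.1.1 q.1.2) θ‖) fun q =>
      Cur2_step (S.rt.p_smooth _ _) (fun x hx => S.rt.p_init _ _ x q.1.2.2 hx)
        (fun x hx => S.rt.p_fin _ _ x q.1.2.2 hx) _
  exact ⟨C, hC, fun b i j θ hi hj => h (⟨b, ⟨i, hi⟩⟩, ⟨j, Nat.lt_succ_of_le hj⟩) θ⟩

lemma Cur2_G0 (r : ℕ) : ∃ C, 0 ≤ C ∧ ∀ a j θ, j ≤ r → ‖iteratedDeriv j (S.bs.G0 a) θ‖ ≤ C := by
  obtain ⟨C, hC, h⟩ := Cur2_fin (ι := Fin (k + 1) × Fin (r + 1))
    (fun q θ => ‖iteratedDeriv q.2 (S.bs.G0 q.1) θ‖) fun q =>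
      Cur2_step (S.bs.G0_smooth _) (S.bs.G0_init _) (S.bs.G0_fin _) _
  exact ⟨C, hC, fun a j θ hj => h (a, ⟨j, Nat.lt_succ_of_le hj⟩) θ⟩

lemma Cur2_strand (r : ℕ) : ∃ C, 0 ≤ C ∧ ∀ n a b i j (T τ : ℝ), i < S.len b → 1 ≤ j → j ≤ r →
    ‖iteratedDeriv j (fun x => S.ρ ^ (n + 1) • S.rt.p b i ((x - T) / S.ℓ n a)) τ‖ ≤
      C * (S.ρ / S.L) ^ (n + 1) := by
  obtain ⟨C, hC, h⟩ := S.p_bound r
  have hL : 0 < S.L := by linarith [S.one_lt_L]
  have hρ := S.ρ_pos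
  refine ⟨C * S.L, by positivity, fun n a b i j T τ hi hj hr => ?_⟩
  rw [iteratedDeriv_fun_const_smul_field, Cur2_scale (S.rt.p_smooth b i), norm_smul, norm_smul,
    Real.norm_of_nonneg (by positivity), Real.norm_of_nonneg (by positivity)]
  calc _ ≤ S.ρ ^ (n + 1) * ((S.L ^ n)⁻¹ * C) := by
        gcongr
        · exact S.Cur2_inv n a hj
        · exact h b i j _ hi hr
    _ = _ := by
        rw [div_pow]
        field_simp
        ring

lemma U_bound (r : ℕ) : ∃ C, 0 ≤ C ∧ ∀ n a j τ, j ≤ r →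
    ‖iteratedDeriv j (S.U n a) τ‖ ≤ C * (S.ρ / S.L) ^ n := by
  obtain ⟨C₀, hC₀, h₀⟩ := S.Cur2_G0 (r + 1)
  obtain ⟨C₁, hC₁, h₁⟩ := S.Cur2_strand (r + 1)
  have hM : 0 ≤ ∑ a, (S.len a : ℝ) := by positivity
  have hq := S.Cur2_ratio.1
  refine ⟨C₀ + (∑ a, (S.len a : ℝ)) * C₁, by positivity, fun n a j τ hj => ?_⟩
  cases n with
  | zero =>
    have := h₀ a (j + 1) τ (by omega)
    rw [iteratedDeriv_succ'] at this
    have h2 : 0 ≤ (∑ a, (S.len a : ℝ)) * C₁ := by positivity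
    simp only [U, pow_zero, mul_one]
    linarith
  | succ n =>
    have e : iteratedDeriv j (S.U (n + 1) a) τ =
        ∑ i ∈ range (S.len a), iteratedDeriv j (deriv (S.off n a i)) τ := by
      refine iteratedDeriv_fun_sum fun i _ => ?_
      exact (Cur2_le (contDiff_infty_iff_deriv.1 (S.off_smooth n a i)).2 j).contDiffAt
    rw [e]
    refine (norm_sum_le _ _).trans ((S.Cur2_sum (C := C₁ * (S.ρ / S.L) ^ (n + 1))
      (by positivity) fun i hi => ?_).trans ?_)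
    · rw [← iteratedDeriv_succ']
      have e2 : S.off n a i = fun x => -(S.ρ ^ (n + 1) • S.rt.J a i) +
          S.ρ ^ (n + 1) • S.rt.p a i ((x - S.Tm n a i) / S.ℓ n (S.w a i)) := by
        funext x
        simp only [off, smul_sub]
        abel
      rw [e2, iteratedDeriv_const_add (Nat.succ_pos j)]
      exact h₁ n _ a i (j + 1) _ τ hi (by omega) (by omega)
    · have : 0 ≤ C₀ * (S.ρ / S.L) ^ (n + 1) := by positivity
      nlinarith

lemma Γ_bound (r : ℕ) : ∃ C, 0 ≤ C ∧ ∀ n a j τ, 1 ≤ j → j ≤ r →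
    ‖iteratedDeriv j (S.Γ n a) τ‖ ≤ C := by
  obtain ⟨C₀, hC₀, h₀⟩ := S.Cur2_G0 r
  obtain ⟨C₁, hC₁, h₁⟩ := S.Cur2_strand r
  have key : ∀ n a j τ, 1 ≤ j → j ≤ r →
      ‖iteratedDeriv j (S.Γ n a) τ‖ ≤ C₀ + C₁ * (1 - (1 / 2) ^ n) := by
    intro n
    induction n with
    | zero =>
      intro a j τ _ hj
      simpa [Γ] using h₀ a j τ hj
    | succ n ih =>
      intro b j τ hj hr
      have hp : ((1 : ℝ) / 2) ^ (n + 1) ≤ 1 := pow_le_one₀ (by norm_num) (by norm_num)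
      have hn : 0 ≤ C₀ + C₁ * (1 - (1 / 2) ^ (n + 1)) :=
        add_nonneg hC₀ (mul_nonneg hC₁ (by linarith))
      rcases lt_or_ge τ 0 with h | h
      · rw [Cur2_left (fun x hx => S.Γ_init (n + 1) b hx) (by linarith), if_neg (by omega),
          norm_zero]
        exact hn
      rcases le_or_gt (S.ℓ (n + 1) b : ℝ) τ with h' | h'
      · rw [Cur2_right (fun x hx => S.Γ_fin (n + 1) b hx) (by linarith), if_neg (by omega),
          norm_zero]
        exact hn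
      obtain ⟨i, hi, k0, k1⟩ := S.exists_piece n b h h'
      have ev : S.Γ (n + 1) b =ᶠ[nhds τ] fun x => ic (S.Kp n b i) +
          ((fun x => S.Γ n (S.w b i) (x - S.Tm n b i)) +
            fun x => S.ρ ^ (n + 1) • S.rt.p b i ((x - S.Tm n b i) / S.ℓ n (S.w b i))) x := by
        have a1 : (S.Tm n b i : ℝ) - 1 / 16 < τ := by linarith
        have a2 : τ < (S.Tm n b i : ℝ) + S.ℓ n (S.w b i) + 1 / 16 := by linarith
        filter_upwards [eventually_gt_nhds a1, eventually_lt_nhds a2] with x x1 x2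
        rw [S.Γ_piece n b hi (by linarith) (by linarith), Pi.add_apply, add_assoc]
      have s1 : ContDiff ℝ ∞ fun x => S.Γ n (S.w b i) (x - S.Tm n b i) :=
        (S.Γ_smooth n _).comp (contDiff_id.sub contDiff_const)
      have s2 : ContDiff ℝ ∞ fun x =>
          S.ρ ^ (n + 1) • S.rt.p b i ((x - S.Tm n b i) / S.ℓ n (S.w b i)) :=
        (Cur2_scale_smooth (S.rt.p_smooth b i) _ _).const_smul _
      rw [ev.iteratedDeriv_eq, iteratedDeriv_const_add hj,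
        iteratedDeriv_add (Cur2_le s1 j).contDiffAt (Cur2_le s2 j).contDiffAt,
        iteratedDeriv_comp_sub_const]
      have b1 := ih (S.w b i) j (τ - S.Tm n b i) hj hr
      have b2 := h₁ n (S.w b i) b i j (S.Tm n b i) τ hi hj hr
      have b3 : C₁ * (S.ρ / S.L) ^ (n + 1) ≤ C₁ * (1 / 2) ^ (n + 1) :=
        mul_le_mul_of_nonneg_left (pow_le_pow_left₀ S.Cur2_ratio.1.le S.Cur2_ratio.2 _) hC₁
      have b4 : C₁ * (1 - (1 / 2) ^ (n + 1)) =
          C₁ * (1 - (1 / 2) ^ n) + C₁ * (1 / 2) ^ (n + 1) := by ring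
      refine (norm_add_le _ _).trans ?_
      linarith
  refine ⟨C₀ + C₁, by positivity, fun n a j τ hj hr => (key n a j τ hj hr).trans ?_⟩
  have : 0 ≤ C₁ * ((1 : ℝ) / 2) ^ n := by positivity
  linarith

lemma g_bound : ∃ C, 0 ≤ C ∧ ∀ n a τ, |S.g n a τ| ≤ C * |S.lam| ^ n ∧
    |deriv (S.g n a) τ| ≤ C * (|S.lam| / S.L) ^ n := by
  have hs : ContDiff ℝ ∞ fun θ : ℝ => Real.smoothTransition ((θ - 1 / 16) * (8 / 7)) :=
    Real.smoothTransition.contDiff.comp ((contDiff_id.sub contDiff_const).mul contDiff_const)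
  obtain ⟨C₀, h₀⟩ := Cur2_step hs (a := 1 / 16) (b := 15 / 16) (u := 0) (v := 1)
    (fun x hx => Real.smoothTransition.zero_of_nonpos (by nlinarith))
    (fun x hx => Real.smoothTransition.one_of_one_le (by nlinarith)) 1
  have hC₀ : 0 ≤ C₀ := (norm_nonneg _).trans (h₀ 0)
  obtain ⟨K, hK, hct⟩ := Cur2_fin (fun a (_ : ℝ) => |S.ct a|) fun a => ⟨_, fun _ => le_rfl⟩
  have hL : 0 < S.L := by linarith [S.one_lt_L]
  refine ⟨K * (1 + C₀), by positivity, fun n a τ => ⟨?_, ?_⟩⟩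
  · unfold g
    rw [abs_mul, abs_mul, abs_pow, abs_of_nonneg (Real.smoothTransition.nonneg _)]
    calc _ ≤ |S.lam| ^ n * K * (1 + C₀) := by
          gcongr
          · exact Real.smoothTransition.nonneg _
          · exact hct a 0
          · linarith [Real.smoothTransition.le_one ((τ / S.ℓ n a - 1 / 16) * (8 / 7))]
      _ = _ := by ring
  · have e : S.g n a = fun x => (S.lam ^ n * S.ct a) •
        (fun θ : ℝ => Real.smoothTransition ((θ - 1 / 16) * (8 / 7))) ((x - 0) / S.ℓ n a) := by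
      funext x
      simp [g]
    rw [← iteratedDeriv_one, e, iteratedDeriv_fun_const_smul_field, Cur2_scale hs, smul_eq_mul,
      smul_eq_mul, abs_mul, abs_mul, abs_mul, abs_pow, abs_of_nonneg (a := _ ^ 1) (by positivity)]
    calc _ ≤ |S.lam| ^ n * K * ((S.L ^ n)⁻¹ * (1 + C₀)) := by
          gcongr
          · exact hct a 0
          · exact S.Cur2_inv n a le_rfl
          · exact (h₀ _).trans (by linarith)
      _ = _ := by
          rw [div_pow]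
          field_simp

lemma wt_bound : ∃ C, 0 ≤ C ∧ ∀ n b τ, |S.wt n b τ| ≤ C * |S.lam| ^ n ∧
    |deriv (S.wt n b) τ| ≤ C * (|S.lam| / S.L) ^ n := by
  obtain ⟨C, hC, h⟩ := S.g_bound
  have hM : 0 ≤ ∑ a, (S.len a : ℝ) := by positivity
  have hL := S.one_lt_L
  have l1 : |S.lam| ≤ 1 := by linarith [S.lam_lt, S.ρ_lt]
  have l2 : |S.lam| / S.L ≤ 1 := by
    rw [div_le_iff₀ (by linarith)]
    linarith
  have l0 : 0 ≤ |S.lam| / S.L := div_nonneg (abs_nonneg _) (by linarith)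
  refine ⟨C + (∑ a, (S.len a : ℝ)) * C, by positivity, fun n b τ => ⟨?_, ?_⟩⟩
  · unfold wt
    have a1 := (h (n + 1) b τ).1.trans (mul_le_mul_of_nonneg_left
      (pow_le_pow_of_le_one (abs_nonneg _) l1 (Nat.le_succ n)) hC)
    have a2 := (abs_sum_le_sum_abs _ _).trans (S.Cur2_sum (b := b) (C := C * |S.lam| ^ n)
      (φ := fun i => |S.g n (S.w b i) (τ - S.Tm n b i)|) (by positivity) fun i _ => (h n _ _).1)
    refine (abs_sub _ _).trans ?_
    nlinarith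
  · have hd : ∀ m a x, HasDerivAt (S.g m a) (deriv (S.g m a) x) x := fun m a x =>
      ((S.g_smooth m a).differentiable (by simp) x).hasDerivAt
    have e : HasDerivAt (S.wt n b) (deriv (S.g (n + 1) b) τ -
        ∑ i ∈ range (S.len b), deriv (S.g n (S.w b i)) (τ - S.Tm n b i)) τ :=
      (hd _ _ _).fun_sub (HasDerivAt.fun_sum fun i _ => (hd n (S.w b i) _).comp_sub_const τ _)
    rw [e.deriv]
    have a1 := (h (n + 1) b τ).2.trans (mul_le_mul_of_nonneg_left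
      (pow_le_pow_of_le_one l0 l2 (Nat.le_succ n)) hC)
    have a2 := (abs_sum_le_sum_abs _ _).trans (S.Cur2_sum (b := b)
      (C := C * (|S.lam| / S.L) ^ n) (φ := fun i => |deriv (S.g n (S.w b i)) (τ - S.Tm n b i)|)
      (by positivity) fun i _ => (h n _ _).2)
    refine (abs_sub _ _).trans ?_
    nlinarith

lemma Γ_lip : ∃ C, 0 ≤ C ∧ ∀ n a τ τ', ‖S.Γ n a τ - S.Γ n a τ'‖ ≤ C * |τ - τ'| := by
  obtain ⟨C, hC, h⟩ := S.Γ_bound 1
  exact ⟨C, hC, fun n a => Cur2_lip (S.Γ_smooth n a) fun x => h n a 1 x le_rfl le_rfl⟩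

lemma sub_lip : ∃ C, 0 ≤ C ∧ ∀ n a m z b i t t', i < S.len b →
    ‖S.sub n a m z b i t - S.sub n a m z b i t'‖ ≤ C * |t - t'| := by
  obtain ⟨C₀, hC₀, h₀⟩ := S.Γ_lip
  obtain ⟨C₁, hC₁, h₁⟩ := S.Cur2_strand 1
  refine ⟨C₀ + C₁, by positivity, fun n a m z b i t t' hi => ?_⟩
  have a1 := h₀ n a (t - m) (t' - m)
  rw [sub_sub_sub_cancel_right] at a1
  have a2 := Cur2_lip ((Cur2_scale_smooth (S.rt.p_smooth b i) m (S.ℓ n a)).const_smul
    (S.ρ ^ (n + 1))) (C := C₁) (fun x => (h₁ n a b i 1 m x hi le_rfl le_rfl).trans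
      (mul_le_of_le_one_right hC₁ (pow_le_one₀ S.Cur2_ratio.1.le
        (S.Cur2_ratio.2.trans (by norm_num))))) t t'
  have e : S.sub n a m z b i t - S.sub n a m z b i t' = (S.Γ n a (t - m) - S.Γ n a (t' - m)) +
      (S.ρ ^ (n + 1) • S.rt.p b i ((t - m) / S.ℓ n a) -
        S.ρ ^ (n + 1) • S.rt.p b i ((t' - m) / S.ℓ n a)) := by
    simp only [sub]
    abel
  rw [e, add_mul]
  exact (norm_add_le _ _).trans (add_le_add a1 a2)

end Pool.Agent.Lib.MP_ce3247_an.Geo
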