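import Pool.Agent.Lib.MP_ce3247_an.Defs

/-! The analytic data from which the Lagrangian is built. -/

open MeasureTheory Filter Topology

namespace Pool.Agent.Lib.MP_ce3247_an

variable {d k : ℕ}

/-- An integer vector as a real vector. -/
def ic (z : Fin d → ℤ) : E d := fun i => (z i : ℝ)

/-- Deck transformations of `ℝ^d × ℝ → T^d × T`. -/
def shift (z : Fin d → ℤ) (m : ℤ) (y : E d × ℝ) : E d × ℝ := (y.1 + ic z, y.2 + m)

structure Data (d k : ℕ) where
  X : E d × ℝ → E d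
  P : E d × ℝ → ℝ
  γ : ℝ → E d
  h : E d
  c : Fin (d - k + 1) → E d
  F : Fin (d - k + 1) → E d × ℝ → ℝ
  r : ℕ
  two_le : 2 ≤ r
  X_smooth : ContDiff ℝ r X
  P_smooth : ContDiff ℝ r P
  X_per : ∀ z m y, X (shift z m y) = X y
  P_per : ∀ z m y, P (shift z m y) = P y
  P_nonneg : ∀ y, 0 ≤ P y
  γ_deriv : ∀ t, 0 < t → HasDerivAt γ (X (γ t, t)) t
  γ_P : ∀ t, 0 < t → P (γ t, t) = 0
  rot : ∃ T : ℕ → ℝ, Tendsto T atTop atTop ∧
    Tendsto (fun n => (T n)⁻¹ • γ (T n)) atTop (𝓝 h)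
  c_ind : LinearIndependent ℝ c
  F_smooth : ∀ i, ContDiff ℝ 1 (F i)
  F_per : ∀ i z m y, F i (shift z m y) =
    F i y + ∑ j, c i j * (z j : ℝ) - (∑ j, c i j * h j) * (m : ℝ)
  dom : ∀ i y v, fderiv ℝ (F i) y (v, 1) ≤ (∑ j, (v j - X y j) ^ 2) / 2 + P y

/-- The representative in `[0, 1)`. -/
noncomputable def rep (x : UnitAddCircle) : ℝ := (AddCircle.equivIco 1 0 x : ℝ)

/-- A section of the covering `ℝ^d × ℝ → T^d × T`. -/
noncomputable def sec (z : Phase d) : E d × ℝ := (fun i => rep (z.1 i), rep z.2.2)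

namespace Data

variable (D : Data d k)

/-- The Lagrangian `|v - X|^2 / 2 + P`. -/
noncomputable def Lag (z : Phase d) : ℝ :=
  (∑ j, (z.2.1 j - D.X (sec z) j) ^ 2) / 2 + D.P (sec z)

/-- The Euler-Lagrange field in the coordinates `(x, p, t)`, `p = v - X`. -/
noncomputable def G (z : E d × E d × ℝ) : E d × E d × ℝ :=
  (D.X (z.1, z.2.2) + z.2.1,
    fun j => fderiv ℝ D.P (z.1, z.2.2) (Pi.single j 1, 0) -
      ∑ i, z.2.1 i * fderiv ℝ D.X (z.1, z.2.2) (Pi.single j 1, 0) i, 1)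

/-- The distinguished orbit in phase space. -/
noncomputable def orb (t : ℝ) : Phase d := proj (D.γ t) (D.X (D.γ t, t)) t

end Data

end Pool.Agent.Lib.MP_ce3247_an
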