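import Mathlib

/-! Time-periodic Tonelli Lagrangians on the torus and Mather's beta function. -/

open MeasureTheory Filter Topology

namespace Pool.Agent.Lib.MP_ce3247_an

/-- `ℝ^d`. -/
abbrev E (d : ℕ) := Fin d → ℝ

/-- The torus `T^d`. -/
abbrev Tor (d : ℕ) := Fin d → UnitAddCircle

/-- The extended phase space `TM × T` for `M = T^d`. -/
abbrev Phase (d : ℕ) := Tor d × E d × UnitAddCircle

variable {d : ℕ}

/-- The covering map `ℝ^d → T^d`. -/
def toTor (x : E d) : Tor d := fun i => (x i : UnitAddCircle)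

/-- The point of `TM × T` below `(x, v, t)`. -/
def proj (x v : E d) (t : ℝ) : Phase d := (toTor x, v, (t : UnitAddCircle))

/-- `x` with velocity `v` solves the Euler-Lagrange equation of `L` on all of `ℝ`, starting at
time `t₀`. -/
def IsEL (L : Phase d → ℝ) (t₀ : ℝ) (x v : ℝ → E d) : Prop :=
  ∀ s, HasDerivAt x (v s) s ∧
    HasDerivAt (fun σ => fderiv ℝ (fun w => L (proj (x σ) w (t₀ + σ))) (v σ))
      (fderiv ℝ (fun y => L (proj y (v s) (t₀ + s))) (x s)) s

/-- `L` is a Tonelli Lagrangian of class `C^r` and `Φ` is its complete Euler-Lagrange flow. -/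
structure Tonelli (r : ℕ) (L : Phase d → ℝ) (Φ : ℝ → Phase d → Phase d) : Prop where
  smooth : ContDiff ℝ r fun z : E d × E d × ℝ => L (proj z.1 z.2.1 z.2.2)
  convex : ∀ x v t w, w ≠ 0 → 0 < iteratedFDeriv ℝ 2 (fun u => L (proj x u t)) v ![w, w]
  superlinear : ∀ x t, Tendsto (fun v => L (proj x v t) / ‖v‖) (cocompact (E d)) atTop
  complete : ∀ x₀ v₀ t₀, ∃ x v, IsEL L t₀ x v ∧ x 0 = x₀ ∧ v 0 = v₀
  flow : ∀ t₀ x v, IsEL L t₀ x v → ∀ s, Φ s (proj (x 0) (v 0) t₀) = proj (x s) (v s) (t₀ + s)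

/-- Compactly supported invariant probability measures of homology class `h`. -/
def Minv (Φ : ℝ → Phase d → Phase d) (h : E d) : Set (Measure (Phase d)) :=
  {μ | IsProbabilityMeasure μ ∧ (∃ K, IsCompact K ∧ μ Kᶜ = 0) ∧
    (∀ s, MeasurePreserving (Φ s) μ μ) ∧ ∫ z, z.2.1 ∂μ = h}

/-- Mather's beta function. -/
noncomputable def beta (L : Phase d → ℝ) (Φ : ℝ → Phase d → Phase d) (h : E d) : EReal :=
  ⨅ μ ∈ Minv Φ h, ((∫ z, L z ∂μ : ℝ) : EReal)

/-- `β` is differentiable in `k` directions at `h`: the one-sided directional derivative is linear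
on some `k`-dimensional subspace. -/
def DiffIn (β : E d → EReal) (h : E d) (k : ℕ) : Prop :=
  ∃ W : Submodule ℝ (E d), Module.finrank ℝ W = k ∧ ∃ l : W →ₗ[ℝ] ℝ, ∀ w : W,
    Tendsto (fun s : ℝ => (β (h + s • (w : E d)) - β h) / (s : EReal)) (𝓝[>] 0) (𝓝 (l w : EReal))

/-- The subtorus `T^k × 0` of `T^d`. -/
def subTor (d k : ℕ) : Set (Tor d) := {x | ∀ j : Fin d, k ≤ j.val → x j = 0}

end Pool.Agent.Lib.MP_ce3247_an
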