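import Pool.Agent.Lib.MP_ce3247_an.Data

/-! Locally finite sums with uniformly bounded overlap, periodic functions, lattice cutoffs. -/

open MeasureTheory Filter Topology

namespace Pool.Agent.Lib.MP_ce3247_an

variable {d : ℕ}

lemma bdd_of_per {F : Type*} [NormedAddCommGroup F] {f : E d × ℝ → F} (hf : Continuous f)
    (hp : ∀ z m y, f (shift z m y) = f y) : ∃ C, 0 ≤ C ∧ ∀ y, ‖f y‖ ≤ C := by
  obtain ⟨C, hC⟩ := (isCompact_closedBall (0 : E d × ℝ) 1).exists_bound_of_continuousOn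
    hf.continuousOn
  refine ⟨max C 0, le_max_right _ _, fun y => ?_⟩
  have e : y = shift (fun i => ⌊y.1 i⌋) ⌊y.2⌋ (fun i => Int.fract (y.1 i), Int.fract y.2) := by
    refine Prod.ext (funext fun i => ?_) ?_
    · simp [shift, ic]
    · simp [shift]
  have k : ∀ x : ℝ, ‖Int.fract x‖ ≤ 1 := fun x => by
    rw [Real.norm_eq_abs, abs_of_nonneg (Int.fract_nonneg x)]
    exact (Int.fract_lt_one x).le
  rw [e, hp]
  refine (hC _ ?_).trans (le_max_left _ _)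
  rw [mem_closedBall_zero_iff, Prod.norm_def]
  exact max_le ((pi_norm_le_iff_of_nonneg zero_le_one).2 fun i => k _) (k _)

lemma fderiv_per {F : Type*} [NormedAddCommGroup F] [NormedSpace ℝ F] {f : E d × ℝ → F}
    {z : Fin d → ℤ} {m : ℤ} {a : F} (hp : ∀ y, f (shift z m y) = f y + a) (y : E d × ℝ) :
    fderiv ℝ f (shift z m y) = fderiv ℝ f y := by
  have e : ∀ y : E d × ℝ, shift z m y = y + (ic z, (m : ℝ)) := fun y => rfl
  have e1 : (fun y => f (y + (ic z, (m : ℝ)))) = fun y => f y + a := funext fun y => hp y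
  rw [e, ← fderiv_comp_add_right, e1, fderiv_add_const]

section finsum

variable {Y F ι : Type*} [NormedAddCommGroup Y] [NormedSpace ℝ Y] [NormedAddCommGroup F]
  [NormedSpace ℝ F] {G : ι → Y → F} {N r : ℕ}

omit [NormedSpace ℝ Y] [NormedSpace ℝ F] in
lemma finsum_eventuallyEq {y : Y} {s : Finset ι} (h : ∀ᶠ y' in 𝓝 y, ∀ i, i ∉ s → G i y' = 0) :
    (fun y' => ∑ᶠ i, G i y') =ᶠ[𝓝 y] fun y' => ∑ i ∈ s, G i y' := by
  filter_upwards [h] with y' hy'
  refine finsum_eq_sum_of_support_subset _ fun i hi => ?_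
  by_contra hs
  exact hi (hy' i hs)

lemma contDiff_finsum' (hG : ∀ i, ContDiff ℝ r (G i))
    (hloc : ∀ y, ∃ s : Finset ι, ∀ᶠ y' in 𝓝 y, ∀ i, i ∉ s → G i y' = 0) :
    ContDiff ℝ r fun y => ∑ᶠ i, G i y := by
  refine contDiff_iff_contDiffAt.2 fun y => ?_
  obtain ⟨s, hs⟩ := hloc y
  exact (ContDiff.sum fun i _ => hG i).contDiffAt.congr_of_eventuallyEq (finsum_eventuallyEq hs)

lemma norm_iteratedFDeriv_finsum_le (hG : ∀ i, ContDiff ℝ r (G i))
    (hloc : ∀ y, ∃ s : Finset ι, s.card ≤ N ∧ ∀ᶠ y' in 𝓝 y, ∀ i, i ∉ s → G i y' = 0)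
    {j : ℕ} (hj : j ≤ r) {M : ℝ} (hM : 0 ≤ M) (hb : ∀ i y, ‖iteratedFDeriv ℝ j (G i) y‖ ≤ M)
    (y : Y) : ‖iteratedFDeriv ℝ j (fun y => ∑ᶠ i, G i y) y‖ ≤ N * M := by
  obtain ⟨s, hN, hs⟩ := hloc y
  have hj' : (j : WithTop ℕ∞) ≤ r := by exact_mod_cast hj
  rw [((finsum_eventuallyEq hs).iteratedFDeriv ℝ j).eq_of_nhds,
    iteratedFDeriv_fun_sum_apply fun i _ => ((hG i).of_le hj').contDiffAt]
  refine (norm_sum_le _ _).trans ((Finset.sum_le_card_nsmul _ _ M fun i _ => hb i y).trans ?_)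
  rw [nsmul_eq_mul]
  exact mul_le_mul_of_nonneg_right (by exact_mod_cast hN) hM

end finsum

end Pool.Agent.Lib.MP_ce3247_an
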