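import Pool.Agent.Lib.MP_ce3247_an.Data
import Pool.Agent.Lib.MP_ce3247_an.Per
import Pool.Agent.Lib.MP_7dd29b_gt.AbsFlow

/-! The lifted Euler-Lagrange flow is complete. -/

open MeasureTheory Filter Topology

namespace Pool.Agent.Lib.MP_ce3247_an.Data

open Pool.Agent.Lib.MP_7dd29b_gt

variable {d k : ℕ} (D : Data d k)

private lemma Flow_two : ((1 : WithTop ℕ∞) + 1) ≤ (D.r : WithTop ℕ∞) := by
  have h : ((2 : ℕ) : WithTop ℕ∞) ≤ (D.r : WithTop ℕ∞) := by exact_mod_cast D.two_le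
  simpa [one_add_one_eq_two] using h

private lemma Flow_one : (1 : WithTop ℕ∞) ≤ (D.r : WithTop ℕ∞) :=
  le_trans le_self_add (Flow_two D)

private lemma Flow_dX : ContDiff ℝ 1 (fderiv ℝ D.X) := D.X_smooth.fderiv_right (Flow_two D)

private lemma Flow_dP : ContDiff ℝ 1 (fderiv ℝ D.P) := D.P_smooth.fderiv_right (Flow_two D)

lemma G_smooth : ContDiff ℝ 1 D.G := by
  have hπ : ContDiff ℝ 1 fun z : E d × E d × ℝ => (z.1, z.2.2) := by fun_prop
  have hX := (D.X_smooth.of_le (Flow_one D)).comp hπ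
  have hdX := (Flow_dX D).comp hπ
  have hdP := (Flow_dP D).comp hπ
  unfold G
  refine (hX.add (by fun_prop)).prodMk (ContDiff.prodMk ?_ contDiff_const)
  refine contDiff_pi.2 fun j => ContDiff.sub (hdP.clm_apply contDiff_const) ?_
  refine ContDiff.sum fun i _ => ContDiff.mul (by fun_prop) ?_
  exact (contDiff_pi.1 (hdX.clm_apply (contDiff_const (c := ((Pi.single j 1 : E d), (0 : ℝ))))) i)

private lemma Flow_dX_per (z : Fin d → ℤ) (m : ℤ) (y : E d × ℝ) :
    fderiv ℝ D.X (shift z m y) = fderiv ℝ D.X y :=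
  fderiv_per (a := 0) (fun y => by rw [D.X_per, add_zero]) y

private lemma Flow_dP_per (z : Fin d → ℤ) (m : ℤ) (y : E d × ℝ) :
    fderiv ℝ D.P (shift z m y) = fderiv ℝ D.P y :=
  fderiv_per (a := 0) (fun y => by rw [D.P_per, add_zero]) y

lemma G_per (z : Fin d → ℤ) (m : ℤ) (x p : E d) (t : ℝ) :
    D.G (x + ic z, p, t + m) = D.G (x, p, t) := by
  have h1 : D.X (x + ic z, t + m) = D.X (x, t) := D.X_per z m (x, t)
  have h2 : fderiv ℝ D.X (x + ic z, t + m) = fderiv ℝ D.X (x, t) := Flow_dX_per D z m (x, t)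
  have h3 : fderiv ℝ D.P (x + ic z, t + m) = fderiv ℝ D.P (x, t) := Flow_dP_per D z m (x, t)
  simp only [G, h1, h2, h3]

/-- Linear growth of the lifted field. -/
private lemma Flow_growth : ∃ K ε : ℝ, 0 ≤ K ∧ 0 ≤ ε ∧ ∀ z, ‖D.G z‖ ≤ K * ‖z‖ + ε := by
  obtain ⟨C1, h1, hX⟩ := bdd_of_per D.X_smooth.continuous D.X_per
  obtain ⟨C2, h2, hdX⟩ := bdd_of_per (Flow_dX D).continuous (Flow_dX_per D)
  obtain ⟨C3, h3, hdP⟩ := bdd_of_per (Flow_dP D).continuous (Flow_dP_per D)
  refine ⟨1 + d * C2, 1 + C1 + C3, by positivity, by positivity, fun z => ?_⟩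
  have hp : ‖z.2.1‖ ≤ ‖z‖ := (norm_fst_le z.2).trans (norm_snd_le z)
  have hz : 0 ≤ ‖z‖ := norm_nonneg z
  have hd : 0 ≤ (d : ℝ) * C2 * ‖z‖ := by positivity
  have he : ∀ j : Fin d, ‖((Pi.single j 1 : E d), (0 : ℝ))‖ ≤ 1 := fun j => by
    rw [Prod.norm_def, Pi.norm_single]; simp
  unfold G
  rw [Prod.norm_def, Prod.norm_def]
  refine max_le ?_ (max_le ?_ ?_)
  · refine (norm_add_le _ _).trans ?_
    have := hX (z.1, z.2.2)
    nlinarith
  · refine (pi_norm_le_iff_of_nonneg (by positivity)).2 fun j => (norm_sub_le _ _).trans ?_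
    have a1 : ‖fderiv ℝ D.P (z.1, z.2.2) (Pi.single j 1, 0)‖ ≤ C3 :=
      (ContinuousLinearMap.le_opNorm _ _).trans
        ((mul_le_mul (hdP _) (he j) (norm_nonneg _) h3).trans (by rw [mul_one]))
    have a2 : ‖fderiv ℝ D.X (z.1, z.2.2) (Pi.single j 1, 0)‖ ≤ C2 :=
      (ContinuousLinearMap.le_opNorm _ _).trans
        ((mul_le_mul (hdX _) (he j) (norm_nonneg _) h2).trans (by rw [mul_one]))
    have a3 : ‖∑ i, z.2.1 i * fderiv ℝ D.X (z.1, z.2.2) (Pi.single j 1, 0) i‖ ≤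
        d * C2 * ‖z‖ := by
      refine (norm_sum_le _ _).trans ?_
      refine (Finset.sum_le_card_nsmul _ _ (C2 * ‖z‖) fun i _ => ?_).trans ?_
      · rw [norm_mul, mul_comm]
        exact mul_le_mul ((norm_le_pi_norm _ i).trans a2) ((norm_le_pi_norm _ i).trans hp)
          (norm_nonneg _) h2
      · simp [mul_assoc]
    nlinarith
  · simp only [norm_one]
    nlinarith

/-- Gronwall bound for an integral curve of a field of linear growth. -/
private lemma Flow_gron {F : Type*} [NormedAddCommGroup F] [NormedSpace ℝ F] {γ γ' : ℝ → F}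
    {K ε δ t T : ℝ} (hK : 0 ≤ K) (hε : 0 ≤ ε) (hδ : 0 ≤ δ) (ht : 0 ≤ t) (hT : t ≤ T)
    (hγ : ∀ s ∈ Set.Icc 0 t, HasDerivAt γ (γ' s) s) (h0 : ‖γ 0‖ ≤ δ)
    (hb : ∀ s ∈ Set.Icc 0 t, ‖γ' s‖ ≤ K * ‖γ s‖ + ε) : ‖γ t‖ ≤ gronwallBound δ K ε T := by
  have := norm_le_gronwallBound_of_norm_deriv_right_le (f := γ) (f' := γ') (a := 0) (b := t)
    (fun s hs => (hγ s hs).continuousAt.continuousWithinAt)
    (fun s hs => (hγ s (Set.Ico_subset_Icc_self hs)).hasDerivWithinAt) h0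
    (fun s hs => hb s (Set.Ico_subset_Icc_self hs)) t ⟨ht, le_rfl⟩
  exact this.trans (gronwallBound_mono hδ hε hK (by linarith))

theorem exists_lift : ∃ ψ, IsFlow D.G Set.univ ψ := by
  obtain ⟨K, ε, hK, hε, hG⟩ := Flow_growth D
  refine exists_flow (fun z _ => D.G_smooth.contDiffAt) (fun z _ => ?_) (fun z0 _ T => ?_)
  · obtain ⟨α, h0, η, hη, hα⟩ :=
      (D.G_smooth.contDiffAt (x := z)).exists_forall_mem_closedBall_exists_eq_forall_mem_Ioo_hasDerivAt₀ 0
    exact ⟨η, hη, α, h0, fun t ht => ⟨Set.mem_univ _, hα t (by simpa using ht)⟩⟩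
  · refine ⟨Metric.closedBall 0 (gronwallBound (‖z0‖ + 1) K ε T), isCompact_closedBall _ _,
      Set.subset_univ _, ?_⟩
    filter_upwards [Metric.closedBall_mem_nhds z0 one_pos] with z hz T' hT' γ h0 hγ t ht
    have hz' : ‖γ 0‖ ≤ ‖z0‖ + 1 := by
      rw [h0]
      have := norm_sub_norm_le z z0
      rw [mem_closedBall_iff_norm] at hz
      linarith
    rw [mem_closedBall_zero_iff]
    rcases le_total 0 t with h | h
    · exact Flow_gron (γ' := fun s => D.G (γ s)) hK hε (by positivity) h (by linarith [ht.2])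
        (fun s hs => (hγ s ⟨by linarith [hs.1, ht.1, ht.2], by linarith [hs.2, ht.2]⟩).2) hz'
        (fun s _ => hG _)
    · have := Flow_gron (γ := fun s => γ (-s)) (γ' := fun s => -D.G (γ (-s))) (t := -t) (T := T)
        hK hε (by positivity : 0 ≤ ‖z0‖ + 1) (by linarith) (by linarith [ht.1])
        (fun s hs => by
          have h1 := (hγ (-s) ⟨by linarith [hs.2, ht.1], by linarith [hs.1, ht.1, ht.2]⟩).2
          simpa [Function.comp_def] using h1.scomp s (hasDerivAt_neg s))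
        (by simpa using hz') (fun s _ => by rw [norm_neg]; exact hG _)
      simpa using this

/-- The distinguished curve with `p = 0` solves the lifted equation. -/
lemma orb_deriv (t : ℝ) (ht : 0 < t) :
    HasDerivAt (fun s => (D.γ s, (0 : E d), s)) (D.G (D.γ t, 0, t)) t := by
  have hmin : IsLocalMin D.P (D.γ t, t) :=
    Eventually.of_forall fun y => by rw [D.γ_P t ht]; exact D.P_nonneg y
  have h0 : fderiv ℝ D.P (D.γ t, t) = 0 := hmin.fderiv_eq_zero
  have hG : D.G (D.γ t, 0, t) = (D.X (D.γ t, t), 0, 1) := by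
    simp only [G, h0, add_zero, Prod.mk.injEq, true_and, and_true]
    funext j
    simp
  rw [hG]
  exact (D.γ_deriv t ht).prodMk ((hasDerivAt_const t _).prodMk (hasDerivAt_id t))

end Pool.Agent.Lib.MP_ce3247_an.Data
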