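import Pool.Agent.Lib.MP_ce3247_an.Lag
import Pool.Agent.Lib.MP_ce3247_an.Flow

/-! The Euler-Lagrange flow on phase space. -/

open MeasureTheory Filter Topology

namespace Pool.Agent.Lib.MP_ce3247_an.Data

variable {d k : ℕ} (D : Data d k)

section aux

open Pool.Agent.Lib.MP_7dd29b_gt

variable {D} {ψ : E d × E d × ℝ → ℝ → E d × E d × ℝ}

lemma Desc_uniq (hψ : IsFlow D.G Set.univ ψ) {γ : ℝ → E d × E d × ℝ} {a b : ℝ}
    (h0 : (0 : ℝ) ∈ Set.Ioo a b) (hγ : ∀ t ∈ Set.Ioo a b, HasDerivAt γ (D.G (γ t)) t) :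
    ∀ t ∈ Set.Ioo a b, ψ (γ 0) t = γ t :=
  ode_unique_on (fun _ _ => D.G_smooth.contDiffAt) (fun t _ => hψ.deriv _ trivial t) hγ h0
    (hψ.zero _ trivial)

lemma Desc_uniq' (hψ : IsFlow D.G Set.univ ψ) {γ : ℝ → E d × E d × ℝ}
    (hγ : ∀ t, HasDerivAt γ (D.G (γ t)) t) (t : ℝ) : ψ (γ 0) t = γ t :=
  Desc_uniq hψ (a := -(|t| + 1)) (b := |t| + 1)
    ⟨by linarith [abs_nonneg t], by linarith [abs_nonneg t]⟩ (fun s _ => hγ s) t
    ⟨by linarith [neg_abs_le t], by linarith [le_abs_self t]⟩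

lemma Desc_time (hψ : IsFlow D.G Set.univ ψ) (z : E d × E d × ℝ) (s : ℝ) :
    (ψ z s).2.2 = z.2.2 + s := by
  have h : ∀ t, HasDerivAt (fun t => (ψ z t).2.2 - t) 0 t := fun t => by
    have h1 : HasDerivAt (fun t => (ψ z t).2.2) 1 t := (hψ.deriv z trivial t).snd.snd
    have h2 := h1.sub (hasDerivAt_id t)
    rwa [sub_self] at h2
  have := is_const_of_deriv_eq_zero (fun t => (h t).differentiableAt) (fun t => (h t).deriv) s 0
  rw [hψ.zero z trivial] at this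
  linarith

lemma Desc_equiv (hψ : IsFlow D.G Set.univ ψ) (z : Fin d → ℤ) (m : ℤ) (x p : E d) (t s : ℝ) :
    ψ (x + ic z, p, t + m) s = ψ (x, p, t) s + (ic z, 0, (m : ℝ)) := by
  have h := Desc_uniq' hψ (γ := fun s => ψ (x, p, t) s + (ic z, 0, (m : ℝ))) (fun s => by
    have h1 := D.G_per z m (ψ (x, p, t) s).1 (ψ (x, p, t) s).2.1 (ψ (x, p, t) s).2.2
    have h2 : ψ (x, p, t) s + (ic z, 0, (m : ℝ)) =
        ((ψ (x, p, t) s).1 + ic z, (ψ (x, p, t) s).2.1, (ψ (x, p, t) s).2.2 + m) := by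
      ext <;> simp
    rw [h2, h1]
    exact (hψ.deriv _ trivial s).add_const _) s
  simpa [hψ.zero _ trivial] using h

variable (D) in
/-- From the coordinates `(x, p, t)` to phase space. -/
noncomputable def Desc_dn (w : E d × E d × ℝ) : Phase d :=
  proj w.1 (w.2.1 + D.X (w.1, w.2.2)) w.2.2

variable (D) in
/-- From the coordinates `(x, v, t)` to the coordinates `(x, p, t)`. -/
noncomputable def Desc_up (y : E d × E d × ℝ) : E d × E d × ℝ :=
  (y.1, y.2.1 - D.X (y.1, y.2.2), y.2.2)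

lemma Desc_dn_cont : Continuous D.Desc_dn := by
  have hX := D.X_smooth.continuous
  exact isOpenQuotientMap_proj.continuous.comp
    (f := fun w : E d × E d × ℝ => (w.1, w.2.1 + D.X (w.1, w.2.2), w.2.2)) (by fun_prop)

lemma Desc_up_cont : Continuous D.Desc_up := by
  have hX := D.X_smooth.continuous
  unfold Desc_up
  fun_prop

lemma Desc_per (hψ : IsFlow D.G Set.univ ψ) (z : Fin d → ℤ) (m : ℤ) (x v : E d) (t s : ℝ) :
    D.Desc_dn (ψ (D.Desc_up (x + ic z, v, t + m)) s) =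
      D.Desc_dn (ψ (D.Desc_up (x, v, t)) s) := by
  have hX : ∀ x t, D.X (x + ic z, t + m) = D.X (x, t) := fun x t => D.X_per z m (x, t)
  simp only [Desc_up, hX]
  rw [Desc_equiv hψ]
  refine (proj_eq_iff.2 ⟨z, m, rfl, ?_, rfl⟩).symm
  simp [hX]

variable (D ψ) in
/-- The flow on phase space. -/
noncomputable def Desc_Phi (s : ℝ) (z : Phase d) : Phase d :=
  D.Desc_dn (ψ (D.Desc_up ((sec z).1, z.2.1, (sec z).2)) s)

lemma Desc_Phi_proj (hψ : IsFlow D.G Set.univ ψ) (x v : E d) (t s : ℝ) :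
    D.Desc_Phi ψ s (proj x v t) = D.Desc_dn (ψ (x, v - D.X (x, t), t) s) := by
  obtain ⟨z, m, h⟩ := sec_proj x v t
  unfold Desc_Phi
  rw [h]
  exact Desc_per hψ z m x v t s

lemma Desc_Phi_cont (hψ : IsFlow D.G Set.univ ψ) :
    Continuous fun q : ℝ × Phase d => D.Desc_Phi ψ q.1 q.2 := by
  refine ((IsOpenQuotientMap.id (X := ℝ)).prodMap
    (isOpenQuotientMap_proj (d := d))).continuous_comp_iff.1 ?_
  have h1 : Continuous fun p : (E d × E d × ℝ) × ℝ => ψ p.1 p.2 := by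
    have := hψ.cont
    rwa [Set.univ_prod_univ, continuousOn_univ] at this
  have h2 : Continuous fun q : ℝ × E d × E d × ℝ => D.Desc_dn (ψ (D.Desc_up q.2) q.1) :=
    Desc_dn_cont.comp (h1.comp ((Desc_up_cont.comp continuous_snd).prodMk continuous_fst))
  exact h2.congr fun q => (Desc_Phi_proj hψ q.2.1 q.2.2.1 q.2.2.2 q.1).symm

lemma Desc_complete (hψ : IsFlow D.G Set.univ ψ) (x₀ v₀ : E d) (t₀ : ℝ) :
    ∃ x v, IsEL D.Lag t₀ x v ∧ x 0 = x₀ ∧ v 0 = v₀ := by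
  obtain ⟨w, hw⟩ : ∃ w, w = ψ (x₀, v₀ - D.X (x₀, t₀), t₀) := ⟨_, rfl⟩
  have h0 : w 0 = (x₀, v₀ - D.X (x₀, t₀), t₀) := hw ▸ hψ.zero _ trivial
  have ht : ∀ s, t₀ + s = (w s).2.2 := fun s => by rw [hw, Desc_time hψ]
  have hd : ∀ s, HasDerivAt w (D.G (w s)) s := fun s => hw ▸ hψ.deriv _ trivial s
  refine ⟨fun s => (w s).1, fun s => (w s).2.1 + D.X ((w s).1, t₀ + s),
    (D.isEL_iff _ _ _).2 fun s => ?_, by simp [h0], by simp [h0]⟩
  simp only [add_sub_cancel_right, ht]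
  exact hd s

lemma Desc_flow (hψ : IsFlow D.G Set.univ ψ) (t₀ : ℝ) (x v : ℝ → E d) (h : IsEL D.Lag t₀ x v)
    (s : ℝ) : D.Desc_Phi ψ s (proj (x 0) (v 0) t₀) = proj (x s) (v s) (t₀ + s) := by
  have h1 := Desc_uniq' hψ ((D.isEL_iff _ _ _).1 h) s
  simp only [add_zero] at h1
  rw [Desc_Phi_proj hψ, h1]
  simp [Desc_dn]

lemma Desc_orb (hψ : IsFlow D.G Set.univ ψ) (t s : ℝ) (ht : 0 < t) (hs : 0 < t + s) :
    D.Desc_Phi ψ s (D.orb t) = D.orb (t + s) := by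
  have h1 := Desc_uniq hψ (γ := fun s => (D.γ (t + s), (0 : E d), t + s)) (a := -t) (b := |s| + 1)
    ⟨by linarith, by linarith [abs_nonneg s]⟩
    (fun σ hσ => (D.orb_deriv (t + σ) (by linarith [hσ.1])).comp_const_add t σ) s
    ⟨by linarith, by linarith [le_abs_self s]⟩
  simp only [add_zero] at h1
  rw [orb, Desc_Phi_proj hψ, sub_self, h1]
  simp [Desc_dn, orb]

end aux

theorem exists_flow : ∃ Φ, Tonelli D.r D.Lag Φ ∧ (Continuous fun q : ℝ × Phase d => Φ q.1 q.2) ∧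
    ∀ t s, 0 < t → 0 < t + s → Φ s (D.orb t) = D.orb (t + s) := by
  obtain ⟨ψ, hψ⟩ := D.exists_lift
  exact ⟨D.Desc_Phi ψ, ⟨D.Lag_smooth, D.Lag_convex, D.Lag_super, Desc_complete hψ, Desc_flow hψ⟩,
    Desc_Phi_cont hψ, Desc_orb hψ⟩

end Pool.Agent.Lib.MP_ce3247_an.Data
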