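import Pool.Agent.Lib.MP_ce3247_an.Tube
import Pool.Agent.Lib.MP_ce3247_an.Bn

/-! The calibrating function. -/

open Finset Filter Topology
open scoped ContDiff

namespace Pool.Agent.Lib.MP_ce3247_an.Geo

variable {d k : ℕ} (S : Geo d k)

lemma Fb_smooth : ContDiff ℝ ∞ S.Fb := by
  unfold Fb
  refine ContDiff.sub (ContDiff.sum fun j _ => contDiff_const.mul ?_) (contDiff_const.mul ?_)
  · exact S.ζ_smooth.comp ((contDiff_apply ℝ ℝ j).comp contDiff_fst)
  · exact S.ζ_smooth.comp contDiff_snd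

lemma Fb_per (z : Fin d → ℤ) (m : ℤ) (y : E d × ℝ) :
    S.Fb (shift z m y) = S.Fb y + ∑ j, S.c j * (z j : ℝ) - S.a0 * (m : ℝ) := by
  simp only [Fb, shift, ic, Pi.add_apply, S.ζ_add, mul_add, Finset.sum_add_distrib]
  ring

lemma Dt_smooth (n : ℕ) (a : Fin (k + 1)) : ContDiff ℝ ∞ (S.Dt n a) := by
  cases n with
  | zero => exact (S.Bn_smooth 0 a).mul (((S.g_smooth 0 a).comp contDiff_snd).sub S.Fb_smooth)
  | succ n => exact (S.Bn_smooth (n + 1) a).mul ((S.wt_smooth n a).comp contDiff_snd)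

private lemma Fn_near {a b : Fin (k + 1)} {i : ℕ} (hi : i < S.len b) {y : E d × ℝ} {z : Fin d → ℤ}
    (h : ‖y.1 - S.sub 0 a 0 0 b i y.2‖ < S.ρ ^ (0 + 1) / 4) (hz : S.Γ 0 a y.2 = ic z) (j : Fin d) :
    S.ζ (y.1 j) = z j := by
  have hρ := S.ρ_pos
  have e : y.1 - ic z = (y.1 - S.sub 0 a 0 0 b i y.2) +
      S.ρ • S.rt.p b i (y.2 / S.ℓ 0 a) := by
    ext j
    simp [sub, hz, ic]
    ring
  have h1 : ‖y.1 - ic z‖ ≤ 1 / 256 := by
    rw [e]
    refine (norm_add_le _ _).trans ?_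
    rw [norm_smul, Real.norm_eq_abs, abs_of_pos hρ]
    have h2 := mul_le_mul_of_nonneg_left (S.rt.p_bd b i (y.2 / S.ℓ 0 a) hi) hρ.le
    have h3 := S.ρ_small
    have h4 := S.σ0_le
    rw [zero_add, pow_one] at h
    linarith
  have h2 : |y.1 j - z j| ≤ 1 / 256 := (norm_le_pi_norm (y.1 - ic z) j).trans h1
  rw [abs_le] at h2
  have h3 := S.ζ_add (y.1 j - z j) (z j)
  rw [S.ζ_zero (y.1 j - z j) (by linarith) (by linarith), sub_add_cancel, zero_add] at h3
  exact h3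

lemma Dt_supp (n : ℕ) : S.Supp n (S.Dt n) := by
  intro a y hy
  cases n with
  | zero =>
    have hy' : S.Bn 0 a y * (S.g 0 a y.2 - S.Fb y) ≠ 0 := hy
    obtain ⟨⟨b, i, hi, hw, hn⟩, h1, h2⟩ := S.Bn_supp (Or.inl (left_ne_zero_of_mul hy'))
    have h3 := right_ne_zero_of_mul hy'
    have hl : ((S.ℓ 0 a : ℕ) : ℝ) = 1 := by simp [ℓ]
    rw [hl, div_one] at h1 h2
    refine ⟨?_, ?_, b, i, hi, hw, hn⟩
    · by_contra hc
      push Not at hc
      apply h3
      have hz : S.Γ 0 a y.2 = ic 0 := by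
        rw [S.Γ_init 0 a hc]
        ext j
        simp [ic]
      have := S.Fn_near hi hn hz
      rw [S.g_init 0 a hc, Fb, S.ζ_zero y.2 (by linarith) (by linarith)]
      simp [this]
    · by_contra hc
      push Not at hc
      apply h3
      have := S.Fn_near hi hn (S.Γ_fin 0 a hc)
      have h4 := S.ζ_add (y.2 - 1) 1
      rw [hl] at hc
      rw [S.ζ_zero (y.2 - 1) (by linarith) (by linarith), Int.cast_one, sub_add_cancel,
        zero_add] at h4
      rw [S.g_fin 0 a (by rw [hl]; exact hc), Fb, h4, ← S.hom0 a]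
      simp [this, κ]
  | succ n =>
    have hy' : S.Bn (n + 1) a y * S.wt n a y.2 ≠ 0 := hy
    obtain ⟨h0, -, -⟩ := S.Bn_supp (Or.inl (left_ne_zero_of_mul hy'))
    have h3 := right_ne_zero_of_mul hy'
    refine ⟨?_, ?_, h0⟩
    · by_contra hc
      exact h3 (S.wt_zero n a (Or.inl (not_lt.1 hc)))
    · by_contra hc
      exact h3 (S.wt_zero n a (Or.inr (not_lt.1 hc)))

lemma Dn_smooth (n : ℕ) : ContDiff ℝ 1 (S.Dn n) := by
  have := (S.Dt_supp n).contDiff (r := 1) fun a => (S.Dt_smooth n a).of_le (by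
    exact_mod_cast le_top)
  exact_mod_cast this

lemma Dn_bound : ∃ C, 0 ≤ C ∧ ∀ n y, |S.Dn (n + 1) y| ≤ C * (|S.lam| / S.ρ) ^ n ∧
    ‖fderiv ℝ (S.Dn (n + 1)) y‖ ≤ C * (|S.lam| / S.ρ) ^ n := by
  obtain ⟨C1, hC1, h1⟩ := S.wt_bound
  obtain ⟨C2, hC2, h2⟩ := S.Bn_bound 1
  have hρ := S.ρ_pos
  have hρ1 : S.ρ ≤ 1 := S.ρ_lt.trans (by norm_num)
  have hL := S.one_lt_L
  have hl := abs_nonneg S.lam
  refine ⟨C1 + C1 * C2 / S.ρ ^ 2, by positivity, fun n y => ?_⟩
  have hq : 0 ≤ (|S.lam| / S.ρ) ^ n := by positivity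
  have e1 : |S.lam| ^ n ≤ (|S.lam| / S.ρ) ^ n :=
    pow_le_pow_left₀ hl (le_div_self hl hρ hρ1) n
  have e2 : (|S.lam| / S.L) ^ n ≤ (|S.lam| / S.ρ) ^ n :=
    pow_le_pow_left₀ (by positivity) (div_le_div_of_nonneg_left hl hρ (by linarith)) n
  have e3 : 0 ≤ C1 * C2 / S.ρ ^ 2 * (|S.lam| / S.ρ) ^ n := by positivity
  constructor
  · have := (S.Dt_supp (n + 1)).bound (j := 0)
      (M := (C1 + C1 * C2 / S.ρ ^ 2) * (|S.lam| / S.ρ) ^ n) (fun a y => by
        rw [norm_iteratedFDeriv_zero]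
        change ‖S.Bn (n + 1) a y * S.wt n a y.2‖ ≤ _
        rw [Real.norm_eq_abs, abs_mul, abs_of_nonneg (S.Bn_mem _ a y).1]
        have k1 := mul_le_of_le_one_left (abs_nonneg (S.wt n a y.2)) (S.Bn_mem (n + 1) a y).2
        have k2 := (h1 n a y.2).1
        have k3 := mul_le_mul_of_nonneg_left e1 hC1
        linarith) y
    rwa [norm_iteratedFDeriv_zero] at this
  · have := (S.Dt_supp (n + 1)).bound (j := 1)
      (M := (C1 + C1 * C2 / S.ρ ^ 2) * (|S.lam| / S.ρ) ^ n) (fun a y => by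
        rw [norm_iteratedFDeriv_one]
        have d1 : HasFDerivAt (S.Bn (n + 1) a) (fderiv ℝ (S.Bn (n + 1) a) y) y :=
          ((S.Bn_smooth (n + 1) a).differentiable (by simp) y).hasFDerivAt
        have d2 : HasDerivAt (S.wt n a) (deriv (S.wt n a) y.2) y.2 :=
          ((S.wt_smooth n a).differentiable (by simp) y.2).hasDerivAt
        have d3 : HasFDerivAt (fun y : E d × ℝ => S.wt n a y.2)
            (deriv (S.wt n a) y.2 • ContinuousLinearMap.snd ℝ (E d) ℝ) y :=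
          d2.comp_hasFDerivAt y hasFDerivAt_snd
        have d4 : HasFDerivAt (S.Dt (n + 1) a) _ y := d1.mul d3
        rw [d4.fderiv]
        refine (norm_add_le _ _).trans ?_
        rw [norm_smul, norm_smul, norm_smul, Real.norm_eq_abs, Real.norm_eq_abs, Real.norm_eq_abs,
          abs_of_nonneg (S.Bn_mem _ a y).1]
        have k0 := h2 (n + 1) a 1 y le_rfl
        rw [norm_iteratedFDeriv_one, pow_one] at k0
        have k1 : ‖ContinuousLinearMap.snd ℝ (E d) ℝ‖ ≤ 1 := ContinuousLinearMap.norm_snd_le ..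
        have k2 := mul_le_of_le_one_right (abs_nonneg (deriv (S.wt n a) y.2)) k1
        have k3 := mul_le_of_le_one_left
          (mul_nonneg (abs_nonneg (deriv (S.wt n a) y.2))
            (norm_nonneg (ContinuousLinearMap.snd ℝ (E d) ℝ))) (S.Bn_mem (n + 1) a y).2
        have k4 := (h1 n a y.2).2
        have k5 := mul_le_mul_of_nonneg_left e2 hC1
        have k6 := mul_le_mul (h1 n a y.2).1 k0 (norm_nonneg _) (by positivity)
        have k7 : C1 * |S.lam| ^ n * (C2 * (S.ρ ^ (n + 1 + 1))⁻¹) =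
            C1 * C2 / S.ρ ^ 2 * (|S.lam| / S.ρ) ^ n := by
          rw [div_pow]
          field_simp
          ring
        linarith) y
    rwa [norm_iteratedFDeriv_one] at this

private lemma Fn_geo (C : ℝ) : Summable fun n : ℕ => C * (|S.lam| / S.ρ) ^ n :=
  (summable_geometric_of_lt_one (div_nonneg (abs_nonneg _) S.ρ_pos.le)
    ((div_lt_one S.ρ_pos).2 S.lam_lt)).mul_left C

private lemma Fn_summable (y : E d × ℝ) : Summable fun n => S.Dn n y := by
  obtain ⟨C, -, h⟩ := S.Dn_bound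
  exact (summable_nat_add_iff 1).1 (Summable.of_norm_bounded (S.Fn_geo C) fun n => (h n y).1)

lemma F_smooth : ContDiff ℝ 1 S.F := by
  obtain ⟨C, -, h⟩ := S.Dn_bound
  refine (S.Fb_smooth.of_le (by exact_mod_cast le_top)).add ?_
  have := contDiff_tsum_of_eventually (𝕜 := ℝ) (N := 1) (f := S.Dn)
    (v := fun _ n => C * (|S.lam| / S.ρ) ^ (n - 1)) (fun n => by exact_mod_cast S.Dn_smooth n)
    (fun _ _ => (summable_nat_add_iff 1).1 (by simpa using S.Fn_geo C)) (fun j hj => by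
      rw [Nat.cofinite_eq_atTop]
      filter_upwards [eventually_ge_atTop 1] with n hn y
      obtain ⟨n, rfl⟩ : ∃ n', n = n' + 1 := ⟨n - 1, by omega⟩
      have hj' : j ≤ 1 := by exact_mod_cast hj
      rw [Nat.add_sub_cancel]
      interval_cases j
      · rw [norm_iteratedFDeriv_zero]
        exact (h n y).1
      · rw [norm_iteratedFDeriv_one]
        exact (h n y).2)
  exact_mod_cast this

lemma F_per (z : Fin d → ℤ) (m : ℤ) (y : E d × ℝ) :
    S.F (shift z m y) = S.F y + ∑ j, S.c j * (z j : ℝ) - S.a0 * (m : ℝ) := by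
  simp only [F, Fb_per, Dn, per_shift]
  ring

lemma F_explicit (n : ℕ) {a b : Fin (k + 1)} {m : ℤ} {z : Fin d → ℤ} {i : ℕ} {y : E d × ℝ}
    (hv : S.Val n a m b i y.2) (hy : ‖y.1 - S.sub n a m z b i y.2‖ < S.ρ ^ (n + 1) / 8) :
    S.Fb y + ∑ j ∈ range (n + 1), S.Dn j y =
      ∑ j, S.c j * (z j : ℝ) - S.a0 * (m : ℝ) + S.g n a (y.2 - m) := by
  have hρ := S.ρ_pos
  induction n generalizing a b m z i with
  | zero =>
    have hp : 0 < S.ρ ^ (0 + 1) := by positivity
    have h1 := (S.Dt_supp 0).eval hv (z := z) (by linarith)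
    have h2 := S.Bn_one hv hy.le
    have h3 := S.Fb_per z m (y.1 - ic z, y.2 - m)
    have e : shift z m (y.1 - ic z, y.2 - m) = y := by simp [shift]
    rw [e] at h3
    rw [Finset.sum_range_one, Dn, h1]
    simp only [Dt, h2]
    linarith
  | succ n ih =>
    have hp : 0 < S.ρ ^ (n + 1 + 1) := by positivity
    have hy2 : ‖y.1 - S.sub (n + 1) a m z b i y.2‖ ≤ S.ρ ^ (n + 1 + 1) / 2 := by linarith
    obtain ⟨i', hv', hy'⟩ := nest hv hy2
    have h0 := ih hv' hy'
    have h1 := (S.Dt_supp (n + 1)).eval hv hy2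
    have h2 := S.Bn_one hv hy.le
    obtain ⟨k1, -, k2, k3⟩ := hv'
    push_cast at k2 k3 h0
    have h3 := S.wt_piece n a k1 (τ := y.2 - m) (by linarith) (by linarith)
    rw [Finset.sum_range_succ, ← add_assoc, h0, Dn, h1]
    simp only [Dt, h2, h3, Pi.add_apply, Int.cast_add, mul_add, Finset.sum_add_distrib, sub_sub]
    ring

/-- The derivative of `F` splits into the first `n + 1` levels and a convergent tail. -/
lemma fderiv_F (n : ℕ) (y : E d × ℝ) : HasSum (fun j => fderiv ℝ (S.Dn (j + (n + 1))) y)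
    (fderiv ℝ S.F y - fderiv ℝ (fun y => S.Fb y + ∑ j ∈ range (n + 1), S.Dn j y) y) := by
  obtain ⟨C, -, h⟩ := S.Dn_bound
  have hu : Summable fun j : ℕ => C * (|S.lam| / S.ρ) ^ (j + n) :=
    (summable_nat_add_iff n).2 (S.Fn_geo C)
  have hd : ∀ j, Differentiable ℝ (S.Dn j) := fun j => (S.Dn_smooth j).differentiable (by simp)
  have hb : ∀ j y, ‖fderiv ℝ (S.Dn (j + (n + 1))) y‖ ≤ C * (|S.lam| / S.ρ) ^ (j + n) :=
    fun j y => (h (j + n) y).2
  have h1 := hasFDerivAt_tsum (f := fun j => S.Dn (j + (n + 1))) hu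
    (fun j y => (hd _ y).hasFDerivAt) hb
    ((summable_nat_add_iff (n + 1)).2 (S.Fn_summable y)) y
  have h2 : DifferentiableAt ℝ (fun y => S.Fb y + ∑ j ∈ range (n + 1), S.Dn j y) y :=
    (S.Fb_smooth.differentiable (by simp) y).add (DifferentiableAt.fun_sum fun j _ => hd j y)
  have e : S.F = fun y => (S.Fb y + ∑ j ∈ range (n + 1), S.Dn j y) +
      ∑' j, S.Dn (j + (n + 1)) y := by
    ext y
    rw [F, add_assoc, (S.Fn_summable y).sum_add_tsum_nat_add]
  have h3 : HasFDerivAt S.F _ y := e ▸ h2.hasFDerivAt.fun_add h1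
  rw [h3.fderiv, add_sub_cancel_left]
  exact (Summable.of_norm_bounded hu fun j => hb j y).hasSum

end Pool.Agent.Lib.MP_ce3247_an.Geo
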