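import Pool.Agent.Lib.MP_ce3247_an.XF
import Pool.Agent.Lib.MP_ce3247_an.Fn

/-! The calibrating function is almost invariant near the curves. -/

open Finset Filter Topology
open scoped ContDiff

namespace Pool.Agent.Lib.MP_ce3247_an.Geo

variable {d k : ℕ} (S : Geo d k)

private lemma Est_snd {f : ℝ → ℝ} (hf : ContDiff ℝ ∞ f) (y : E d × ℝ) (c : ℝ) :
    HasFDerivAt (fun y' : E d × ℝ => f (y'.2 - c))
      (deriv f (y.2 - c) • ContinuousLinearMap.snd ℝ (E d) ℝ) y := by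
  have h1 : HasDerivAt f (deriv f (y.2 - c)) (y.2 - c) :=
    (hf.differentiable (by simp) _).hasDerivAt
  have h2 : HasFDerivAt (fun y' : E d × ℝ => y'.2 - c) (ContinuousLinearMap.snd ℝ (E d) ℝ) y :=
    (hasFDerivAt_snd (𝕜 := ℝ) (p := y)).sub_const c
  exact h1.comp_hasFDerivAt y h2

private lemma Est_Dt (n : ℕ) (a : Fin (k + 1)) (y : E d × ℝ) (v : E d) :
    fderiv ℝ (S.Dt (n + 1) a) y (v, 1) = S.Bn (n + 1) a y * deriv (S.wt n a) y.2 +
      S.wt n a y.2 * fderiv ℝ (S.Bn (n + 1) a) y (v, 1) := by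
  have h1 : HasFDerivAt (S.Bn (n + 1) a) (fderiv ℝ (S.Bn (n + 1) a) y) y :=
    ((S.Bn_smooth (n + 1) a).differentiable (by simp) _).hasFDerivAt
  have h2 := Est_snd (S.wt_smooth n a) y 0
  simp only [sub_zero] at h2
  have h3 := (h1.mul h2).fderiv
  have e : S.Dt (n + 1) a = S.Bn (n + 1) a * fun y' : E d × ℝ => S.wt n a y'.2 := rfl
  rw [e, h3]
  simp

lemma Dn_fine : ∃ C, 0 ≤ C ∧ ∀ n y,
    |fderiv ℝ (S.Dn (n + 1)) y (S.X y, 1)| ≤ C * (|S.lam| / S.L) ^ n := by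
  obtain ⟨Cw, hCw, hw⟩ := S.wt_bound
  obtain ⟨Cx, hCx, hx⟩ := S.X_close
  obtain ⟨Cb, hCb, hb⟩ := S.Bn_fine
  have hρ := S.ρ_pos
  have hL : 0 < S.L := zero_lt_one.trans S.one_lt_L
  have hK : 0 ≤ Cw * (Cb * ((Cx / S.ρ + 1) / S.L)) := by positivity
  refine ⟨Cw + Cw * (Cb * ((Cx / S.ρ + 1) / S.L)), by positivity, fun n y => ?_⟩
  obtain ⟨a, m, z, he⟩ := (S.Dt_supp (n + 1)).eventuallyEq y
  have e1 : fderiv ℝ (S.Dn (n + 1)) y = fderiv ℝ (S.Dt (n + 1) a) (y.1 - ic z, y.2 - m) := by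
    have e2 : (fun y' : E d × ℝ => S.Dt (n + 1) a (y'.1 - ic z, y'.2 - m)) =
        fun y' => S.Dt (n + 1) a (y' - (ic z, (m : ℝ))) := rfl
    rw [Dn, he.fderiv_eq, e2, fderiv_comp_sub]
    rfl
  rw [e1, Est_Dt, add_mul]
  refine (abs_add_le _ _).trans (add_le_add ?_ ?_)
  · rw [abs_mul, abs_of_nonneg (S.Bn_mem _ _ _).1]
    exact (mul_le_of_le_one_left (abs_nonneg _) (S.Bn_mem _ _ _).2).trans (hw _ _ _).2
  · by_cases h0 : S.wt n a (y.2 - m) = 0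
    · simp only [h0, zero_mul, abs_zero]
      positivity
    by_cases h1 : fderiv ℝ (S.Bn (n + 1) a) (y.1 - ic z, y.2 - m) = 0
    · simp only [h1, zero_apply, mul_zero, abs_zero]
      positivity
    have ht : 1 / 16 < y.2 - m ∧ y.2 - m < S.ℓ (n + 1) a - 1 / 16 := by
      by_contra hc
      rw [not_and_or, not_lt, not_lt] at hc
      exact h0 (S.wt_zero n a hc)
    obtain ⟨⟨b, i, hi, hwa, hn⟩, -⟩ := S.Bn_supp (Or.inr h1)
    have hv : S.Val (n + 1) a m b i y.2 := ⟨hi, hwa, by linarith [ht.1], by linarith [ht.2]⟩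
    have hn' : ‖y.1 - S.sub (n + 1) a m z b i y.2‖ < S.ρ ^ (n + 1 + 1) / 4 := by
      rw [sub_shift, ← sub_sub]
      exact hn
    have h2 := hx (n + 1) a m z b i y hv hn'
    have h3 := hb (n + 1) a (y.1 - ic z, y.2 - m) (S.X y)
    have h4 : ‖S.X y - deriv (S.Γ (n + 1) a) (y.2 - m)‖ / S.ρ ^ (n + 1 + 1) + 1 / S.L ^ (n + 1) ≤
        (Cx / S.ρ + 1) / S.L * (1 / S.L) ^ n := by
      refine (add_le_add (div_le_div_of_nonneg_right h2 (by positivity)) le_rfl).trans (le_of_eq ?_)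
      rw [div_pow, div_pow]
      field_simp
      ring
    rw [abs_mul]
    calc _ ≤ (Cw * |S.lam| ^ n) * (Cb * ((Cx / S.ρ + 1) / S.L * (1 / S.L) ^ n)) :=
          mul_le_mul (hw _ _ _).1 (h3.trans (mul_le_mul_of_nonneg_left h4 hCb)) (abs_nonneg _)
            (by positivity)
      _ = _ := by
          rw [div_pow, div_pow, one_pow]
          ring

private lemma Est_tail {f : ℕ → ℝ} {s C q : ℝ} (n : ℕ) (hf : HasSum f s) (hq0 : 0 ≤ q)
    (hq1 : q < 1) (h : ∀ j, |f j| ≤ C * q ^ (j + n)) : |s| ≤ C * (1 - q)⁻¹ * q ^ n := by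
  have h1 := (hasSum_geometric_of_lt_one hq0 hq1).mul_left (C * q ^ n)
  have h2 := hf.norm_le_of_bounded h1 fun j => (h j).trans (le_of_eq (by ring))
  exact h2.trans (le_of_eq (by ring))

theorem F_est : ∃ C, 0 ≤ C ∧ ∀ n, ∀ y ∈ S.In n, (∀ m : ℤ, y.2 ≠ m) →
    fderiv ℝ S.F y (S.X y, 1) ≤ C * (|S.lam| / S.L) ^ n ∧
      ∀ v, |fderiv ℝ S.F y (v, 0)| ≤ C * (|S.lam| / S.ρ) ^ n * ‖v‖ := by
  obtain ⟨Cg, hCg, hg⟩ := S.g_bound
  obtain ⟨Cf, hCf, hf⟩ := S.Dn_fine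
  obtain ⟨Cd, hCd, hd⟩ := S.Dn_bound
  have hρ := S.ρ_pos
  have hL : 0 < S.L := zero_lt_one.trans S.one_lt_L
  have hq1 : |S.lam| / S.ρ < 1 := (div_lt_one hρ).2 S.lam_lt
  have hq2 : |S.lam| / S.L < 1 :=
    (div_lt_one hL).2 (by linarith [S.lam_lt, S.ρ_lt, S.one_lt_L])
  have hA : 0 ≤ Cf * (1 - |S.lam| / S.L)⁻¹ := mul_nonneg hCf (inv_nonneg.2 (by linarith))
  have hB : 0 ≤ Cd * (1 - |S.lam| / S.ρ)⁻¹ := mul_nonneg hCd (inv_nonneg.2 (by linarith))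
  refine ⟨Cg + Cf * (1 - |S.lam| / S.L)⁻¹ + Cd * (1 - |S.lam| / S.ρ)⁻¹, by positivity,
    fun n y hy hm => ?_⟩
  obtain ⟨a, m, z, b, i, hv, hn⟩ := hy
  have hsub : Continuous (S.sub n a m z b i) := by
    have c1 := (S.Γ_smooth n a).continuous
    have c2 := (S.rt.p_smooth b i).continuous
    unfold sub
    fun_prop
  have ev : (fun y => S.Fb y + ∑ j ∈ range (n + 1), S.Dn j y) =ᶠ[𝓝 y] fun y' =>
      ∑ j, S.c j * (z j : ℝ) - S.a0 * (m : ℝ) + S.g n a (y'.2 - m) := by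
    have o1 : ∀ᶠ y' : E d × ℝ in 𝓝 y, (m : ℝ) < y'.2 :=
      (isOpen_lt continuous_const continuous_snd).mem_nhds
        (lt_of_le_of_ne (by linarith [hv.2.2.1]) (hm m).symm)
    have o2 : ∀ᶠ y' : E d × ℝ in 𝓝 y, y'.2 - m < S.ℓ n a :=
      (isOpen_lt (by fun_prop) continuous_const).mem_nhds hv.2.2.2
    have o3 : ∀ᶠ y' : E d × ℝ in 𝓝 y, ‖y'.1 - S.sub n a m z b i y'.2‖ < S.ρ ^ (n + 1) / 8 :=
      (isOpen_lt (by fun_prop) continuous_const).mem_nhds hn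
    filter_upwards [o1, o2, o3] with y' h1 h2 h3
    exact S.F_explicit n ⟨hv.1, hv.2.1, by linarith, h2⟩ h3
  have e1 : fderiv ℝ (fun y => S.Fb y + ∑ j ∈ range (n + 1), S.Dn j y) y =
      deriv (S.g n a) (y.2 - m) • ContinuousLinearMap.snd ℝ (E d) ℝ := by
    rw [ev.fderiv_eq]
    exact ((Est_snd (S.g_smooth n a) y m).const_add _).fderiv
  have hs := S.fderiv_F n y
  rw [e1] at hs
  have p1 : 0 ≤ (|S.lam| / S.L) ^ n := by positivity
  have p2 : 0 ≤ (|S.lam| / S.ρ) ^ n := by positivity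
  refine ⟨?_, fun v => ?_⟩
  · have h1 := (ContinuousLinearMap.apply ℝ ℝ (S.X y, (1 : ℝ))).hasSum hs
    have h2 := Est_tail n h1 (by positivity) hq2 fun j => hf (j + n) y
    simp only [ContinuousLinearMap.apply_apply, sub_apply,
      smul_apply, ContinuousLinearMap.coe_snd', smul_eq_mul, mul_one] at h2
    have h3 := (hg n a (y.2 - m)).2
    have h4 := (abs_le.1 h2).2
    have h5 := (abs_le.1 h3).2
    nlinarith [mul_nonneg hB p1]
  · have h1 := (ContinuousLinearMap.apply ℝ ℝ (v, (0 : ℝ))).hasSum hs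
    have h2 := Est_tail (C := Cd * ‖v‖) n h1 (by positivity) hq1 fun j => by
      have h3 := (fderiv ℝ (S.Dn (j + n + 1)) y).le_of_opNorm_le (hd (j + n) y).2 (v, 0)
      have h4 : ‖(v, (0 : ℝ))‖ = ‖v‖ := by simp [Prod.norm_def]
      rw [h4] at h3
      exact h3.trans (le_of_eq (by ring))
    simp only [ContinuousLinearMap.apply_apply, sub_apply,
      smul_apply, ContinuousLinearMap.coe_snd', smul_eq_mul, mul_zero,
      sub_zero] at h2
    refine h2.trans ?_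
    nlinarith [mul_nonneg (mul_nonneg (add_nonneg hCg hA) p2) (norm_nonneg v)]

theorem F_glob : ∃ C, 0 ≤ C ∧ ∀ y, fderiv ℝ S.F y (S.X y, 1) ≤ C ∧
    ∀ v, |fderiv ℝ S.F y (v, 0)| ≤ C * ‖v‖ := by
  obtain ⟨C1, hC1, h1⟩ := bdd_of_per (S.F_smooth.continuous_fderiv one_ne_zero)
    fun z m y => fderiv_per (a := ∑ j, S.c j * (z j : ℝ) - S.a0 * (m : ℝ))
      (fun y => by rw [S.F_per, add_sub_assoc]) y
  obtain ⟨C2, hC2, h2⟩ := bdd_of_per S.X_smooth.continuous S.X_per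
  refine ⟨C1 * (C2 + 1), by positivity, fun y => ⟨?_, fun v => ?_⟩⟩
  · have h3 := (fderiv ℝ S.F y).le_of_opNorm_le (h1 y) (S.X y, 1)
    have h4 : ‖(S.X y, (1 : ℝ))‖ ≤ C2 + 1 := by
      rw [Prod.norm_def, norm_one]
      exact max_le (by linarith [h2 y]) (by linarith)
    exact (le_abs_self _).trans (h3.trans (mul_le_mul_of_nonneg_left h4 hC1))
  · have h3 := (fderiv ℝ S.F y).le_of_opNorm_le (h1 y) (v, 0)
    have h4 : ‖(v, (0 : ℝ))‖ = ‖v‖ := by simp [Prod.norm_def]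
    rw [h4] at h3
    refine h3.trans ?_
    nlinarith [mul_nonneg (mul_nonneg hC1 hC2) (norm_nonneg v)]

/-- The staircase in a coordinate without homology is locally constant on `In 0`. -/
theorem ζ_est (j : Fin d) (hj : k ≤ j.val) : ∀ y ∈ S.In 0, deriv S.ζ (y.1 j) = 0 := by
  rintro y ⟨a, m, z, b, i, hv, hn⟩
  have hρ := S.ρ_pos
  have h1 := (norm_le_pi_norm _ j).trans_lt hn
  have h2 := (norm_le_pi_norm _ j).trans (S.rt.p_bd b i ((y.2 - m) / S.ℓ 0 a) hv.1)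
  have h3 := S.bs.G0_range a (y.2 - m) j hj
  have h4 := S.ρ_small
  have h5 := S.σ0_le
  have e : (y.1 - S.sub 0 a m z b i y.2) j = y.1 j - z j - S.bs.G0 a (y.2 - m) j -
      S.ρ * S.rt.p b i ((y.2 - m) / S.ℓ 0 a) j := by
    simp only [sub, Γ, ic, Pi.sub_apply, Pi.add_apply, Pi.smul_apply, smul_eq_mul, zero_add,
      pow_one]
    ring
  rw [e, zero_add, pow_one, Real.norm_eq_abs, abs_lt] at h1
  rw [Real.norm_eq_abs, abs_le] at h2
  have h6 := mul_le_mul_of_nonneg_left h2.1 hρ.le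
  have h7 := mul_le_mul_of_nonneg_left h2.2 hρ.le
  have ev : S.ζ =ᶠ[𝓝 (y.1 j)] fun _ => (z j : ℝ) := by
    have o : Set.Ioo ((z j : ℝ) - 1 / 10) (z j + 6 / 10) ∈ 𝓝 (y.1 j) :=
      Ioo_mem_nhds (by nlinarith [h1.1]) (by nlinarith [h1.2])
    filter_upwards [o] with x hx
    have h8 := S.ζ_add (x - z j) (z j)
    rw [sub_add_cancel, S.ζ_zero (x - z j) (by linarith [hx.1]) (by linarith [hx.2]),
      zero_add] at h8
    exact h8
  rw [ev.deriv_eq, deriv_const]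

theorem ζ_glob : ∃ C, 0 ≤ C ∧ ∀ x, |deriv S.ζ x| ≤ C := by
  obtain ⟨C, hC⟩ := (isCompact_Icc (a := (0 : ℝ)) (b := 1)).exists_bound_of_continuousOn
    (S.ζ_smooth.continuous_deriv (by simp)).continuousOn
  refine ⟨max C 0, le_max_right _ _, fun x => ?_⟩
  have e1 : (fun t => S.ζ (t + (⌊x⌋ : ℝ))) = fun t => S.ζ t + (⌊x⌋ : ℝ) :=
    funext fun t => S.ζ_add t _
  have e : deriv S.ζ x = deriv S.ζ (Int.fract x) := by
    rw [← deriv_add_const (x := Int.fract x) (⌊x⌋ : ℝ), ← e1, deriv_comp_add_const,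
      Int.fract_add_floor]
  rw [e]
  exact (hC _ ⟨Int.fract_nonneg x, (Int.fract_lt_one x).le⟩).trans (le_max_left _ _)

end Pool.Agent.Lib.MP_ce3247_an.Geo
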