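import Pool.Agent.Lib.MP_ce3247_an.Route2
import Pool.Agent.Lib.MP_ce3247_an.Base

/-! The self-similar data and the objects built from them. -/

open Finset
open scoped ContDiff

namespace Pool.Agent.Lib.MP_ce3247_an

structure Geo (d k : ℕ) where
  i0 : Fin d
  i1 : Fin d
  len : Fin (k + 1) → ℕ
  w : Fin (k + 1) → ℕ → Fin (k + 1)
  e : Fin (k + 1) → Fin d → ℤ
  R : ℝ
  σ0 : ℝ
  ρ : ℝ
  L : ℝ
  lam : ℝ
  a0 : ℝ
  ct : Fin (k + 1) → ℝ
  c : E d
  rt : Routes d k i0 i1 len w R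
  bs : Bases d k i0 i1 e σ0
  ζ : ℝ → ℝ
  B : Fin (k + 1) → E d × ℝ → ℝ
  two_le : 2 ≤ d
  len_two : ∀ b, 2 ≤ len b
  w_first : ∀ b, w b 0 = 0
  w_last : ∀ b, w b (len b - 1) = 0
  L_le : ∀ b, L ≤ (len b : ℝ)
  left : ∀ b, ∑ i ∈ range (len b), ct (w b i) = lam * ct b
  hom0 : ∀ a, ∑ j, c j * (e a j : ℝ) - a0 = ct a
  R_nonneg : 0 ≤ R
  σ0_pos : 0 < σ0
  σ0_le : σ0 ≤ 1 / 2
  ρ_pos : 0 < ρ
  ρ_small : ρ * (R + 1) ≤ σ0 / 128
  hX : 1 < ρ ^ (d - 1) * L
  hV : |lam| < ρ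
  ζ_smooth : ContDiff ℝ ∞ ζ
  ζ_add : ∀ x (m : ℤ), ζ (x + m) = ζ x + m
  ζ_zero : ∀ x, -1 / 10 ≤ x → x ≤ 6 / 10 → ζ x = 0
  B_smooth : ∀ a, ContDiff ℝ ∞ (B a)
  B_cpt : ∀ a, HasCompactSupport (B a)
  B_mem : ∀ a y, 0 ≤ B a y ∧ B a y ≤ 1
  B_one : ∀ a y b i, i < len b → w b i = a → 0 ≤ y.2 → y.2 ≤ 1 → ‖y.1 - rt.p b i y.2‖ ≤ 1 / 8 →
    B a y = 1
  B_supp : ∀ a, ∀ y ∈ tsupport (B a),
    (∃ b i, i < len b ∧ w b i = a ∧ ‖y.1 - rt.p b i y.2‖ < 1 / 4) ∧ -1 / 16 < y.2 ∧ y.2 < 17 / 16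

namespace Geo

variable {d k : ℕ} (S : Geo d k)

/-- Length of the level `n` word of a letter. -/
def ℓ : ℕ → Fin (k + 1) → ℕ
  | 0, _ => 1
  | n + 1, b => ∑ i ∈ range (S.len b), ℓ n (S.w b i)

/-- Starting time of the `i`-th level `n` word inside the level `n + 1` word of `b`. -/
def Tm (n : ℕ) (b : Fin (k + 1)) (i : ℕ) : ℕ := ∑ j ∈ range i, S.ℓ n (S.w b j)

/-- Homology of the level `n` word of a letter. -/
def κ : ℕ → Fin (k + 1) → Fin d → ℤ
  | 0, a => S.e a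
  | n + 1, b => ∑ i ∈ range (S.len b), κ n (S.w b i)

/-- Starting point of the `i`-th level `n` word inside the level `n + 1` word of `b`. -/
def Kp (n : ℕ) (b : Fin (k + 1)) (i : ℕ) : Fin d → ℤ := ∑ j ∈ range i, S.κ n (S.w b j)

/-- The offset of the strand `(b, i)` at level `n`, zero before the strand starts. -/
noncomputable def off (n : ℕ) (b : Fin (k + 1)) (i : ℕ) (τ : ℝ) : E d :=
  S.ρ ^ (n + 1) • (S.rt.p b i ((τ - S.Tm n b i) / S.ℓ n (S.w b i)) - S.rt.J b i)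

/-- The level `n` curve of a letter. -/
noncomputable def Γ : ℕ → Fin (k + 1) → ℝ → E d
  | 0, a => S.bs.G0 a
  | n + 1, b => fun τ => ∑ i ∈ range (S.len b), (Γ n (S.w b i) (τ - S.Tm n b i) + S.off n b i τ)

/-- The velocity added at level `n`, as a function on the level `n` curve. -/
noncomputable def U : ℕ → Fin (k + 1) → ℝ → E d
  | 0, a => deriv (S.bs.G0 a)
  | n + 1, b => fun τ => ∑ i ∈ range (S.len b), deriv (S.off n b i) τ

/-- The value of the calibrating function along the level `n` curve. -/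
noncomputable def g (n : ℕ) (a : Fin (k + 1)) (τ : ℝ) : ℝ :=
  S.lam ^ n * S.ct a * Real.smoothTransition ((τ / S.ℓ n a - 1 / 16) * (8 / 7))

/-- The correction of the calibrating function, on the level `n + 1` curve. -/
noncomputable def wt (n : ℕ) (b : Fin (k + 1)) (τ : ℝ) : ℝ :=
  S.g (n + 1) b τ - ∑ i ∈ range (S.len b), S.g n (S.w b i) (τ - S.Tm n b i)

/-- The strand `(b, i)` over the level `n` curve of `a` started at time `m` and place `z`. -/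
noncomputable def sub (n : ℕ) (a : Fin (k + 1)) (m : ℤ) (z : Fin d → ℤ) (b : Fin (k + 1)) (i : ℕ)
    (t : ℝ) : E d :=
  ic z + S.Γ n a (t - m) + S.ρ ^ (n + 1) • S.rt.p b i ((t - m) / S.ℓ n a)

/-- `(b, i)` is a strand of the letter `a` and `t` lies in the time window of the tube. -/
def Val (n : ℕ) (a : Fin (k + 1)) (m : ℤ) (b : Fin (k + 1)) (i : ℕ) (t : ℝ) : Prop :=
  i < S.len b ∧ S.w b i = a ∧ 0 ≤ t - m ∧ t - m < S.ℓ n a

/-- The cutoff of the level `n` tube of `a`. -/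
noncomputable def Bn (n : ℕ) (a : Fin (k + 1)) (y : E d × ℝ) : ℝ :=
  S.B a ((S.ρ ^ (n + 1))⁻¹ • (y.1 - S.Γ n a y.2), y.2 / S.ℓ n a)

/-- The sum over all translates of all tubes. -/
noncomputable def per {F : Type*} [AddCommMonoid F] (G : Fin (k + 1) → E d × ℝ → F)
    (y : E d × ℝ) : F :=
  ∑ᶠ q : Fin (k + 1) × ℤ × (Fin d → ℤ), G q.1 (y.1 - ic q.2.2, y.2 - q.2.1)

/-- `G a` lives near the strands of the level `n` tube of `a`, away from its ends. -/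
def Supp {F : Type*} [Zero F] (n : ℕ) (G : Fin (k + 1) → E d × ℝ → F) : Prop :=
  ∀ a y, G a y ≠ 0 → 1 / 16 < y.2 ∧ y.2 < S.ℓ n a - 1 / 16 ∧ ∃ b i, i < S.len b ∧ S.w b i = a ∧
    ‖y.1 - S.sub n a 0 0 b i y.2‖ < S.ρ ^ (n + 1) / 4

/-- The level `n` part of the vector field. -/
noncomputable def Xn (n : ℕ) : E d × ℝ → E d := per fun a y => S.Bn n a y • S.U n a y.2

/-- The vector field. -/
noncomputable def X (y : E d × ℝ) : E d := ∑' n, S.Xn n y

/-- The staircase representative of the cohomology class. -/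
noncomputable def Fb (y : E d × ℝ) : ℝ := ∑ j, S.c j * S.ζ (y.1 j) - S.a0 * S.ζ y.2

/-- The level `n` correction on one tube. -/
noncomputable def Dt : ℕ → Fin (k + 1) → E d × ℝ → ℝ
  | 0, a => fun y => S.Bn 0 a y * (S.g 0 a y.2 - S.Fb y)
  | n + 1, a => fun y => S.Bn (n + 1) a y * S.wt n a y.2

/-- The level `n` correction of the calibrating function. -/
noncomputable def Dn (n : ℕ) : E d × ℝ → ℝ := per (S.Dt n)

/-- The calibrating function. -/
noncomputable def F (y : E d × ℝ) : ℝ := S.Fb y + ∑' n, S.Dn n y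

/-- The neighbourhood of the level `n + 1` curves on which the first `n` levels are explicit. -/
def In (n : ℕ) : Set (E d × ℝ) :=
  {y | ∃ a m z b i, S.Val n a m b i y.2 ∧ ‖y.1 - S.sub n a m z b i y.2‖ < S.ρ ^ (n + 1) / 8}

/-- The distinguished orbit. -/
noncomputable def γ (t : ℝ) : E d := S.Γ ⌈4 * t⌉₊ 0 t

end Geo

end Pool.Agent.Lib.MP_ce3247_an
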