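import Pool.Agent.Lib.MP_ce3247_an.Lag

/-! An invariant measure of action zero and homology class `h` (Krylov-Bogolyubov). -/

open MeasureTheory Filter Topology

namespace Pool.Agent.Lib.MP_ce3247_an.Data

variable {d k : ℕ} (D : Data d k)

/-- Time averages along a curve in a compact space converge along an ultrafilter. -/
private lemma KB_abs {Q : Type*} [TopologicalSpace Q] [CompactSpace Q] [T2Space Q]
    [MeasurableSpace Q] [BorelSpace Q] {o : ℝ → Q} (ho : Continuous o) {T : ℕ → ℝ}
    (hT : Tendsto T atTop atTop) :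
    ∃ (ν : Measure Q) (U : Ultrafilter ℕ), IsProbabilityMeasure ν ∧ (U : Filter ℕ) ≤ atTop ∧
      ∀ g : Q → ℝ, Continuous g →
        Tendsto (fun n => (T n)⁻¹ * ∫ t in (0 : ℝ)..T n, g (o t)) U (𝓝 (∫ q, g q ∂ν)) := by
  have hP : IsProbabilityMeasure ((volume : Measure ℝ).restrict (Set.Ioc 0 1)) := ⟨by simp⟩
  have hm : ∀ n, Continuous fun u : ℝ => o (T n * u) := fun n =>
    ho.comp (continuous_const.mul continuous_id)
  let ν : ℕ → ProbabilityMeasure Q := fun n =>
    ⟨((volume : Measure ℝ).restrict (Set.Ioc 0 1)).map fun u : ℝ => o (T n * u),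
      Measure.isProbabilityMeasure_map (hm n).measurable.aemeasurable⟩
  let U : Ultrafilter ℕ := Ultrafilter.of atTop
  have hU : (U : Filter ℕ) ≤ atTop := Ultrafilter.of_le _
  obtain ⟨μ, -, hμ⟩ := isCompact_univ.ultrafilter_le_nhds (U.map ν) (by simp)
  have hlim : Tendsto ν U (𝓝 μ) := hμ
  refine ⟨μ, U, inferInstance, hU, fun g hg => ?_⟩
  have h1 := ProbabilityMeasure.tendsto_iff_forall_integral_tendsto.1 hlim
    (BoundedContinuousFunction.mkOfCompact ⟨g, hg⟩)
  refine h1.congr' ?_
  filter_upwards [hU (hT.eventually_gt_atTop 0)] with n hn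
  have h2 : ∫ q, g q ∂(ν n : Measure Q) = ∫ u in (0 : ℝ)..1, g (o (T n * u)) := by
    rw [intervalIntegral.integral_of_le zero_le_one]
    exact integral_map (hm n).measurable.aemeasurable hg.aestronglyMeasurable
  have h3 := intervalIntegral.integral_comp_mul_left (a := 0) (b := 1) (fun t => g (o t)) hn.ne'
  simp only [mul_zero, mul_one, smul_eq_mul] at h3
  rw [← h3, ← h2]
  rfl

/-- Two bounded functions that agree up to a time shift have the same averages. -/
private lemma KB_shift {f₁ f₂ : ℝ → ℝ} (h₁ : Continuous f₁) (h₂ : Continuous f₂) {M s t₀ : ℝ}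
    (hM : ∀ t, ‖f₂ t‖ ≤ M) (he : ∀ t, t₀ ≤ t → f₁ t = f₂ (t + s)) {T : ℕ → ℝ}
    (hT : Tendsto T atTop atTop) :
    Tendsto (fun n => (T n)⁻¹ * (∫ t in (0 : ℝ)..T n, f₁ t) - (T n)⁻¹ * ∫ t in (0 : ℝ)..T n, f₂ t)
      atTop (𝓝 0) := by
  set c : ℝ := (∫ t in (0 : ℝ)..t₀, f₁ t) - ∫ t in (0 : ℝ)..(t₀ + s), f₂ t with hc
  have key : ∀ τ, t₀ ≤ τ → ‖(∫ t in (0 : ℝ)..τ, f₁ t) - ∫ t in (0 : ℝ)..τ, f₂ t‖ ≤
      ‖c‖ + M * |s| := by
    intro τ hτ
    have e1 : ∫ t in (0 : ℝ)..τ, f₁ t = (∫ t in (0 : ℝ)..t₀, f₁ t) + ∫ t in t₀..τ, f₁ t :=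
      (intervalIntegral.integral_add_adjacent_intervals (h₁.intervalIntegrable _ _)
        (h₁.intervalIntegrable _ _)).symm
    have e2 : ∫ t in t₀..τ, f₁ t = ∫ t in (t₀ + s)..(τ + s), f₂ t := by
      rw [← intervalIntegral.integral_comp_add_right]
      refine intervalIntegral.integral_congr fun t ht => he t ?_
      rw [Set.uIcc_of_le hτ] at ht
      exact ht.1
    have e3 : (∫ t in (0 : ℝ)..(t₀ + s), f₂ t) + ∫ t in (t₀ + s)..(τ + s), f₂ t =
        ∫ t in (0 : ℝ)..(τ + s), f₂ t :=
      intervalIntegral.integral_add_adjacent_intervals (h₂.intervalIntegrable _ _)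
        (h₂.intervalIntegrable _ _)
    have e4 : (∫ t in (0 : ℝ)..τ, f₂ t) + ∫ t in τ..(τ + s), f₂ t =
        ∫ t in (0 : ℝ)..(τ + s), f₂ t :=
      intervalIntegral.integral_add_adjacent_intervals (h₂.intervalIntegrable _ _)
        (h₂.intervalIntegrable _ _)
    have e5 : ‖∫ t in τ..(τ + s), f₂ t‖ ≤ M * |τ + s - τ| :=
      intervalIntegral.norm_integral_le_of_norm_le_const fun t _ => hM t
    have e6 : (∫ t in (0 : ℝ)..τ, f₁ t) - ∫ t in (0 : ℝ)..τ, f₂ t =
        c + ∫ t in τ..(τ + s), f₂ t := by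
      rw [hc]; linarith
    rw [e6]
    refine (norm_add_le _ _).trans (add_le_add le_rfl ?_)
    simpa using e5
  have h0 : Tendsto (fun n => (T n)⁻¹ * (‖c‖ + M * |s|)) atTop (𝓝 0) := by
    simpa using (tendsto_inv_atTop_zero.comp hT).mul_const (‖c‖ + M * |s|)
  refine squeeze_zero_norm' ?_ h0
  filter_upwards [hT.eventually_gt_atTop 0, hT.eventually_ge_atTop t₀] with n hn hn'
  rw [← mul_sub, norm_mul, Real.norm_of_nonneg (inv_nonneg.2 hn.le)]
  exact mul_le_mul_of_nonneg_left (key _ hn') (inv_nonneg.2 hn.le)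

/-- The graph of `X` over the compact space `T^d × T`. -/
private noncomputable def KB_gr (q : Tor d × UnitAddCircle) : Phase d :=
  (q.1, D.X (sec (q.1, 0, q.2)), q.2)

private lemma KB_desc : (Continuous fun z : Phase d => D.X (sec z)) ∧
    ∀ x v t, D.X (sec (proj x v t)) = D.X (x, t) :=
  continuous_desc (f := fun z : E d × E d × ℝ => D.X (z.1, z.2.2))
    (D.X_smooth.continuous.comp (continuous_fst.prodMk continuous_snd.snd))
    fun z m x _ t => D.X_per z m (x, t)

private lemma KB_gr_cont : Continuous (KB_gr D) :=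
  continuous_fst.prodMk (((KB_desc D).1.comp
    (continuous_fst.prodMk (continuous_const.prodMk continuous_snd))).prodMk continuous_snd)

/-- The orbit on the compact space, frozen before time one. -/
private noncomputable def KB_o (t : ℝ) : Tor d × UnitAddCircle :=
  (toTor (D.γ (max t 1)), ((max t 1 : ℝ) : UnitAddCircle))

private lemma KB_γ_cont : Continuous fun t : ℝ => D.γ (max t 1) := by
  have h : ContinuousOn D.γ (Set.Ioi 0) := fun t ht =>
    (D.γ_deriv t ht).continuousAt.continuousWithinAt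
  exact h.comp_continuous (continuous_id.max continuous_const) fun t =>
    lt_of_lt_of_le zero_lt_one (le_max_right t 1)

private lemma KB_o_cont : Continuous (KB_o D) := by
  refine Continuous.prodMk (continuous_pi fun i => ?_) ?_
  · exact (AddCircle.continuous_mk' 1).comp ((continuous_apply i).comp (KB_γ_cont D))
  · exact (AddCircle.continuous_mk' 1).comp (continuous_id.max continuous_const)

private lemma KB_gr_o (t : ℝ) : KB_gr D (KB_o D t) = D.orb (max t 1) := by
  have h := (KB_desc D).2 (D.γ (max t 1)) 0 (max t 1)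
  unfold KB_gr KB_o Data.orb
  simp only [proj] at h ⊢
  rw [h]

theorem exists_measure {Φ : ℝ → Phase d → Phase d}
    (hc : Continuous fun q : ℝ × Phase d => Φ q.1 q.2)
    (ho : ∀ t s, 0 < t → 0 < t + s → Φ s (D.orb t) = D.orb (t + s)) :
    ∃ μ ∈ Minv Φ D.h, ∫ z, D.Lag z ∂μ = 0 := by
  obtain ⟨T, hT, hrot⟩ := D.rot
  obtain ⟨ν, U, hν, hU, hlim⟩ := KB_abs (KB_o_cont D) hT
  have hgr := KB_gr_cont D
  have hgm : AEMeasurable (KB_gr D) ν := hgr.measurable.aemeasurable
  have hμ : IsProbabilityMeasure (ν.map (KB_gr D)) := Measure.isProbabilityMeasure_map hgm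
  have hone : ∀ t : ℝ, 0 < max t 1 := fun t => lt_of_lt_of_le zero_lt_one (le_max_right t 1)
  refine ⟨ν.map (KB_gr D), ⟨hμ, ⟨Set.range (KB_gr D), isCompact_range hgr, ?_⟩, fun s => ?_, ?_⟩,
    ?_⟩
  · rw [Measure.map_apply hgr.measurable (isCompact_range hgr).isClosed.measurableSet.compl]
    simp
  · have hs : Continuous (Φ s) := hc.comp (continuous_const.prodMk continuous_id)
    refine ⟨hs.measurable, ?_⟩
    refine ext_of_forall_integral_eq_of_IsFiniteMeasure fun f => ?_
    have c0 : Continuous fun z => f (Φ s z) := f.continuous.comp hs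
    rw [integral_map hs.measurable.aemeasurable f.continuous.aestronglyMeasurable,
      integral_map hgm c0.aestronglyMeasurable,
      integral_map hgm f.continuous.aestronglyMeasurable]
    have c1 : Continuous fun q => f (Φ s (KB_gr D q)) := f.continuous.comp (hs.comp hgr)
    have c2 : Continuous fun q => f (KB_gr D q) := f.continuous.comp hgr
    have l1 := (hlim _ c1).sub (hlim _ c2)
    have l2 := KB_shift (c1.comp (KB_o_cont D)) (c2.comp (KB_o_cont D)) (M := ‖f‖) (s := s)
      (t₀ := max 1 (1 - s)) (fun t => f.norm_coe_le_norm _) (fun t ht => by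
        have a1 : (1 : ℝ) ≤ t := (le_max_left _ _).trans ht
        have a2 : (1 : ℝ) ≤ t + s := by have := (le_max_right _ _).trans ht; linarith
        simp only [Function.comp_apply, KB_gr_o, max_eq_left a1, max_eq_left a2]
        rw [ho t s (by linarith) (by linarith)]) hT
    exact sub_eq_zero.1 (tendsto_nhds_unique l1 (l2.mono_left hU))
  · have c0 : Continuous fun q => (KB_gr D q).2.1 := hgr.snd.fst
    rw [integral_map hgm continuous_snd.fst.aestronglyMeasurable]
    funext j
    have c1 : ∀ i, Continuous fun q => (KB_gr D q).2.1 i := fun i => (continuous_apply i).comp c0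
    have hi : ∀ i, Integrable (fun q => (KB_gr D q).2.1 i) ν := fun i =>
      (BoundedContinuousFunction.mkOfCompact ⟨_, c1 i⟩).integrable ν
    rw [eval_integral hi]
    have l1 := hlim _ (c1 j)
    have c2 : Continuous fun t => (KB_gr D (KB_o D t)).2.1 j := (c1 j).comp (KB_o_cont D)
    set c : ℝ := (∫ t in (0 : ℝ)..1, (KB_gr D (KB_o D t)).2.1 j) - D.γ 1 j with hcdef
    have key : ∀ τ : ℝ, 1 ≤ τ →
        ∫ t in (0 : ℝ)..τ, (KB_gr D (KB_o D t)).2.1 j = c + D.γ τ j := by
      intro τ hτ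
      have e1 := intervalIntegral.integral_add_adjacent_intervals (μ := volume)
        (c2.intervalIntegrable 0 1) (c2.intervalIntegrable 1 τ)
      have e2 : ∫ t in (1 : ℝ)..τ, (KB_gr D (KB_o D t)).2.1 j = D.γ τ j - D.γ 1 j := by
        refine intervalIntegral.integral_eq_sub_of_hasDerivAt (f := fun t => D.γ t j)
          (fun t ht => ?_) (c2.intervalIntegrable 1 τ)
        rw [Set.uIcc_of_le hτ] at ht
        rw [KB_gr_o, max_eq_left ht.1]
        exact hasDerivAt_pi.1 (D.γ_deriv t (lt_of_lt_of_le zero_lt_one ht.1)) j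
      rw [← e1, e2, hcdef]
      ring
    have l2 : Tendsto (fun n => (T n)⁻¹ * ∫ t in (0 : ℝ)..T n, (KB_gr D (KB_o D t)).2.1 j) atTop
        (𝓝 (D.h j)) := by
      have a1 : Tendsto (fun n => (T n)⁻¹ * c) atTop (𝓝 0) := by
        simpa using (tendsto_inv_atTop_zero.comp hT).mul_const c
      have a2 : Tendsto (fun n => (T n)⁻¹ * D.γ (T n) j) atTop (𝓝 (D.h j)) :=
        tendsto_pi_nhds.1 hrot j
      have a3 := a1.add a2
      rw [zero_add] at a3
      refine a3.congr' ?_
      filter_upwards [hT.eventually_ge_atTop 1] with n hn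
      rw [key _ hn, mul_add]
    exact tendsto_nhds_unique l1 (l2.mono_left hU)
  · rw [integral_map hgm D.Lag_cont.aestronglyMeasurable]
    have l1 := hlim _ (D.Lag_cont.comp hgr)
    have z : ∀ t, D.Lag (KB_gr D (KB_o D t)) = 0 := by
      intro t
      rw [KB_gr_o, Data.orb, Lag_proj, D.γ_P _ (hone t)]
      simp
    simp only [Function.comp_apply, z, intervalIntegral.integral_zero, mul_zero] at l1
    exact tendsto_nhds_unique l1 tendsto_const_nhds

end Pool.Agent.Lib.MP_ce3247_an.Data
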