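import Pool.Agent.Lib.MP_ce3247_an.Defs

/-! Kronecker's theorem for a class whose first `k` coordinates are independent with `1`. -/

open MeasureTheory Filter Topology

namespace Pool.Agent.Lib.MP_ce3247_an

variable {d k : ℕ}

private theorem Kron_add (q : Fin d → ℤ) (x y : Tor d) :
    UnitAddTorus.mFourier q (x + y) = UnitAddTorus.mFourier q x * UnitAddTorus.mFourier q y := by
  simp only [UnitAddTorus.mFourier, ContinuousMap.coe_mk, Pi.add_apply, fourier_apply, smul_add,
    AddCircle.toCircle_add, Circle.coe_mul, Finset.prod_mul_distrib]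

private theorem Kron_coe (q : Fin d → ℤ) (h : E d) :
    UnitAddTorus.mFourier q (toTor h) =
      Complex.exp (((∑ j, (q j : ℝ) * h j : ℝ) : ℂ) * (2 * Real.pi * Complex.I)) := by
  simp only [UnitAddTorus.mFourier, ContinuousMap.coe_mk, toTor, fourier_coe_apply]
  rw [← Complex.exp_sum]
  congr 1
  push_cast
  rw [Finset.sum_mul]
  refine Finset.sum_congr rfl fun j _ => ?_
  ring

private theorem Kron_zsmul (h : E d) (n : ℤ) : toTor ((n : ℝ) • h) = n • toTor h := by
  funext j
  simp only [toTor, Pi.smul_apply, smul_eq_mul]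
  rw [← AddCircle.coe_zsmul, zsmul_eq_mul]

private theorem Kron_closed : IsClosed (subTor d k) := by
  have : subTor d k = ⋂ j : Fin d, ⋂ _ : k ≤ j.val, {x : Tor d | x j = 0} := by
    ext x
    simp [subTor]
  rw [this]
  exact isClosed_iInter fun j => isClosed_iInter fun _ =>
    isClosed_eq (continuous_apply j) continuous_const

private theorem Kron_mem {h : E d} (h0 : ∀ j : Fin d, k ≤ j.val → h j = 0) (s : ℝ) :
    toTor (s • h) ∈ subTor d k := by
  intro j hj
  simp [toTor, h0 j hj]

/-- every trigonometric polynomial is a constant plus a coboundary on the subtorus -/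
private theorem Kron_cob {h : E d}
    (hi : ∀ (q : Fin d → ℤ) (m : ℤ), ∑ j, (q j : ℝ) * h j = m → ∀ j : Fin d, j.val < k → q j = 0)
    {p : C(Tor d, ℂ)}
    (hp : p ∈ Submodule.span ℂ (Set.range (UnitAddTorus.mFourier (d := Fin d)))) :
    ∃ (c : ℂ) (g : C(Tor d, ℂ)), ∀ y ∈ subTor d k, p y = c + (g (y + toTor h) - g y) := by
  induction hp using Submodule.span_induction with
  | mem p hp =>
    obtain ⟨q, rfl⟩ := hp
    by_cases h1 : UnitAddTorus.mFourier q (toTor h) = 1
    · refine ⟨1, 0, fun y hy => ?_⟩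
      rw [Kron_coe, Complex.exp_eq_one_iff] at h1
      obtain ⟨m, hm⟩ := h1
      have hm' : ((∑ j, (q j : ℝ) * h j : ℝ) : ℂ) = (m : ℂ) :=
        mul_right_cancel₀ Complex.two_pi_I_ne_zero hm
      have hq := hi q m (by exact_mod_cast hm')
      simp only [UnitAddTorus.mFourier, ContinuousMap.coe_mk, ContinuousMap.zero_apply, sub_self,
        add_zero]
      refine Finset.prod_eq_one fun j _ => ?_
      rcases lt_or_ge j.val k with hj | hj
      · rw [hq j hj, fourier_zero]
      · rw [hy j hj, fourier_eval_zero]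
    · refine ⟨0, (UnitAddTorus.mFourier q (toTor h) - 1)⁻¹ • UnitAddTorus.mFourier q,
        fun y _ => ?_⟩
      have h2 : UnitAddTorus.mFourier q (toTor h) - 1 ≠ 0 := sub_ne_zero.2 h1
      simp only [ContinuousMap.smul_apply, smul_eq_mul, Kron_add]
      field_simp
      ring
  | zero => exact ⟨0, 0, fun y _ => by simp⟩
  | add p p' _ _ ih ih' =>
    obtain ⟨c, g, e⟩ := ih
    obtain ⟨c', g', e'⟩ := ih'
    refine ⟨c + c', g + g', fun y hy => ?_⟩
    simp only [ContinuousMap.add_apply, e y hy, e' y hy]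
    ring
  | smul a p _ ih =>
    obtain ⟨c, g, e⟩ := ih
    refine ⟨a * c, a • g, fun y hy => ?_⟩
    simp only [ContinuousMap.smul_apply, smul_eq_mul, e y hy]
    ring

private theorem Kron_sub {h : E d} (h0 : ∀ j : Fin d, k ≤ j.val → h j = 0)
    (hi : ∀ (q : Fin d → ℤ) (m : ℤ), ∑ j, (q j : ℝ) * h j = m → ∀ j : Fin d, j.val < k → q j = 0) :
    subTor d k ⊆ closure (Set.range fun n : ℤ => n • toTor h) := by
  intro x hx
  set a : Tor d := toTor h with ha
  let H : AddSubgroup (Tor d) := (AddSubgroup.zmultiples a).topologicalClosure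
  have hH : (H : Set (Tor d)) = closure (Set.range fun n : ℤ => n • a) := rfl
  rw [← hH]
  by_contra hxH
  have hc : IsClosed (H : Set (Tor d)) := isClosed_closure
  have hc' : IsClosed ((fun y : Tor d => y - x) ⁻¹' (H : Set (Tor d))) :=
    hc.preimage (continuous_id.sub continuous_const)
  have hd : Disjoint (H : Set (Tor d)) ((fun y : Tor d => y - x) ⁻¹' (H : Set (Tor d))) := by
    rw [Set.disjoint_left]
    intro y hy hy'
    apply hxH
    have := H.sub_mem hy hy'
    simpa using this
  obtain ⟨f, f0, f1, -⟩ := exists_continuous_zero_one_of_isClosed hc hc' hd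
  let F : C(Tor d, ℂ) := ⟨fun y => (f y : ℂ), Complex.continuous_ofReal.comp f.continuous⟩
  have hF : F ∈ closure ((Submodule.span ℂ (Set.range (UnitAddTorus.mFourier (d := Fin d))) :
      Submodule ℂ C(Tor d, ℂ)) : Set C(Tor d, ℂ)) := by
    rw [← Submodule.topologicalClosure_coe, UnitAddTorus.span_mFourier_closure_eq_top]
    trivial
  obtain ⟨p, hp, hd⟩ := Metric.mem_closure_iff.1 hF (1 / 4) (by norm_num)
  obtain ⟨c, g, e⟩ := Kron_cob hi hp
  have near : ∀ y, |f y - (p y).re| ≤ 1 / 4 := by
    intro y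
    have h1 : ‖F y - p y‖ ≤ 1 / 4 := by
      rw [← dist_eq_norm]
      exact (ContinuousMap.dist_apply_le_dist y).trans hd.le
    have h2 := (Complex.abs_re_le_norm (F y - p y)).trans h1
    simpa [F] using h2
  have mem : ∀ n : ℕ, n • a ∈ H := fun n =>
    H.nsmul_mem (AddSubgroup.le_topologicalClosure _ (AddSubgroup.mem_zmultiples a)) n
  have sub : ∀ n : ℕ, n • a ∈ subTor d k := by
    intro n j hj
    simp [ha, toTor, h0 j hj]
  have sub' : ∀ n : ℕ, x + n • a ∈ subTor d k := by
    intro n j hj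
    rw [Pi.add_apply, hx j hj, sub n j hj, add_zero]
  have grow : ∀ n : ℕ, (n : ℝ) / 2 ≤
      ((g (x + n • a)).re - (g (n • a)).re) - ((g x).re - (g 0).re) := by
    intro n
    induction n with
    | zero => simp
    | succ n ih =>
      have e1 := congrArg Complex.re (e _ (sub n))
      have e2 := congrArg Complex.re (e _ (sub' n))
      have n1 := near (n • a)
      have n2 := near (x + n • a)
      have z1 : f (n • a) = 0 := f0 (mem n)
      have z2 : f (x + n • a) = 1 := f1 (by simpa using mem n)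
      rw [z1, abs_le] at n1
      rw [z2, abs_le] at n2
      rw [succ_nsmul, ← add_assoc]
      simp only [Complex.add_re, Complex.sub_re, ← ha] at e1 e2
      push_cast
      linarith [n1.1, n1.2, n2.1, n2.2]
  have bd : ∀ y, |(g y).re| ≤ ‖g‖ := fun y =>
    (Complex.abs_re_le_norm _).trans (g.norm_coe_le_norm y)
  obtain ⟨n, hn⟩ := exists_nat_gt (8 * ‖g‖)
  have b1 := abs_le.1 (bd (x + n • a))
  have b2 := abs_le.1 (bd (n • a))
  have b3 := abs_le.1 (bd x)
  have b4 := abs_le.1 (bd 0)
  linarith [grow n, b1.2, b2.1, b3.1, b4.2]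

theorem kronecker {h : E d} (h0 : ∀ j : Fin d, k ≤ j.val → h j = 0)
    (hi : ∀ (q : Fin d → ℤ) (m : ℤ), ∑ j, (q j : ℝ) * h j = m → ∀ j : Fin d, j.val < k → q j = 0) :
    closure (Set.range fun n : ℤ => toTor ((n : ℝ) • h)) = subTor d k ∧
      closure (Set.range fun s : ℝ => toTor (s • h)) = subTor d k := by
  have up : closure (Set.range fun s : ℝ => toTor (s • h)) ⊆ subTor d k :=
    closure_minimal (by rintro _ ⟨s, rfl⟩; exact Kron_mem h0 s) Kron_closed
  have mid : closure (Set.range fun n : ℤ => toTor ((n : ℝ) • h)) ⊆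
      closure (Set.range fun s : ℝ => toTor (s • h)) :=
    closure_mono (by rintro _ ⟨n, rfl⟩; exact ⟨n, rfl⟩)
  have low : subTor d k ⊆ closure (Set.range fun n : ℤ => toTor ((n : ℝ) • h)) := by
    simp only [Kron_zsmul]
    exact Kron_sub h0 hi
  exact ⟨(mid.trans up).antisymm low, up.antisymm (low.trans mid)⟩

end Pool.Agent.Lib.MP_ce3247_an
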