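import Pool.Agent.Lib.MP_ce3247_an.Data

/-! The covering map and the Lagrangian of the data. -/

open MeasureTheory Filter Topology

namespace Pool.Agent.Lib.MP_ce3247_an

variable {d k : ℕ}

private lemma Lag_coe_eq {a b : ℝ} :
    (a : UnitAddCircle) = (b : UnitAddCircle) ↔ ∃ m : ℤ, b = a + m := by
  rw [QuotientAddGroup.eq, AddSubgroup.mem_zmultiples_iff]
  refine exists_congr fun m => ?_
  rw [zsmul_eq_mul, mul_one]
  constructor <;> intro h <;> linarith

lemma proj_eq_iff {x v x' v' : E d} {t t' : ℝ} : proj x v t = proj x' v' t' ↔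
    ∃ (z : Fin d → ℤ) (m : ℤ), x' = x + ic z ∧ v' = v ∧ t' = t + m := by
  simp only [proj, Prod.mk.injEq, funext_iff, toTor, Lag_coe_eq, Pi.add_apply, ic]
  constructor
  · rintro ⟨h1, h2, m, h3⟩
    choose z hz using h1
    exact ⟨z, m, hz, fun i => (h2 i).symm, h3⟩
  · rintro ⟨z, m, h1, h2, h3⟩
    exact ⟨fun i => ⟨z i, h1 i⟩, fun i => (h2 i).symm, m, h3⟩

lemma isOpenQuotientMap_proj :
    IsOpenQuotientMap fun z : E d × E d × ℝ => proj z.1 z.2.1 z.2.2 := by
  have h : IsOpenQuotientMap fun a : ℝ => (a : UnitAddCircle) :=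
    QuotientAddGroup.isOpenQuotientMap_mk
  exact (IsOpenQuotientMap.piMap fun _ : Fin d => h).prodMap (IsOpenQuotientMap.id.prodMap h)

private lemma Lag_rep (x : UnitAddCircle) : ((rep x : ℝ) : UnitAddCircle) = x :=
  (AddCircle.equivIco 1 0).symm_apply_apply x

lemma proj_sec (z : Phase d) : proj (sec z).1 z.2.1 (sec z).2 = z :=
  Prod.ext (funext fun _ => Lag_rep _) (Prod.ext rfl (Lag_rep _))

lemma sec_proj (x v : E d) (t : ℝ) :
    ∃ (z : Fin d → ℤ) (m : ℤ), sec (proj x v t) = shift z m (x, t) := by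
  obtain ⟨z, m, h1, -, h3⟩ := proj_eq_iff.1 (proj_sec (proj x v t)).symm
  exact ⟨z, m, Prod.ext h1 h3⟩

/-- A periodic continuous function descends to a continuous function on phase space. -/
lemma continuous_desc {F : Type*} [TopologicalSpace F] {f : E d × E d × ℝ → F} (hf : Continuous f)
    (hp : ∀ (z : Fin d → ℤ) (m : ℤ) x v t, f (x + ic z, v, t + m) = f (x, v, t)) :
    (Continuous fun z : Phase d => f ((sec z).1, z.2.1, (sec z).2)) ∧
      ∀ x v t, f ((sec (proj x v t)).1, v, (sec (proj x v t)).2) = f (x, v, t) := by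
  have h : ∀ x v t, f ((sec (proj x v t)).1, v, (sec (proj x v t)).2) = f (x, v, t) := by
    intro x v t
    obtain ⟨z, m, e⟩ := sec_proj x v t
    rw [e]
    exact hp z m x v t
  refine ⟨isOpenQuotientMap_proj.isQuotientMap.continuous_iff.2 (hf.congr fun z => ?_), h⟩
  exact (h z.1 z.2.1 z.2.2).symm

/-- The standard scalar product as a map to linear forms. -/
private noncomputable def Lag_form (d : ℕ) : E d →L[ℝ] E d →L[ℝ] ℝ :=
  ∑ j, (ContinuousLinearMap.proj j : E d →L[ℝ] ℝ).smulRight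
    (ContinuousLinearMap.proj j : E d →L[ℝ] ℝ)

private lemma Lag_form_apply (p w : E d) : Lag_form d p w = ∑ j, p j * w j := by
  simp [Lag_form]

private lemma Lag_form_single (p : E d) (j : Fin d) : Lag_form d p (Pi.single j 1) = p j := by
  simp [Lag_form_apply, Pi.single_apply]

private lemma Lag_form_eq (l : E d →L[ℝ] ℝ) : Lag_form d (fun j => l (Pi.single j 1)) = l := by
  refine ContinuousLinearMap.ext fun w => ?_
  rw [Lag_form_apply]
  conv_rhs => rw [pi_eq_sum_univ' w, map_sum]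
  exact Finset.sum_congr rfl fun j _ => by rw [map_smul, smul_eq_mul, mul_comm]

private lemma Lag_form_deriv {p : ℝ → E d} {q : E d} {s : ℝ} :
    HasDerivAt (fun σ => Lag_form d (p σ)) (Lag_form d q) s ↔ HasDerivAt p q s := by
  refine ⟨fun h => hasDerivAt_pi.2 fun j => ?_,
    fun h => (Lag_form d).hasFDerivAt.comp_hasDerivAt s h⟩
  have := (ContinuousLinearMap.apply ℝ ℝ (Pi.single j 1 : E d)).hasFDerivAt.comp_hasDerivAt s h
  simpa only [Function.comp_def, ContinuousLinearMap.apply_apply, Lag_form_single] using this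

private lemma Lag_sq_deriv {V : Type*} [NormedAddCommGroup V] [NormedSpace ℝ V] {f : V → E d}
    {f' : V →L[ℝ] E d} {y : V} (h : HasFDerivAt f f' y) :
    HasFDerivAt (fun y => (∑ j, f y j ^ 2) / 2) (Lag_form d (f y) ∘L f') y := by
  have h1 : ∀ y, (∑ j, f y j ^ 2) / 2 = (1 / 2 : ℝ) * Lag_form d (f y) (f y) := fun y => by
    simp only [Lag_form_apply, sq]
    ring
  simp only [h1]
  refine ((((Lag_form d).hasFDerivAt.comp y h).clm_apply h).const_mul (1 / 2 : ℝ)).congr_fderiv ?_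
  refine ContinuousLinearMap.ext fun w => ?_
  simp only [smul_apply, add_apply, ContinuousLinearMap.comp_apply, ContinuousLinearMap.flip_apply,
    Function.comp_apply, Lag_form_apply, smul_eq_mul, mul_comm (f' w _)]
  ring

private lemma Lag_fderiv (a : E d) (c : ℝ) (v : E d) :
    fderiv ℝ (fun u : E d => (∑ j, (u j - a j) ^ 2) / 2 + c) v = Lag_form d (v - a) := by
  have h := (Lag_sq_deriv ((hasFDerivAt_id v).sub_const a)).add_const c
  rw [ContinuousLinearMap.comp_id] at h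
  exact h.fderiv

private lemma Lag_norm_sq (u : E d) : ‖u‖ ^ 2 ≤ ∑ j, u j ^ 2 := by
  have h0 : 0 ≤ ∑ j, u j ^ 2 := Finset.sum_nonneg fun j _ => sq_nonneg _
  rw [← Real.le_sqrt (norm_nonneg _) h0, pi_norm_le_iff_of_nonneg (Real.sqrt_nonneg _)]
  exact fun j => Real.abs_le_sqrt
    (Finset.single_le_sum (f := fun j => u j ^ 2) (fun j _ => sq_nonneg _) (Finset.mem_univ j))

namespace Data

variable (D : Data d k)

lemma Lag_proj (x v : E d) (t : ℝ) :
    D.Lag (proj x v t) = (∑ j, (v j - D.X (x, t) j) ^ 2) / 2 + D.P (x, t) := by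
  obtain ⟨z, m, e⟩ := sec_proj x v t
  rw [Lag, e, D.X_per, D.P_per]
  rfl

lemma Lag_nonneg (z : Phase d) : 0 ≤ D.Lag z :=
  add_nonneg (div_nonneg (Finset.sum_nonneg fun _ _ => sq_nonneg _) zero_le_two) (D.P_nonneg _)

private lemma Lag_smooth' :
    ContDiff ℝ D.r fun z : E d × E d × ℝ => D.Lag (proj z.1 z.2.1 z.2.2) := by
  simp only [Lag_proj]
  have h : ContDiff ℝ D.r fun z : E d × E d × ℝ => (z.1, z.2.2) :=
    contDiff_fst.prodMk contDiff_snd.snd
  exact ((ContDiff.sum fun j _ => (contDiff_pi.1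
    (contDiff_snd.fst.sub (D.X_smooth.comp h)) j).pow 2).div_const 2).add (D.P_smooth.comp h)

lemma Lag_cont : Continuous D.Lag :=
  isOpenQuotientMap_proj.isQuotientMap.continuous_iff.2 D.Lag_smooth'.continuous

lemma Lag_smooth : ContDiff ℝ D.r fun z : E d × E d × ℝ => D.Lag (proj z.1 z.2.1 z.2.2) :=
  D.Lag_smooth'

lemma Lag_convex (x v : E d) (t : ℝ) (w : E d) (hw : w ≠ 0) :
    0 < iteratedFDeriv ℝ 2 (fun u => D.Lag (proj x u t)) v ![w, w] := by
  simp only [Lag_proj]
  rw [iteratedFDeriv_two_apply, funext (Lag_fderiv (D.X (x, t)) (D.P (x, t)))]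
  have h := (Lag_form d).hasFDerivAt.comp v ((hasFDerivAt_id v).sub_const (D.X (x, t)))
  rw [ContinuousLinearMap.comp_id] at h
  rw [show fderiv ℝ (fun v => Lag_form d (v - D.X (x, t))) v = Lag_form d from h.fderiv,
    Lag_form_apply]
  obtain ⟨j, hj⟩ := Function.ne_iff.1 hw
  exact Finset.sum_pos' (fun j _ => mul_self_nonneg (w j))
    ⟨j, Finset.mem_univ j, mul_self_pos.2 hj⟩

lemma Lag_super (x : E d) (t : ℝ) :
    Tendsto (fun v => D.Lag (proj x v t) / ‖v‖) (cocompact (E d)) atTop := by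
  have h : Tendsto (fun v : E d => ‖v‖) (cocompact (E d)) atTop := tendsto_norm_cocompact_atTop
  refine tendsto_atTop_mono' _ ?_
    (tendsto_atTop_add_const_right _ (-‖D.X (x, t)‖) (h.atTop_div_const two_pos))
  filter_upwards [h.eventually_gt_atTop 0] with v hv
  have h1 := Lag_norm_sq (v - D.X (x, t))
  have h2 := pow_le_pow_left₀ (abs_nonneg _) (abs_norm_sub_norm_le v (D.X (x, t))) 2
  rw [sq_abs] at h2
  simp only [Pi.sub_apply] at h1
  rw [le_div_iff₀ hv, Lag_proj]
  nlinarith [D.P_nonneg (x, t), sq_nonneg (‖D.X (x, t)‖)]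

private lemma Lag_fderiv_x (x v : E d) (t : ℝ) :
    fderiv ℝ (fun y => D.Lag (proj y v t)) x = Lag_form d (D.G (x, v - D.X (x, t), t)).2.1 := by
  have hd : (D.r : WithTop ℕ∞) ≠ 0 := by
    have := D.two_le
    exact_mod_cast (by omega : D.r ≠ 0)
  have h0 : HasFDerivAt (fun y : E d => (y, t)) (ContinuousLinearMap.inl ℝ (E d) ℝ) x :=
    hasFDerivAt_prodMk_left x t
  have h1 := (D.X_smooth.differentiable hd (x, t)).hasFDerivAt.comp x h0
  have h2 := (D.P_smooth.differentiable hd (x, t)).hasFDerivAt.comp x h0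
  have h3 := (Lag_sq_deriv (h1.const_sub v)).add h2
  simp only [Lag_proj]
  rw [← Lag_form_eq (fderiv ℝ _ x)]
  refine congrArg _ (funext fun j => ?_)
  refine (congrArg (fun l : E d →L[ℝ] ℝ => l (Pi.single j 1)) h3.fderiv).trans ?_
  simp only [add_apply, neg_apply, ContinuousLinearMap.comp_apply, ContinuousLinearMap.inl_apply,
    Lag_form_apply, Function.comp_apply, G, Pi.neg_apply, mul_neg, Finset.sum_neg_distrib]
  ring

lemma isEL_iff (t₀ : ℝ) (x v : ℝ → E d) : IsEL D.Lag t₀ x v ↔ ∀ s,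
    HasDerivAt (fun σ => (x σ, v σ - D.X (x σ, t₀ + σ), t₀ + σ))
      (D.G (x s, v s - D.X (x s, t₀ + s), t₀ + s)) s := by
  refine forall_congr' fun s => ?_
  rw [Lag_fderiv_x]
  simp only [Lag_proj, Lag_fderiv, Lag_form_deriv]
  have e : (D.G (x s, v s - D.X (x s, t₀ + s), t₀ + s)).1 = v s := add_sub_cancel _ _
  constructor
  · rintro ⟨h1, h2⟩
    exact (e ▸ h1).prodMk (h2.prodMk ((hasDerivAt_id s).const_add t₀))
  · intro h
    have h1 := (hasFDerivAt_fst (𝕜 := ℝ)).comp_hasDerivAt s h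
    have h2 := (hasFDerivAt_fst (𝕜 := ℝ)).comp_hasDerivAt s
      ((hasFDerivAt_snd (𝕜 := ℝ)).comp_hasDerivAt s h)
    exact ⟨h1.congr_deriv e, h2⟩

end Data

end Pool.Agent.Lib.MP_ce3247_an
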