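import Pool.Agent.Lib.MP_ce3247_an.Per

/-! A periodic cutoff that vanishes near a periodic set, with uniform derivative bounds. -/

open MeasureTheory Filter Topology

namespace Pool.Agent.Lib.MP_ce3247_an

/-- The anisotropic scaling. -/
noncomputable def Lat_A (d M M' : ℕ) : (E d × ℝ) →L[ℝ] (E d × ℝ) :=
  ((M : ℝ) • ContinuousLinearMap.fst ℝ (E d) ℝ).prod ((M' : ℝ) • ContinuousLinearMap.snd ℝ (E d) ℝ)

/-- A lattice point. -/
def Lat_L {d : ℕ} (j : (Fin d → ℤ) × ℤ) : E d × ℝ := (ic j.1, (j.2 : ℝ))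

/-- The bump. -/
noncomputable def Lat_psi (d : ℕ) : ContDiffBump (0 : E d × ℝ) :=
  ⟨1 / 2, 1, by norm_num, by norm_num⟩

lemma Lat_A_apply (d M M' : ℕ) (y : E d × ℝ) :
    Lat_A d M M' y = ((M : ℝ) • y.1, (M' : ℝ) * y.2) := rfl

lemma Lat_norm_A_apply (d M M' : ℕ) (y : E d × ℝ) :
    ‖Lat_A d M M' y‖ = max ((M : ℝ) * ‖y.1‖) ((M' : ℝ) * |y.2|) := by
  rw [Lat_A_apply, Prod.norm_def]
  simp [norm_smul]

lemma Lat_norm_A (d : ℕ) {M M' : ℕ} (h : M ≤ M') : ‖Lat_A d M M'‖ ≤ M' := by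
  refine ContinuousLinearMap.opNorm_le_bound _ (Nat.cast_nonneg _) fun y => ?_
  rw [Lat_norm_A_apply]
  have h1 : (M : ℝ) ≤ M' := Nat.cast_le.2 h
  refine max_le ?_ ?_
  · exact mul_le_mul h1 (norm_fst_le y) (norm_nonneg _) (Nat.cast_nonneg _)
  · exact mul_le_mul_of_nonneg_left (norm_snd_le y) (Nat.cast_nonneg _)

lemma Lat_L_add {d : ℕ} (j k : (Fin d → ℤ) × ℤ) : Lat_L (j + k) = Lat_L j + Lat_L k := by
  refine Prod.ext (funext fun i => ?_) ?_ <;> simp [Lat_L, ic]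

lemma Lat_A_shift {d : ℕ} (M M' : ℕ) (z : Fin d → ℤ) (m : ℤ) (y : E d × ℝ) :
    Lat_A d M M' (shift z m y) =
      Lat_A d M M' y + Lat_L ((fun i => (M : ℤ) * z i), (M' : ℤ) * m) := by
  refine Prod.ext (funext fun i => ?_) ?_ <;> simp [Lat_A_apply, Lat_L, ic, shift, mul_add]

lemma Lat_shift_neg {d : ℕ} (z : Fin d → ℤ) (m : ℤ) (y : E d × ℝ) :
    shift z m (shift (-z) (-m) y) = y := by
  refine Prod.ext (funext fun i => ?_) ?_ <;> simp [ic, shift]

/-- The nearest lattice point. -/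
noncomputable def Lat_R {d : ℕ} (w : E d × ℝ) : (Fin d → ℤ) × ℤ :=
  (fun i => round (w.1 i), round w.2)

lemma Lat_R_le {d : ℕ} (w : E d × ℝ) : ‖w - Lat_L (Lat_R w)‖ ≤ 1 / 2 := by
  rw [Prod.norm_def]
  refine max_le ((pi_norm_le_iff_of_nonneg (by norm_num)).2 fun i => ?_) ?_
  · exact abs_sub_round (w.1 i)
  · exact abs_sub_round w.2

lemma Lat_mem_Icc {a : ℝ} {n : ℤ} (h : |a - n| < 2) :
    n ∈ Finset.Icc (round a - 2) (round a + 2) := by
  have h1 := abs_le.1 (abs_sub_round a)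
  have h2 := abs_lt.1 h
  have h3 : ((round a - 3 : ℤ) : ℝ) < n := by push_cast; linarith [h1.1, h1.2, h2.1, h2.2]
  have h4 : (n : ℝ) < ((round a + 3 : ℤ) : ℝ) := by push_cast; linarith [h1.1, h1.2, h2.1, h2.2]
  have h5 := Int.cast_lt.1 h3
  have h6 := Int.cast_lt.1 h4
  rw [Finset.mem_Icc]
  omega

lemma Lat_box {d : ℕ} (w : E d × ℝ) : ∃ s : Finset ((Fin d → ℤ) × ℤ), s.card ≤ 5 ^ d * 5 ∧
    ∀ j, ‖w - Lat_L j‖ < 2 → j ∈ s := by
  refine ⟨(Fintype.piFinset fun i => Finset.Icc (round (w.1 i) - 2) (round (w.1 i) + 2)) ×ˢ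
    Finset.Icc (round w.2 - 2) (round w.2 + 2), ?_, fun j hj => ?_⟩
  · have : ∀ a : ℤ, (Finset.Icc (a - 2) (a + 2)).card = 5 := fun a => by
      rw [Int.card_Icc]
      omega
    simp only [Finset.card_product, Fintype.card_piFinset, this]
    simp
  · rw [Finset.mem_product, Fintype.mem_piFinset]
    refine ⟨fun i => Lat_mem_Icc ?_, Lat_mem_Icc ?_⟩
    · exact ((norm_le_pi_norm (w - Lat_L j).1 i).trans (norm_fst_le _)).trans_lt hj
    · exact (norm_snd_le (w - Lat_L j)).trans_lt hj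

lemma Lat_psi_bound (d r : ℕ) : ∃ C : ℝ, 0 ≤ C ∧ ∀ j ≤ r, ∀ y,
    ‖iteratedFDeriv ℝ j (Lat_psi d) y‖ ≤ C := by
  have h : ∀ j : ℕ, ∃ C : ℝ, ∀ y, ‖iteratedFDeriv ℝ j (Lat_psi d) y‖ ≤ C := fun j =>
    Continuous.bounded_above_of_compact_support
      ((Lat_psi d).contDiff (n := j)).continuous_iteratedFDeriv'
      ((Lat_psi d).hasCompactSupport.iteratedFDeriv j)
  choose B hB using h
  have h0 : ∀ j, 0 ≤ B j := fun j => (norm_nonneg _).trans (hB j 0)
  exact ⟨∑ j ∈ Finset.range (r + 1), B j, Finset.sum_nonneg fun j _ => h0 j, fun j hj y =>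
    (hB j y).trans (Finset.single_le_sum (fun j _ => h0 j)
      (Finset.mem_range.2 (Nat.lt_succ_of_le hj)))⟩

lemma Lat_psi_zero {d : ℕ} {w : E d × ℝ} (h : 1 ≤ ‖w‖) : Lat_psi d w = 0 :=
  (Lat_psi d).zero_of_le_dist (by simpa [Lat_psi] using h)

lemma Lat_psi_one {d : ℕ} {w : E d × ℝ} (h : ‖w‖ ≤ 1 / 2) : Lat_psi d w = 1 :=
  (Lat_psi d).one_of_mem_closedBall (by simpa [Lat_psi] using h)

theorem exists_cut (d r : ℕ) : ∃ C : ℝ, 0 ≤ C ∧ ∀ (M M' : ℕ) (Z : Set (E d × ℝ)), 0 < M → M ≤ M' →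
    (∀ z m y, y ∈ Z → shift z m y ∈ Z) → ∃ V : E d × ℝ → ℝ, ContDiff ℝ r V ∧
      (∀ z m y, V (shift z m y) = V y) ∧ (∀ y, 0 ≤ V y) ∧
      (∀ y y', y' ∈ Z → ‖y.1 - y'.1‖ ≤ 1 / (M : ℝ) → y.2 = y'.2 → V y = 0) ∧
      (∀ y, (∀ y' ∈ Z, ‖y.1 - y'.1‖ < 4 / (M : ℝ) → |y.2 - y'.2| < 4 / (M' : ℝ) → False) →
        1 ≤ V y) ∧
      ∀ j ≤ r, ∀ y, ‖iteratedFDeriv ℝ j V y‖ ≤ C * (M' : ℝ) ^ j := by
  classical
  obtain ⟨B, hB0, hB⟩ := Lat_psi_bound d r
  refine ⟨((5 ^ d * 5 : ℕ) : ℝ) * B, by positivity, fun M M' Z hM hMM hZ => ?_⟩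
  have hM0 : (0 : ℝ) < M := Nat.cast_pos.2 hM
  have hM0' : (0 : ℝ) < M' := Nat.cast_pos.2 (hM.trans_le hMM)
  set A := Lat_A d M M' with hA
  let good : (Fin d → ℤ) × ℤ → Prop := fun j => ∀ y' ∈ Z, 2 ≤ ‖A y' - Lat_L j‖
  let G : (Fin d → ℤ) × ℤ → E d × ℝ → ℝ := fun j y =>
    if good j then Lat_psi d (A y - Lat_L j) else 0
  have hψ : ∀ j : (Fin d → ℤ) × ℤ, ContDiff ℝ r fun w : E d × ℝ => Lat_psi d (w - Lat_L j) :=
    fun j => (Lat_psi d).contDiff.comp (contDiff_id.sub contDiff_const)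
  have hG : ∀ j, ContDiff ℝ r (G j) := fun j => by
    by_cases h : good j
    · simp only [G, if_pos h]
      exact (hψ j).comp A.contDiff
    · simp only [G, if_neg h]
      exact contDiff_const
  have hG0 : ∀ j y, 0 ≤ G j y := fun j y => by
    simp only [G]
    split_ifs
    exacts [(Lat_psi d).nonneg, le_rfl]
  have hGz : ∀ j y, 1 ≤ ‖A y - Lat_L j‖ → G j y = 0 := fun j y h => by
    simp only [G, Lat_psi_zero h, ite_self]
  have hloc : ∀ y, ∃ s : Finset ((Fin d → ℤ) × ℤ), s.card ≤ 5 ^ d * 5 ∧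
      ∀ᶠ y' in 𝓝 y, ∀ j, j ∉ s → G j y' = 0 := fun y => by
    obtain ⟨s, hs, hs'⟩ := Lat_box (A y)
    refine ⟨s, hs, ?_⟩
    have : ∀ᶠ y' in 𝓝 y, ‖A y - A y'‖ < 1 := by
      have hc : Continuous fun y' => ‖A y - A y'‖ := by fun_prop
      exact hc.continuousAt.eventually_lt continuousAt_const (by simp)
    filter_upwards [this] with y' hy' j hj
    refine hGz j y' ?_
    by_contra hlt
    refine hj (hs' j ?_)
    have := norm_sub_le_norm_sub_add_norm_sub (A y) (A y') (Lat_L j)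
    linarith [not_le.1 hlt]
  refine ⟨fun y => ∑ᶠ j, G j y, contDiff_finsum' hG fun y => (hloc y).imp fun s hs => hs.2,
    fun z m y => ?_, fun y => finsum_nonneg fun j => hG0 j y, fun y y' hy' h1 h2 => ?_,
    fun y hy => ?_, fun j hj y => ?_⟩
  · let k : (Fin d → ℤ) × ℤ := ((fun i => (M : ℤ) * z i), (M' : ℤ) * m)
    have e1 : ∀ (j : (Fin d → ℤ) × ℤ) (w : E d × ℝ),
        A (shift z m w) - Lat_L (j + k) = A w - Lat_L j := fun j w => by
      rw [hA, Lat_A_shift, Lat_L_add]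
      exact add_sub_add_right_eq_sub _ _ _
    have e2 : ∀ j, good (j + k) ↔ good j := fun j =>
      ⟨fun h w hw => e1 j w ▸ h _ (hZ z m w hw), fun h w hw => by
        have := h _ (hZ (-z) (-m) w hw)
        rwa [← e1, Lat_shift_neg] at this⟩
    show ∑ᶠ j, G j (shift z m y) = ∑ᶠ j, G j y
    rw [← finsum_comp_equiv (Equiv.addRight k)]
    refine finsum_congr fun j => ?_
    simp only [G, Equiv.coe_addRight, e1, e2]
  · refine finsum_eq_zero_of_forall_eq_zero fun j => ?_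
    by_cases h : good j
    · refine hGz j y ?_
      have h3 : ‖A y' - A y‖ ≤ 1 := by
        rw [norm_sub_rev, ← map_sub, hA, Lat_norm_A_apply]
        refine max_le ?_ ?_
        · exact (le_div_iff₀' hM0).1 h1
        · simp [h2]
      have := norm_sub_le_norm_sub_add_norm_sub (A y') (A y) (Lat_L j)
      linarith [h y' hy']
    · simp only [G, if_neg h]
  · have h1 := Lat_R_le (A y)
    have hg : good (Lat_R (A y)) := fun y' hy' => by
      by_contra hlt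
      have h2 := norm_sub_le_norm_sub_add_norm_sub (A y) (Lat_L (Lat_R (A y))) (A y')
      rw [norm_sub_rev (Lat_L _)] at h2
      have h3 : ‖A (y - y')‖ < 4 := by
        rw [map_sub]
        linarith [not_le.1 hlt]
      rw [hA, Lat_norm_A_apply, max_lt_iff] at h3
      exact hy y' hy' ((lt_div_iff₀' hM0).2 h3.1) ((lt_div_iff₀' hM0').2 h3.2)
    have h4 : G (Lat_R (A y)) y = 1 := by simp only [G, if_pos hg, Lat_psi_one h1]
    obtain ⟨s, -, hs⟩ := hloc y
    have h5 : (Function.support fun j => G j y).Finite :=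
      s.finite_toSet.subset fun j hj => by
        by_contra hn
        exact hj (hs.self_of_nhds j hn)
    exact h4 ▸ single_le_finsum (f := fun j => G j y) _ h5 fun j => hG0 j y
  · rw [mul_assoc]
    refine norm_iteratedFDeriv_finsum_le hG hloc hj (by positivity) (fun i w => ?_) y
    by_cases h : good i
    · have e : G i = (fun w : E d × ℝ => Lat_psi d (w - Lat_L i)) ∘ A := by
        funext w
        simp only [G, if_pos h, Function.comp]
      rw [e, A.iteratedFDeriv_comp_right (hψ i) w (Nat.cast_le.2 hj)]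
      refine (ContinuousMultilinearMap.norm_compContinuousLinearMap_le _ _).trans ?_
      rw [iteratedFDeriv_comp_sub, Finset.prod_const, Finset.card_univ, Fintype.card_fin]
      exact mul_le_mul (hB j hj _) (pow_le_pow_left₀ (norm_nonneg _) (Lat_norm_A d hMM) j)
        (by positivity) hB0
    · have e : G i = fun _ => 0 := by
        funext w
        simp only [G, if_neg h]
      rw [e, iteratedFDeriv_fun_zero]
      simp only [Pi.zero_apply, norm_zero]
      positivity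

end Pool.Agent.Lib.MP_ce3247_an
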