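import Mathlib

/-! Letter frequencies of a positive matrix, and words with prescribed letter counts. -/

open Finset Filter Topology

namespace Pool.Agent.Lib.MP_ce3247_an

theorem PF_bound {k : ℕ} (p x : Fin (k + 1) → ℝ) {δ lo : ℝ} (hp : ∀ b, 0 ≤ p b)
    (hs : ∑ b, p b = 1) (hδ : δ ≤ p 0) (hx : ∀ b, lo ≤ x b) :
    δ * x 0 + (1 - δ) * lo ≤ ∑ b, p b * x b := by
  have h1 : ∑ b, p b * x b = ∑ b, p b * (x b - lo) + lo := by
    simp only [mul_sub, sum_sub_distrib, ← sum_mul, hs]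
    ring
  have h2 : p 0 * (x 0 - lo) ≤ ∑ b, p b * (x b - lo) :=
    single_le_sum (f := fun b => p b * (x b - lo))
      (fun b _ => mul_nonneg (hp b) (sub_nonneg.2 (hx b))) (mem_univ 0)
  have h3 : δ * (x 0 - lo) ≤ p 0 * (x 0 - lo) :=
    mul_le_mul_of_nonneg_right hδ (sub_nonneg.2 (hx 0))
  rw [h1]
  linarith

theorem PF_stoch {k : ℕ} (P : Fin (k + 1) → Fin (k + 1) → ℝ) (hP : ∀ a b, 0 < P a b)
    (hs : ∀ a, ∑ b, P a b = 1) (u : ℕ → Fin (k + 1) → ℝ) (h0 : ∀ a, 0 ≤ u 0 a) (h00 : 0 < u 0 0)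
    (hu : ∀ n a, u (n + 1) a = ∑ b, P a b * u n b) :
    ∃ c : ℝ, 0 < c ∧ ∀ a, Tendsto (fun n => u n a) atTop (𝓝 c) := by
  obtain ⟨a₀, -, ha₀⟩ := exists_min_image univ (fun a => P a 0) univ_nonempty
  obtain ⟨a₁, -, ha₁⟩ := exists_max_image univ (fun a => u 0 a) univ_nonempty
  set δ := P a₀ 0 with hδ
  set H := u 0 a₁ with hH
  have δ0 : 0 < δ := hP a₀ 0
  have δ1 : δ ≤ 1 := by
    rw [← hs a₀]
    exact single_le_sum (f := fun b => P a₀ b) (fun b _ => (hP a₀ b).le) (mem_univ 0)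
  let lo : ℕ → ℝ := fun n => Nat.rec 0 (fun m x => δ * u m 0 + (1 - δ) * x) n
  have lo0 : lo 0 = 0 := rfl
  have los : ∀ n, lo (n + 1) = δ * u n 0 + (1 - δ) * lo n := fun n => rfl
  have key : ∀ n a, lo n ≤ u n a ∧ u n a ≤ lo n + (1 - δ) ^ n * H := by
    intro n
    induction n with
    | zero =>
      intro a
      refine ⟨h0 a, ?_⟩
      rw [lo0, pow_zero, one_mul, zero_add]
      exact ha₁ a (mem_univ a)
    | succ n ih =>
      intro a
      have h1 := PF_bound (P a) (u n) (fun b => (hP a b).le) (hs a) (ha₀ a (mem_univ a))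
        (fun b => (ih b).1)
      have h2 := PF_bound (P a) (fun b => -u n b) (lo := -(lo n + (1 - δ) ^ n * H))
        (fun b => (hP a b).le) (hs a) (ha₀ a (mem_univ a)) (fun b => neg_le_neg (ih b).2)
      simp only [mul_neg, sum_neg_distrib] at h2
      rw [hu, los, pow_succ]
      exact ⟨h1, by linarith⟩
  have H0 : 0 ≤ H := h0 a₁
  have mono : Monotone lo := monotone_nat_of_le_succ fun n => by
    have h1 := mul_nonneg δ0.le (sub_nonneg.2 (key n 0).1)
    rw [los]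
    linarith
  have hub : ∀ n a, u n a ≤ H := by
    intro n
    induction n with
    | zero => exact fun a => ha₁ a (mem_univ a)
    | succ n ih =>
      intro a
      rw [hu]
      calc ∑ b, P a b * u n b ≤ ∑ b, P a b * H :=
            sum_le_sum fun b _ => mul_le_mul_of_nonneg_left (ih b) (hP a b).le
        _ = H := by rw [← sum_mul, hs, one_mul]
  have bdd : BddAbove (Set.range lo) := ⟨H, by
    rintro _ ⟨n, rfl⟩
    exact (key n 0).1.trans (hub n 0)⟩
  have t1 := tendsto_atTop_ciSup mono bdd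
  have t2 : Tendsto (fun n : ℕ => lo n + (1 - δ) ^ n * H) atTop (𝓝 (⨆ n, lo n)) := by
    have h1 := (tendsto_pow_atTop_nhds_zero_of_lt_one (sub_nonneg.2 δ1)
      (by linarith : 1 - δ < 1)).mul_const H
    simpa using t1.add h1
  refine ⟨⨆ n, lo n, ?_, fun a => tendsto_of_tendsto_of_tendsto_of_le_of_le t1 t2
    (fun n => (key n a).1) (fun n => (key n a).2)⟩
  refine lt_of_lt_of_le ?_ (le_ciSup bdd (0 + 1))
  rw [los, lo0, mul_zero, add_zero]
  exact mul_pos δ0 h00

theorem perron_tendsto {k : ℕ} (A : Matrix (Fin (k + 1)) (Fin (k + 1)) ℕ) (hA : ∀ a b, 1 ≤ A a b)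
    {f : Fin (k + 1) → ℝ} {Λ : ℝ} (f_pos : ∀ a, 0 < f a) (f_sum : ∑ a, f a = 1)
    (right : ∀ a, ∑ b, (A a b : ℝ) * f b = Λ * f a) (a : Fin (k + 1)) :
    Tendsto (fun n : ℕ => (((A ^ n) a 0 : ℕ) : ℝ) / ((∑ a', (A ^ n) a' 0 : ℕ) : ℝ)) atTop
      (𝓝 (f a)) := by
  have hA' : ∀ a b, (0 : ℝ) < A a b := fun a b => by exact_mod_cast hA a b
  have hΛ : 0 < Λ := by
    have h1 : 0 < Λ * f 0 := by
      rw [← right 0]
      exact sum_pos (fun b _ => mul_pos (hA' 0 b) (f_pos b)) univ_nonempty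
    exact (mul_pos_iff_of_pos_right (f_pos 0)).1 h1
  obtain ⟨c, hc, hlim⟩ := PF_stoch (fun a b => (A a b : ℝ) * f b / (Λ * f a))
    (fun a b => div_pos (mul_pos (hA' a b) (f_pos b)) (mul_pos hΛ (f_pos a)))
    (fun a => by
      rw [← sum_div, right a, div_self (mul_pos hΛ (f_pos a)).ne'])
    (fun n a => (((A ^ n) a 0 : ℕ) : ℝ) / (Λ ^ n * f a))
    (fun a => div_nonneg (Nat.cast_nonneg _) (mul_pos (pow_pos hΛ 0) (f_pos a)).le)
    (by
      refine div_pos ?_ (mul_pos (pow_pos hΛ 0) (f_pos 0))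
      simp)
    (fun n a => by
      rw [pow_succ' A n, Matrix.mul_apply, Nat.cast_sum, sum_div]
      refine sum_congr rfl fun b _ => ?_
      have h1 := (f_pos a).ne'
      have h2 := (f_pos b).ne'
      have h3 := hΛ.ne'
      push_cast
      field_simp
      ring)
  have t1 : ∀ a, Tendsto (fun n : ℕ => f a * ((((A ^ n) a 0 : ℕ) : ℝ) / (Λ ^ n * f a))) atTop
      (𝓝 (f a * c)) := fun a => (hlim a).const_mul (f a)
  have t2 := tendsto_finsetSum univ fun a _ => t1 a
  rw [← sum_mul, f_sum, one_mul] at t2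
  have t3 := (t1 a).div t2 hc.ne'
  rw [mul_div_assoc, div_self hc.ne', mul_one] at t3
  refine t3.congr fun n => ?_
  have e : ∀ a, f a * ((((A ^ n) a 0 : ℕ) : ℝ) / (Λ ^ n * f a)) =
      (((A ^ n) a 0 : ℕ) : ℝ) / Λ ^ n := fun a => by
    have h1 := (f_pos a).ne'
    have h3 := hΛ.ne'
    field_simp
  simp only [Pi.div_apply, e]
  rw [← sum_div, Nat.cast_sum, div_div_div_cancel_right₀ (pow_pos hΛ n).ne']

theorem PF_sum_getD {α M : Type} [AddCommMonoid M] (g : α → M) (d : α) (l : List α) :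
    ∑ i ∈ range l.length, g (l.getD i d) = (l.map g).sum := by
  induction l with
  | nil => simp
  | cons x l ih =>
    rw [List.length_cons, sum_range_succ', List.map_cons, List.sum_cons, ← ih, add_comm]
    simp

theorem PF_word {k : ℕ} (c : Fin (k + 1) → ℕ) (hc : 2 ≤ c 0) :
    ∃ l : List (Fin (k + 1)), l.getD 0 0 = 0 ∧ l.getD (l.length - 1) 0 = 0 ∧
      ∀ (M : Type) [AddCommMonoid M] (g : Fin (k + 1) → M), (l.map g).sum = ∑ a, c a • g a := by
  let s : Multiset (Fin (k + 1)) := ∑ a, Multiset.replicate (c a - if a = 0 then 2 else 0) a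
  refine ⟨0 :: (s.toList ++ [0]), by simp, by simp, fun M _ g => ?_⟩
  have h1 : (s.toList.map g).sum = ∑ a, (c a - if a = 0 then 2 else 0) • g a := by
    rw [← Multiset.sum_coe, ← Multiset.map_coe, Multiset.coe_toList]
    have h2 := map_sum (Multiset.mapAddMonoidHom g)
      (fun a => Multiset.replicate (c a - if a = 0 then 2 else 0) a) univ
    simp only [Multiset.coe_mapAddMonoidHom] at h2
    simp only [s]
    rw [h2, Multiset.sum_sum]
    simp
  rw [List.map_cons, List.sum_cons, List.map_append, List.sum_append, h1, Fin.sum_univ_succ,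
    Fin.sum_univ_succ (fun a => c a • g a)]
  obtain ⟨m, hm⟩ := Nat.exists_eq_add_of_le hc
  simp only [if_true, Fin.succ_ne_zero, if_false, Nat.sub_zero, List.map_cons, List.map_nil,
    List.sum_cons, List.sum_nil, add_zero, hm, Nat.add_sub_cancel_left, add_smul, two_smul]
  abel

theorem exists_words {k : ℕ} (A : Matrix (Fin (k + 1)) (Fin (k + 1)) ℕ) (hA : ∀ b, 2 ≤ A 0 b) :
    ∃ w : Fin (k + 1) → ℕ → Fin (k + 1), (∀ b, w b 0 = 0) ∧ (∀ b, w b (∑ a, A a b - 1) = 0) ∧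
      ∀ (M : Type) [AddCommMonoid M] (b : Fin (k + 1)) (g : Fin (k + 1) → M),
        ∑ i ∈ range (∑ a, A a b), g (w b i) = ∑ a, A a b • g a := by
  choose l h1 h2 h3 using fun b => PF_word (fun a => A a b) (hA b)
  have hl : ∀ b, ∑ a, A a b = (l b).length := fun b => by
    have h := h3 b ℕ fun _ => 1
    simpa using h.symm
  refine ⟨fun b i => (l b).getD i 0, h1, fun b => ?_, fun M _ b g => ?_⟩
  · rw [hl]
    exact h2 b
  · rw [hl, PF_sum_getD, h3]

end Pool.Agent.Lib.MP_ce3247_an
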