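import Pool.Agent.Lib.MP_ce3247_an.Geo
import Pool.Agent.Lib.MP_ce3247_an.EqFix
import Pool.Agent.Lib.MP_ce3247_an.AlgM
import Pool.Agent.Lib.MP_ce3247_an.PF

/-! The self-similar data exist. -/

open Finset Filter Topology
open scoped ContDiff

namespace Pool.Agent.Lib.MP_ce3247_an

/-- The homology of a letter. -/
def Mk_e (d k : ℕ) (a : Fin (k + 1)) (j : Fin d) : ℤ := if a.val = j.val + 1 then 1 else 0

theorem Mk_e_zero {d k : ℕ} (a : Fin (k + 1)) (j : Fin d) (hj : k ≤ j.val) : Mk_e d k a j = 0 :=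
  if_neg (by have := a.isLt; omega)

theorem Mk_e_sum0 {d k : ℕ} (u : Fin d → ℝ) : ∑ j, u j * (Mk_e d k 0 j : ℝ) = 0 := by
  simp [Mk_e]

theorem Mk_e_sum {d k : ℕ} (u : Fin d → ℝ) (a : Fin (k + 1)) (j : Fin d) (h : a.val = j.val + 1) :
    ∑ i, u i * (Mk_e d k a i : ℝ) = u j := by
  rw [Finset.sum_eq_single j]
  · simp [Mk_e, h]
  · intro i _ hi
    have : a.val ≠ i.val + 1 := fun h' => hi (Fin.ext (by omega))
    simp [Mk_e, this]
  · simp

theorem Mk_rec {d k : ℕ} (S : Geo d k) (A : Matrix (Fin (k + 1)) (Fin (k + 1)) ℕ) {M : Type}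
    [AddCommMonoid M] (hw : ∀ (b : Fin (k + 1)) (g : Fin (k + 1) → M),
      ∑ i ∈ range (S.len b), g (S.w b i) = ∑ a, A a b • g a) (u : ℕ → Fin (k + 1) → M)
    (hu : ∀ n b, u (n + 1) b = ∑ i ∈ range (S.len b), u n (S.w b i)) (n : ℕ) :
    ∀ b, u n b = ∑ a, (A ^ n) a b • u 0 a := by
  induction n with
  | zero =>
    intro b
    rw [Finset.sum_eq_single b]
    · simp
    · intro a _ ha
      simp [Matrix.one_apply_ne ha]
    · simp
  | succ n ih =>
    intro b
    rw [hu, hw b (u n)]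
    simp only [ih, pow_succ, Matrix.mul_apply, Finset.smul_sum, Finset.sum_smul, smul_smul]
    rw [Finset.sum_comm]
    exact Finset.sum_congr rfl fun a _ => Finset.sum_congr rfl fun a' _ => by rw [mul_comm]

namespace Geo

variable {d k : ℕ} (S : Geo d k) {lam a0 : ℝ} {ct : Fin (k + 1) → ℝ} {c : E d}
  (h1 : ∀ b, ∑ i ∈ range (S.len b), ct (S.w b i) = lam * ct b)
  (h2 : ∀ a, ∑ j, c j * (S.e a j : ℝ) - a0 = ct a) (h3 : |lam| < S.ρ)

/-- The same curves with another eigenvector. -/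
def re : Geo d k :=
  { S with lam := lam, a0 := a0, ct := ct, c := c, left := h1, hom0 := h2, hV := h3 }

lemma re_ℓ (n : ℕ) : (S.re h1 h2 h3).ℓ n = S.ℓ n := by
  induction n with
  | zero => rfl
  | succ n ih =>
    funext b
    rw [ℓ, ℓ, ih]
    rfl

lemma re_off : (S.re h1 h2 h3).off = S.off := by
  funext n b i τ
  simp only [off, Tm, re_ℓ]
  rfl

lemma re_Γ (n : ℕ) : (S.re h1 h2 h3).Γ n = S.Γ n := by
  induction n with
  | zero => rfl
  | succ n ih =>
    funext b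
    simp only [Γ, ih, re_off, Tm, re_ℓ]
    rfl

lemma re_U (n : ℕ) : (S.re h1 h2 h3).U n = S.U n := by
  funext b
  cases n with
  | zero => rfl
  | succ n =>
    simp only [U, re_off]
    rfl

lemma re_X : (S.re h1 h2 h3).X = S.X := by
  funext y
  simp only [X, Xn, Bn, re_Γ, re_U, re_ℓ]
  rfl

lemma re_In : (S.re h1 h2 h3).In = S.In := by
  funext n
  simp only [In, Val, sub, re_Γ, re_ℓ]
  rfl

end Geo

theorem exists_geo {d k s r : ℕ} (hd : 2 ≤ d) (hs1 : 1 ≤ s) (hsk : s ≤ k) (hkd : k ≤ d)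
    (hr : r ≤ d) (hn : s * (r + 2) < (k + 1 - s) * (2 * d)) :
    ∃ (S : Geo d k) (G : Fin s → Geo d k) (h : E d), (∀ i, (G i).X = S.X) ∧
      (∀ i, (G i).In = S.In) ∧ (∀ i, (G i).L = S.L) ∧ (∀ i, (G i).ρ = S.ρ) ∧
      (∀ i, |(G i).lam| ≤ |S.lam|) ∧ |S.lam| < S.ρ ^ r * S.L ∧ S.lam ^ 2 < S.ρ ^ (r + 2) ∧
      (∀ j : Fin d, k ≤ j.val → h j = 0) ∧ (∀ i (j : Fin d), k ≤ j.val → (G i).c j = 0) ∧
      (LinearIndependent ℝ fun i => (G i).c) ∧ (∀ i, ∑ j, (G i).c j * h j = (G i).a0) ∧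
      Tendsto (fun n => ((S.ℓ n 0 : ℝ))⁻¹ • ic (S.κ n 0)) atTop (𝓝 h) ∧
      ∀ (q : Fin d → ℤ) (m : ℤ), ∑ j, (q j : ℝ) * h j = m →
        ∀ j : Fin d, j.val < k → q j = 0 := by
  classical
  have hk0 : (0 : ℝ) ≤ k := Nat.cast_nonneg k
  obtain ⟨S0, x, x1, x2, x3, hS0, x4⟩ := exists_algM hs1 hsk hn
  rw [pow_mul, sq_abs, ← pow_mul] at hS0
  obtain ⟨T, p, t1, t2, t3⟩ := exists_alg S0 hd hr hS0
    (C0 := 256 * ((k : ℝ) + 1) * (16 * ((k : ℝ) + 1) + 1)) (by nlinarith)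
  have hm0 : (0 : ℝ) ≤ T.m := Nat.cast_nonneg _
  have hV : |T.lam| < T.ρ := by
    have h0 : T.ρ ≤ 1 := by
      have h1 := T.ρ_le
      have h2 : 1 ≤ 256 * ((k : ℝ) + 1) * (16 * ((k : ℝ) + 1) + 1) * (T.m + 1) :=
        one_le_mul_of_one_le_of_one_le (by nlinarith) (by linarith)
      nlinarith [T.ρ_pos]
    have h1 := T.hV2
    have h2 : T.ρ ^ r ≤ 1 := pow_le_one₀ T.ρ_pos.le h0
    have h3 : 0 < T.ρ ^ 2 := pow_pos T.ρ_pos _
    refine abs_lt_of_sq_lt_sq ?_ T.ρ_pos.le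
    rw [pow_add] at h1
    nlinarith
  obtain ⟨w, hw0, hw1, hw⟩ := exists_words T.A (T.two_le 0)
  have h01 : (⟨0, by omega⟩ : Fin d) ≠ ⟨1, by omega⟩ := by simp
  have hlen : ∀ b, 2 ≤ ∑ a, T.A a b := fun b =>
    (T.two_le 0 b).trans (Finset.single_le_sum (f := fun a => T.A a b)
      (fun _ _ => Nat.zero_le _) (mem_univ 0))
  obtain ⟨rt⟩ := exists_routes (len := fun b => ∑ a, T.A a b) h01 hlen hw0 hw1 T.total
  obtain ⟨bs⟩ := exists_bases h01 (e := Mk_e d k) Mk_e_zero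
  obtain ⟨ζ, hζ1, hζ2, hζ3⟩ := exists_zeta
  let s : Fin (k + 1) → Finset (Fin (k + 1) × ℕ) := fun a =>
    (univ ×ˢ range (∑ b, ∑ a, T.A a b)).filter fun x => x.2 < ∑ a, T.A a x.1 ∧ w x.1 x.2 = a
  have hs : ∀ a (x : Fin (k + 1) × ℕ), x ∈ s a ↔ x.2 < ∑ a, T.A a x.1 ∧ w x.1 x.2 = a := by
    intro a x
    simp only [s, mem_filter, mem_product, mem_univ, true_and, mem_range]
    exact ⟨fun h => h.2, fun h => ⟨h.1.trans_le (Finset.single_le_sum
      (f := fun b => ∑ a, T.A a b) (fun _ _ => Nat.zero_le _) (mem_univ x.1)), h⟩⟩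
  choose B hB1 hB2 hB3 hB4 hB5 using fun a => exists_bump (s a)
    (q := fun x => rt.p x.1 x.2) (fun x => rt.p_smooth x.1 x.2)
    (fun x hx θ => rt.p_bd x.1 x.2 θ ((hs a x).1 hx).1)
  let c : ℝ → E d := fun u j => if j.val < k then u ^ (j.val + 1) - 1 else 0
  have hom0 : ∀ u (a : Fin (k + 1)), ∑ j, c u j * (Mk_e d k a j : ℝ) - -1 = u ^ (a : ℕ) := by
    intro u a
    by_cases ha : a = 0
    · rw [ha, Mk_e_sum0]
      simp
    · have h1 : a.val ≠ 0 := fun h => ha (Fin.ext h)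
      have h2 := a.isLt
      rw [Mk_e_sum (c u) a ⟨a.val - 1, by omega⟩ (by simp only; omega)]
      have h3 : a.val - 1 < k := by omega
      have h4 : a.val - 1 + 1 = a := by omega
      simp only [c, h3, if_pos, h4]
      ring
  have hle : ∀ u : ℝ, |u| ≤ |S0.ls| → |u ^ p| ≤ |T.lam| := fun u hu => by
    rw [t2, abs_pow, abs_pow]
    exact pow_le_pow_left₀ (abs_nonneg _) hu p
  let S : Geo d k :=
    { i0 := ⟨0, by omega⟩
      i1 := ⟨1, by omega⟩
      len := fun b => ∑ a, T.A a b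
      w := w
      e := Mk_e d k
      R := 16 * (k + 1) * (T.m + 1)
      σ0 := 1 / (2 * (k + 1))
      ρ := T.ρ
      L := T.L
      lam := T.lam
      a0 := 0
      ct := 0
      c := 0
      rt := rt
      bs := bs
      ζ := ζ
      B := B
      two_le := hd
      len_two := hlen
      w_first := hw0
      w_last := hw1
      L_le := T.L_le
      left := fun b => by simp
      hom0 := fun a => by simp
      R_nonneg := by positivity
      σ0_pos := by positivity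
      σ0_le := one_div_le_one_div_of_le (by norm_num) (by linarith)
      ρ_pos := T.ρ_pos
      ρ_small := by
        have h1 := T.ρ_le
        have h2 := T.ρ_pos
        rw [div_div, le_div_iff₀ (by positivity)]
        have h3 : 0 ≤ T.ρ * (((k : ℝ) + 1) * T.m) := by positivity
        nlinarith
      hX := T.hX
      hV := hV
      ζ_smooth := hζ1
      ζ_add := hζ2
      ζ_zero := hζ3
      B_smooth := hB1
      B_cpt := hB2
      B_mem := hB3
      B_one := fun a y b i h1 h2 h3 h4 h5 => hB4 a y (b, i) ((hs a (b, i)).2 ⟨h1, h2⟩) h3 h4 h5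
      B_supp := fun a y hy => by
        obtain ⟨⟨x, hx, h1⟩, h2⟩ := hB5 a y hy
        exact ⟨⟨x.1, x.2, ((hs a x).1 hx).1, ((hs a x).1 hx).2, h1⟩, h2⟩ }
  have hsw : ∀ u : Fin d → ℝ, ∑ j, u j * ∑ a, T.f a * (Mk_e d k a j : ℝ) =
      ∑ a, T.f a * ∑ j, u j * (Mk_e d k a j : ℝ) := by
    intro u
    simp only [Finset.mul_sum]
    rw [Finset.sum_comm]
    exact Finset.sum_congr rfl fun a _ => Finset.sum_congr rfl fun j _ => by ring
  have hleft : ∀ i b, ∑ n ∈ range (S.len b), x i ^ (S.w b n : ℕ) = x i ^ p * x i ^ (b : ℕ) :=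
    fun i b => by
      rw [← Alg2_left S0.A0 _ _ (x4 i) p b, ← t1]
      exact (hw ℝ b fun a => x i ^ (a : ℕ)).trans
        (Finset.sum_congr rfl fun a _ => by rw [nsmul_eq_mul, mul_comm])
  refine ⟨S, fun i => S.re (ct := fun a => x i ^ (a : ℕ)) (hleft i) (hom0 (x i))
      ((hle _ (x3 i)).trans_lt hV),
    fun j => ∑ a, T.f a * (Mk_e d k a j : ℝ), fun _ => S.re_X .., fun _ => S.re_In .., fun _ => rfl,
    fun _ => rfl, fun i => hle _ (x3 i), T.hV1, T.hV2, fun j hj => ?_, fun i j hj => ?_, ?_,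
    fun i => ?_, ?_, fun q m hq j hj => ?_⟩
  · simp [Mk_e_zero _ j hj]
  · exact if_neg (not_lt.2 hj)
  · refine Fintype.linearIndependent_iff.2 fun g hg => ?_
    have h1 : ∀ n ≤ k, ∑ i, g i * (x i ^ n - 1) = 0 := fun n hn => by
      rcases n with _ | n
      · simp
      · have := congrFun hg ⟨n, by omega⟩
        simpa [Geo.re, c, show n < k by omega] using this
    have h2 := Matrix.eq_zero_of_forall_pow_sum_mul_pow_eq_zero
      (v := fun i => g i * (x i - 1)) x1 fun n => by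
        have hn := n.2
        rw [← sub_self (0 : ℝ)]
        nth_rewrite 1 [← h1 (n + 1) (by omega)]
        rw [← h1 n (by omega), ← Finset.sum_sub_distrib]
        exact Finset.sum_congr rfl fun i _ => by ring
    exact fun i => (mul_eq_zero.1 (congrFun h2 i)).resolve_right (by linarith [x2 i])
  · show ∑ j, c (x i) j * ∑ a, T.f a * (Mk_e d k a j : ℝ) = -1
    rw [hsw]
    have h1 : ∀ a, T.f a * ∑ j, c (x i) j * (Mk_e d k a j : ℝ) =
        x i ^ (a : ℕ) * T.f a - T.f a := by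
      intro a
      rw [show ∑ j, c (x i) j * (Mk_e d k a j : ℝ) = x i ^ (a : ℕ) - 1 by linarith [hom0 (x i) a]]
      ring
    simp only [h1]
    rw [Finset.sum_sub_distrib, T.f_sum, t3, AlgM_orth S0 (x2 i) (x4 i)]
    simp
  · have hl : ∀ n, S.ℓ n 0 = ∑ a, (T.A ^ n) a 0 := fun n => by
      rw [Mk_rec S T.A (hw ℕ) S.ℓ (fun _ _ => rfl) n 0]
      exact Finset.sum_congr rfl fun a _ => by simp [Geo.ℓ]
    have hκ : ∀ n, S.κ n 0 = ∑ a, (T.A ^ n) a 0 • Mk_e d k a := fun n =>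
      Mk_rec S T.A (hw (Fin d → ℤ)) S.κ (fun _ _ => rfl) n 0
    refine tendsto_pi_nhds.2 fun j => ?_
    have h1 := tendsto_finsetSum univ fun a _ =>
      (perron_tendsto T.A (fun a b => one_le_two.trans (T.two_le a b)) T.f_pos T.f_sum T.right
        a).mul_const (Mk_e d k a j : ℝ)
    refine h1.congr fun n => ?_
    rw [hl, hκ]
    simp only [Pi.smul_apply, ic, smul_eq_mul, Finset.sum_apply, nsmul_eq_mul, Int.cast_sum,
      Pi.mul_apply, Pi.natCast_apply, Int.cast_mul, Int.cast_natCast, Finset.mul_sum]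
    exact Finset.sum_congr rfl fun a _ => by ring
  · rw [hsw] at hq
    have h1 := Fintype.linearIndependent_iff.1 T.f_ind
      (fun a => ((∑ i, q i * Mk_e d k a i - m : ℤ) : ℚ)) (by
        have h2 : ∀ a, ((∑ i, q i * Mk_e d k a i - m : ℤ) : ℚ) • T.f a =
            T.f a * ∑ i, (q i : ℝ) * (Mk_e d k a i : ℝ) - m * T.f a := by
          intro a
          rw [Rat.smul_def]
          push_cast
          ring
        simp only [h2]
        rw [Finset.sum_sub_distrib, ← Finset.mul_sum, hq, T.f_sum]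
        ring)
    have h2 : ∀ a, ∑ i, (q i : ℝ) * (Mk_e d k a i : ℝ) = m := fun a => by
      have h3 : ∑ i, q i * Mk_e d k a i = m := sub_eq_zero.1 (by exact_mod_cast h1 a)
      exact_mod_cast h3
    have h3 := h2 0
    have h4 := h2 ⟨j.val + 1, by omega⟩
    rw [Mk_e_sum0] at h3
    rw [Mk_e_sum _ _ j rfl, ← h3] at h4
    exact_mod_cast h4

end Pool.Agent.Lib.MP_ce3247_an
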