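import Pool.Agent.Lib.MP_ce3247_an.Lag

/-! Subgradients of beta. -/

open MeasureTheory Filter Topology

namespace Pool.Agent.Lib.MP_ce3247_an

variable {d k : ℕ}

lemma Sub_integrable {F : Type*} [NormedAddCommGroup F] {μ : Measure (Phase d)}
    [IsFiniteMeasure μ] {K : Set (Phase d)} (hK : IsCompact K) (h0 : μ Kᶜ = 0)
    {f : Phase d → F} (hf : Continuous f) : Integrable f μ := by
  obtain ⟨C, hC⟩ := hK.exists_bound_of_continuousOn hf.continuousOn
  refine Integrable.of_bound hf.aestronglyMeasurable C ?_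
  have : ∀ᵐ z ∂μ, z ∈ K := h0
  filter_upwards [this] with z hz using hC z hz

/-- The derivative along an invariant flow has mean zero. -/
lemma Sub_mean_zero {μ : Measure (Phase d)} [IsFiniteMeasure μ] {K : Set (Phase d)}
    (hK : IsCompact K) (h0 : μ Kᶜ = 0) {Φ : ℝ → Phase d → Phase d}
    (hc : Continuous fun q : ℝ × Phase d => Φ q.1 q.2) (hinv : ∀ s, MeasurePreserving (Φ s) μ μ)
    {A g : Phase d → ℝ} (hA : Continuous A) (hg : Continuous g)
    (hder : ∀ z s, HasDerivAt (fun σ => A (Φ σ z)) (g (Φ s z)) s) : ∫ z, g z ∂μ = 0 := by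
  have hΦ : ∀ s, Continuous (Φ s) := fun s => hc.comp (Continuous.prodMk_right s)
  have hI : ∀ {f : Phase d → ℝ}, Continuous f → ∀ s, ∫ z, f (Φ s z) ∂μ = ∫ z, f z ∂μ := by
    intro f hf s
    have := integral_map (μ := μ) (hinv s).measurable.aemeasurable
      (f := f) hf.aestronglyMeasurable
    rw [(hinv s).map_eq] at this
    exact this.symm
  obtain ⟨C, hC⟩ := ((isCompact_Icc (a := (-1 : ℝ)) (b := 1)).prod hK).exists_bound_of_continuousOn
    (hg.comp hc).continuousOn
  have hae : ∀ᵐ z ∂μ, z ∈ K := h0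
  have key := (hasDerivAt_integral_of_dominated_loc_of_deriv_le (μ := μ) (x₀ := (0 : ℝ))
    (F := fun s z => A (Φ s z)) (F' := fun s z => g (Φ s z)) (bound := fun _ => C)
    (s := Set.Icc (-1) 1) (Icc_mem_nhds (by norm_num) (by norm_num))
    (Eventually.of_forall fun s => (hA.comp (hΦ s)).aestronglyMeasurable)
    (Sub_integrable hK h0 (hA.comp (hΦ 0))) (hg.comp (hΦ 0)).aestronglyMeasurable
    (by filter_upwards [hae] with z hz s hs using hC (s, z) ⟨hs, hz⟩)
    (integrable_const C) (Eventually.of_forall fun z s _ => hder z s)).2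
  simp only [hI hA, hI hg] at key
  exact key.unique (hasDerivAt_const _ _)

lemma Sub_fderiv_per {f : E d × ℝ → ℝ} {z : Fin d → ℤ} {m : ℤ} {a : ℝ}
    (hp : ∀ y, f (shift z m y) = f y + a) (y : E d × ℝ) :
    fderiv ℝ f (shift z m y) = fderiv ℝ f y := by
  have e : ∀ y : E d × ℝ, shift z m y = y + (ic z, (m : ℝ)) := fun y => rfl
  have h1 : (fun y => f (y + (ic z, (m : ℝ)))) = fun y => f y + a := funext fun y => hp y
  rw [e, ← fderiv_comp_add_right, h1, fderiv_add_const]

theorem Data.sub_le (D : Data d k) {Φ : ℝ → Phase d → Phase d} (hT : Tonelli D.r D.Lag Φ)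
    (hc : Continuous fun q : ℝ × Phase d => Φ q.1 q.2) {h' : E d} {μ : Measure (Phase d)}
    (hμ : μ ∈ Minv Φ h') (i : Fin (d - k + 1)) :
    ∑ j, D.c i j * (h' j - D.h j) ≤ ∫ z, D.Lag z ∂μ := by
  obtain ⟨hprob, ⟨K, hK, h0⟩, hinv, hrot⟩ := hμ
  set a : ℝ := ∑ j, D.c i j * D.h j with ha
  let Gt : E d × E d × ℝ → ℝ := fun y => D.F i (y.1, y.2.2) - ∑ j, D.c i j * y.1 j + a * y.2.2
  let gt : E d × E d × ℝ → ℝ := fun y =>
    fderiv ℝ (D.F i) (y.1, y.2.2) (y.2.1, 1) - ∑ j, D.c i j * y.2.1 j + a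
  have hF := D.F_smooth i
  have hFc : Continuous (D.F i) := hF.continuous
  have hF' : Continuous (fderiv ℝ (D.F i)) := hF.continuous_fderiv (by norm_num)
  have hGc : Continuous Gt := by
    simp only [Gt]
    fun_prop
  have hgc : Continuous gt := by
    simp only [gt]
    fun_prop
  obtain ⟨hA, hA'⟩ := continuous_desc hGc (fun z m x v t => by
    have := D.F_per i z m (x, t)
    simp only [shift] at this
    simp only [Gt, this, ic, Pi.add_apply, mul_add, Finset.sum_add_distrib, ← ha]
    ring)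
  obtain ⟨hg, hg'⟩ := continuous_desc hgc (fun z m x v t => by
    have := Sub_fderiv_per (f := D.F i) (z := z) (m := m)
      (a := ∑ j, D.c i j * (z j : ℝ) - a * (m : ℝ))
      (fun y => by rw [D.F_per i z m y, ← ha]; ring) (x, t)
    simp only [shift] at this
    simp only [gt, this])
  have hzero := Sub_mean_zero hK h0 hc hinv hA hg (fun z s => by
    obtain ⟨x, v, hEL, hx, hv⟩ := hT.complete (sec z).1 z.2.1 (sec z).2
    have hfl : ∀ σ, Φ σ z = proj (x σ) (v σ) ((sec z).2 + σ) := fun σ => by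
      rw [← hT.flow _ x v hEL σ, hx, hv, proj_sec]
    have e1 : ∀ σ, (proj (x σ) (v σ) ((sec z).2 + σ)).2.1 = v σ := fun _ => rfl
    simp only [hfl, e1, hA', hg']
    have hxs := (hEL s).1
    have hts : HasDerivAt (fun σ : ℝ => (sec z).2 + σ) 1 s := (hasDerivAt_id s).const_add _
    have h1 := (hF.differentiable (by norm_num) (x s, (sec z).2 + s)).hasFDerivAt.comp_hasDerivAt s
      (hxs.prodMk hts)
    have h2 : HasDerivAt (fun σ => ∑ j, D.c i j * x σ j) (∑ j, D.c i j * v s j) s :=
      HasDerivAt.fun_sum fun j _ => (hasDerivAt_pi.1 hxs j).const_mul _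
    have h3 := (h1.sub h2).add (hts.const_mul a)
    rw [mul_one] at h3
    exact h3)
  have hv : Continuous fun z : Phase d => z.2.1 := by fun_prop
  have hj : ∀ j, ∫ z : Phase d, z.2.1 j ∂μ = h' j := fun j => by
    rw [← hrot]
    exact (ContinuousLinearMap.proj (R := ℝ) (φ := fun _ : Fin d => ℝ) j).integral_comp_comm
      (Sub_integrable hK h0 hv)
  have hl : Continuous fun z : Phase d => ∑ j, D.c i j * z.2.1 j := by fun_prop
  have hsum : ∫ z : Phase d, ∑ j, D.c i j * z.2.1 j ∂μ = ∑ j, D.c i j * h' j := by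
    rw [integral_finsetSum _ fun j _ => Sub_integrable hK h0 (by fun_prop)]
    simp only [integral_const_mul, hj]
  have hle : ∫ z : Phase d, gt ((sec z).1, z.2.1, (sec z).2) ∂μ ≤
      ∫ z : Phase d, (D.Lag z - ∑ j, D.c i j * z.2.1 j + a) ∂μ := by
    refine integral_mono (Sub_integrable hK h0 hg)
      (Sub_integrable hK h0 ((D.Lag_cont.sub hl).add continuous_const)) fun z => ?_
    have := D.dom i (sec z) z.2.1
    simp only [gt, Data.Lag]
    linarith
  have hsub : Continuous fun z : Phase d => D.Lag z - ∑ j, D.c i j * z.2.1 j := D.Lag_cont.sub hl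
  rw [hzero, integral_add (Sub_integrable hK h0 hsub) (integrable_const a),
    integral_sub (Sub_integrable hK h0 D.Lag_cont) (Sub_integrable hK h0 hl), hsum] at hle
  simp only [integral_const, probReal_univ, one_smul] at hle
  simp only [mul_sub, Finset.sum_sub_distrib, ← ha]
  linarith

theorem not_diffIn {m : ℕ} (hk : d < m + k) {β : E d → EReal} {h : E d} {c : Fin m → E d}
    (hc : LinearIndependent ℝ c) (h0 : β h = 0) (h1 : ∀ h', 0 ≤ β h')
    (h2 : ∀ i h', ((∑ j, c i j * (h' j - h j) : ℝ) : EReal) ≤ β h') : ¬ DiffIn β h k := by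
  rintro ⟨W, hW, l, hl⟩
  have key : ∀ (w : W) (a : ℝ), (∀ s : ℝ, 0 < s → ((s * a : ℝ) : EReal) ≤ β (h + s • (w : E d))) →
      a ≤ l w := by
    intro w a ha
    have : (a : EReal) ≤ (l w : EReal) := by
      refine ge_of_tendsto (hl w) ?_
      filter_upwards [self_mem_nhdsWithin] with s hs
      have hs' : (0 : ℝ) < s := hs
      have e : (a : EReal) = ((s * a : ℝ) : EReal) / (s : EReal) := by
        rw [← EReal.coe_div]
        congr 1
        field_simp
      rw [h0, sub_zero, e]
      exact EReal.div_le_div_right_of_nonneg (by exact_mod_cast hs'.le) (ha s hs')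
    exact_mod_cast this
  have hl0 : ∀ w : W, 0 ≤ l w := fun w => key w 0 fun s _ => by simpa using h1 _
  have hl1 : ∀ w : W, l w = 0 := fun w => by
    have := hl0 (-w)
    rw [map_neg] at this
    linarith [hl0 w]
  have hc1 : ∀ i (w : W), ∑ j, c i j * (w : E d) j ≤ 0 := fun i w => by
    rw [← hl1 w]
    refine key w _ fun s _ => ?_
    have := h2 i (h + s • (w : E d))
    convert this using 2
    rw [Finset.mul_sum]
    refine Finset.sum_congr rfl fun j _ => ?_
    simp only [Pi.add_apply, Pi.smul_apply, smul_eq_mul]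
    ring
  have hc2 : ∀ i (w : W), ∑ j, c i j * (w : E d) j = 0 := fun i w => by
    have := hc1 i (-w)
    simp only [Submodule.coe_neg, Pi.neg_apply, mul_neg, Finset.sum_neg_distrib] at this
    linarith [hc1 i w]
  let M : Matrix (Fin m) (Fin d) ℝ := Matrix.of c
  have hrank : M.rank = m := by
    have := LinearIndependent.rank_matrix (M := M) hc
    simpa using this
  have hker : W ≤ LinearMap.ker M.mulVecLin := fun w hw => by
    rw [LinearMap.mem_ker]
    funext i
    exact hc2 i ⟨w, hw⟩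
  have h3 : k ≤ Module.finrank ℝ (LinearMap.ker M.mulVecLin) :=
    hW.symm.le.trans (Submodule.finrank_mono hker)
  have h4 : M.rank + Module.finrank ℝ (LinearMap.ker M.mulVecLin) = d :=
    (LinearMap.finrank_range_add_finrank_ker M.mulVecLin).trans (Module.finrank_fin_fun ℝ)
  omega

end Pool.Agent.Lib.MP_ce3247_an
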