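import Pool.Agent.Lib.MP_ce3247_an.Desc
import Pool.Agent.Lib.MP_ce3247_an.Sub
import Pool.Agent.Lib.MP_ce3247_an.Sm.Clo

/-! Finite smoothness: closed orbits in every integer class, so beta is finite and convex. -/

open MeasureTheory Set Filter Topology
open scoped ContDiff

namespace Pool.Agent.Lib.MP_ce3247_an.Data

open Sm

variable {d q : ℕ} (D : Data d q) (m : Fin d → ℤ)

theorem norm_sq_le (u : E d) : ‖u‖ ^ 2 ≤ ∑ j, u j ^ 2 := by
  have h0 : 0 ≤ ∑ j, u j ^ 2 := Finset.sum_nonneg fun j _ => sq_nonneg _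
  rw [← Real.le_sqrt (norm_nonneg _) h0, pi_norm_le_iff_of_nonneg (Real.sqrt_nonneg _)]
  exact fun j => Real.abs_le_sqrt
    (Finset.single_le_sum (f := fun j => u j ^ 2) (fun j _ => sq_nonneg _) (Finset.mem_univ j))

section

variable {N : ℕ} [NeZero N]

/-- The position and the time of a vertex. -/
noncomputable def px (y : ZMod N → E d) (i : ZMod N) : E d × ℝ :=
  (y i + ((i.val : ℝ) * (N : ℝ)⁻¹) • ic m, (i.val : ℝ) * (N : ℝ)⁻¹)

/-- The discrete momentum. -/
noncomputable def pp (y : ZMod N → E d) (i : ZMod N) : E d :=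
  (N : ℝ) • (y (i + 1) - y i) + ic m - D.X (px m y i)

/-- The discrete action. -/
noncomputable def pS (y : ZMod N → E d) : ℝ :=
  ∑ i, ((∑ k, D.pp m y i k ^ 2) / 2 + D.P (px m y i))

theorem pS_cont : Continuous fun y : ZMod N → E d => D.pS m y := by
  have hX := D.X_smooth.continuous
  have hP := D.P_smooth.continuous
  unfold pS pp px
  fun_prop

theorem pS_shift (z : Fin d → ℤ) (y : ZMod N → E d) : D.pS m (fun i => y i + ic z) = D.pS m y := by
  have e : ∀ i, px m (fun i => y i + ic z) i = shift z 0 (px m y i) := fun i => by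
    simp only [px, shift, Int.cast_zero, add_zero, add_right_comm]
  simp only [pS, pp, e, D.X_per, D.P_per, add_sub_add_right_eq_sub]

theorem pS_crit {y : ZMod N → E d} (h : ∀ y' : ZMod N → E d, D.pS m y ≤ D.pS m y') (j : ZMod N) :
    (N : ℝ) • (D.pp m y (j + 1) - D.pp m y j) =
      (D.G ((px m y (j + 1)).1, D.pp m y (j + 1), (px m y (j + 1)).2)).2.1 := by
  funext k
  have hd : (D.r : WithTop ℕ∞) ≠ 0 := by
    have := D.two_le
    exact_mod_cast (by omega : D.r ≠ 0)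
  set η : ZMod N → E d := Pi.single (j + 1) (Pi.single k 1) with hη
  have e0 : y + (0 : ℝ) • η = y := by simp
  have h1 : ∀ i, HasDerivAt (fun s : ℝ => px m (y + s • η) i) (η i, 0) 0 := fun i => by
    refine HasDerivAt.prodMk ?_ (hasDerivAt_const _ _)
    exact ((((hasDerivAt_id (0 : ℝ)).smul_const (η i)).const_add (y i)).add_const _).congr_deriv
      (one_smul _ _)
  have h2 : ∀ i, HasDerivAt (fun s : ℝ => D.X (px m (y + s • η) i))
      (fderiv ℝ D.X (px m y i) (η i, 0)) 0 := fun i =>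
    (D.X_smooth.differentiable hd (px m y i)).hasFDerivAt.comp_hasDerivAt_of_eq 0 (h1 i)
      (by rw [e0])
  have h3 : ∀ i, HasDerivAt (fun s : ℝ => D.P (px m (y + s • η) i))
      (fderiv ℝ D.P (px m y i) (η i, 0)) 0 := fun i =>
    (D.P_smooth.differentiable hd (px m y i)).hasFDerivAt.comp_hasDerivAt_of_eq 0 (h1 i)
      (by rw [e0])
  have h4 : ∀ i l, HasDerivAt (fun s : ℝ => D.pp m (y + s • η) i l)
      (N * (η (i + 1) l - η i l) - fderiv ℝ D.X (px m y i) (η i, 0) l) 0 := fun i l => by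
    have a1 : ∀ i, HasDerivAt (fun s : ℝ => y i l + s * η i l) (η i l) 0 := fun i => by
      simpa using ((hasDerivAt_id (0 : ℝ)).mul_const (η i l)).const_add (y i l)
    exact ((((a1 (i + 1)).sub (a1 i)).const_mul (N : ℝ)).add_const (ic m l)).sub
      (hasDerivAt_pi.1 (h2 i) l)
  have h5 : HasDerivAt (fun s : ℝ => D.pS m (y + s • η))
      (∑ i, ((∑ l, D.pp m y i l * (N * (η (i + 1) l - η i l) -
        fderiv ℝ D.X (px m y i) (η i, 0) l)) + fderiv ℝ D.P (px m y i) (η i, 0))) 0 := by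
    refine HasDerivAt.fun_sum fun i _ => HasDerivAt.add ?_ (h3 i)
    have a1 := (HasDerivAt.fun_sum fun l (_ : l ∈ Finset.univ) => (h4 i l).fun_pow 2).div_const 2
    refine a1.congr_deriv ?_
    rw [Finset.sum_div]
    refine Finset.sum_congr rfl fun l _ => ?_
    rw [e0]
    push_cast
    ring
  have h6 : IsLocalMin (fun s : ℝ => D.pS m (y + s • η)) 0 :=
    Eventually.of_forall fun s => by simpa only [e0] using h (y + s • η)
  have h7 := h6.hasDerivAt_eq_zero h5
  have s1 : ∑ i, ∑ l, D.pp m y i l * η (i + 1) l = D.pp m y j k := by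
    rw [Finset.sum_eq_single j (fun i _ hi => by
      simp [hη, Pi.single_eq_of_ne (fun h => hi (add_right_cancel h) : i + 1 ≠ j + 1)]) (by simp)]
    simp [hη, Pi.single_apply]
  have s2 : ∑ i, (-(∑ l, D.pp m y i l * (N * η i l + fderiv ℝ D.X (px m y i) (η i, 0) l)) +
      fderiv ℝ D.P (px m y i) (η i, 0)) = -(N * D.pp m y (j + 1) k) +
      (D.G ((px m y (j + 1)).1, D.pp m y (j + 1), (px m y (j + 1)).2)).2.1 k := by
    rw [Finset.sum_eq_single (j + 1) (fun i _ hi => by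
      have : ((0 : E d), (0 : ℝ)) = 0 := rfl
      simp [hη, Pi.single_eq_of_ne hi, this]) (by simp)]
    simp only [hη, Pi.single_eq_same, G, mul_add, Finset.sum_add_distrib]
    have : ∑ l, D.pp m y (j + 1) l * (N * (Pi.single k 1 : E d) l) = N * D.pp m y (j + 1) k := by
      simp [Pi.single_apply, mul_comm]
    rw [this]
    ring
  have s3 : ∑ i, ((∑ l, D.pp m y i l * (N * (η (i + 1) l - η i l) -
      fderiv ℝ D.X (px m y i) (η i, 0) l)) + fderiv ℝ D.P (px m y i) (η i, 0)) =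
      N * (∑ i, ∑ l, D.pp m y i l * η (i + 1) l) +
      ∑ i, (-(∑ l, D.pp m y i l * (N * η i l + fderiv ℝ D.X (px m y i) (η i, 0) l)) +
        fderiv ℝ D.P (px m y i) (η i, 0)) := by
    rw [Finset.mul_sum, ← Finset.sum_add_distrib]
    refine Finset.sum_congr rfl fun i _ => ?_
    rw [← add_assoc, Finset.mul_sum, ← sub_eq_add_neg, ← Finset.sum_sub_distrib]
    congr 1
    exact Finset.sum_congr rfl fun l _ => by ring
  rw [s3, s1, s2] at h7
  simp only [Pi.smul_apply, Pi.sub_apply, smul_eq_mul]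
  linarith

end

theorem G_bound : ∃ K : ℝ, 0 ≤ K ∧ ∀ x p t, ‖(D.G (x, p, t)).2.1‖ ≤ K * (1 + ‖p‖) := by
  have two : ((1 : WithTop ℕ∞) + 1) ≤ D.r := by
    rw [one_add_one_eq_two]
    exact_mod_cast D.two_le
  obtain ⟨C2, h2, hdX⟩ := bdd_of_per (D.X_smooth.fderiv_right two).continuous
    fun z m y => fderiv_per (a := 0) (fun y => by rw [D.X_per, add_zero]) y
  obtain ⟨C3, h3, hdP⟩ := bdd_of_per (D.P_smooth.fderiv_right two).continuous
    fun z m y => fderiv_per (a := 0) (fun y => by rw [D.P_per, add_zero]) y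
  refine ⟨C3 + d * C2, by positivity, fun x p t => ?_⟩
  have he : ∀ j : Fin d, ‖((Pi.single j 1 : E d), (0 : ℝ))‖ ≤ 1 := fun j => by
    rw [Prod.norm_def, Pi.norm_single]; simp
  have hp := norm_nonneg p
  have hd : 0 ≤ (d : ℝ) * C2 := by positivity
  refine (pi_norm_le_iff_of_nonneg (by positivity)).2 fun j => (norm_sub_le _ _).trans ?_
  have a1 : ‖fderiv ℝ D.P (x, t) (Pi.single j 1, 0)‖ ≤ C3 :=
    (ContinuousLinearMap.le_opNorm _ _).trans
      ((mul_le_mul (hdP _) (he j) (norm_nonneg _) h3).trans (by rw [mul_one]))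
  have a2 : ‖fderiv ℝ D.X (x, t) (Pi.single j 1, 0)‖ ≤ C2 :=
    (ContinuousLinearMap.le_opNorm _ _).trans
      ((mul_le_mul (hdX _) (he j) (norm_nonneg _) h2).trans (by rw [mul_one]))
  have a3 : ‖∑ i, p i * fderiv ℝ D.X (x, t) (Pi.single j 1, 0) i‖ ≤ d * C2 * ‖p‖ := by
    refine (norm_sum_le _ _).trans ?_
    refine (Finset.sum_le_card_nsmul _ _ (C2 * ‖p‖) fun i _ => ?_).trans ?_
    · rw [norm_mul, mul_comm]
      exact mul_le_mul ((norm_le_pi_norm _ i).trans a2) (norm_le_pi_norm _ i) (norm_nonneg _) h2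
    · simp [mul_assoc]
  nlinarith

theorem pS_bound : ∃ A : ℝ, 0 ≤ A ∧ ∀ (N : ℕ) [NeZero N] (y : ZMod N → E d),
    D.pS m y ≤ D.pS m (0 : ZMod N → E d) →
      ∑ i, ‖D.pp m y i‖ ≤ N * A ∧ ∀ i, ‖y i - y 0‖ ≤ A := by
  obtain ⟨C1, h1, hX⟩ := bdd_of_per D.X_smooth.continuous D.X_per
  obtain ⟨C2, h2, hP⟩ := bdd_of_per D.P_smooth.continuous D.P_per
  set c : ℝ := ‖ic m‖ + C1 with hc
  have hc0 : 0 ≤ c := by positivity
  have hc' : ∀ w, ‖ic m - D.X w‖ ≤ c := fun w => (norm_sub_le _ _).trans (by linarith [hX w])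
  set A₀ : ℝ := 1 + 2 * (d * c ^ 2 / 2 + C2) with hA₀
  have hA₀0 : 0 ≤ A₀ := by positivity
  refine ⟨A₀ + c, by positivity, fun N _ y hy => ?_⟩
  have hN : (0 : ℝ) < N := by exact_mod_cast NeZero.pos N
  have a1 : D.pS m (0 : ZMod N → E d) ≤ N * (d * c ^ 2 / 2 + C2) := by
    refine (Finset.sum_le_card_nsmul _ _ (d * c ^ 2 / 2 + C2) fun i _ => ?_).trans
      (by rw [Finset.card_univ, ZMod.card, nsmul_eq_mul])
    refine add_le_add (div_le_div_of_nonneg_right ?_ zero_le_two) ((le_abs_self _).trans (hP _))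
    refine (Finset.sum_le_card_nsmul _ _ (c ^ 2) fun k _ => ?_).trans (by simp)
    rw [← sq_abs]
    refine pow_le_pow_left₀ (abs_nonneg _)
      (le_trans (norm_le_pi_norm (D.pp m (0 : ZMod N → E d) i) k) ?_) 2
    simpa [pp] using hc' _
  have a2 : ∑ i, ‖D.pp m y i‖ ≤ N * A₀ := by
    calc ∑ i, ‖D.pp m y i‖
        ≤ ∑ i, (1 + 2 * ((∑ k, D.pp m y i k ^ 2) / 2 + D.P (px m y i))) :=
          Finset.sum_le_sum fun i _ => by
            nlinarith [norm_sq_le (D.pp m y i), D.P_nonneg (px m y i),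
              sq_nonneg (‖D.pp m y i‖ - 1), norm_nonneg (D.pp m y i)]
      _ = N + 2 * D.pS m y := by
          rw [Finset.sum_add_distrib, ← Finset.mul_sum]
          simp [pS]
      _ ≤ N * A₀ := by
          rw [hA₀]
          linarith
  refine ⟨a2.trans (by nlinarith), fun i => (cyc_var y i).trans ?_⟩
  refine le_of_mul_le_mul_left ?_ hN
  calc N * ∑ i, ‖y (i + 1) - y i‖ = ∑ i, ‖D.pp m y i - (ic m - D.X (px m y i))‖ := by
        rw [Finset.mul_sum]
        refine Finset.sum_congr rfl fun i _ => ?_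
        rw [pp, add_sub_assoc, add_sub_cancel_right, norm_smul, Real.norm_of_nonneg hN.le]
    _ ≤ ∑ i, (‖D.pp m y i‖ + c) :=
        Finset.sum_le_sum fun i _ => (norm_sub_le _ _).trans (by linarith [hc' (px m y i)])
    _ ≤ N * (A₀ + c) := by
        rw [Finset.sum_add_distrib]
        simp only [Finset.sum_const, Finset.card_univ, ZMod.card, nsmul_eq_mul]
        linarith

theorem exists_poly : ∃ R : ℝ, ∀ N : ℕ, 0 < N → ∃ z : ℕ → E d × E d × ℝ,
    z 0 ∈ {w : E d × E d × ℝ | w.2.2 = 0} ∧ z N = z 0 + (ic m, 0, 1) ∧ (∀ n ≤ N, ‖z n‖ ≤ R) ∧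
      ∀ n < N, ‖z (n + 1) - z n - (N : ℝ)⁻¹ • D.G (z n)‖ ≤
        (N : ℝ)⁻¹ * ‖D.G (z (n + 1)) - D.G (z n)‖ := by
  obtain ⟨A, hA, hb⟩ := D.pS_bound m
  obtain ⟨K, hK, hG⟩ := D.G_bound
  refine ⟨1 + A + ‖ic m‖ + (A + 2 * (K * (1 + A))), fun N hN => ?_⟩
  have : NeZero N := ⟨hN.ne'⟩
  have hN' : (0 : ℝ) < N := by exact_mod_cast hN
  obtain ⟨y, hy, hmin⟩ := (isCompact_closedBall (0 : ZMod N → E d) (1 + A)).exists_isMinOn
    ⟨0, Metric.mem_closedBall_self (by positivity)⟩ (D.pS_cont m).continuousOn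
  have h0 : D.pS m y ≤ D.pS m (0 : ZMod N → E d) :=
    hmin (Metric.mem_closedBall_self (by positivity))
  have hall : ∀ y' : ZMod N → E d, D.pS m y ≤ D.pS m y' := fun y' => by
    rw [← D.pS_shift m (fun k => -⌊y' 0 k⌋) y']
    refine le_of_not_gt fun hlt => hlt.not_ge (hmin ?_)
    have b1 := (hb N _ (hlt.le.trans h0)).2
    have b2 : ‖y' 0 + ic fun k => -⌊y' 0 k⌋‖ ≤ 1 :=
      (pi_norm_le_iff_of_nonneg zero_le_one).2 fun k => by
        have e : (y' 0 + ic fun k => -⌊y' 0 k⌋) k = Int.fract (y' 0 k) := by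
          simp [ic, Int.fract, sub_eq_add_neg]
        rw [e, Real.norm_of_nonneg (Int.fract_nonneg _)]
        exact (Int.fract_lt_one _).le
    refine mem_closedBall_zero_iff.2 ((pi_norm_le_iff_of_nonneg (by positivity)).2 fun i => ?_)
    have b3 := norm_add_le (y' i + ic (fun k => -⌊y' 0 k⌋) - (y' 0 + ic fun k => -⌊y' 0 k⌋))
      (y' 0 + ic fun k => -⌊y' 0 k⌋)
    rw [sub_add_cancel] at b3
    linarith [b1 i]
  have c1 := (hb N y h0).1
  have c2 : ∑ i, ‖D.pp m y (i + 1) - D.pp m y i‖ ≤ K * (1 + A) := by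
    refine le_of_mul_le_mul_left ?_ hN'
    calc N * ∑ i, ‖D.pp m y (i + 1) - D.pp m y i‖ ≤ ∑ i, K * (1 + ‖D.pp m y (i + 1)‖) := by
          rw [Finset.mul_sum]
          refine Finset.sum_le_sum fun i _ => ?_
          rw [← Real.norm_of_nonneg hN'.le, ← norm_smul, D.pS_crit m hall i]
          exact hG _ _ _
      _ = K * (N + ∑ i, ‖D.pp m y i‖) := by
          rw [← Finset.mul_sum, Finset.sum_add_distrib,
            show ∑ i, ‖D.pp m y (i + 1)‖ = _ from
              Equiv.sum_comp (Equiv.addRight (1 : ZMod N)) fun i => ‖D.pp m y i‖]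
          simp
      _ ≤ _ := by nlinarith
  have c3 : ∀ i, ‖D.pp m y i - D.pp m y 0‖ ≤ K * (1 + A) := fun i => (cyc_var _ i).trans c2
  have c4 : ‖D.pp m y 0‖ ≤ A + K * (1 + A) := by
    refine le_of_mul_le_mul_left ?_ hN'
    calc N * ‖D.pp m y 0‖ = ∑ _i : ZMod N, ‖D.pp m y 0‖ := by simp
      _ ≤ ∑ i, (‖D.pp m y i‖ + K * (1 + A)) := Finset.sum_le_sum fun i _ => by
          linarith [c3 i, norm_sub_norm_le (D.pp m y 0) (D.pp m y i),
            norm_sub_rev (D.pp m y 0) (D.pp m y i)]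
      _ ≤ _ := by
          rw [Finset.sum_add_distrib]
          simp only [Finset.sum_const, Finset.card_univ, ZMod.card, nsmul_eq_mul]
          linarith
  have c5 : ∀ i, ‖D.pp m y i‖ ≤ A + 2 * (K * (1 + A)) := fun i => by
    linarith [c3 i, norm_sub_norm_le (D.pp m y i) (D.pp m y 0)]
  have hinv : (N : ℝ) * (N : ℝ)⁻¹ = 1 := mul_inv_cancel₀ hN'.ne'
  set z : ℕ → E d × E d × ℝ := fun n =>
    (y n + ((n : ℝ) * (N : ℝ)⁻¹) • ic m, D.pp m y n, (n : ℝ) * (N : ℝ)⁻¹) with hz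
  have zN : z N = z 0 + (ic m, 0, 1) := by simp [hz, hinv]
  have zG : ∀ n ≤ N, D.G (z n) = D.G ((px m y n).1, D.pp m y n, (px m y n).2) := fun n hn => by
    rcases hn.eq_or_lt with rfl | hn
    · have := D.G_per m 1 (y 0) (D.pp m y 0) 0
      simpa [hz, hinv, px] using this
    · simp only [hz, px, ZMod.val_cast_of_lt hn]
  refine ⟨z, by simp [hz], zN, fun n hn => ?_, fun n hn => ?_⟩
  · have t0 : 0 ≤ (n : ℝ) * (N : ℝ)⁻¹ := by positivity
    have t1 : (n : ℝ) * (N : ℝ)⁻¹ ≤ 1 :=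
      (mul_le_mul_of_nonneg_right (by exact_mod_cast hn) (by positivity)).trans hinv.le
    have y1 : ‖y n‖ ≤ 1 + A := (norm_le_pi_norm y _).trans (mem_closedBall_zero_iff.1 hy)
    have y2 := norm_add_le (y n) (((n : ℝ) * (N : ℝ)⁻¹) • ic m)
    rw [norm_smul, Real.norm_of_nonneg t0] at y2
    have y3 := mul_le_mul_of_nonneg_right t1 (norm_nonneg (ic m))
    have y4 : 0 ≤ K * (1 + A) := by positivity
    have y5 := norm_nonneg (ic m)
    simp only [hz, Prod.norm_def, Real.norm_of_nonneg t0]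
    exact max_le (by linarith) (max_le (by linarith [c5 n]) (by linarith))
  · have e1 : (D.G (z n)).1 = (N : ℝ) • (y (n + 1) - y n) + ic m := by
      rw [zG n hn.le]
      simp only [G, pp]
      abel
    have e2 : (D.G (z (n + 1))).2.1 = (N : ℝ) • (D.pp m y (n + 1) - D.pp m y n) := by
      rw [zG (n + 1) hn, D.pS_crit m hall n, Nat.cast_add_one]
    have e3 : (D.G (z n)).2.2 = 1 := rfl
    have e : z (n + 1) - z n - (N : ℝ)⁻¹ • D.G (z n) =
        (N : ℝ)⁻¹ • (0, (D.G (z (n + 1)) - D.G (z n)).2.1, 0) := by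
      refine Prod.ext ?_ (Prod.ext ?_ ?_)
      · simp only [Prod.fst_sub, Prod.smul_fst, e1, smul_zero]
        simp only [hz, Nat.cast_add_one, smul_add, smul_smul, inv_mul_cancel₀ hN'.ne', one_smul,
          add_mul, one_mul, add_smul]
        abel
      · simp only [Prod.fst_sub, Prod.snd_sub, Prod.smul_fst, Prod.smul_snd, e2, smul_sub]
        simp only [hz, Nat.cast_add_one, smul_smul, inv_mul_cancel₀ hN'.ne', one_smul]
      · simp only [Prod.snd_sub, Prod.smul_snd, e3, smul_zero]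
        simp only [hz, Nat.cast_add_one, smul_eq_mul]
        ring
    rw [e, norm_smul, Real.norm_of_nonneg (by positivity)]
    refine mul_le_mul_of_nonneg_left ?_ (by positivity)
    simp only [Prod.norm_def, norm_zero]
    exact max_le (by positivity) (max_le ((le_max_left _ _).trans (le_max_right _ _))
      (by positivity))

theorem flow_unique {r : ℕ} {L : Phase d → ℝ} {Φ Φ' : ℝ → Phase d → Phase d} (h : Tonelli r L Φ)
    (h' : Tonelli r L Φ') : Φ = Φ' := by
  funext s z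
  obtain ⟨⟨x₀, v₀, t⟩, rfl⟩ := (isOpenQuotientMap_proj (d := d)).surjective z
  obtain ⟨x, v, h1, rfl, rfl⟩ := h.complete x₀ v₀ t
  exact (h.flow t x v h1 s).trans (h'.flow t x v h1 s).symm

theorem Minv_mix {L : Phase d → ℝ} (hL : Continuous L) {Φ : ℝ → Phase d → Phase d} {h h' : E d}
    {μ ν : Measure (Phase d)} (hμ : μ ∈ Minv Φ h) (hν : ν ∈ Minv Φ h') {a b : ℝ} (ha : 0 ≤ a)
    (hb : 0 ≤ b) (hab : a + b = 1) :
    ∃ η ∈ Minv Φ (a • h + b • h'), ∫ z, L z ∂η = a * ∫ z, L z ∂μ + b * ∫ z, L z ∂ν := by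
  obtain ⟨p1, ⟨K, hK, hK0⟩, i1, r1⟩ := hμ
  obtain ⟨p2, ⟨K', hK', hK0'⟩, i2, r2⟩ := hν
  have key : ∀ {F : Type} [NormedAddCommGroup F] [NormedSpace ℝ F] {f : Phase d → F},
      Continuous f → ∫ z, f z ∂(ENNReal.ofReal a • μ + ENNReal.ofReal b • ν) =
        a • ∫ z, f z ∂μ + b • ∫ z, f z ∂ν := by
    intro F _ _ f hf
    rw [integral_add_measure ((Sub_integrable hK hK0 hf).smul_measure ENNReal.ofReal_ne_top)
      ((Sub_integrable hK' hK0' hf).smul_measure ENNReal.ofReal_ne_top), integral_smul_measure,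
      integral_smul_measure, ENNReal.toReal_ofReal ha, ENNReal.toReal_ofReal hb]
  refine ⟨ENNReal.ofReal a • μ + ENNReal.ofReal b • ν, ⟨⟨?_⟩, ⟨K ∪ K', hK.union hK', ?_⟩,
    fun s => ⟨(i1 s).measurable, ?_⟩, ?_⟩, key hL⟩
  · simp only [Measure.add_apply, Measure.smul_apply, measure_univ, smul_eq_mul, mul_one]
    rw [← ENNReal.ofReal_add ha hb, hab]
    simp
  · simp only [Measure.add_apply, Measure.smul_apply, compl_union]
    rw [measure_mono_null inter_subset_left hK0, measure_mono_null inter_subset_right hK0']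
    simp
  · rw [Measure.map_add _ _ (i1 s).measurable, Measure.map_smul, Measure.map_smul, (i1 s).map_eq,
      (i2 s).map_eq]
  · rw [key (by fun_prop), r1, r2]

/-- The uniform measure on a closed orbit. -/
theorem Minv_loop {Φ : ℝ → Phase d → Phase d} (hΦ : ∀ s, Continuous (Φ s)) {o : ℝ → Phase d}
    (ho : Continuous o) (h1 : Function.Periodic o 1) (h2 : ∀ s t, Φ s (o t) = o (t + s)) :
    (Minv Φ (∫ t in (0 : ℝ)..1, (o t).2.1)).Nonempty := by
  have hP : IsProbabilityMeasure ((volume : Measure ℝ).restrict (Ioc 0 1)) := ⟨by simp⟩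
  have hm : AEMeasurable o ((volume : Measure ℝ).restrict (Ioc 0 1)) := ho.measurable.aemeasurable
  have hp := Measure.isProbabilityMeasure_map hm
  have hK : IsCompact (o '' Icc 0 1) := isCompact_Icc.image ho
  refine ⟨((volume : Measure ℝ).restrict (Ioc 0 1)).map o, hp, ⟨_, hK, ?_⟩,
    fun s => ⟨(hΦ s).measurable, ?_⟩, ?_⟩
  · rw [Measure.map_apply ho.measurable hK.isClosed.measurableSet.compl,
      Measure.restrict_apply' measurableSet_Ioc]
    convert measure_empty (μ := (volume : Measure ℝ))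
    exact eq_empty_of_forall_notMem fun t ht => ht.1 ⟨t, Ioc_subset_Icc_self ht.2, rfl⟩
  · refine ext_of_forall_integral_eq_of_IsFiniteMeasure fun f => ?_
    have c0 : Continuous fun z => f (Φ s z) := f.continuous.comp (hΦ s)
    rw [integral_map (hΦ s).measurable.aemeasurable f.continuous.aestronglyMeasurable,
      integral_map hm c0.aestronglyMeasurable, integral_map hm f.continuous.aestronglyMeasurable,
      ← intervalIntegral.integral_of_le zero_le_one, ← intervalIntegral.integral_of_le zero_le_one]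
    simp only [h2]
    rw [intervalIntegral.integral_comp_add_right (fun t => f (o t)) s, zero_add, add_comm 1 s]
    have := (h1.comp f).intervalIntegral_add_eq s 0
    rwa [zero_add] at this
  · rw [integral_map hm continuous_snd.fst.aestronglyMeasurable,
      intervalIntegral.integral_of_le zero_le_one]

open Pool.Agent.Lib.MP_7dd29b_gt

variable {Φ : ℝ → Phase d → Phase d}

theorem Minv_int (hT : Tonelli D.r D.Lag Φ) (m : Fin d → ℤ) : (Minv Φ (ic m)).Nonempty := by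
  obtain ⟨ψ, hψ⟩ := D.exists_lift
  obtain rfl : Φ = D.Desc_Phi ψ := flow_unique hT
    ⟨D.Lag_smooth, D.Lag_convex, D.Lag_super, Desc_complete hψ, Desc_flow hψ⟩
  obtain ⟨R, hR⟩ := D.exists_poly m
  obtain ⟨w, -, hw⟩ := closing D.G_smooth hψ
    (isClosed_eq continuous_snd.snd continuous_const) hR
  have hc : Continuous (ψ w) :=
    continuous_iff_continuousAt.2 fun t => (hψ.deriv w trivial t).continuousAt
  have h1 := Minv_loop (Φ := D.Desc_Phi ψ) (o := fun t => D.Desc_dn (ψ w t))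
    (fun s => (Desc_Phi_cont hψ).comp (Continuous.prodMk_right s)) (Desc_dn_cont.comp hc)
    (fun t => by
      have a1 := Desc_equiv hψ m 1 w.1 w.2.1 w.2.2 t
      have a2 : (w.1 + ic m, w.2.1, w.2.2 + ((1 : ℤ) : ℝ)) = ψ w 1 := by
        rw [hw]
        ext <;> simp
      rw [a2, hψ.add w trivial, add_comm 1 t] at a1
      have hX : ∀ x t, D.X (x + ic m, t + (1 : ℤ)) = D.X (x, t) := fun x t => D.X_per m 1 (x, t)
      simp only [a1]
      refine (proj_eq_iff.2 ⟨m, 1, rfl, ?_, rfl⟩).symm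
      simp only [Prod.fst_add, Prod.snd_add, add_zero, hX])
    (fun s t => by
      rw [Desc_dn, Desc_Phi_proj hψ, add_sub_cancel_right, ← hψ.add w trivial])
  have h2 : ∫ t in (0 : ℝ)..1, (D.Desc_dn (ψ w t)).2.1 = (ψ w 1).1 - (ψ w 0).1 := by
    refine intervalIntegral.integral_eq_sub_of_hasDerivAt (f := fun t => (ψ w t).1)
      (fun t _ => ?_) ((Desc_dn_cont.comp hc).snd.fst.intervalIntegrable _ _)
    exact ((hasFDerivAt_fst (𝕜 := ℝ)).comp_hasDerivAt t (hψ.deriv w trivial t)).congr_deriv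
      (add_comm _ _)
  rwa [h2, hw, hψ.zero w trivial, Prod.fst_add, add_sub_cancel_left] at h1

theorem Minv_nonempty (hT : Tonelli D.r D.Lag Φ) (h : E d) : (Minv Φ h).Nonempty := by
  have h1 : Convex ℝ {h : E d | (Minv Φ h).Nonempty} := by
    rintro x ⟨μ, hμ⟩ y ⟨ν, hν⟩ a b ha hb hab
    obtain ⟨η, hη, -⟩ := Minv_mix D.Lag_cont hμ hν ha hb hab
    exact ⟨η, hη⟩
  refine convexHull_min (s := univ.pi fun _ => range fun n : ℤ => (n : ℝ)) (fun x hx => ?_) h1
    (mem_convexHull_pi fun i _ => ?_)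
  · choose m hm using fun i => hx i trivial
    obtain rfl : ic m = x := funext hm
    exact D.Minv_int hT m
  · refine segment_subset_convexHull (mem_range_self ⌊h i⌋) (mem_range_self ⌈h i⌉) ?_
    rw [segment_eq_Icc ((Int.floor_le _).trans (Int.le_ceil _))]
    exact ⟨Int.floor_le _, Int.le_ceil _⟩

theorem beta_real (hT : Tonelli D.r D.Lag Φ) :
    ∃ b : E d → ℝ, ConvexOn ℝ univ b ∧ ∀ h, beta D.Lag Φ h = b h := by
  have h0 : ∀ h, 0 ≤ beta D.Lag Φ h := fun h =>
    le_iInf₂ fun ν _ => EReal.coe_nonneg.2 (integral_nonneg D.Lag_nonneg)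
  have h1 : ∀ h, ((beta D.Lag Φ h).toReal : EReal) = beta D.Lag Φ h := fun h => by
    obtain ⟨μ, hμ⟩ := D.Minv_nonempty hT h
    exact EReal.coe_toReal ((iInf₂_le μ hμ).trans_lt (EReal.coe_lt_top _)).ne
      (EReal.bot_lt_zero.trans_le (h0 h)).ne'
  have h2 : ∀ h, ∀ ε > 0, ∃ μ ∈ Minv Φ h, ∫ z, D.Lag z ∂μ < (beta D.Lag Φ h).toReal + ε := by
    intro h ε hε
    have a1 : beta D.Lag Φ h < (((beta D.Lag Φ h).toReal + ε : ℝ) : EReal) := by
      conv_lhs => rw [← h1 h]
      exact EReal.coe_lt_coe_iff.2 (lt_add_of_pos_right _ hε)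
    obtain ⟨μ, a2⟩ := iInf_lt_iff.1 a1
    obtain ⟨hμ, a3⟩ := iInf_lt_iff.1 a2
    exact ⟨μ, hμ, EReal.coe_lt_coe_iff.1 a3⟩
  refine ⟨fun h => (beta D.Lag Φ h).toReal, ⟨convex_univ, fun x _ y _ a b ha hb hab => ?_⟩,
    fun h => (h1 h).symm⟩
  refine le_of_forall_pos_le_add fun ε hε => ?_
  obtain ⟨μ, hμ, m1⟩ := h2 x ε hε
  obtain ⟨ν, hν, m2⟩ := h2 y ε hε
  obtain ⟨η, hη, m3⟩ := Minv_mix D.Lag_cont hμ hν ha hb hab
  have m4 : (beta D.Lag Φ (a • x + b • y)).toReal ≤ ∫ z, D.Lag z ∂η := by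
    rw [← EReal.coe_le_coe_iff, h1]
    exact iInf₂_le η hη
  have m5 := mul_le_mul_of_nonneg_left m1.le ha
  have m6 := mul_le_mul_of_nonneg_left m2.le hb
  simp only [smul_eq_mul]
  calc _ ≤ a * ((beta D.Lag Φ x).toReal + ε) + b * ((beta D.Lag Φ y).toReal + ε) := by linarith
    _ = _ := by linear_combination ε * hab

end Pool.Agent.Lib.MP_ce3247_an.Data
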