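import Pool.Agent.Lib.MP_ce3247_an.Tube
import Pool.Agent.Lib.MP_ce3247_an.Lat

/-! The potential. -/

open Finset Filter Topology
open scoped ContDiff

namespace Pool.Agent.Lib.MP_ce3247_an.Geo

variable {d k : ℕ} (S : Geo d k)

lemma Pot_ic_add (z z' : Fin d → ℤ) : ic (z + z') = ic z + ic z' := by
  funext i
  simp [ic]

lemma Pot_ic_sub (z z' : Fin d → ℤ) : ic (z - z') = ic z - ic z' := by
  funext i
  simp [ic]

lemma Pot_ic_zero : ic (0 : Fin d → ℤ) = 0 := by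
  funext i
  simp [ic]

lemma Pot_near (n j : ℕ) : ∀ (b : Fin (k + 1)) (m : ℤ) (z : Fin d → ℤ) (t : ℝ), 0 ≤ t - m →
    t - m < S.ℓ (n + j) b → ∃ (b' : Fin (k + 1)) (m' : ℤ) (z' : Fin d → ℤ), 0 ≤ t - m' ∧
      t - m' < S.ℓ n b' ∧ ‖ic z + S.Γ (n + j) b (t - m) - (ic z' + S.Γ n b' (t - m'))‖ ≤
        2 * S.R * S.ρ ^ (n + 1) - 2 * S.R * S.ρ ^ (n + j + 1) := by
  induction j with
  | zero => exact fun b m z t h0 h1 => ⟨b, m, z, h0, h1, by simp⟩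
  | succ j ih =>
    intro b m z t h0 h1
    obtain ⟨i, ⟨hi, -, h2, h3⟩, he⟩ := S.exists_sub (n + j) b m z h0 h1
    obtain ⟨b', m', z', h4, h5, h6⟩ := ih _ _ (z + S.Kp (n + j) b i) t h2 h3
    refine ⟨b', m', z', h4, h5, ?_⟩
    rw [← add_assoc n j 1, he, sub, add_sub_right_comm]
    refine (norm_add_le _ _).trans ?_
    have hρ := S.ρ_pos
    have hx : 0 < S.ρ ^ (n + j + 1) := pow_pos hρ _
    have h7 : ∀ θ, ‖S.ρ ^ (n + j + 1) • S.rt.p b i θ‖ ≤ S.ρ ^ (n + j + 1) * S.R := fun θ => by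
      rw [norm_smul, Real.norm_eq_abs, abs_of_pos hx]
      exact mul_le_mul_of_nonneg_left (S.rt.p_bd b i θ hi) hx.le
    have h8 : 0 ≤ S.ρ ^ (n + j + 1) * S.R * (1 - 2 * S.ρ) :=
      mul_nonneg (mul_nonneg hx.le S.R_nonneg) (by linarith [S.ρ_lt])
    refine (add_le_add h6 (h7 _)).trans ?_
    rw [pow_succ S.ρ (n + j + 1)]
    linarith

lemma Pot_window (n : ℕ) (b : Fin (k + 1)) (m : ℤ) (z : Fin d → ℤ) {t : ℝ}
    (h0 : -(1 / 16) < t - m) (h1 : t - m < S.ℓ n b + 1 / 16) :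
    ∃ (m' : ℤ) (z' : Fin d → ℤ), 0 ≤ t - m' ∧ t - m' < S.ℓ n b ∧
      ic z + S.Γ n b (t - m) = ic z' + S.Γ n b (t - m') := by
  have hl : (1 : ℝ) ≤ S.ℓ n b := by exact_mod_cast S.ℓ_pos n b
  rcases lt_or_ge (t - m) 0 with h2 | h2
  · refine ⟨m - S.ℓ n b, z - S.κ n b, by push_cast; linarith, by push_cast; linarith, ?_⟩
    rw [S.Γ_init n b (by linarith), S.Γ_fin n b (by push_cast; linarith), Pot_ic_sub]
    simp
  rcases lt_or_ge (t - m) (S.ℓ n b) with h3 | h3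
  · exact ⟨m, z, h2, h3, rfl⟩
  · refine ⟨m + S.ℓ n b, z + S.κ n b, by push_cast; linarith, by push_cast; linarith, ?_⟩
    rw [S.Γ_fin n b (by linarith), S.Γ_init n b (by push_cast; linarith), Pot_ic_add]
    simp

/-- Cutoffs that vanish on the orbit and are at least one off `In n`. -/
theorem exists_V (s : ℕ) : ∃ C, 0 ≤ C ∧ ∀ n, ∃ V : E d × ℝ → ℝ, ContDiff ℝ s V ∧
    (∀ z m y, V (shift z m y) = V y) ∧ (∀ y, 0 ≤ V y) ∧ (∀ t, 0 < t → V (S.γ t, t) = 0) ∧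
    (∀ y, y ∉ S.In n → 1 ≤ V y) ∧
    ∀ j ≤ s, ∀ y, ‖iteratedFDeriv ℝ j V y‖ ≤ C * ((S.ρ ^ (n + 1))⁻¹) ^ s := by
  obtain ⟨C0, hC0, hcut⟩ := exists_cut d s
  obtain ⟨C, hC, hlip⟩ := S.Γ_lip
  obtain ⟨Λ, hΛ⟩ := exists_nat_ge (2 * C + 1)
  have hΛ1 : (1 : ℝ) ≤ Λ := by linarith
  have hΛ2 : 1 ≤ Λ := by exact_mod_cast hΛ1
  refine ⟨C0 * (65 * Λ) ^ s, by positivity, fun n => ?_⟩
  have hρ := S.ρ_pos
  have hr0 : 0 < S.ρ ^ (n + 1) := pow_pos hρ _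
  have hr1 : S.ρ ^ (n + 1) ≤ 1 := pow_le_one₀ hρ.le (by linarith [S.ρ_lt])
  have hpow : S.ρ ^ (n + 1 + 1) = S.ρ ^ (n + 1) * S.ρ := pow_succ _ _
  set r := S.ρ ^ (n + 1) with hr
  set M : ℕ := ⌈64 / r⌉₊ with hM
  have hM1 : 64 / r ≤ M := Nat.le_ceil _
  have hM0 : (0 : ℝ) < M := lt_of_lt_of_le (by positivity) hM1
  have hM2 : (M : ℝ) * r ≤ 65 := by
    have h1 : (M : ℝ) < 64 / r + 1 := Nat.ceil_lt_add_one (by positivity)
    have h2 : (M : ℝ) * r ≤ (64 / r + 1) * r := by gcongr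
    rw [add_mul, div_mul_cancel₀ _ hr0.ne'] at h2
    linarith
  have hM3 : 64 ≤ (M : ℝ) * r := (div_le_iff₀ hr0).1 hM1
  let Z : Set (E d × ℝ) := {y | ∃ (b : Fin (k + 1)) (m : ℤ) (z : Fin d → ℤ), 0 ≤ y.2 - m ∧
    y.2 - m < S.ℓ (n + 1) b ∧ y.1 = ic z + S.Γ (n + 1) b (y.2 - m)}
  obtain ⟨V, h1, h2, h3, h4, h5, h6⟩ := hcut M (Λ * M) Z (by exact_mod_cast hM0)
    (Nat.le_mul_of_pos_left M hΛ2) (by
      rintro z' m' y ⟨b, m, z, a1, a2, a3⟩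
      have e : (shift z' m' y).2 - ((m + m' : ℤ) : ℝ) = y.2 - m := by
        simp only [shift]
        push_cast
        ring
      refine ⟨b, m + m', z + z', e ▸ a1, e ▸ a2, ?_⟩
      rw [e, Pot_ic_add]
      simp only [shift, a3]
      abel)
  refine ⟨V, h1, h2, h3, fun t ht => ?_, fun y hy => h5 y ?_, fun j hj y => (h6 j hj y).trans ?_⟩
  · have a1 : 4 * t ≤ ((n + 1 + ⌈4 * t⌉₊ : ℕ) : ℝ) := by
      have := Nat.le_ceil (4 * t)
      push_cast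
      linarith [Nat.cast_nonneg (α := ℝ) n]
    have a2 : ((n + 1 + ⌈4 * t⌉₊ : ℕ) : ℝ) ≤ S.ℓ (n + 1 + ⌈4 * t⌉₊) 0 := by
      exact_mod_cast Nat.lt_two_pow_self.le.trans (S.ℓ_ge_two _ 0)
    obtain ⟨b, m, z, a3, a4, a5⟩ := S.Pot_near (n + 1) ⌈4 * t⌉₊ 0 0 0 t (by simpa using ht.le)
      (by push_cast at a1 a2 ⊢; linarith)
    refine h4 _ (ic z + S.Γ (n + 1) b (t - m), t) ⟨b, m, z, a3, a4, rfl⟩ ?_ rfl
    rw [Pot_ic_zero, zero_add, Int.cast_zero, sub_zero, ← S.γ_eq a1, hpow] at a5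
    refine a5.trans ?_
    have a6 : 0 ≤ 2 * S.R * S.ρ ^ (n + 1 + ⌈4 * t⌉₊ + 1) := by
      have := S.R_nonneg
      positivity
    have a7 : S.R * S.ρ ≤ 1 / 256 := by nlinarith [S.ρ_small, S.σ0_le]
    have a8 : r / 65 ≤ 1 / (M : ℝ) := by
      rw [div_le_div_iff₀ (by norm_num) hM0]
      linarith
    nlinarith
  · rintro y' ⟨b, m, z, a1, a2, a3⟩ a4 a5
    apply hy
    have b1 : 4 / (M : ℝ) ≤ r / 16 := by
      rw [div_le_div_iff₀ hM0 (by norm_num)]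
      linarith
    have b2 : 4 / ((Λ * M : ℕ) : ℝ) * Λ = 4 / (M : ℝ) := by
      push_cast
      field_simp
    have b3 : 0 < 4 / ((Λ * M : ℕ) : ℝ) := by
      push_cast
      positivity
    generalize 4 / ((Λ * M : ℕ) : ℝ) = δ at *
    have b4 : δ ≤ 1 / 16 := by nlinarith
    have b5 : C * δ ≤ r / 32 := by nlinarith
    have b6 := abs_lt.1 a5
    obtain ⟨m', z', c1, c2, c3⟩ := S.Pot_window (n + 1) b m z (t := y.2) (by linarith [b6.1])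
      (by linarith [b6.2])
    obtain ⟨i, hv, he⟩ := S.exists_sub n b m' z' c1 c2
    refine ⟨_, _, z' + S.Kp n b i, b, i, hv, ?_⟩
    rw [← he, ← c3]
    have c4 := hlip (n + 1) b (y'.2 - m) (y.2 - m)
    rw [sub_sub_sub_cancel_right, abs_sub_comm] at c4
    have c5 : C * |y.2 - y'.2| ≤ C * δ := by gcongr
    have e : y.1 - (ic z + S.Γ (n + 1) b (y.2 - m)) =
        (y.1 - y'.1) + (S.Γ (n + 1) b (y'.2 - m) - S.Γ (n + 1) b (y.2 - m)) := by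
      rw [a3]
      abel
    rw [e]
    refine (norm_add_le _ _).trans_lt ?_
    linarith
  · have b1 : (1 : ℝ) ≤ ((Λ * M : ℕ) : ℝ) := by
      exact_mod_cast Nat.mul_pos hΛ2 (by exact_mod_cast hM0)
    have b2 : ((Λ * M : ℕ) : ℝ) ≤ 65 * Λ * r⁻¹ := by
      rw [← div_eq_mul_inv, le_div_iff₀ hr0]
      push_cast
      nlinarith
    rw [mul_assoc, ← mul_pow]
    exact mul_le_mul_of_nonneg_left
      ((pow_le_pow_right₀ b1 hj).trans (pow_le_pow_left₀ (by linarith) b2 s)) hC0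

/-- A potential above `C` off `In 0` and above the level `n` error on `In n` off `In (n + 1)`. -/
theorem exists_P {s : ℕ} {μ : ℝ} (hμ : 0 ≤ μ) (hV1 : μ < S.ρ ^ s * S.L)
    (hV2 : μ ^ 2 < S.ρ ^ (s + 2)) (C : ℝ) (hC : 0 ≤ C) : ∃ P : E d × ℝ → ℝ, ContDiff ℝ s P ∧
    (∀ z m y, P (shift z m y) = P y) ∧ (∀ y, 0 ≤ P y) ∧ (∀ t, 0 < t → P (S.γ t, t) = 0) ∧
    (∀ y, y ∉ S.In 0 → C ≤ P y) ∧ ∀ n y, y ∉ S.In (n + 1) →
      C * (μ / S.L) ^ n + C * ((μ / S.ρ) ^ n) ^ 2 ≤ P y := by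
  obtain ⟨CV, hCV, hV⟩ := S.exists_V s
  choose V h1 h2 h3 h4 h5 h6 using hV
  have hρ := S.ρ_pos
  have hL : 0 < S.L := lt_trans one_pos S.one_lt_L
  set ε : ℕ → ℝ := fun n => C * (μ / S.L) ^ n + C * ((μ / S.ρ) ^ n) ^ 2 with hε
  have hε0 : ∀ n, 0 ≤ ε n := fun n => by
    simp only [hε]
    positivity
  have hs : Summable fun n => ε n * (CV * ((S.ρ ^ (n + 1 + 1))⁻¹) ^ s) := by
    have s1 : Summable fun n : ℕ => (μ / (S.ρ ^ s * S.L)) ^ n :=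
      summable_geometric_of_lt_one (by positivity) ((div_lt_one (by positivity)).2 hV1)
    have s2 : Summable fun n : ℕ => (μ ^ 2 / S.ρ ^ (s + 2)) ^ n :=
      summable_geometric_of_lt_one (by positivity) ((div_lt_one (by positivity)).2 hV2)
    refine ((s1.add s2).mul_left (C * CV * ((S.ρ ^ 2)⁻¹) ^ s)).congr fun n => ?_
    simp only [hε, div_pow, inv_pow]
    field_simp
    ring
  have hb : ∀ (j n : ℕ) (y : E d × ℝ), j ≤ s → ‖iteratedFDeriv ℝ j (fun y => ε n • V (n + 1) y) y‖ ≤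
      ε n * (CV * ((S.ρ ^ (n + 1 + 1))⁻¹) ^ s) := by
    intro j n y hj
    rw [iteratedFDeriv_const_smul_apply' ((h1 (n + 1)).of_le (by exact_mod_cast hj)).contDiffAt,
      norm_smul, Real.norm_eq_abs, abs_of_nonneg (hε0 n)]
    exact mul_le_mul_of_nonneg_left (h6 (n + 1) j hj y) (hε0 n)
  have hsum : ∀ y, Summable fun n => ε n • V (n + 1) y := fun y =>
    Summable.of_norm_bounded hs fun n => by
      have := hb 0 n y (Nat.zero_le s)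
      rwa [norm_iteratedFDeriv_zero] at this
  have hn : ∀ n y, 0 ≤ ε n • V (n + 1) y := fun n y => mul_nonneg (hε0 n) (h3 _ y)
  have ht : ∀ y, 0 ≤ ∑' n, ε n • V (n + 1) y := fun y => tsum_nonneg fun n => hn n y
  refine ⟨fun y => C * V 0 y + ∑' n, ε n • V (n + 1) y, ?_, fun z m y => ?_,
    fun y => add_nonneg (mul_nonneg hC (h3 0 y)) (ht y), fun t h => ?_, fun y hy => ?_,
    fun n y hy => ?_⟩
  · refine (contDiff_const.mul (h1 0)).add ?_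
    exact contDiff_tsum (N := (s : ℕ∞)) (v := fun _ n => ε n * (CV * ((S.ρ ^ (n + 1 + 1))⁻¹) ^ s))
      (fun n => (h1 (n + 1)).const_smul (ε n)) (fun _ _ => hs)
      fun j n y hj => hb j n y (by exact_mod_cast hj)
  · simp only [h2]
  · simp [h4 _ t h]
  · have := mul_le_mul_of_nonneg_left (h5 0 y hy) hC
    linarith [ht y]
  · have a1 := (hsum y).le_tsum n fun j _ => hn j y
    have a2 : ε n * 1 ≤ ε n • V (n + 1) y := mul_le_mul_of_nonneg_left (h5 _ y hy) (hε0 n)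
    have a3 := mul_nonneg hC (h3 0 y)
    show ε n ≤ _
    linarith

end Pool.Agent.Lib.MP_ce3247_an.Geo
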