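import Pool.Agent.Lib.MP_ce3247_an.Per

/-! The time-periodic data used by the Riemannian construction, and pointwise estimates. -/

open MeasureTheory Filter Topology Set

namespace Pool.Agent.Lib.MP_ce3247_an

variable {d : ℕ}

/-- A smooth periodic field and a smooth periodic potential. -/
structure Box (d : ℕ) where
  X : E d × ℝ → E d
  P : E d × ℝ → ℝ
  X_smooth : ∀ r : ℕ, ContDiff ℝ r X
  P_smooth : ∀ r : ℕ, ContDiff ℝ r P
  X_per : ∀ z m y, X (shift z m y) = X y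
  P_per : ∀ z m y, P (shift z m y) = P y
  P_nonneg : ∀ y, 0 ≤ P y

lemma lip_of_per {F : Type*} [NormedAddCommGroup F] [NormedSpace ℝ F] {f : E d × ℝ → F}
    (hf : ContDiff ℝ 1 f) (hp : ∀ z m y, f (shift z m y) = f y) :
    ∃ K, 0 ≤ K ∧ ∀ x s t, ‖f (x, s) - f (x, t)‖ ≤ K * |s - t| := by
  obtain ⟨C, h0, hC⟩ := bdd_of_per (hf.continuous_fderiv (by simp))
    fun z m y => fderiv_per (a := 0) (fun y => by rw [hp, add_zero]) y
  refine ⟨C, h0, fun x s t => ?_⟩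
  have := Convex.norm_image_sub_le_of_norm_fderiv_le (𝕜 := ℝ) (s := univ) (f := f)
    (fun y _ => hf.differentiable (by simp) y) (fun y _ => hC y) convex_univ
    (mem_univ (x, t)) (mem_univ (x, s))
  simpa [Prod.norm_def] using this

lemma le_two_mul {φ φ' : ℝ → ℝ} {M : ℝ} (h : ∀ t, HasDerivAt φ (φ' t) t) (hM : 0 ≤ M)
    (hl : ∀ s t, ‖φ' s - φ' t‖ ≤ M * |s - t|) (h0 : ∀ t, 0 ≤ φ t) (t k : ℝ) :
    φ (t + k) ≤ 2 * φ t + 2 * M * k ^ 2 := by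
  have tay : ∀ k : ℝ, |φ (t + k) - φ t - φ' t * k| ≤ M * k ^ 2 := fun k => by
    have := (convex_closedBall t |k|).norm_image_sub_le_of_norm_hasDerivWithin_le (C := M * |k|)
      (f := fun r => φ r - φ' t * r) (f' := fun r => φ' r - φ' t)
      (fun r _ => ((h r).sub (by simpa using (hasDerivAt_id r).const_mul (φ' t))).hasDerivWithinAt)
      (fun r hr => (hl r t).trans (mul_le_mul_of_nonneg_left hr hM))
      (Metric.mem_closedBall_self (abs_nonneg k)) (y := t + k)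
      (show |t + k - t| ≤ |k| by rw [add_sub_cancel_left])
    rw [add_sub_cancel_left, Real.norm_eq_abs, Real.norm_eq_abs, mul_assoc, abs_mul_abs_self]
      at this
    convert this using 2 <;> ring
  have a1 := abs_le.1 (tay k)
  have a2 := abs_le.1 (tay (-k))
  have := h0 (t + -k)
  nlinarith [a1.2, a2.2]

namespace Box

variable (B : Box d)

/-- The time-periodic Lagrangian. -/
noncomputable def ell (x v : E d) (t : ℝ) : ℝ :=
  (∑ j, (v j - B.X (x, t) j) ^ 2) / 2 + B.P (x, t)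

/-- An orbit of `X` inside `P = 0` with mean velocity `h` along a sequence of times. -/
def Rot (h : E d) : Prop :=
  ∃ γ : ℝ → E d, (∀ t, 0 < t → HasDerivAt γ (B.X (γ t, t)) t) ∧
    (∀ t, 0 < t → B.P (γ t, t) = 0) ∧
    ∃ T : ℕ → ℝ, Tendsto T atTop atTop ∧ Tendsto (fun n => (T n)⁻¹ • γ (T n)) atTop (𝓝 h)

/-- The action pays for the displacement along `c`. -/
def Pay (c : E d) : Prop := ∃ C : ℝ, ∀ x v : ℝ → E d, (∀ t, HasDerivAt x (v t) t) → Continuous v →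
  ∀ N : ℕ, ∑ j, c j * (x N j - x 0 j) ≤ C + ∫ t in (0 : ℝ)..N, B.ell (x t) (v t) t

/-- The kinetic energy of the metric on `T^(d+1)` minus a closed form, at clock speed `s`. -/
noncomputable def Lt (s : ℝ) (x v : E d) (τ u : ℝ) : ℝ :=
  (∑ j, (v j - u * B.X (x, τ) j) ^ 2) / 2 + (u - s) ^ 2 / 2 +
    (B.P (x, τ) + B.P (x, τ) ^ 2 / 2) * u ^ 2

lemma Lt_parts (s : ℝ) (x v : E d) (τ u : ℝ) : 0 ≤ ∑ j, (v j - u * B.X (x, τ) j) ^ 2 ∧
    0 ≤ B.P (x, τ) * u ^ 2 ∧ (∑ j, (v j - u * B.X (x, τ) j) ^ 2) / 2 + (u - s) ^ 2 / 2 +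
      B.P (x, τ) * u ^ 2 ≤ B.Lt s x v τ u := by
  refine ⟨Finset.sum_nonneg fun j _ => sq_nonneg _, mul_nonneg (B.P_nonneg _) (sq_nonneg _), ?_⟩
  unfold Lt
  nlinarith [mul_nonneg (sq_nonneg (B.P (x, τ))) (sq_nonneg u)]

lemma Lt_nonneg (s : ℝ) (x v : E d) (τ u : ℝ) : 0 ≤ B.Lt s x v τ u := by
  obtain ⟨a, b, c⟩ := B.Lt_parts s x v τ u
  nlinarith [sq_nonneg (u - s)]

lemma X_bdd : ∃ M, 0 ≤ M ∧ ∀ y j, |B.X y j| ≤ M := by
  obtain ⟨M, h0, h⟩ := bdd_of_per (B.X_smooth 0).continuous B.X_per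
  exact ⟨M, h0, fun y j => (norm_le_pi_norm _ j).trans (h y)⟩

lemma P_shift : ∃ M, 0 ≤ M ∧ ∀ x τ σ, B.P (x, σ) ≤ 2 * B.P (x, τ) + 2 * M * (σ - τ) ^ 2 := by
  have h1 : ContDiff ℝ 1 (fderiv ℝ B.P) := (B.P_smooth 2).fderiv_right (by norm_num)
  obtain ⟨M, h0, h⟩ := lip_of_per (f := fun y => fderiv ℝ B.P y (0, 1))
    (h1.clm_apply contDiff_const) fun z m y => by
      rw [fderiv_per (a := 0) (fun y => by rw [B.P_per, add_zero]) y]
  refine ⟨M, h0, fun x τ σ => ?_⟩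
  have := le_two_mul (φ := fun t => B.P (x, t)) (φ' := fun t => fderiv ℝ B.P (x, t) (0, 1))
    (fun t => ((B.P_smooth 1).differentiable (by simp) (x, t)).hasFDerivAt.comp_hasDerivAt t
      ((hasDerivAt_const t x).prodMk (hasDerivAt_id t))) h0 (h x) (fun t => B.P_nonneg _) τ (σ - τ)
  rwa [add_sub_cancel] at this

/-- Changing the clock costs a bounded factor. -/
lemma ell_le : ∃ K, 0 ≤ K ∧ ∀ (x v : E d) (τ u σ w δ : ℝ), 1 / 2 ≤ w → w ≤ 3 / 2 → |w - 1| ≤ δ →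
    |σ - τ| ≤ δ → B.ell x (w⁻¹ • v) σ * w ≤ K * (B.Lt 1 x v τ u + δ ^ 2) := by
  obtain ⟨M, hM, hX⟩ := B.X_bdd
  obtain ⟨Λ, hΛ, hL⟩ := lip_of_per (B.X_smooth 1) B.X_per
  obtain ⟨M2, hM2, hP⟩ := B.P_shift
  obtain ⟨MP, hMP, hP0⟩ := bdd_of_per (B.P_smooth 0).continuous B.P_per
  refine ⟨14 + 8 * d * M ^ 2 + 12 * MP + 4 * d * (M ^ 2 + 3 * Λ ^ 2) + 3 * M2, by positivity,
    fun x v τ u σ w δ h1 h2 h3 h4 => ?_⟩
  have hw : 0 < w := by linarith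
  have hδ : 0 ≤ δ := (abs_nonneg _).trans h3
  have k1 : ∀ j, ((w⁻¹ • v) j - B.X (x, σ) j) ^ 2 * w ≤ 8 * ((v j - u * B.X (x, τ) j) ^ 2 +
      (M ^ 2 * (u - 1) ^ 2 + (M ^ 2 + 3 * Λ ^ 2) * δ ^ 2)) := fun j => by
    have e : ((w⁻¹ • v) j - B.X (x, σ) j) * w = (v j - u * B.X (x, τ) j) +
        (u - 1) * B.X (x, τ) j - (w - 1) * B.X (x, τ) j - w * (B.X (x, σ) j - B.X (x, τ) j) := by
      simp only [Pi.smul_apply, smul_eq_mul]
      field_simp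
      ring
    have q0 : B.X (x, τ) j ^ 2 ≤ M ^ 2 := sq_le_sq' (abs_le.1 (hX _ j)).1 (abs_le.1 (hX _ j)).2
    have q1 : ((u - 1) * B.X (x, τ) j) ^ 2 ≤ M ^ 2 * (u - 1) ^ 2 := by
      nlinarith [mul_le_mul_of_nonneg_left q0 (sq_nonneg (u - 1))]
    have q2 : ((w - 1) * B.X (x, τ) j) ^ 2 ≤ M ^ 2 * δ ^ 2 := by
      rw [mul_pow, mul_comm]
      exact mul_le_mul q0 (sq_le_sq' (abs_le.1 h3).1 (abs_le.1 h3).2) (sq_nonneg _) (sq_nonneg _)
    have q3 : |B.X (x, σ) j - B.X (x, τ) j| ≤ Λ * δ :=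
      ((norm_le_pi_norm (B.X (x, σ) - B.X (x, τ)) j).trans (hL x σ τ)).trans
        (mul_le_mul_of_nonneg_left h4 hΛ)
    have q4 : (w * (B.X (x, σ) j - B.X (x, τ) j)) ^ 2 ≤ 3 * Λ ^ 2 * δ ^ 2 := by
      have := sq_le_sq' (abs_le.1 q3).1 (abs_le.1 q3).2
      have r : w ^ 2 ≤ 3 := by nlinarith
      rw [mul_pow]
      nlinarith [mul_le_mul r this (sq_nonneg _) (by norm_num : (0 : ℝ) ≤ 3)]
    generalize (w⁻¹ • v) j - B.X (x, σ) j = e0 at e ⊢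
    generalize v j - u * B.X (x, τ) j = a1 at e ⊢
    generalize (u - 1) * B.X (x, τ) j = a2 at e q1
    generalize (w - 1) * B.X (x, τ) j = a3 at e q2
    generalize w * (B.X (x, σ) j - B.X (x, τ) j) = a4 at e q4
    have q5 : (e0 * w) ^ 2 ≤ 4 * (a1 ^ 2 + a2 ^ 2 + a3 ^ 2 + a4 ^ 2) := by
      rw [e]
      nlinarith [sq_nonneg (a1 - a2), sq_nonneg (a1 + a3), sq_nonneg (a1 + a4),
        sq_nonneg (a2 + a3), sq_nonneg (a2 + a4), sq_nonneg (a3 - a4)]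
    have q6 : e0 ^ 2 * w ≤ 2 * (e0 * w) ^ 2 := by
      nlinarith [mul_nonneg (mul_nonneg (sq_nonneg e0) hw.le) (sub_nonneg.2 h1)]
    nlinarith
  have k2 := Finset.sum_le_sum (s := Finset.univ) fun j _ => k1 j
  rw [← Finset.sum_mul, ← Finset.mul_sum, Finset.sum_add_distrib, Finset.sum_const,
    Finset.card_univ, Fintype.card_fin, nsmul_eq_mul] at k2
  obtain ⟨p1, p2, p3⟩ := B.Lt_parts 1 x v τ u
  have p4 := B.P_nonneg (x, τ)
  have p5 : B.P (x, τ) ≤ MP := (le_abs_self _).trans (hP0 _)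
  have p6 : B.P (x, τ) ≤ 2 * (B.P (x, τ) * u ^ 2) + 2 * MP * (u - 1) ^ 2 := by
    nlinarith [mul_nonneg p4 (sq_nonneg (2 * u - 1)),
      mul_nonneg (sub_nonneg.2 p5) (sq_nonneg (u - 1))]
  have p7 : B.P (x, σ) ≤ 2 * B.P (x, τ) + 2 * M2 * δ ^ 2 :=
    (hP x τ σ).trans (by
      have := sq_le_sq' (abs_le.1 h4).1 (abs_le.1 h4).2
      nlinarith)
  have p8 : B.P (x, σ) * w ≤ 3 / 2 * B.P (x, σ) := by nlinarith [B.P_nonneg (x, σ)]
  unfold ell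
  generalize ∑ j, ((w⁻¹ • v) j - B.X (x, σ) j) ^ 2 = S at k2 ⊢
  generalize ∑ j, (v j - u * B.X (x, τ) j) ^ 2 = A at k2 p1 p3
  generalize B.Lt 1 x v τ u = L at p3 ⊢
  have s1 := sq_nonneg (u - 1)
  have s2 := sq_nonneg δ
  generalize (u - 1) ^ 2 = U at *
  generalize δ ^ 2 = D at *
  have t1 : A ≤ 2 * L := by linarith
  have t2 : U ≤ 2 * L := by linarith
  have t3 : B.P (x, τ) * u ^ 2 ≤ L := by linarith
  have hL0 : 0 ≤ L := by linarith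
  have n1 : 0 ≤ (d : ℝ) * M ^ 2 := by positivity
  have n2 : 0 ≤ (d : ℝ) * (M ^ 2 + 3 * Λ ^ 2) := by positivity
  nlinarith [mul_le_mul_of_nonneg_left t2 n1, mul_le_mul_of_nonneg_left t2 hMP, mul_nonneg n1 s2,
    mul_nonneg n2 hL0, mul_nonneg hMP s2, mul_nonneg hM2 hL0]

lemma lin_le_ell (c : E d) : ∃ K, 0 ≤ K ∧ ∀ x v t, ∑ j, c j * v j ≤ K + B.ell x v t := by
  obtain ⟨M, hM, hX⟩ := B.X_bdd
  refine ⟨∑ j, (c j ^ 2 / 2 + |c j| * M), Finset.sum_nonneg fun j _ => by positivity,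
    fun x v t => ?_⟩
  have k : ∑ j, c j * v j ≤ ∑ j, ((v j - B.X (x, t) j) ^ 2 / 2 +
      (c j ^ 2 / 2 + |c j| * M)) := Finset.sum_le_sum fun j _ => by
    have k2 : c j * B.X (x, t) j ≤ |c j| * M := (le_abs_self _).trans (by
      rw [abs_mul]; exact mul_le_mul_of_nonneg_left (hX _ j) (abs_nonneg _))
    nlinarith [sq_nonneg (v j - B.X (x, t) j - c j)]
  rw [Finset.sum_add_distrib, ← Finset.sum_div] at k
  unfold ell
  linarith [B.P_nonneg (x, t)]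

lemma lin_le_Lt (c : E d) : ∃ K, 0 ≤ K ∧ ∀ x v τ u, ∑ j, c j * v j ≤ K * (1 + B.Lt 1 x v τ u) := by
  obtain ⟨M, hM, hX⟩ := B.X_bdd
  set S := ∑ j, c j ^ 2 / 2 with hS
  set R := ∑ j, |c j| * M with hR
  have hS0 : 0 ≤ S := Finset.sum_nonneg fun j _ => by positivity
  have hR0 : 0 ≤ R := Finset.sum_nonneg fun j _ => by positivity
  refine ⟨1 + S + 2 * R, by positivity, fun x v τ u => ?_⟩
  have hu : |u| ≤ 3 / 2 + (u - 1) ^ 2 / 2 := abs_le.2 ⟨by nlinarith [sq_nonneg u],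
    by nlinarith [sq_nonneg (u - 2)]⟩
  have k : ∑ j, c j * v j ≤ ∑ j, ((v j - u * B.X (x, τ) j) ^ 2 / 2 +
      (c j ^ 2 / 2 + |c j| * M * |u|)) := Finset.sum_le_sum fun j _ => by
    have k2 : c j * B.X (x, τ) j * u ≤ |c j| * M * |u| := (le_abs_self _).trans (by
      rw [abs_mul, abs_mul]
      exact mul_le_mul_of_nonneg_right (mul_le_mul_of_nonneg_left (hX _ j) (abs_nonneg _))
        (abs_nonneg _))
    nlinarith [sq_nonneg (v j - u * B.X (x, τ) j - c j)]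
  rw [Finset.sum_add_distrib, Finset.sum_add_distrib, ← Finset.sum_div, ← Finset.sum_mul] at k
  obtain ⟨p1, p2, p3⟩ := B.Lt_parts 1 x v τ u
  have s1 := sq_nonneg (u - 1)
  have t2 : (u - 1) ^ 2 / 2 ≤ B.Lt 1 x v τ u := by linarith
  have hL0 := B.Lt_nonneg 1 x v τ u
  nlinarith [mul_le_mul_of_nonneg_left hu hR0, mul_le_mul_of_nonneg_left t2 hR0,
    mul_nonneg hS0 hL0, mul_nonneg hR0 hL0]

end Box

end Pool.Agent.Lib.MP_ce3247_an
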