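import Pool.Agent.Lib.MP_ce3247_an.RmBox

/-! From curves parametrised by the clock to curves on `T^(d+1)` with a free clock. -/

open Filter Topology Set intervalIntegral
open MeasureTheory (volume)

namespace Pool.Agent.Lib.MP_ce3247_an

variable {d : ℕ}

lemma exists_inv {σ w : ℝ → ℝ} (hσ : ∀ s, HasDerivAt σ (w s) s) (hw : ∀ s, 1 / 2 ≤ w s) :
    ∃ ρ : ℝ → ℝ, Continuous ρ ∧ (∀ s, ρ (σ s) = s) ∧ ∀ t, HasDerivAt ρ (w (ρ t))⁻¹ t := by
  have hc : Continuous σ := continuous_iff_continuousAt.2 fun s => (hσ s).continuousAt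
  have hm : StrictMono σ := strictMono_of_deriv_pos fun s => by
    rw [(hσ s).deriv]; linarith [hw s]
  have h2 : Monotone fun s => σ s - s / 2 :=
    monotone_of_deriv_nonneg (fun s => ((hσ s).sub ((hasDerivAt_id s).div_const 2)).differentiableAt)
      fun s => by
        have : HasDerivAt (fun s => σ s - s / 2) (w s - 1 / 2) s :=
          (hσ s).sub ((hasDerivAt_id s).div_const 2)
        rw [this.deriv]; linarith [hw s]
  have ht : Tendsto σ atTop atTop := by
    refine tendsto_atTop_mono' _ ?_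
      (tendsto_atTop_add_const_left _ (σ 0) (tendsto_id.atTop_div_const two_pos))
    filter_upwards [eventually_ge_atTop 0] with s hs
    have := h2 hs
    simp only [id] at this ⊢
    linarith
  have hb : Tendsto σ atBot atBot := by
    refine tendsto_atBot_mono' _ ?_
      (tendsto_atBot_add_const_left _ (σ 0) (tendsto_id.atBot_div_const two_pos))
    filter_upwards [eventually_le_atBot 0] with s hs
    have := h2 hs
    simp only [id] at this ⊢
    linarith
  let e := hm.orderIsoOfSurjective σ (hc.surjective ht hb)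
  have e1 : ∀ t, σ (e.symm t) = t := e.apply_symm_apply
  refine ⟨e.symm, e.symm.continuous, e.symm_apply_apply, fun t => ?_⟩
  exact HasDerivAt.of_local_left_inverse e.symm.continuous.continuousAt (hσ _)
    (by linarith [hw (e.symm t)]) (Eventually.of_forall e1)

lemma sq_int_le {f : ℝ → ℝ} (hf : Continuous f) (s : ℝ) :
    (∫ t in s..(s + 1), f t) ^ 2 ≤ ∫ t in s..(s + 1), f t ^ 2 := by
  set m := ∫ t in s..(s + 1), f t with hm
  have h0 : 0 ≤ ∫ t in s..(s + 1), (f t ^ 2 - 2 * m * f t + m ^ 2) :=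
    integral_nonneg (by linarith) fun t _ => by nlinarith [sq_nonneg (f t - m)]
  have c1 : Continuous fun t => f t ^ 2 := hf.pow 2
  have c2 : Continuous fun t => 2 * m * f t := continuous_const.mul hf
  have c3 : Continuous fun t => f t ^ 2 - 2 * m * f t := c1.sub c2
  rw [integral_add (c3.intervalIntegrable _ _) (by simp),
    integral_sub (c1.intervalIntegrable _ _) (c2.intervalIntegrable _ _), integral_const_mul,
    intervalIntegral.integral_const, ← hm] at h0
  simp only [add_sub_cancel_left, smul_eq_mul, one_mul] at h0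
  nlinarith

/-- Cutting a sequence at its expensive steps. -/
lemma cut_le {φ a : ℕ → ℝ} {C K K' : ℝ} (hC : 0 ≤ C) (hK : 0 ≤ K) (hK' : 0 ≤ K')
    (ha : ∀ n, 0 ≤ a n) (good : ∀ m n, m ≤ n → (∀ i ∈ Finset.Ico m n, a i ≤ 1 / 8) →
      φ n - φ m ≤ C + K * ∑ i ∈ Finset.Ico m n, a i)
    (bad : ∀ n, φ (n + 1) - φ n ≤ K' * (1 + a n)) (n : ℕ) :
    ∀ m, m ≤ n → φ n - φ m ≤ C + (K + 8 * C + 9 * K') * ∑ i ∈ Finset.Ico m n, a i := by
  induction n using Nat.strong_induction_on with
  | _ n ih =>
    intro m hm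
    have hs : ∀ m n, 0 ≤ ∑ i ∈ Finset.Ico m n, a i := fun _ _ => Finset.sum_nonneg fun i _ => ha i
    have h9 : 0 ≤ 8 * C + 9 * K' := by positivity
    by_cases h : ∀ i ∈ Finset.Ico m n, a i ≤ 1 / 8
    · nlinarith [good m n hm h, mul_nonneg h9 (hs m n)]
    · push Not at h
      obtain ⟨i, hi, hmax⟩ := Finset.exists_max_image
        ((Finset.Ico m n).filter fun i => 1 / 8 < a i) id
        (by obtain ⟨i, h1, h2⟩ := h; exact ⟨i, Finset.mem_filter.2 ⟨h1, h2⟩⟩)
      obtain ⟨hi, hb⟩ := Finset.mem_filter.1 hi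
      obtain ⟨i1, i2⟩ := Finset.mem_Ico.1 hi
      have k1 := ih i i2 m i1
      have k2 := bad i
      have k3 := good (i + 1) n i2 fun j hj => by
        obtain ⟨j1, j2⟩ := Finset.mem_Ico.1 hj
        by_contra hc
        have := hmax j (Finset.mem_filter.2 ⟨Finset.mem_Ico.2 ⟨by omega, j2⟩, not_le.1 hc⟩)
        simp only [id] at this
        omega
      rw [← Finset.sum_Ico_consecutive a i1 i2.le, Finset.sum_eq_sum_Ico_succ_bot i2]
      nlinarith [mul_nonneg h9 (hs (i + 1) n), mul_nonneg hK (ha i),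
        mul_nonneg hC (sub_nonneg.2 hb.le), mul_nonneg hK' (sub_nonneg.2 hb.le)]

lemma cont_of_deriv {F : Type*} [NormedAddCommGroup F] [NormedSpace ℝ F] {x v : ℝ → F}
    (h : ∀ t, HasDerivAt x (v t) t) : Continuous x :=
  continuous_iff_continuousAt.2 fun t => (h t).continuousAt

lemma lin_cont (c : E d) {v : ℝ → E d} (hv : Continuous v) :
    Continuous fun t => ∑ j, c j * v t j := by fun_prop

lemma int_lin (c : E d) {x v : ℝ → E d} (hx : ∀ t, HasDerivAt x (v t) t) (hv : Continuous v)
    (a b : ℝ) : ∫ t in a..b, ∑ j, c j * v t j = ∑ j, c j * x b j - ∑ j, c j * x a j :=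
  integral_eq_sub_of_hasDerivAt (f := fun t => ∑ j, c j * x t j)
    (fun t _ => HasDerivAt.fun_sum fun j _ => (hasDerivAt_pi.1 (hx t) j).const_mul _)
    ((lin_cont c hv).intervalIntegrable _ _)

namespace Box

variable {B : Box d} {c : E d}

lemma ell_cont {x v : ℝ → E d} {σ : ℝ → ℝ} (hx : Continuous x) (hv : Continuous v)
    (hσ : Continuous σ) : Continuous fun t => B.ell (x t) (v t) (σ t) := by
  have h1 := (B.X_smooth 0).continuous
  have h2 := (B.P_smooth 0).continuous
  unfold ell
  fun_prop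

lemma Lt_cont (s : ℝ) {x v : ℝ → E d} {τ u : ℝ → ℝ} (hx : Continuous x) (hv : Continuous v)
    (hτ : Continuous τ) (hu : Continuous u) :
    Continuous fun t => B.Lt s (x t) (v t) (τ t) (u t) := by
  have h1 := (B.X_smooth 0).continuous
  have h2 := (B.P_smooth 0).continuous
  unfold Lt
  fun_prop

/-- The curve inequality between arbitrary times. -/
lemma Pay.real (h : B.Pay c) : ∃ C, 0 ≤ C ∧ ∀ x v : ℝ → E d, (∀ t, HasDerivAt x (v t) t) →
    Continuous v → ∀ a b : ℝ, a ≤ b →
      ∑ j, c j * x b j - ∑ j, c j * x a j ≤ C + ∫ t in a..b, B.ell (x t) (v t) t := by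
  obtain ⟨C, h⟩ := h
  obtain ⟨K, hK, hl⟩ := B.lin_le_ell c
  refine ⟨|C| + 2 * K, by positivity, fun x v hx hv a b hab => ?_⟩
  have hc := ell_cont (B := B) (cont_of_deriv hx) hv continuous_id
  have hi : ∀ a b, IntervalIntegrable (fun t => B.ell (x t) (v t) t) volume a b := fun a b =>
    hc.intervalIntegrable a b
  have short : ∀ a b : ℝ, a ≤ b → b - a ≤ 1 →
      ∑ j, c j * x b j - ∑ j, c j * x a j ≤ K + ∫ t in a..b, B.ell (x t) (v t) t := by
    intro a b hab h1
    rw [← int_lin c hx hv]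
    have := integral_mono_on (μ := volume) hab ((lin_cont c hv).intervalIntegrable _ _)
      (g := fun t => K + B.ell (x t) (v t) t)
      ((continuous_const.add hc).intervalIntegrable _ _) fun t _ => hl (x t) (v t) t
    rw [integral_add (by simp) (hi a b), intervalIntegral.integral_const, smul_eq_mul] at this
    nlinarith
  have := le_abs_self C
  have := abs_nonneg C
  by_cases hb : b < ⌈a⌉
  · linarith [short a b hab (by linarith [Int.ceil_lt_add_one a])]
  · set m := ⌈a⌉
    set N := ⌊b - m⌋₊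
    have n1 : (N : ℝ) ≤ b - m := Nat.floor_le (by linarith)
    have n2 : b - m < N + 1 := Nat.lt_floor_add_one _
    have k1 := short a m (Int.le_ceil a) (by linarith [Int.ceil_lt_add_one a])
    have k2 := short (N + m) b (by linarith) (by linarith)
    have k3 := h (fun t => x (t + m)) (fun t => v (t + m))
      (fun t => (hx (t + m)).comp_add_const t m) (hv.comp (continuous_id.add_const _)) N
    have e : ∀ t : ℝ, B.ell (x (t + m)) (v (t + m)) t = B.ell (x (t + m)) (v (t + m)) (t + m) :=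
      fun t => by
        have e1 : shift 0 m (x (t + m), t) = (x (t + m), t + m) :=
          Prod.ext (funext fun j => by simp [shift, ic]) rfl
        unfold ell
        rw [← e1, B.X_per, B.P_per]
    simp only [e] at k3
    rw [integral_comp_add_right (fun t => B.ell (x t) (v t) t)] at k3
    simp only [zero_add, mul_sub, Finset.sum_sub_distrib] at k3
    rw [← integral_add_adjacent_intervals (hi a m) (hi m b),
      ← integral_add_adjacent_intervals (hi m (N + m)) (hi _ b)]
    linarith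

/-- The curve inequality for a free clock, along a stretch of cheap steps. -/
lemma Pay.good (h : B.Pay c) : ∃ C K, 0 ≤ C ∧ 0 ≤ K ∧ ∀ (x v : ℝ → E d) (τ u : ℝ → ℝ),
    (∀ t, HasDerivAt x (v t) t) → Continuous v → (∀ t, HasDerivAt τ (u t) t) → Continuous u →
    ∀ m n : ℕ, m ≤ n → (∀ i ∈ Finset.Ico m n,
      ∫ t in (i : ℝ)..(i + 2), B.Lt 1 (x t) (v t) (τ t) (u t) ≤ 1 / 8) →
      ∑ j, c j * x n j - ∑ j, c j * x m j ≤ C + K * ∑ i ∈ Finset.Ico m n,
        ∫ t in (i : ℝ)..(i + 2), B.Lt 1 (x t) (v t) (τ t) (u t) := by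
  obtain ⟨C, hC, h⟩ := h.real
  obtain ⟨K, hK, hl⟩ := B.ell_le
  refine ⟨C, 3 * K, hC, by positivity, fun x v τ u hx hv hτ hu m n hmn ha => ?_⟩
  have cx := cont_of_deriv hx
  have cτ := cont_of_deriv hτ
  have cl := Lt_cont (B := B) 1 cx hv cτ hu
  set lt : ℝ → ℝ := fun t => B.Lt 1 (x t) (v t) (τ t) (u t) with hlt
  have l0 : ∀ t, 0 ≤ lt t := fun t => B.Lt_nonneg _ _ _ _ _
  have mono : ∀ {a b a' b' : ℝ}, a ≤ a' → a' ≤ b' → b' ≤ b →
      ∫ t in a'..b', lt t ≤ ∫ t in a..b, lt t := fun h1 h2 h3 =>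
    integral_mono_interval h1 h2 h3 (Eventually.of_forall l0) (cl.intervalIntegrable _ _)
  have cu : Continuous fun t => |u t - 1| := (hu.sub continuous_const).abs
  set J : ℝ → ℝ := fun s => ∫ t in s..(s + 1), |u t - 1| with hJ
  have J2 : ∀ s, J s ^ 2 ≤ 2 * ∫ t in s..(s + 1), lt t := fun s => by
    refine (sq_int_le cu s).trans ?_
    rw [← integral_const_mul]
    refine integral_mono_on (by linarith) ((cu.pow 2).intervalIntegrable _ _)
      ((continuous_const.mul cl).intervalIntegrable _ _) fun t _ => ?_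
    obtain ⟨p1, p2, p3⟩ := B.Lt_parts 1 (x t) (v t) (τ t) (u t)
    rw [sq_abs]
    linarith
  have J1 : ∀ s, ∀ r ∈ Icc s (s + 1), |τ r - τ s - (r - s)| ≤ J s := fun s r hr => by
    have e : ∫ t in s..r, (u t - 1) = τ r - r - (τ s - s) :=
      integral_eq_sub_of_hasDerivAt (f := fun t => τ t - t)
        (fun t _ => (hτ t).sub (hasDerivAt_id t)) ((hu.sub continuous_const).intervalIntegrable _ _)
    rw [show τ r - τ s - (r - s) = τ r - r - (τ s - s) by ring, ← e]
    exact (abs_integral_le_integral_abs hr.1).trans (integral_mono_interval le_rfl hr.1 hr.2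
      (Eventually.of_forall fun t => abs_nonneg _) (cu.intervalIntegrable _ _))
  set w : ℝ → ℝ := fun s => τ (s + 1) - τ s with hw
  have cw : Continuous w := (cτ.comp (continuous_id.add_const 1)).sub cτ
  have w1 : ∀ s, |w s - 1| ≤ J s := fun s => by
    simpa using J1 s (s + 1) ⟨by linarith, le_rfl⟩
  set σ₀ : ℝ → ℝ := fun s => (∫ t in (0 : ℝ)..(s + 1), τ t) - (∫ t in (0 : ℝ)..s, τ t) - 1 / 2
    with hσ₀
  have dσ₀ : ∀ s, HasDerivAt σ₀ (w s) s := fun s =>
    ((((cτ.integral_hasStrictDerivAt 0 (s + 1)).hasDerivAt).comp_add_const s 1).sub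
      (cτ.integral_hasStrictDerivAt 0 s).hasDerivAt).sub_const _
  have s1 : ∀ s, |σ₀ s - τ s| ≤ J s := fun s => by
    have e1 := integral_add_adjacent_intervals (μ := volume) (cτ.intervalIntegrable 0 s)
      (cτ.intervalIntegrable s (s + 1))
    have e2 : ∫ r in s..(s + 1), (τ r - τ s - (r - s)) = σ₀ s - τ s := by
      have c1 : Continuous fun r => τ r - τ s := cτ.sub continuous_const
      have c2 : Continuous fun r : ℝ => r - s := continuous_id.sub continuous_const
      rw [integral_sub (c1.intervalIntegrable _ _) (c2.intervalIntegrable _ _),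
        integral_sub (cτ.intervalIntegrable _ _) (by simp),
        integral_sub (continuous_id'.intervalIntegrable _ _) (by simp), integral_id]
      simp only [hσ₀, intervalIntegral.integral_const, smul_eq_mul]
      linarith
    have := norm_integral_le_of_norm_le_const (a := s) (b := s + 1) (C := J s)
      (f := fun r => τ r - τ s - (r - s)) fun r hr => J1 s r (by
        rw [uIoc_of_le (by linarith)] at hr
        exact Ioc_subset_Icc_self hr)
    rw [e2] at this
    simpa using this
  have J3 : ∀ i ∈ Finset.Ico m n, ∀ s ∈ Icc (i : ℝ) (i + 1),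
      J s ^ 2 ≤ 2 * ∫ t in (i : ℝ)..(i + 2), lt t := fun i _ s hs =>
    (J2 s).trans (by
      have := mono hs.1 (show s ≤ s + 1 by linarith) (show s + 1 ≤ i + 2 by linarith [hs.2])
      linarith)
  set w' : ℝ → ℝ := fun s => max (1 / 2) (min (3 / 2) (w s)) with hw'
  have cw' : Continuous w' := continuous_const.max (continuous_const.min cw)
  have w2 : ∀ s, 1 / 2 ≤ w' s := fun s => le_max_left _ _
  have w3 : ∀ s, w' s ≤ 3 / 2 := fun s => max_le (by norm_num) (min_le_left _ _)
  have w4 : ∀ i ∈ Finset.Ico m n, ∀ s ∈ Icc (i : ℝ) (i + 1), w' s = w s := fun i hi s hs => by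
    have q1 := J3 i hi s hs
    have q2 := ha i hi
    have q3 : J s ≤ 1 / 2 := by nlinarith
    have q4 := abs_le.1 ((w1 s).trans q3)
    simp only [hw']
    rw [min_eq_right (by linarith [q4.2]), max_eq_right (by linarith [q4.1])]
  set σ : ℝ → ℝ := fun s => σ₀ m + ∫ t in (m : ℝ)..s, w' t with hσ
  have dσ : ∀ s, HasDerivAt σ (w' s) s := fun s =>
    (cw'.integral_hasStrictDerivAt m s).hasDerivAt.const_add _
  have s2 : ∀ i ∈ Finset.Ico m n, ∀ s ∈ Icc (i : ℝ) (i + 1), σ s = σ₀ s := fun i hi s hs => by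
    obtain ⟨i1, i2⟩ := Finset.mem_Ico.1 hi
    have i1' : (m : ℝ) ≤ i := by exact_mod_cast i1
    have e : ∫ t in (m : ℝ)..s, w' t = ∫ t in (m : ℝ)..s, w t := by
      refine integral_congr_ae ?_
      refine Eventually.of_forall fun t ht => ?_
      rw [uIoc_of_le (i1'.trans hs.1)] at ht
      have t0 : (0 : ℝ) < t := (Nat.cast_nonneg m).trans_lt ht.1
      have t1 : m < ⌈t⌉₊ := Nat.lt_ceil.2 ht.1
      have t2 : ⌈t⌉₊ ≤ i + 1 := Nat.ceil_le.2 (by push_cast; linarith [ht.2, hs.2])
      refine w4 (⌈t⌉₊ - 1) (Finset.mem_Ico.2 ⟨by omega, by omega⟩) t ?_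
      rw [Nat.cast_sub (by omega)]
      exact ⟨by push_cast; linarith [Nat.ceil_lt_add_one t0.le],
        by push_cast; linarith [Nat.le_ceil t]⟩
    simp only [hσ]
    rw [e, integral_eq_sub_of_hasDerivAt (fun t _ => dσ₀ t) (cw.intervalIntegrable _ _)]
    ring
  obtain ⟨ρ, cρ, ρσ, dρ⟩ := exists_inv dσ w2
  have cσ := cont_of_deriv dσ
  have cinv : Continuous fun s => (w' s)⁻¹ := cw'.inv₀ fun s => by linarith [w2 s]
  have hmn' : (m : ℝ) ≤ n := by exact_mod_cast hmn
  have cy : Continuous fun t => (w' (ρ t))⁻¹ • v (ρ t) := (cinv.smul hv).comp cρ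
  have key := h (fun t => x (ρ t)) (fun t => (w' (ρ t))⁻¹ • v (ρ t))
    (fun t => (hx (ρ t)).scomp t (dρ t)) cy (σ m) (σ n) (by
      have := integral_nonneg (μ := volume) (f := w') hmn' fun t _ => by linarith [w2 t]
      simp only [hσ, integral_same]
      linarith)
  rw [← integral_comp_mul_deriv (fun s _ => dσ s) cw'.continuousOn
    (g := fun t => B.ell (x (ρ t)) ((w' (ρ t))⁻¹ • v (ρ t)) t)
    (ell_cont (cx.comp cρ) cy continuous_id)] at key
  simp only [Function.comp_apply, ρσ] at key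
  refine key.trans (add_le_add le_rfl ?_)
  have cg : Continuous fun s => B.ell (x s) ((w' s)⁻¹ • v s) (σ s) * w' s :=
    (ell_cont cx (cinv.smul hv) cσ).mul cw'
  rw [← sum_integral_adjacent_intervals_Ico (a := fun i : ℕ => (i : ℝ)) hmn
    fun i _ => cg.intervalIntegrable _ _, Finset.mul_sum]
  refine Finset.sum_le_sum fun i hi => ?_
  push_cast
  set a := ∫ t in (i : ℝ)..(i + 2), lt t with ha'
  have q := integral_mono_on (μ := volume) (show (i : ℝ) ≤ i + 1 by linarith)
    (cg.intervalIntegrable _ _) (g := fun s => K * (lt s + 2 * a))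
    ((continuous_const.mul (cl.add continuous_const)).intervalIntegrable _ _) fun s hs => by
      refine (hl (x s) (v s) (τ s) (u s) (σ s) (w' s) (J s) (w2 s) (w3 s) ?_ ?_).trans ?_
      · rw [w4 i hi s hs]; exact w1 s
      · rw [s2 i hi s hs]; exact s1 s
      · exact mul_le_mul_of_nonneg_left (add_le_add le_rfl (J3 i hi s hs)) hK
  rw [integral_const_mul, integral_add (cl.intervalIntegrable _ _) (by simp),
    intervalIntegral.integral_const] at q
  have q2 := mono (le_refl (i : ℝ)) (show (i : ℝ) ≤ i + 1 by linarith)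
    (show (i : ℝ) + 1 ≤ i + 2 by linarith)
  simp only [add_sub_cancel_left, smul_eq_mul, one_mul] at q
  nlinarith [mul_le_mul_of_nonneg_left q2 hK]

/-- The curve inequality for a free clock. -/
theorem Pay.free (h : B.Pay c) : ∃ C K, 0 < K ∧ ∀ (x v : ℝ → E d) (τ u : ℝ → ℝ),
    (∀ t, HasDerivAt x (v t) t) → Continuous v → (∀ t, HasDerivAt τ (u t) t) → Continuous u →
    ∀ N : ℕ, ∑ j, c j * x N j - ∑ j, c j * x 0 j ≤
      C + K * ∫ t in (0 : ℝ)..(N + 1), B.Lt 1 (x t) (v t) (τ t) (u t) := by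
  obtain ⟨C, K, hC, hK, h⟩ := h.good
  obtain ⟨K', hK', hl⟩ := B.lin_le_Lt c
  refine ⟨C, 2 * (K + 8 * C + 9 * K') + 1, by positivity, fun x v τ u hx hv hτ hu N => ?_⟩
  have cl := Lt_cont (B := B) 1 (cont_of_deriv hx) hv (cont_of_deriv hτ) hu
  have hg := h x v τ u hx hv hτ hu
  set lt : ℝ → ℝ := fun t => B.Lt 1 (x t) (v t) (τ t) (u t) with hlt
  have l0 : ∀ t, 0 ≤ lt t := fun t => B.Lt_nonneg _ _ _ _ _
  have hi : ∀ a b, IntervalIntegrable lt volume a b := fun a b => cl.intervalIntegrable a b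
  have nn : ∀ {a b : ℝ}, a ≤ b → 0 ≤ ∫ t in a..b, lt t := fun h => integral_nonneg h fun t _ => l0 t
  have key := cut_le (φ := fun n => ∑ j, c j * x n j) (a := fun i => ∫ t in (i : ℝ)..(i + 2), lt t)
    hC hK hK' (fun n => nn (by linarith)) hg (fun n => by
      rw [← int_lin c hx hv]
      push_cast
      have := integral_mono_on (μ := volume) (show (n : ℝ) ≤ n + 1 by linarith)
        ((lin_cont c hv).intervalIntegrable _ _)
        (g := fun t => K' * (1 + lt t))
        ((continuous_const.mul (continuous_const.add cl)).intervalIntegrable _ _)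
        fun t _ => hl (x t) (v t) (τ t) (u t)
      rw [integral_const_mul, integral_add (by simp) (hi _ _), intervalIntegral.integral_const]
        at this
      simp only [add_sub_cancel_left, smul_eq_mul, one_mul] at this
      have e := integral_add_adjacent_intervals (hi n (n + 1)) (hi (n + 1) (n + 2))
      have := nn (show (n : ℝ) + 1 ≤ n + 2 by linarith)
      nlinarith) N 0 (Nat.zero_le N)
  have tele : ∀ N : ℕ, ∑ i ∈ Finset.Ico 0 N, ∫ t in (i : ℝ)..(i + 2), lt t =
      (∫ t in (0 : ℝ)..N, lt t) + ∫ t in (1 : ℝ)..(N + 1), lt t := fun N => by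
    induction N with
    | zero => simp
    | succ N ih =>
      rw [Finset.sum_Ico_succ_top (Nat.zero_le N), ih]
      push_cast
      rw [← integral_add_adjacent_intervals (hi N (N + 1)) (hi (N + 1) (N + 2)),
        ← integral_add_adjacent_intervals (hi 0 N) (hi N (N + 1)),
        ← integral_add_adjacent_intervals (hi 1 (N + 1)) (hi (N + 1) (N + 1 + 1)),
        show (N : ℝ) + 1 + 1 = N + 2 by ring]
      ring
  have N0 : (0 : ℝ) ≤ N := Nat.cast_nonneg N
  have e1 := integral_add_adjacent_intervals (hi 0 N) (hi N (N + 1))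
  have e2 := integral_add_adjacent_intervals (hi 0 1) (hi 1 (N + 1))
  have b1 := nn (show (N : ℝ) ≤ N + 1 by linarith)
  have b2 := nn (show (0 : ℝ) ≤ 1 by norm_num)
  have b3 := nn (show (0 : ℝ) ≤ N + 1 by linarith)
  have h9 : 0 ≤ K + 8 * C + 9 * K' := by positivity
  rw [tele] at key
  simp only [Nat.cast_zero] at key
  nlinarith [mul_nonneg h9 b1, mul_nonneg h9 b2]

end Box

end Pool.Agent.Lib.MP_ce3247_an
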