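import Pool.Agent.Lib.MP_ce3247_an.Sm.Main
import Pool.Agent.Lib.MP_ce3247_an.RmBox

/-! The time-periodic data given by the stack machine. -/

open MeasureTheory Filter Topology Set
open scoped ContDiff

namespace Pool.Agent.Lib.MP_ce3247_an.Sm

variable {d : ℕ}

/-- The field and the potential of smooth data. -/
def Dat.box (D : Dat d) : Box d :=
  ⟨D.X, D.P, contDiff_infty.1 D.X_smooth, contDiff_infty.1 D.P_smooth, D.X_per, D.P_per, D.P_nonneg⟩

theorem Sys.exists_orbits {α : Type} [Fintype α] (S : Sys d α) (h2 : ∀ b, 2 ≤ S.len b) {a : α}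
    (ha : S.w a 0 = a) {F : E d}
    (hF : Tendsto (fun n => ((S.ks (fun _ => 1) n a : ℕ) : ℝ)⁻¹ • ic (S.ks S.e n a)) atTop (𝓝 F)) :
    ∃ (D : Dat d) (s₀ : ℝ), S.G.Fit D.X D.P ∧ 0 < s₀ ∧ D.box.Rot (s₀ • F) ∧ D.box.Rot 0 := by
  obtain ⟨X, hX, hX1, hX2, hX3⟩ := S.G.exists_field
  obtain ⟨P, hP, hP1, hP2, hP3, hP4⟩ := S.G.exists_pot
  have fit : S.G.Fit X P := ⟨hX1, hP1, hX2, hX3, hP3, hP4⟩
  obtain ⟨x, x₀, k1, k2, k3, k4⟩ := Pre.exists_orbit (e := S.e) S.p_le h2 ha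
  obtain ⟨γ, g1, g2, g3⟩ := Sys.curve_of_orbit fit k1 (Pre.it_succ x)
  obtain ⟨γ₀, g4, g5, g6⟩ := Sys.curve_of_orbit fit (β := fun _ => .inr (.inl a))
    (x := fun _ => x₀) (fun _ => k3) fun _ => k4.symm
  set T : ℕ → ℕ := fun n => S.tm n a - n with hT
  set N : ℕ → ℕ := fun n => S.ks (fun _ => 1) n a with hN
  have t1 : ∀ n, N n ≤ T n := fun n => Nat.le_sub_of_add_le (Pre.tm_ge n a)
  have t2 : ∀ n, T n ≤ 4 * N n := fun n => by
    have := (Pre.tm_le h2 n a).1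
    simp only [hT, hN]
    omega
  have t3 : ∀ n, n + 1 ≤ N n := fun n => (Pre.tm_le h2 n a).2
  have t4 : ∀ n, (0 : ℝ) < N n := fun n => by exact_mod_cast (Nat.succ_pos n).trans_le (t3 n)
  have t5 : ∀ n, (0 : ℝ) < T n := fun n => (t4 n).trans_le (by exact_mod_cast t1 n)
  obtain ⟨s₀, hs, φ, hφ, hl⟩ := (isCompact_Icc (a := (1 / 4 : ℝ)) (b := 1)).tendsto_subseq
    (x := fun n => (N n : ℝ) / T n) fun n =>
      ⟨by rw [le_div_iff₀ (t5 n)]; linarith [show (T n : ℝ) ≤ 4 * N n by exact_mod_cast t2 n],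
        by rw [div_le_one (t5 n)]; exact_mod_cast t1 n⟩
  have r1 := rot_of (γ := γ) (h := s₀ • F) (T := fun n => T (φ n))
    (tendsto_atTop_mono (fun n => by linarith [t1 (φ n), t3 (φ n)]) hφ.tendsto_atTop)
    (z := fun n => ic (S.ks S.e (φ n) a)) (fun n => by rw [← k2]; exact g3 _)
    ((hl.smul (hF.comp hφ.tendsto_atTop)).congr fun n => by
      have := (t4 (φ n)).ne'
      simp only [Function.comp, smul_smul]
      congr 1
      change (N (φ n) : ℝ) / T (φ n) * (N (φ n) : ℝ)⁻¹ = _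
      field_simp)
  have r2 := rot_of (γ := γ₀) (h := 0) (T := id) tendsto_id
    (z := fun _ => 0) (fun n => by simpa [Pre.em, ic_zero] using g6 n) (by simp)
  exact ⟨⟨X, P, γ, s₀ • F, hX, hP, hX1, hP1, hP2, g1, g2, r1⟩, s₀, fit, by linarith [hs.1],
    ⟨γ, g1, g2, r1⟩, γ₀, g4, g5, r2⟩

theorem exists_box {k d j : ℕ} (hk : j < k) (hkd : k ≤ d) (hd : (k - j) * d < j * (d - 2)) :
    ∃ (B : Box d) (f : E d) (c : Fin (d - j) → E d), B.Rot f ∧ B.Rot 0 ∧
      (∀ j : Fin d, k ≤ j.val → f j = 0) ∧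
      (∀ q : Fin d → ℤ, ∑ j, (q j : ℝ) * f j = 0 → ∀ j : Fin d, j.val < k → q j = 0) ∧
      LinearIndependent ℝ c ∧ (∀ i, ∑ j, c i j * f j = 0) ∧ ∀ i, B.Pay (c i) := by
  obtain ⟨k, rfl⟩ : ∃ n, k = n + 1 := ⟨k - 1, by omega⟩
  have hj0 : j ≠ 0 := by
    rintro rfl
    simp at hd
  have hd2 : d - 2 ≠ 0 := fun h => by simp [h] at hd
  obtain ⟨m, rfl⟩ : ∃ n, d = n + 2 := ⟨d - 2, by omega⟩
  set e : Fin (k + 1) → Fin (m + 2) → ℤ := fun a => Pi.single (Fin.castLE hkd a) 1 with he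
  obtain ⟨S, c, f, lam, Lm, e1, h2, hw, hlen, left, hL, small, ci, orth, ind, hF⟩ :=
    exists_sys (k := k) (m := m) (s := k + 1 - j) (by omega) (by omega)
      (by rwa [Nat.sub_sub_self hk.le]) e
  set F := ∑ a, f a • ic (e a) with hFd
  have dot : ∀ (l : E (m + 2)) a, ∑ j, l j * (e a j : ℝ) = l (Fin.castLE hkd a) := fun l a => by
    simp [he, Pi.single_apply]
  have dotF : ∀ l : E (m + 2), ∑ j, l j * F j = ∑ a, l (Fin.castLE hkd a) * f a := fun l => by
    simp only [hFd, Finset.sum_apply, Pi.smul_apply, smul_eq_mul, Finset.mul_sum, ← dot, ic,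
      Finset.sum_mul]
    rw [Finset.sum_comm]
    exact Finset.sum_congr rfl fun a _ => Finset.sum_congr rfl fun j _ => by ring
  obtain ⟨D, s, fit, s1, r1, r2⟩ := S.exists_orbits h2 hw (e1.symm ▸ hF)
  have sm : ∀ l : E (m + 2), ∑ j, l j * (s • F) j = s * ∑ j, l j * F j := fun l => by
    rw [Finset.mul_sum]
    exact Finset.sum_congr rfl fun j _ => by simp only [Pi.smul_apply, smul_eq_mul]; ring
  obtain ⟨l, σ, hl1, hl2⟩ := exists_ext (j := j) hkd (by omega) (by omega) ci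
  choose ε C hε hC using fun i => Sys.curve_bound fit 0 hlen (left (σ i)) hL (small _) (l := l i)
    fun a => by rw [e1, dot, hl1]
  refine ⟨D.box, s • F, fun i => ε i • l i, r1, r2, fun j hj => ?_, fun q hq j hj => ?_,
    hl2 ε hε, fun i => ?_,
    fun i => ⟨C i, fun x v hx hv N => ?_⟩⟩
  · have := dotF (Pi.single j 1)
    simp only [Pi.single_apply, ite_mul, one_mul, zero_mul, Finset.sum_ite_eq', Finset.mem_univ,
      if_true] at this
    rw [Pi.smul_apply, this, Finset.sum_eq_zero fun a _ => if_neg fun h => by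
      have := congrArg Fin.val h
      have := a.2
      simp only [Fin.val_castLE] at *
      omega, smul_zero]
  · rw [sm fun j => q j, mul_eq_zero, or_iff_right s1.ne', dotF fun j => q j] at hq
    exact congrFun (ind (fun a => q (Fin.castLE hkd a)) hq) ⟨j, hj⟩
  · rw [sm, dotF]
    simp only [Pi.smul_apply, smul_eq_mul, hl1, mul_assoc, ← Finset.mul_sum, orth, mul_zero]
  · have := hC i x v ⟨hx, hv⟩ N
    simp only [Dat.lag, Dat.Lag_proj] at this
    exact this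

end Pool.Agent.Lib.MP_ce3247_an.Sm
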