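import Pool.Agent.Lib.MP_ce3247_an.Lag
import Pool.Agent.Lib.MP_ce3247_an.Per
import Pool.Agent.Lib.MP_7dd29b_gt.AbsFlow

/-! Smooth Riemannian metrics on the torus as Tonelli Lagrangians: the geodesic flow. -/

open MeasureTheory Filter Topology

namespace Pool.Agent.Lib.MP_ce3247_an

variable {n : ℕ}

/-- A smooth periodic field of positive definite symmetric bilinear forms. -/
structure Met (n : ℕ) where
  a : E n → E n →L[ℝ] E n →L[ℝ] ℝ
  smooth : ∀ r : ℕ, ContDiff ℝ r a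
  per : ∀ (z : Fin n → ℤ) x, a (x + ic z) = a x
  symm : ∀ x v w, a x v w = a x w v
  coer : ∃ m : ℝ, 0 < m ∧ ∀ x v, m * ‖v‖ ^ 2 ≤ a x v v

namespace Met

open Pool.Agent.Lib.MP_7dd29b_gt

variable (M : Met n)

/-- The metric on the torus. -/
noncomputable def g (x : Tor n) : E n →L[ℝ] E n →L[ℝ] ℝ := M.a fun i => rep (x i)

/-- The kinetic energy. -/
noncomputable def Lag (z : Phase n) : ℝ := M.g z.1 z.2.1 z.2.1 / 2

/-- From momenta to velocities. -/
noncomputable def b (x : E n) : (E n →L[ℝ] ℝ) →L[ℝ] E n := (M.a x).inverse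

/-- The derivative of the kinetic energy in the base direction. -/
noncomputable def D (x v : E n) : E n →L[ℝ] ℝ := fderiv ℝ (fun y => M.a y v v / 2) x

/-- The geodesic field in the coordinates `(x, p, t)`. -/
noncomputable def G (z : E n × (E n →L[ℝ] ℝ) × ℝ) : E n × (E n →L[ℝ] ℝ) × ℝ :=
  (M.b z.1 z.2.1, M.D z.1 (M.b z.1 z.2.1), 1)

lemma Lag_proj (x v : E n) (t : ℝ) : M.Lag (proj x v t) = M.a x v v / 2 := by
  obtain ⟨z, m, e⟩ := sec_proj x v t
  have e1 : (fun i => rep ((proj x v t).1 i)) = x + ic z := congrArg Prod.fst e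
  rw [Lag, g, e1, M.per]
  rfl

lemma pos (x : E n) {v : E n} (hv : v ≠ 0) : 0 < M.a x v v := by
  obtain ⟨m, hm, h⟩ := M.coer
  exact (mul_pos hm (pow_pos (norm_pos_iff.2 hv) 2)).trans_le (h x v)

lemma inv (x : E n) : (M.a x).IsInvertible := by
  have hi : Function.Injective (M.a x : E n →ₗ[ℝ] E n →L[ℝ] ℝ) := by
    rw [injective_iff_map_eq_zero]
    intro v hv
    by_contra h
    have := M.pos x h
    have e : M.a x v = 0 := hv
    simp [e] at this
  have hd : Module.finrank ℝ (E n) = Module.finrank ℝ (E n →L[ℝ] ℝ) := by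
    rw [← (LinearMap.toContinuousLinearMap (𝕜 := ℝ) (E := E n) (F' := ℝ)).finrank_eq]
    exact Subspace.dual_finrank_eq.symm
  exact ⟨(LinearMap.linearEquivOfInjective _ hi hd).toContinuousLinearEquiv, by ext; rfl⟩

lemma a_b (x : E n) (p : E n →L[ℝ] ℝ) : M.a x (M.b x p) = p := (M.inv x).self_apply_inverse p

lemma b_a (x v : E n) : M.b x (M.a x v) = v := (M.inv x).inverse_apply_self v

lemma b_smooth (r : ℕ) : ContDiff ℝ r M.b := contDiff_iff_contDiffAt.2 fun x =>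
  (M.inv x).contDiffAt_map_inverse.comp x (M.smooth r).contDiffAt

lemma kin_smooth (r : ℕ) : ContDiff ℝ r fun z : E n × E n => M.a z.1 z.2 z.2 / 2 :=
  ((((M.smooth r).comp contDiff_fst).clm_apply contDiff_snd).clm_apply contDiff_snd).div_const 2

lemma Lag_smooth (r : ℕ) :
    ContDiff ℝ r fun z : E n × E n × ℝ => M.Lag (proj z.1 z.2.1 z.2.2) := by
  simp only [Lag_proj]
  exact (M.kin_smooth r).comp (contDiff_fst.prodMk contDiff_snd.fst)

lemma Lag_cont : Continuous M.Lag :=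
  isOpenQuotientMap_proj.isQuotientMap.continuous_iff.2 (M.Lag_smooth 0).continuous

lemma fderiv_v (x v : E n) : fderiv ℝ (fun u => M.a x u u / 2) v = M.a x v := by
  have h := (((M.a x).hasFDerivAt (x := v)).clm_apply (hasFDerivAt_id v)).const_mul (1 / 2 : ℝ)
  have e : (fun u => M.a x u u / 2) = fun u => (1 / 2 : ℝ) * M.a x u (id u) := by
    funext u; simp only [id]; ring
  rw [e, h.fderiv]
  ext w
  simp [M.symm x _ v]
  ring

lemma Lag_convex (x v : E n) (t : ℝ) (w : E n) (hw : w ≠ 0) :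
    0 < iteratedFDeriv ℝ 2 (fun u => M.Lag (proj x u t)) v ![w, w] := by
  simp only [Lag_proj]
  rw [iteratedFDeriv_two_apply, funext (M.fderiv_v x), (M.a x).fderiv]
  exact M.pos x hw

lemma Lag_super (x : E n) (t : ℝ) :
    Tendsto (fun v => M.Lag (proj x v t) / ‖v‖) (cocompact (E n)) atTop := by
  obtain ⟨m, hm, H⟩ := M.coer
  have h : Tendsto (fun v : E n => ‖v‖) (cocompact (E n)) atTop := tendsto_norm_cocompact_atTop
  refine tendsto_atTop_mono' _ ?_ (h.const_mul_atTop (half_pos hm))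
  filter_upwards [h.eventually_gt_atTop 0] with v hv
  rw [le_div_iff₀ hv, Lag_proj]
  nlinarith [H x v]

lemma isEL_iff (t₀ : ℝ) (x v : ℝ → E n) : IsEL M.Lag t₀ x v ↔ ∀ s,
    HasDerivAt (fun σ => (x σ, M.a (x σ) (v σ), t₀ + σ))
      (M.G (x s, M.a (x s) (v s), t₀ + s)) s := by
  refine forall_congr' fun s => ?_
  simp only [Lag_proj, fderiv_v, G, b_a]
  constructor
  · rintro ⟨h1, h2⟩
    exact h1.prodMk (h2.prodMk ((hasDerivAt_id s).const_add t₀))
  · intro h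
    exact ⟨h.fst, h.snd.fst⟩

lemma vel_smooth (r : ℕ) : ContDiff ℝ r fun z : E n × (E n →L[ℝ] ℝ) × ℝ => M.b z.1 z.2.1 :=
  ((M.b_smooth r).comp contDiff_fst).clm_apply contDiff_snd.fst

lemma G_smooth : ContDiff ℝ 1 M.G := by
  refine (M.vel_smooth 1).prodMk (ContDiff.prodMk ?_ contDiff_const)
  refine ContDiff.fderiv (m := (2 : ℕ))
    (f := fun (z : E n × (E n →L[ℝ] ℝ) × ℝ) y => M.a y (M.b z.1 z.2.1) (M.b z.1 z.2.1) / 2)
    ?_ contDiff_fst (by norm_num)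
  exact (M.kin_smooth 2).comp (contDiff_snd.prodMk ((M.vel_smooth 2).comp contDiff_fst))

lemma b_per (z : Fin n → ℤ) (x : E n) : M.b (x + ic z) = M.b x := by rw [b, M.per, b]

lemma G_per (z : Fin n → ℤ) (m : ℤ) (x : E n) (p : E n →L[ℝ] ℝ) (t : ℝ) :
    M.G (x + ic z, p, t + m) = M.G (x, p, t) := by
  have h : ∀ v, M.D (x + ic z) v = M.D x v := fun v => by
    rw [D, ← fderiv_comp_add_right]
    simp only [M.per, D]
  simp only [G, b_per, h]

lemma d1 {γ : ℝ → E n × (E n →L[ℝ] ℝ) × ℝ} {s : ℝ} (h : HasDerivAt γ (M.G (γ s)) s) :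
    HasDerivAt (fun σ => (γ σ).1) (M.b (γ s).1 (γ s).2.1) s := by
  have := (ContinuousLinearMap.fst ℝ _ _).hasFDerivAt.comp_hasDerivAt s h
  exact this

lemma d2 {γ : ℝ → E n × (E n →L[ℝ] ℝ) × ℝ} {s : ℝ} (h : HasDerivAt γ (M.G (γ s)) s) :
    HasDerivAt (fun σ => (γ σ).2.1) (M.D (γ s).1 (M.b (γ s).1 (γ s).2.1)) s := by
  have := (ContinuousLinearMap.fst ℝ _ _).hasFDerivAt.comp_hasDerivAt s
    ((ContinuousLinearMap.snd ℝ _ _).hasFDerivAt.comp_hasDerivAt s h)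
  exact this

lemma d3 {γ : ℝ → E n × (E n →L[ℝ] ℝ) × ℝ} {s : ℝ} (h : HasDerivAt γ (M.G (γ s)) s) :
    HasDerivAt (fun σ => (γ σ).2.2) 1 s := by
  have := (ContinuousLinearMap.snd ℝ _ _).hasFDerivAt.comp_hasDerivAt s
    ((ContinuousLinearMap.snd ℝ _ _).hasFDerivAt.comp_hasDerivAt s h)
  exact this

/-- Conservation of energy. -/
lemma energy {γ : ℝ → E n × (E n →L[ℝ] ℝ) × ℝ} {s : ℝ} (h : HasDerivAt γ (M.G (γ s)) s) :
    HasDerivAt (fun σ => (γ σ).2.1 (M.b (γ σ).1 (γ σ).2.1)) 0 s := by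
  have hx := M.d1 h
  have hp := M.d2 h
  have hv := (((M.vel_smooth 1).differentiable (by simp) (γ s)).hasFDerivAt.comp_hasDerivAt s h)
  set v' := fderiv ℝ (fun z : E n × (E n →L[ℝ] ℝ) × ℝ => M.b z.1 z.2.1) (γ s) (M.G (γ s))
  set v := M.b (γ s).1 (γ s).2.1 with hvd
  have hA := ((M.smooth 1).differentiable (by simp) (γ s).1).hasFDerivAt
  have hD : M.D (γ s).1 v v = fderiv ℝ M.a (γ s).1 v v v / 2 := by
    have := ((hA.clm_apply (hasFDerivAt_const v _)).clm_apply (hasFDerivAt_const v _)).const_mul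
      (1 / 2 : ℝ)
    have e : (fun y => M.a y v v / 2) = fun y => (1 / 2 : ℝ) * M.a y v v := by
      funext y; ring
    rw [D, e, this.fderiv]
    simp
    ring
  have h1 := hp.clm_apply hv
  have h2 := ((hA.comp_hasDerivAt s hx).clm_apply hv).clm_apply hv
  have h3 := (h1.const_mul 2).sub h2
  simp only [Function.comp_apply, a_b] at h3
  have e : (fun σ => (γ σ).2.1 (M.b (γ σ).1 (γ σ).2.1)) = (fun σ => 2 * (γ σ).2.1
      (M.b (γ σ).1 (γ σ).2.1)) - fun σ => (γ σ).2.1 (M.b (γ σ).1 (γ σ).2.1) := by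
    funext σ; simp only [Pi.sub_apply]; ring
  rw [e]
  refine h3.congr_deriv ?_
  have e2 : M.a (γ s).1 v' v = (γ s).2.1 v' := by rw [M.symm, hvd, a_b]
  simp only [← hvd, hD, add_apply, e2]
  ring

theorem exists_lift : ∃ ψ, IsFlow M.G Set.univ ψ := by
  obtain ⟨m, hm, H⟩ := M.coer
  obtain ⟨A, hA0, hA⟩ := bdd_of_per (f := fun y : E n × ℝ => M.a y.1)
    ((M.smooth 0).continuous.comp continuous_fst) fun z _ y => M.per z y.1
  refine exists_flow (fun z _ => M.G_smooth.contDiffAt) (fun z _ => ?_) (fun z0 _ T => ?_)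
  · obtain ⟨α, h0, η, hη, hα⟩ :=
      (M.G_smooth.contDiffAt (x := z)).exists_forall_mem_closedBall_exists_eq_forall_mem_Ioo_hasDerivAt₀ 0
    exact ⟨η, hη, α, h0, fun t ht => ⟨Set.mem_univ _, hα t (by simpa using ht)⟩⟩
  · have hE : Continuous fun z : E n × (E n →L[ℝ] ℝ) × ℝ => z.2.1 (M.b z.1 z.2.1) :=
      continuous_snd.fst.clm_apply (M.vel_smooth 0).continuous
    set e := z0.2.1 (M.b z0.1 z0.2.1) + 1 with he
    set R := √(e / m) with hR
    have hR0 : 0 ≤ R := Real.sqrt_nonneg _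
    refine ⟨Metric.closedBall 0 (‖z0‖ + 1 + (R + 1) * |T| + A * R), isCompact_closedBall _ _,
      Set.subset_univ _, ?_⟩
    filter_upwards [Metric.closedBall_mem_nhds z0 one_pos,
      hE.continuousAt.eventually (gt_mem_nhds (show _ < e by rw [he]; exact lt_add_one _))]
      with z hz hze T' hT' γ h0 hγ t ht
    have hz' : ‖γ 0‖ ≤ ‖z0‖ + 1 := by
      rw [h0]
      have := norm_sub_norm_le z z0
      rw [mem_closedBall_iff_norm] at hz
      linarith
    have h00 : (0 : ℝ) ∈ Set.Ioo (-T') T' := ⟨by linarith [ht.1, ht.2], by linarith [ht.1, ht.2]⟩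
    have hv : ∀ s ∈ Set.Ioo (-T') T', ‖M.b (γ s).1 (γ s).2.1‖ ≤ R := fun s hs => by
      have k := (convex_Ioo (-T') T').norm_image_sub_le_of_norm_hasDerivWithin_le (C := 0)
        (fun σ hσ => (M.energy (hγ σ hσ).2).hasDerivWithinAt) (fun _ _ => by simp) h00 hs
      rw [zero_mul, norm_le_zero_iff, sub_eq_zero, h0] at k
      have k2 := H (γ s).1 (M.b (γ s).1 (γ s).2.1)
      rw [a_b, k] at k2
      refine Real.le_sqrt_of_sq_le ?_
      rw [le_div_iff₀ hm]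
      linarith
    have ht' : ‖t - 0‖ ≤ |T| := by
      rw [sub_zero, Real.norm_eq_abs]
      exact (abs_lt.2 ht).le.trans (hT'.trans (le_abs_self T))
    have hT0 := abs_nonneg T
    have hAR := mul_nonneg hA0 hR0
    have hRT := mul_nonneg hR0 hT0
    have k1 := (convex_Ioo (-T') T').norm_image_sub_le_of_norm_hasDerivWithin_le (C := R)
      (f := fun σ => (γ σ).1) (fun σ hσ => (M.d1 (hγ σ hσ).2).hasDerivWithinAt) hv h00 ht
    have k2 := (convex_Ioo (-T') T').norm_image_sub_le_of_norm_hasDerivWithin_le (C := 1)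
      (f := fun σ => (γ σ).2.2) (f' := fun _ => (1 : ℝ))
      (fun σ hσ => (M.d3 (hγ σ hσ).2).hasDerivWithinAt)
      (fun _ _ => by simp) h00 ht
    have k3 : ‖(γ t).2.1‖ ≤ A * R := by
      rw [← M.a_b (γ t).1 (γ t).2.1]
      exact (ContinuousLinearMap.le_opNorm _ _).trans
        (mul_le_mul (hA ((γ t).1, 0)) (hv t ht) (norm_nonneg _) hA0)
    have k4 := norm_sub_norm_le (γ t).1 (γ 0).1
    have k5 := norm_sub_norm_le (γ t).2.2 (γ 0).2.2
    have k6 := norm_fst_le (γ 0)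
    have k7 := (norm_snd_le (γ 0).2).trans (norm_snd_le (γ 0))
    have k8 := mul_le_mul_of_nonneg_left ht' hR0
    have k9 := norm_nonneg z0
    rw [mem_closedBall_zero_iff, Prod.norm_def, Prod.norm_def]
    refine max_le ?_ (max_le ?_ ?_) <;> nlinarith

section aux

variable {M} {ψ : E n × (E n →L[ℝ] ℝ) × ℝ → ℝ → E n × (E n →L[ℝ] ℝ) × ℝ}

lemma uniq (hψ : IsFlow M.G Set.univ ψ) {γ : ℝ → E n × (E n →L[ℝ] ℝ) × ℝ} {a b : ℝ}
    (h0 : (0 : ℝ) ∈ Set.Ioo a b) (hγ : ∀ t ∈ Set.Ioo a b, HasDerivAt γ (M.G (γ t)) t) :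
    ∀ t ∈ Set.Ioo a b, ψ (γ 0) t = γ t :=
  ode_unique_on (fun _ _ => M.G_smooth.contDiffAt) (fun t _ => hψ.deriv _ trivial t) hγ h0
    (hψ.zero _ trivial)

lemma mem_big (t : ℝ) : (0 : ℝ) ∈ Set.Ioo (-(|t| + 1)) (|t| + 1) ∧
    t ∈ Set.Ioo (-(|t| + 1)) (|t| + 1) :=
  ⟨⟨by linarith [abs_nonneg t], by linarith [abs_nonneg t]⟩,
    ⟨by linarith [neg_abs_le t], by linarith [le_abs_self t]⟩⟩

lemma time (hψ : IsFlow M.G Set.univ ψ) (z : E n × (E n →L[ℝ] ℝ) × ℝ) (s : ℝ) :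
    (ψ z s).2.2 = z.2.2 + s := by
  have h : ∀ t, HasDerivAt (fun t => (ψ z t).2.2 - t) 0 t := fun t => by
    have h2 := (M.d3 (hψ.deriv z trivial t)).sub (hasDerivAt_id t)
    rwa [sub_self] at h2
  have := is_const_of_deriv_eq_zero (fun t => (h t).differentiableAt) (fun t => (h t).deriv) s 0
  rw [hψ.zero z trivial] at this
  linarith

lemma equiv (hψ : IsFlow M.G Set.univ ψ) (z : Fin n → ℤ) (m : ℤ) (x : E n) (p : E n →L[ℝ] ℝ)
    (t s : ℝ) : ψ (x + ic z, p, t + m) s = ψ (x, p, t) s + (ic z, 0, (m : ℝ)) := by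
  have h := uniq hψ (γ := fun s => ψ (x, p, t) s + (ic z, 0, (m : ℝ))) (mem_big s).1
    (fun s _ => by
      have h1 := M.G_per z m (ψ (x, p, t) s).1 (ψ (x, p, t) s).2.1 (ψ (x, p, t) s).2.2
      have h2 : ψ (x, p, t) s + (ic z, 0, (m : ℝ)) =
          ((ψ (x, p, t) s).1 + ic z, (ψ (x, p, t) s).2.1, (ψ (x, p, t) s).2.2 + m) :=
        Prod.ext rfl (Prod.ext (add_zero _) rfl)
      rw [h2, h1]
      exact (hψ.deriv _ trivial s).add_const _) s (mem_big s).2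
  simpa [hψ.zero _ trivial] using h

variable (M) in
/-- From the coordinates `(x, p, t)` to phase space. -/
noncomputable def dn (w : E n × (E n →L[ℝ] ℝ) × ℝ) : Phase n := proj w.1 (M.b w.1 w.2.1) w.2.2

variable (M) in
/-- From the coordinates `(x, v, t)` to the coordinates `(x, p, t)`. -/
noncomputable def up (y : E n × E n × ℝ) : E n × (E n →L[ℝ] ℝ) × ℝ :=
  (y.1, M.a y.1 y.2.1, y.2.2)

lemma dn_cont : Continuous M.dn :=
  isOpenQuotientMap_proj.continuous.comp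
    (f := fun w : E n × (E n →L[ℝ] ℝ) × ℝ => (w.1, M.b w.1 w.2.1, w.2.2))
    (continuous_fst.prodMk ((M.vel_smooth 0).continuous.prodMk continuous_snd.snd))

lemma up_cont : Continuous M.up :=
  continuous_fst.prodMk ((((M.smooth 0).continuous.comp continuous_fst).clm_apply
    continuous_snd.fst).prodMk continuous_snd.snd)

lemma dn_per (hψ : IsFlow M.G Set.univ ψ) (z : Fin n → ℤ) (m : ℤ) (x v : E n) (t s : ℝ) :
    M.dn (ψ (M.up (x + ic z, v, t + m)) s) = M.dn (ψ (M.up (x, v, t)) s) := by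
  simp only [up, M.per]
  rw [equiv hψ]
  refine (proj_eq_iff.2 ⟨z, m, rfl, ?_, rfl⟩).symm
  simp [b_per]

variable (M ψ) in
/-- The flow on phase space. -/
noncomputable def Phi (s : ℝ) (z : Phase n) : Phase n :=
  M.dn (ψ (M.up ((sec z).1, z.2.1, (sec z).2)) s)

lemma Phi_proj (hψ : IsFlow M.G Set.univ ψ) (x v : E n) (t s : ℝ) :
    M.Phi ψ s (proj x v t) = M.dn (ψ (x, M.a x v, t) s) := by
  obtain ⟨z, m, h⟩ := sec_proj x v t
  unfold Phi
  rw [h]
  exact dn_per hψ z m x v t s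

lemma Phi_cont (hψ : IsFlow M.G Set.univ ψ) :
    Continuous fun q : ℝ × Phase n => M.Phi ψ q.1 q.2 := by
  refine ((IsOpenQuotientMap.id (X := ℝ)).prodMap
    (isOpenQuotientMap_proj (d := n))).continuous_comp_iff.1 ?_
  have h1 : Continuous fun p : (E n × (E n →L[ℝ] ℝ) × ℝ) × ℝ => ψ p.1 p.2 := by
    have := hψ.cont
    rwa [Set.univ_prod_univ, continuousOn_univ] at this
  have h2 : Continuous fun q : ℝ × E n × E n × ℝ => M.dn (ψ (M.up q.2) q.1) :=
    dn_cont.comp (h1.comp ((up_cont.comp continuous_snd).prodMk continuous_fst))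
  exact h2.congr fun q => (Phi_proj hψ q.2.1 q.2.2.1 q.2.2.2 q.1).symm

lemma complete (hψ : IsFlow M.G Set.univ ψ) (x₀ v₀ : E n) (t₀ : ℝ) :
    ∃ x v, IsEL M.Lag t₀ x v ∧ x 0 = x₀ ∧ v 0 = v₀ := by
  obtain ⟨w, hw⟩ : ∃ w, w = ψ (x₀, M.a x₀ v₀, t₀) := ⟨_, rfl⟩
  have h0 : w 0 = (x₀, M.a x₀ v₀, t₀) := hw ▸ hψ.zero _ trivial
  have ht : ∀ s, t₀ + s = (w s).2.2 := fun s => by rw [hw, time hψ]
  have hd : ∀ s, HasDerivAt w (M.G (w s)) s := fun s => hw ▸ hψ.deriv _ trivial s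
  refine ⟨fun s => (w s).1, fun s => M.b (w s).1 (w s).2.1,
    (M.isEL_iff _ _ _).2 fun s => ?_, by simp [h0], by simp [h0, b_a]⟩
  simp only [a_b, ht]
  exact hd s

lemma flow_loc (hψ : IsFlow M.G Set.univ ψ) {t₀ a b : ℝ} {x v : ℝ → E n}
    (h0 : (0 : ℝ) ∈ Set.Ioo a b) (h : ∀ s ∈ Set.Ioo a b,
      HasDerivAt (fun σ => (x σ, M.a (x σ) (v σ), t₀ + σ))
        (M.G (x s, M.a (x s) (v s), t₀ + s)) s) {s : ℝ} (hs : s ∈ Set.Ioo a b) :
    M.Phi ψ s (proj (x 0) (v 0) t₀) = proj (x s) (v s) (t₀ + s) := by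
  have h1 := uniq hψ h0 h s hs
  simp only [add_zero] at h1
  rw [Phi_proj hψ, h1]
  simp [dn, b_a]

end aux

/-- The geodesic flow. -/
theorem exists_flow : ∃ Φ, (∀ r, Tonelli r M.Lag Φ) ∧
    (Continuous fun q : ℝ × Phase n => Φ q.1 q.2) ∧
    ∀ (t₀ a b : ℝ) (x v : ℝ → E n), (0 : ℝ) ∈ Set.Ioo a b →
      (∀ s ∈ Set.Ioo a b, HasDerivAt x (v s) s ∧
        HasDerivAt (fun σ => M.a (x σ) (v σ)) (M.D (x s) (v s)) s) →
      ∀ s ∈ Set.Ioo a b, Φ s (proj (x 0) (v 0) t₀) = proj (x s) (v s) (t₀ + s) := by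
  obtain ⟨ψ, hψ⟩ := M.exists_lift
  refine ⟨M.Phi ψ, fun r => ⟨M.Lag_smooth r, M.Lag_convex, M.Lag_super, complete hψ,
    fun t₀ x v h s => flow_loc hψ (mem_big s).1 (fun σ _ => (M.isEL_iff _ _ _).1 h σ)
      (mem_big s).2⟩, Phi_cont hψ, fun t₀ a b x v h0 h s hs => flow_loc hψ h0 (fun σ hσ => ?_) hs⟩
  simp only [G, b_a]
  exact (h σ hσ).1.prodMk ((h σ hσ).2.prodMk ((hasDerivAt_id σ).const_add t₀))

end Met

end Pool.Agent.Lib.MP_ce3247_an
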