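import Pool.Agent.Lib.MP_ce3247_an.Sm.Fin
import Pool.Agent.Lib.MP_ce3247_an.RmMet

/-! Closed geodesics in all integer classes: beta of a metric is a finite convex function. -/

open MeasureTheory Set Filter Topology

namespace Pool.Agent.Lib.MP_ce3247_an

variable {d : ℕ}

theorem beta_real_of {L : Phase d → ℝ} (hL : Continuous L) (hL0 : ∀ z, 0 ≤ L z)
    {Φ : ℝ → Phase d → Phase d} (hm : ∀ m : Fin d → ℤ, (Minv Φ (ic m)).Nonempty) :
    ∃ b : E d → ℝ, ConvexOn ℝ univ b ∧ ∀ h, beta L Φ h = b h := by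
  have hne : ∀ h, (Minv Φ h).Nonempty := fun h => by
    have h1 : Convex ℝ {h : E d | (Minv Φ h).Nonempty} := by
      rintro x ⟨μ, hμ⟩ y ⟨ν, hν⟩ a b ha hb hab
      obtain ⟨η, hη, -⟩ := Sm.Minv_mix hL hμ hν ha hb hab
      exact ⟨η, hη⟩
    refine convexHull_min (s := univ.pi fun _ => range fun n : ℤ => (n : ℝ)) (fun x hx => ?_) h1
      (mem_convexHull_pi fun i _ => ?_)
    · choose m hm' using fun i => hx i trivial
      obtain rfl : ic m = x := funext hm'
      exact hm m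
    · refine segment_subset_convexHull (mem_range_self ⌊h i⌋) (mem_range_self ⌈h i⌉) ?_
      rw [segment_eq_Icc ((Int.floor_le _).trans (Int.le_ceil _))]
      exact ⟨Int.floor_le _, Int.le_ceil _⟩
  have h0 : ∀ h, 0 ≤ beta L Φ h := fun h =>
    le_iInf₂ fun ν _ => EReal.coe_nonneg.2 (integral_nonneg hL0)
  have h1 : ∀ h, ((beta L Φ h).toReal : EReal) = beta L Φ h := fun h => by
    obtain ⟨μ, hμ⟩ := hne h
    exact EReal.coe_toReal ((iInf₂_le μ hμ).trans_lt (EReal.coe_lt_top _)).ne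
      (EReal.bot_lt_zero.trans_le (h0 h)).ne'
  have h2 : ∀ h, ∀ ε > 0, ∃ μ ∈ Minv Φ h, ∫ z, L z ∂μ < (beta L Φ h).toReal + ε := by
    intro h ε hε
    have a1 : beta L Φ h < (((beta L Φ h).toReal + ε : ℝ) : EReal) := by
      conv_lhs => rw [← h1 h]
      exact EReal.coe_lt_coe_iff.2 (lt_add_of_pos_right _ hε)
    obtain ⟨μ, a2⟩ := iInf_lt_iff.1 a1
    obtain ⟨hμ, a3⟩ := iInf_lt_iff.1 a2
    exact ⟨μ, hμ, EReal.coe_lt_coe_iff.1 a3⟩
  refine ⟨fun h => (beta L Φ h).toReal, ⟨convex_univ, fun x _ y _ a b ha hb hab => ?_⟩,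
    fun h => (h1 h).symm⟩
  refine le_of_forall_pos_le_add fun ε hε => ?_
  obtain ⟨μ, hμ, m1⟩ := h2 x ε hε
  obtain ⟨ν, hν, m2⟩ := h2 y ε hε
  obtain ⟨η, hη, m3⟩ := Sm.Minv_mix hL hμ hν ha hb hab
  have m4 : (beta L Φ (a • x + b • y)).toReal ≤ ∫ z, L z ∂η := by
    rw [← EReal.coe_le_coe_iff, h1]
    exact iInf₂_le η hη
  have m5 := mul_le_mul_of_nonneg_left m1.le ha
  have m6 := mul_le_mul_of_nonneg_left m2.le hb
  simp only [smul_eq_mul]
  calc _ ≤ a * ((beta L Φ x).toReal + ε) + b * ((beta L Φ y).toReal + ε) := by linarith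
    _ = _ := by linear_combination ε * hab

namespace Met

open Pool.Agent.Lib.MP_7dd29b_gt Sm

variable (M : Met d) (m : Fin d → ℤ)

theorem kin_fderiv (x v ξ u : E d) :
    fderiv ℝ (fun z : E d × E d => M.a z.1 z.2 z.2 / 2) (x, v) (ξ, u) = M.D x v ξ + M.a x v u := by
  have h := ((M.kin_smooth 1).differentiable (by simp) (x, v)).hasFDerivAt
  have h1 := (h.comp (f := fun e : E d => (e, v)) x (hasFDerivAt_prodMk_left x v)).fderiv
  have h2 := (h.comp (f := fun e : E d => (x, e)) v (hasFDerivAt_prodMk_right x v)).fderiv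
  have e : ((ξ, u) : E d × E d) = (ξ, 0) + (0, u) := by simp
  rw [e, map_add, ← M.fderiv_v x v]
  exact congrArg₂ (· + ·) (congrArg (fun l : E d →L[ℝ] ℝ => l ξ) h1).symm
    (congrArg (fun l : E d →L[ℝ] ℝ => l u) h2).symm

theorem D_bound : ∃ K : ℝ, 0 ≤ K ∧ ∀ x v, ‖M.D x v‖ ≤ K * ‖v‖ ^ 2 := by
  obtain ⟨C, hC⟩ := (isCompact_closedBall (0 : E d × E d) 1).exists_bound_of_continuousOn
    ((M.kin_smooth 1).continuous_fderiv (by simp)).continuousOn
  have hC0 : 0 ≤ C := (norm_nonneg _).trans (hC 0 (Metric.mem_closedBall_self zero_le_one))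
  have h1 : ∀ x v, ‖v‖ ≤ 1 → ‖M.D x v‖ ≤ C := fun x v hv => by
    have e : x = (fun i => Int.fract (x i)) + ic fun i => ⌊x i⌋ := funext fun i => by simp [ic]
    have e' : M.D x v = M.D (fun i => Int.fract (x i)) v := by
      conv_lhs => rw [e, D, ← fderiv_comp_add_right]
      simp only [M.per, D]
    have k : ‖fun i => Int.fract (x i)‖ ≤ 1 := (pi_norm_le_iff_of_nonneg zero_le_one).2 fun i => by
      rw [Real.norm_of_nonneg (Int.fract_nonneg _)]
      exact (Int.fract_lt_one _).le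
    rw [e']
    refine ContinuousLinearMap.opNorm_le_bound _ hC0 fun ξ => ?_
    have a1 := M.kin_fderiv (fun i => Int.fract (x i)) v ξ 0
    rw [map_zero, add_zero] at a1
    rw [← a1]
    refine (ContinuousLinearMap.le_opNorm _ _).trans (mul_le_mul (hC _ ?_) (by simp)
      (norm_nonneg _) hC0)
    rw [mem_closedBall_zero_iff, Prod.norm_def]
    exact max_le k hv
  have h2 : ∀ x v (t : ℝ), M.D x (t • v) = (t ^ 2) • M.D x v := fun x v t => by
    have a1 : HasFDerivAt (fun y => M.a y v v / 2) (M.D x v) x :=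
      (((M.kin_smooth 1).differentiable (by simp) (x, v)).comp (f := fun e : E d => (e, v)) x
        (by fun_prop)).hasFDerivAt
    have e : (fun y => M.a y (t • v) (t • v) / 2) = fun y => t ^ 2 * (M.a y v v / 2) := by
      funext y
      simp only [map_smul, smul_apply, smul_eq_mul]
      ring
    rw [D, e, (a1.const_mul (t ^ 2)).fderiv]
  refine ⟨C, hC0, fun x v => ?_⟩
  rcases eq_or_ne v 0 with rfl | hv
  · have := h2 x 0 0
    rw [zero_smul] at this
    rw [this]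
    simp
  · have h3 := norm_pos_iff.2 hv
    have h4 := h2 x (‖v‖⁻¹ • v) ‖v‖
    rw [smul_smul, mul_inv_cancel₀ h3.ne', one_smul] at h4
    rw [h4, norm_smul, Real.norm_of_nonneg (sq_nonneg _), mul_comm]
    refine mul_le_mul_of_nonneg_right (h1 _ _ ?_) (sq_nonneg _)
    rw [norm_smul, norm_inv, norm_norm, inv_mul_cancel₀ h3.ne']

section

variable {N : ℕ} [NeZero N]

/-- The position of a vertex. -/
noncomputable def qx (y : ZMod N → E d) (i : ZMod N) : E d :=
  y i + ((i.val : ℝ) * (N : ℝ)⁻¹) • ic m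

/-- The discrete velocity. -/
noncomputable def qv (y : ZMod N → E d) (i : ZMod N) : E d := (N : ℝ) • (y (i + 1) - y i) + ic m

/-- The discrete momentum. -/
noncomputable def qp (y : ZMod N → E d) (i : ZMod N) : E d →L[ℝ] ℝ := M.a (qx m y i) (qv m y i)

/-- The discrete energy. -/
noncomputable def qS (y : ZMod N → E d) : ℝ := ∑ i, M.a (qx m y i) (qv m y i) (qv m y i) / 2

theorem qS_cont : Continuous fun y : ZMod N → E d => M.qS m y := by
  refine continuous_finsetSum _ fun i _ => (M.kin_smooth 0).continuous.comp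
    (f := fun y : ZMod N → E d => (qx m y i, qv m y i)) ?_
  unfold qx qv
  fun_prop

theorem qS_shift (z : Fin d → ℤ) (y : ZMod N → E d) : M.qS m (fun i => y i + ic z) = M.qS m y := by
  have e : ∀ i, qx m (fun i => y i + ic z) i = qx m y i + ic z := fun i => by
    simp only [qx, add_right_comm]
  simp only [qS, qv, e, M.per, add_sub_add_right_eq_sub]

theorem qS_crit {y : ZMod N → E d} (h : ∀ y' : ZMod N → E d, M.qS m y ≤ M.qS m y') (j : ZMod N) :
    (N : ℝ) • (M.qp m y (j + 1) - M.qp m y j) = M.D (qx m y (j + 1)) (qv m y (j + 1)) := by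
  refine ContinuousLinearMap.ext fun w => ?_
  set η : ZMod N → E d := Pi.single (j + 1) w with hη
  have e0 : y + (0 : ℝ) • η = y := by simp
  have a1 : ∀ i, HasDerivAt (fun s : ℝ => y i + s • η i) (η i) 0 := fun i =>
    (((hasDerivAt_id (0 : ℝ)).smul_const (η i)).const_add (y i)).congr_deriv (one_smul _ _)
  have h1 : ∀ i, HasDerivAt (fun s : ℝ => (qx m (y + s • η) i, qv m (y + s • η) i))
      (η i, (N : ℝ) • (η (i + 1) - η i)) 0 := fun i =>
    ((a1 i).add_const _).prodMk ((((a1 (i + 1)).sub (a1 i)).const_smul (N : ℝ)).add_const _)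
  have h5 : HasDerivAt (fun s : ℝ => M.qS m (y + s • η))
      (∑ i, (M.D (qx m y i) (qv m y i) (η i) + M.qp m y i ((N : ℝ) • (η (i + 1) - η i)))) 0 := by
    refine HasDerivAt.fun_sum fun i _ => ?_
    have := ((M.kin_smooth 1).differentiable (by simp)
      (qx m y i, qv m y i)).hasFDerivAt.comp_hasDerivAt_of_eq 0 (h1 i) (by rw [e0])
    rw [kin_fderiv] at this
    exact this
  have h6 : IsLocalMin (fun s : ℝ => M.qS m (y + s • η)) 0 :=
    Eventually.of_forall fun s => by simpa only [e0] using h (y + s • η)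
  have h7 := h6.hasDerivAt_eq_zero h5
  have s1 : ∑ i, M.qp m y i (η (i + 1)) = M.qp m y j w := by
    rw [Finset.sum_eq_single j (fun i _ hi => by
      simp [hη, Pi.single_eq_of_ne (fun h => hi (add_right_cancel h) : i + 1 ≠ j + 1)]) (by simp)]
    simp [hη]
  have s2 : ∀ f : ZMod N → E d →L[ℝ] ℝ, ∑ i, f i (η i) = f (j + 1) w := fun f => by
    rw [Finset.sum_eq_single (j + 1) (fun i _ hi => by simp [hη, Pi.single_eq_of_ne hi]) (by simp)]
    simp [hη]
  simp only [map_smul, map_sub, smul_eq_mul, Finset.sum_add_distrib, ← Finset.mul_sum,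
    Finset.sum_sub_distrib] at h7
  rw [s1, s2 (M.qp m y), s2 fun i => M.D (qx m y i) (qv m y i)] at h7
  simp only [smul_apply, sub_apply, smul_eq_mul]
  linarith

end

theorem qS_bound : ∃ A : ℝ, 0 ≤ A ∧ ∀ (N : ℕ) [NeZero N] (y : ZMod N → E d),
    M.qS m y ≤ M.qS m (0 : ZMod N → E d) → ∑ i, ‖qv m y i‖ ^ 2 ≤ N * A ∧
      ∑ i, ‖M.qp m y i‖ ≤ N * A ∧ ∀ i, ‖y i - y 0‖ ≤ A := by
  obtain ⟨μ, hμ, H⟩ := M.coer
  obtain ⟨C, hC0, hC⟩ := bdd_of_per (f := fun y : E d × ℝ => M.a y.1)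
    ((M.smooth 0).continuous.comp continuous_fst) fun z _ y => M.per z y.1
  set Q : ℝ := C * ‖ic m‖ ^ 2 / μ with hQ
  have hQ0 : 0 ≤ Q := by positivity
  have hm0 := norm_nonneg (ic m)
  have hCQ : 0 ≤ C * (1 + Q) := by positivity
  refine ⟨1 + Q + ‖ic m‖ + C * (1 + Q), by positivity, fun N _ y hy => ?_⟩
  have hN : (0 : ℝ) < N := by exact_mod_cast NeZero.pos N
  have a1 : M.qS m (0 : ZMod N → E d) ≤ N * (C * ‖ic m‖ ^ 2 / 2) := by
    refine (Finset.sum_le_card_nsmul _ _ (C * ‖ic m‖ ^ 2 / 2) fun i _ => ?_).trans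
      (by rw [Finset.card_univ, ZMod.card, nsmul_eq_mul])
    have e : qv m (0 : ZMod N → E d) i = ic m := by simp [qv]
    rw [e]
    have b1 := (le_abs_self _).trans ((M.a (qx m (0 : ZMod N → E d) i)).le_opNorm₂ (ic m) (ic m))
    have b2 := mul_le_mul_of_nonneg_right (hC (qx m (0 : ZMod N → E d) i, 0)) (sq_nonneg ‖ic m‖)
    nlinarith
  have a2 : ∑ i, ‖qv m y i‖ ^ 2 ≤ N * Q := by
    refine le_of_mul_le_mul_left ?_ hμ
    calc μ * ∑ i, ‖qv m y i‖ ^ 2 ≤ 2 * M.qS m y := by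
          rw [qS, Finset.mul_sum, Finset.mul_sum]
          exact Finset.sum_le_sum fun i _ => by linarith [H (qx m y i) (qv m y i)]
      _ ≤ N * (C * ‖ic m‖ ^ 2) := by linarith
      _ = μ * (N * Q) := by
          rw [hQ]
          field_simp
  have a3 : ∑ i, ‖qv m y i‖ ≤ N * (1 + Q) := by
    calc ∑ i, ‖qv m y i‖ ≤ ∑ i, (1 + ‖qv m y i‖ ^ 2) := Finset.sum_le_sum fun i _ => by
          nlinarith [sq_nonneg (‖qv m y i‖ - 1), norm_nonneg (qv m y i)]
      _ ≤ _ := by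
          rw [Finset.sum_add_distrib]
          simp only [Finset.sum_const, Finset.card_univ, ZMod.card, nsmul_eq_mul]
          linarith
  refine ⟨a2.trans (mul_le_mul_of_nonneg_left (by linarith) hN.le), ?_,
    fun i => (cyc_var y i).trans ?_⟩
  · calc ∑ i, ‖M.qp m y i‖ ≤ ∑ i, C * ‖qv m y i‖ := Finset.sum_le_sum fun i _ =>
          (ContinuousLinearMap.le_opNorm _ _).trans
            (mul_le_mul_of_nonneg_right (hC (qx m y i, 0)) (norm_nonneg _))
      _ ≤ C * (N * (1 + Q)) := by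
          rw [← Finset.mul_sum]
          exact mul_le_mul_of_nonneg_left a3 hC0
      _ = N * (C * (1 + Q)) := by ring
      _ ≤ _ := mul_le_mul_of_nonneg_left (by linarith) hN.le
  refine le_of_mul_le_mul_left ?_ hN
  calc N * ∑ i, ‖y (i + 1) - y i‖ = ∑ i, ‖qv m y i - ic m‖ := by
        rw [Finset.mul_sum]
        refine Finset.sum_congr rfl fun i _ => ?_
        rw [qv, add_sub_cancel_right, norm_smul, Real.norm_of_nonneg hN.le]
    _ ≤ ∑ i, (‖qv m y i‖ + ‖ic m‖) := Finset.sum_le_sum fun i _ => norm_sub_le _ _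
    _ ≤ N * (1 + Q + ‖ic m‖) := by
        rw [Finset.sum_add_distrib]
        simp only [Finset.sum_const, Finset.card_univ, ZMod.card, nsmul_eq_mul]
        linarith
    _ ≤ _ := mul_le_mul_of_nonneg_left (by linarith) hN.le

theorem exists_poly : ∃ R : ℝ, ∀ N : ℕ, 0 < N → ∃ z : ℕ → E d × (E d →L[ℝ] ℝ) × ℝ,
    z 0 ∈ univ ∧ z N = z 0 + (ic m, 0, 1) ∧ (∀ n ≤ N, ‖z n‖ ≤ R) ∧
      ∀ n < N, ‖z (n + 1) - z n - (N : ℝ)⁻¹ • M.G (z n)‖ ≤
        (N : ℝ)⁻¹ * ‖M.G (z (n + 1)) - M.G (z n)‖ := by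
  obtain ⟨A, hA, hb⟩ := M.qS_bound m
  obtain ⟨K, hK, hG⟩ := M.D_bound
  refine ⟨1 + A + ‖ic m‖ + (A + 2 * (K * A)), fun N hN => ?_⟩
  have : NeZero N := ⟨hN.ne'⟩
  have hN' : (0 : ℝ) < N := by exact_mod_cast hN
  obtain ⟨y, hy, hmin⟩ := (isCompact_closedBall (0 : ZMod N → E d) (1 + A)).exists_isMinOn
    ⟨0, Metric.mem_closedBall_self (by positivity)⟩ (M.qS_cont m).continuousOn
  have h0 : M.qS m y ≤ M.qS m (0 : ZMod N → E d) :=
    hmin (Metric.mem_closedBall_self (by positivity))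
  have hall : ∀ y' : ZMod N → E d, M.qS m y ≤ M.qS m y' := fun y' => by
    rw [← M.qS_shift m (fun k => -⌊y' 0 k⌋) y']
    refine le_of_not_gt fun hlt => hlt.not_ge (hmin ?_)
    have b1 := (hb N _ (hlt.le.trans h0)).2.2
    have b2 : ‖y' 0 + ic fun k => -⌊y' 0 k⌋‖ ≤ 1 :=
      (pi_norm_le_iff_of_nonneg zero_le_one).2 fun k => by
        have e : (y' 0 + ic fun k => -⌊y' 0 k⌋) k = Int.fract (y' 0 k) := by
          simp [ic, Int.fract, sub_eq_add_neg]
        rw [e, Real.norm_of_nonneg (Int.fract_nonneg _)]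
        exact (Int.fract_lt_one _).le
    refine mem_closedBall_zero_iff.2 ((pi_norm_le_iff_of_nonneg (by positivity)).2 fun i => ?_)
    have b3 := norm_add_le (y' i + ic (fun k => -⌊y' 0 k⌋) - (y' 0 + ic fun k => -⌊y' 0 k⌋))
      (y' 0 + ic fun k => -⌊y' 0 k⌋)
    rw [sub_add_cancel] at b3
    linarith [b1 i]
  obtain ⟨c0, c1, -⟩ := hb N y h0
  have c2 : ∑ i, ‖M.qp m y (i + 1) - M.qp m y i‖ ≤ K * A := by
    refine le_of_mul_le_mul_left ?_ hN'
    calc N * ∑ i, ‖M.qp m y (i + 1) - M.qp m y i‖ ≤ ∑ i, K * ‖qv m y (i + 1)‖ ^ 2 := by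
          rw [Finset.mul_sum]
          refine Finset.sum_le_sum fun i _ => ?_
          rw [← Real.norm_of_nonneg hN'.le, ← norm_smul, M.qS_crit m hall i]
          exact hG _ _
      _ = K * ∑ i, ‖qv m y i‖ ^ 2 := by
          rw [← Finset.mul_sum, show ∑ i, ‖qv m y (i + 1)‖ ^ 2 = _ from
            Equiv.sum_comp (Equiv.addRight (1 : ZMod N)) fun i => ‖qv m y i‖ ^ 2]
      _ ≤ _ := by nlinarith
  have c3 : ∀ i, ‖M.qp m y i - M.qp m y 0‖ ≤ K * A := fun i => (cyc_var _ i).trans c2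
  have c4 : ‖M.qp m y 0‖ ≤ A + K * A := by
    refine le_of_mul_le_mul_left ?_ hN'
    calc N * ‖M.qp m y 0‖ = ∑ _i : ZMod N, ‖M.qp m y 0‖ := by simp
      _ ≤ ∑ i, (‖M.qp m y i‖ + K * A) := Finset.sum_le_sum fun i _ => by
          linarith [c3 i, norm_sub_norm_le (M.qp m y 0) (M.qp m y i),
            norm_sub_rev (M.qp m y 0) (M.qp m y i)]
      _ ≤ _ := by
          rw [Finset.sum_add_distrib]
          simp only [Finset.sum_const, Finset.card_univ, ZMod.card, nsmul_eq_mul]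
          linarith
  have c5 : ∀ i, ‖M.qp m y i‖ ≤ A + 2 * (K * A) := fun i => by
    linarith [c3 i, norm_sub_norm_le (M.qp m y i) (M.qp m y 0)]
  have hinv : (N : ℝ) * (N : ℝ)⁻¹ = 1 := mul_inv_cancel₀ hN'.ne'
  set z : ℕ → E d × (E d →L[ℝ] ℝ) × ℝ := fun n =>
    (y n + ((n : ℝ) * (N : ℝ)⁻¹) • ic m, M.qp m y n, (n : ℝ) * (N : ℝ)⁻¹) with hz
  have zN : z N = z 0 + (ic m, 0, 1) := by simp [hz, hinv]
  have zG : ∀ n ≤ N, M.G (z n) = (qv m y n, M.D (qx m y n) (qv m y n), 1) := fun n hn => by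
    have e : ∀ i t, M.G (qx m y i, M.qp m y i, t) = (qv m y i, M.D (qx m y i) (qv m y i), 1) :=
      fun i t => by simp only [G, qp, b_a]
    rcases hn.eq_or_lt with rfl | hn
    · rw [← e _ 0]
      have := M.G_per m 1 (y 0) (M.qp m y 0) 0
      simpa [hz, hinv, qx] using this
    · rw [← e _ ((n : ℝ) * (N : ℝ)⁻¹)]
      simp only [hz, qx, ZMod.val_cast_of_lt hn]
  refine ⟨z, trivial, zN, fun n hn => ?_, fun n hn => ?_⟩
  · have t0 : 0 ≤ (n : ℝ) * (N : ℝ)⁻¹ := by positivity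
    have t1 : (n : ℝ) * (N : ℝ)⁻¹ ≤ 1 :=
      (mul_le_mul_of_nonneg_right (by exact_mod_cast hn) (by positivity)).trans hinv.le
    have y1 : ‖y n‖ ≤ 1 + A := (norm_le_pi_norm y _).trans (mem_closedBall_zero_iff.1 hy)
    have y2 := norm_add_le (y n) (((n : ℝ) * (N : ℝ)⁻¹) • ic m)
    rw [norm_smul, Real.norm_of_nonneg t0] at y2
    have y3 := mul_le_mul_of_nonneg_right t1 (norm_nonneg (ic m))
    have y4 : 0 ≤ K * A := by positivity
    have y5 := norm_nonneg (ic m)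
    simp only [hz, Prod.norm_def, Real.norm_of_nonneg t0]
    exact max_le (by linarith) (max_le (by linarith [c5 n]) (by linarith))
  · have e2 : (M.G (z (n + 1))).2.1 = (N : ℝ) • (M.qp m y (n + 1) - M.qp m y n) := by
      rw [zG (n + 1) hn, M.qS_crit m hall n, Nat.cast_add_one]
    have e : z (n + 1) - z n - (N : ℝ)⁻¹ • M.G (z n) =
        (N : ℝ)⁻¹ • (0, (M.G (z (n + 1)) - M.G (z n)).2.1, 0) := by
      refine Prod.ext ?_ (Prod.ext ?_ ?_)
      · simp only [Prod.fst_sub, Prod.smul_fst, zG n hn.le, smul_zero, qv]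
        simp only [hz, Nat.cast_add_one, smul_add, smul_smul, inv_mul_cancel₀ hN'.ne', one_smul,
          add_mul, one_mul, add_smul]
        abel
      · simp only [Prod.fst_sub, Prod.snd_sub, Prod.smul_fst, Prod.smul_snd, e2, smul_sub]
        simp only [hz, Nat.cast_add_one, smul_smul, inv_mul_cancel₀ hN'.ne', one_smul]
      · simp only [Prod.snd_sub, Prod.smul_snd, zG n hn.le, smul_zero]
        simp only [hz, Nat.cast_add_one, smul_eq_mul]
        ring
    rw [e, norm_smul, Real.norm_of_nonneg (by positivity)]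
    refine mul_le_mul_of_nonneg_left ?_ (by positivity)
    simp only [Prod.norm_def, norm_zero]
    exact max_le (by positivity) (max_le ((le_max_left _ _).trans (le_max_right _ _))
      (by positivity))

variable {r : ℕ} {Φ : ℝ → Phase d → Phase d}

theorem Minv_int (hT : Tonelli r M.Lag Φ) : (Minv Φ (ic m)).Nonempty := by
  obtain ⟨ψ, hψ⟩ := M.exists_lift
  obtain rfl : Φ = M.Phi ψ := flow_unique hT
    ⟨M.Lag_smooth r, M.Lag_convex, M.Lag_super, complete hψ, fun t₀ x v h s =>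
      flow_loc hψ (mem_big s).1 (fun σ _ => (M.isEL_iff _ _ _).1 h σ) (mem_big s).2⟩
  obtain ⟨R, hR⟩ := M.exists_poly m
  obtain ⟨w, -, hw⟩ := closing M.G_smooth hψ isClosed_univ hR
  have hc : Continuous (ψ w) :=
    continuous_iff_continuousAt.2 fun t => (hψ.deriv w trivial t).continuousAt
  have h1 := Minv_loop (Φ := M.Phi ψ) (o := fun t => M.dn (ψ w t))
    (fun s => (Phi_cont hψ).comp (Continuous.prodMk_right s)) (dn_cont.comp hc)
    (fun t => by
      have a1 := equiv hψ m 1 w.1 w.2.1 w.2.2 t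
      have a2 : (w.1 + ic m, w.2.1, w.2.2 + ((1 : ℤ) : ℝ)) = ψ w 1 := by
        rw [hw]
        exact Prod.ext rfl (Prod.ext (add_zero _).symm (by simp))
      rw [a2, hψ.add w trivial, add_comm 1 t] at a1
      simp only [a1]
      refine (proj_eq_iff.2 ⟨m, 1, rfl, ?_, rfl⟩).symm
      simp only [Prod.fst_add, Prod.snd_add, add_zero, b_per])
    (fun s t => by rw [dn, Phi_proj hψ, a_b, ← hψ.add w trivial])
  have h2 : ∫ t in (0 : ℝ)..1, (M.dn (ψ w t)).2.1 = (ψ w 1).1 - (ψ w 0).1 :=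
    intervalIntegral.integral_eq_sub_of_hasDerivAt (f := fun t => (ψ w t).1)
      (fun t _ => M.d1 (hψ.deriv w trivial t)) ((dn_cont.comp hc).snd.fst.intervalIntegrable _ _)
  rwa [h2, hw, hψ.zero w trivial, Prod.fst_add, add_sub_cancel_left] at h1

theorem beta_real (hT : Tonelli r M.Lag Φ) :
    ∃ b : E d → ℝ, ConvexOn ℝ univ b ∧ ∀ h, beta M.Lag Φ h = b h := by
  obtain ⟨μ, hμ, H⟩ := M.coer
  refine beta_real_of M.Lag_cont (fun z => ?_) fun m => M.Minv_int m hT
  exact div_nonneg ((mul_nonneg hμ.le (sq_nonneg _)).trans (H _ _)) zero_le_two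

end Met

end Pool.Agent.Lib.MP_ce3247_an
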