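import Pool.Agent.Lib.MP_ce3247_an.Sub

/-! Invariant measures from long orbit segments, and time averages of invariant measures. -/

open MeasureTheory Filter Topology

namespace Pool.Agent.Lib.MP_ce3247_an

variable {d r : ℕ} {L : Phase d → ℝ} {Φ : ℝ → Phase d → Phase d}

lemma IsEL.shift {t₀ : ℝ} {x v : ℝ → E d} (h : IsEL L t₀ x v) (t : ℝ) :
    IsEL L (t₀ + t) (fun s => x (t + s)) (fun s => v (t + s)) := fun s => by
  refine ⟨(h (t + s)).1.comp_const_add t s, ?_⟩
  have := (h (t + s)).2.comp_const_add t s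
  simpa only [add_assoc] using this

/-- Every orbit is the projection of an Euler-Lagrange curve. -/
lemma Tonelli.orbit (hT : Tonelli r L Φ) (z : Phase d) :
    ∃ t₀ x v, IsEL L t₀ x v ∧ ∀ s, Φ s z = proj (x s) (v s) (t₀ + s) := by
  obtain ⟨x, v, hEL, hx, hv⟩ := hT.complete (sec z).1 z.2.1 (sec z).2
  exact ⟨_, x, v, hEL, fun σ => by rw [← hT.flow _ x v hEL σ, hx, hv, proj_sec]⟩

lemma Tonelli.add (hT : Tonelli r L Φ) (s t : ℝ) (z : Phase d) : Φ s (Φ t z) = Φ (t + s) z := by
  obtain ⟨t₀, x, v, hEL, h⟩ := hT.orbit z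
  have := hT.flow _ _ _ (hEL.shift t) s
  simp only [add_zero] at this
  rw [h t, h (t + s), this, add_assoc]

/-- Krylov-Bogolyubov for a sequence of orbit segments in a compact set. -/
theorem exists_limit {Y : Type} [TopologicalSpace Y] [T2Space Y] [HasOuterApproxClosed Y]
    [MeasurableSpace Y] [BorelSpace Y] {Φ : ℝ → Y → Y}
    (hc : Continuous fun q : ℝ × Y => Φ q.1 q.2)
    (hadd : ∀ s t z, Φ s (Φ t z) = Φ (t + s) z) {K : Set Y} (hK : IsCompact K)
    {T : ℕ → ℝ} (hT : Tendsto T atTop atTop) (hT0 : ∀ m, 0 < T m) {z : ℕ → Y}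
    (hz : ∀ m, ∀ t ∈ Set.Icc 0 (T m), Φ t (z m) ∈ K) :
    ∃ (μ : Measure Y) (U : Ultrafilter ℕ), IsProbabilityMeasure μ ∧ μ Kᶜ = 0 ∧
      (∀ s, MeasurePreserving (Φ s) μ μ) ∧ (U : Filter ℕ) ≤ atTop ∧
      ∀ g : Y → ℝ, Continuous g →
        Tendsto (fun m => (T m)⁻¹ * ∫ t in (0 : ℝ)..T m, g (Φ t (z m))) U (𝓝 (∫ q, g q ∂μ)) := by
  have : CompactSpace K := isCompact_iff_compactSpace.1 hK
  have hP : IsProbabilityMeasure ((volume : Measure ℝ).restrict (Set.Ioc 0 1)) := ⟨by simp⟩
  let o : ℕ → ℝ → K := fun m u => ⟨Φ (T m * (Set.projIcc 0 1 zero_le_one u : ℝ)) (z m),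
    hz m _ ⟨mul_nonneg (hT0 m).le (Set.projIcc 0 1 zero_le_one u).2.1,
      mul_le_of_le_one_right (hT0 m).le (Set.projIcc 0 1 zero_le_one u).2.2⟩⟩
  have hm : ∀ m, Continuous (o m) := fun m =>
    (hc.comp ((continuous_const.mul (continuous_subtype_val.comp continuous_projIcc)).prodMk
      continuous_const)).subtype_mk _
  let ν : ℕ → ProbabilityMeasure K := fun m =>
    ⟨((volume : Measure ℝ).restrict (Set.Ioc 0 1)).map (o m),
      Measure.isProbabilityMeasure_map (hm m).measurable.aemeasurable⟩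
  let U : Ultrafilter ℕ := Ultrafilter.of atTop
  have hU : (U : Filter ℕ) ≤ atTop := Ultrafilter.of_le _
  obtain ⟨μ, -, hμ⟩ := isCompact_univ.ultrafilter_le_nhds (U.map ν) (by simp)
  have hlim : Tendsto ν U (𝓝 μ) := hμ
  have hv : Measurable (Subtype.val : K → Y) := continuous_subtype_val.measurable
  have key : ∀ g : Y → ℝ, Continuous g →
      Tendsto (fun m => (T m)⁻¹ * ∫ t in (0 : ℝ)..T m, g (Φ t (z m))) U
        (𝓝 (∫ q, g q ∂((μ : Measure K).map Subtype.val))) := by
    intro g hg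
    have hg' : Continuous fun q : K => g q := hg.comp continuous_subtype_val
    have h1 := ProbabilityMeasure.tendsto_iff_forall_integral_tendsto.1 hlim
      (BoundedContinuousFunction.mkOfCompact ⟨_, hg'⟩)
    rw [integral_map hv.aemeasurable hg.aestronglyMeasurable]
    refine h1.congr fun m => ?_
    have h2 : ∫ q : K, g q ∂(ν m : Measure K) = ∫ u in (0 : ℝ)..1, g (Φ (T m * u) (z m)) := by
      rw [intervalIntegral.integral_of_le zero_le_one]
      refine (integral_map (hm m).measurable.aemeasurable hg'.aestronglyMeasurable).trans ?_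
      refine setIntegral_congr_fun measurableSet_Ioc fun u hu => ?_
      simp only [o, Set.projIcc_of_mem zero_le_one (Set.Ioc_subset_Icc_self hu)]
    have h3 := intervalIntegral.integral_comp_mul_left (a := 0) (b := 1)
      (fun t => g (Φ t (z m))) (hT0 m).ne'
    simp only [mul_zero, mul_one, smul_eq_mul] at h3
    rw [← h3, ← h2]
    rfl
  have hprob : IsProbabilityMeasure ((μ : Measure K).map Subtype.val) :=
    Measure.isProbabilityMeasure_map hv.aemeasurable
  refine ⟨(μ : Measure K).map Subtype.val, U, hprob, ?_, fun s => ?_, hU, key⟩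
  · rw [Measure.map_apply hv hK.isClosed.measurableSet.compl]
    simp
  · have hs : Continuous (Φ s) := hc.comp (continuous_const.prodMk continuous_id)
    refine ⟨hs.measurable, ?_⟩
    refine ext_of_forall_integral_eq_of_IsFiniteMeasure fun f => ?_
    rw [integral_map hs.measurable.aemeasurable f.continuous.aestronglyMeasurable]
    have l1 := (key _ (f.continuous.comp hs)).sub (key _ f.continuous)
    have h0 : Tendsto (fun m => (T m)⁻¹ * (2 * (‖f‖ * |s|))) atTop (𝓝 0) := by
      simpa using (tendsto_inv_atTop_zero.comp hT).mul_const (2 * (‖f‖ * |s|))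
    have l2 : Tendsto (fun m => (T m)⁻¹ * (∫ t in (0 : ℝ)..T m, (f ∘ Φ s) (Φ t (z m))) -
        (T m)⁻¹ * ∫ t in (0 : ℝ)..T m, f (Φ t (z m))) atTop (𝓝 0) := by
      refine squeeze_zero_norm (fun m => ?_) h0
      rw [← mul_sub, norm_mul, Real.norm_of_nonneg (inv_nonneg.2 (hT0 m).le)]
      refine mul_le_mul_of_nonneg_left ?_ (inv_nonneg.2 (hT0 m).le)
      have hF : Continuous fun t => f (Φ t (z m)) :=
        f.continuous.comp (hc.comp (continuous_id.prodMk continuous_const))
      have e1 : ∫ t in (0 : ℝ)..T m, (f ∘ Φ s) (Φ t (z m)) =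
          ∫ t in s..(T m + s), f (Φ t (z m)) := by
        have := intervalIntegral.integral_comp_add_right (a := 0) (b := T m)
          (fun t => f (Φ t (z m))) s
        simp only [zero_add] at this
        rw [← this]
        simp only [Function.comp_apply, hadd]
      have e2 := intervalIntegral.integral_add_adjacent_intervals (μ := volume)
        (hF.intervalIntegrable 0 s) (hF.intervalIntegrable s (T m + s))
      have e3 := intervalIntegral.integral_add_adjacent_intervals (μ := volume)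
        (hF.intervalIntegrable 0 (T m)) (hF.intervalIntegrable (T m) (T m + s))
      have b1 : ‖∫ t in (0 : ℝ)..s, f (Φ t (z m))‖ ≤ ‖f‖ * |s - 0| :=
        intervalIntegral.norm_integral_le_of_norm_le_const fun t _ => f.norm_coe_le_norm _
      have b2 : ‖∫ t in (T m)..(T m + s), f (Φ t (z m))‖ ≤ ‖f‖ * |T m + s - T m| :=
        intervalIntegral.norm_integral_le_of_norm_le_const fun t _ => f.norm_coe_le_norm _
      rw [sub_zero, Real.norm_eq_abs] at b1
      rw [add_sub_cancel_left, Real.norm_eq_abs] at b2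
      rw [e1, Real.norm_eq_abs, abs_le]
      constructor <;> linarith [abs_le.1 b1, abs_le.1 b2]
    exact sub_eq_zero.1 (tendsto_nhds_unique l1 (l2.mono_left hU))

/-- Time integrals along orbits average to multiples of the space average. -/
theorem integral_orbit {μ : Measure (Phase d)} [IsFiniteMeasure μ] {K : Set (Phase d)}
    (hK : IsCompact K) (h0 : μ Kᶜ = 0) (hc : Continuous fun q : ℝ × Phase d => Φ q.1 q.2)
    (hinv : ∀ s, MeasurePreserving (Φ s) μ μ) {g : Phase d → ℝ} (hg : Continuous g) (T : ℝ) :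
    Integrable (fun z => ∫ t in (0 : ℝ)..T, g (Φ t z)) μ ∧
      ∫ z, (∫ t in (0 : ℝ)..T, g (Φ t z)) ∂μ = T * ∫ z, g z ∂μ := by
  have hG : Continuous fun q : ℝ × Phase d => g (Φ q.1 q.2) := hg.comp hc
  have hcont : Continuous fun z => ∫ t in (0 : ℝ)..T, g (Φ t z) :=
    intervalIntegral.continuous_parametric_intervalIntegral_of_continuous'
      (f := fun z t => g (Φ t z)) (hG.comp continuous_swap) 0 T
  refine ⟨Sub_integrable hK h0 hcont, ?_⟩
  have hI : ∀ s, ∫ z, g (Φ s z) ∂μ = ∫ z, g z ∂μ := fun s => by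
    have := integral_map (μ := μ) (hinv s).measurable.aemeasurable
      (f := g) hg.aestronglyMeasurable
    rw [(hinv s).map_eq] at this
    exact this.symm
  obtain ⟨C, hC⟩ := ((isCompact_uIcc (a := (0 : ℝ)) (b := T)).prod hK).exists_bound_of_continuousOn
    hG.continuousOn
  have : IsFiniteMeasure ((volume : Measure ℝ).restrict (Set.uIoc 0 T)) :=
    ⟨by simp [Set.uIoc]⟩
  have hint : Integrable (Function.uncurry fun t z => g (Φ t z))
      (((volume : Measure ℝ).restrict (Set.uIoc 0 T)).prod μ) := by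
    refine Integrable.of_bound hG.aestronglyMeasurable C ?_
    have hae : ∀ᵐ q ∂(((volume : Measure ℝ).restrict (Set.uIoc 0 T)).prod μ),
        q ∈ Set.uIcc 0 T ×ˢ K := by
      rw [Measure.ae_prod_mem_iff_ae_ae_mem
        (measurableSet_uIcc.prod hK.isClosed.measurableSet)]
      filter_upwards [ae_restrict_mem measurableSet_uIoc] with t ht
      have : ∀ᵐ z ∂μ, z ∈ K := h0
      filter_upwards [this] with z hz using ⟨Set.uIoc_subset_uIcc ht, hz⟩
    filter_upwards [hae] with q hq using hC q hq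
  rw [← intervalIntegral_integral_swap hint]
  simp [hI]

lemma Minv.coord {h : E d} {μ : Measure (Phase d)} (hμ : μ ∈ Minv Φ h) (j : Fin d) :
    ∫ z : Phase d, z.2.1 j ∂μ = h j := by
  obtain ⟨hprob, ⟨K, hK, h0⟩, -, hrot⟩ := hμ
  have hv : Continuous fun z : Phase d => z.2.1 := by fun_prop
  rw [← hrot]
  exact (ContinuousLinearMap.proj (R := ℝ) (φ := fun _ : Fin d => ℝ) j).integral_comp_comm
    (Sub_integrable hK h0 hv)

/-- Convex combinations of invariant measures. -/
theorem Minv.convex {h₁ h₂ : E d} {μ₁ μ₂ : Measure (Phase d)} (h1 : μ₁ ∈ Minv Φ h₁)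
    (h2 : μ₂ ∈ Minv Φ h₂) {θ : ℝ} (h0 : 0 ≤ θ) (hθ : θ ≤ 1) (hL : Continuous L) :
    ∃ μ ∈ Minv Φ (θ • h₁ + (1 - θ) • h₂),
      ∫ z, L z ∂μ = θ * ∫ z, L z ∂μ₁ + (1 - θ) * ∫ z, L z ∂μ₂ := by
  obtain ⟨p1, ⟨K1, k1, z1⟩, i1, r1⟩ := h1
  obtain ⟨p2, ⟨K2, k2, z2⟩, i2, r2⟩ := h2
  have hθ' : 0 ≤ 1 - θ := by linarith
  have hI : ∀ {F : Type} [NormedAddCommGroup F] [NormedSpace ℝ F] {g : Phase d → F},
      Continuous g → ∫ z, g z ∂(ENNReal.ofReal θ • μ₁ + ENNReal.ofReal (1 - θ) • μ₂) =
        θ • ∫ z, g z ∂μ₁ + (1 - θ) • ∫ z, g z ∂μ₂ := by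
    intro F _ _ g hg
    rw [integral_add_measure ((Sub_integrable k1 z1 hg).smul_measure ENNReal.ofReal_ne_top)
      ((Sub_integrable k2 z2 hg).smul_measure ENNReal.ofReal_ne_top), integral_smul_measure,
      integral_smul_measure, ENNReal.toReal_ofReal h0, ENNReal.toReal_ofReal hθ']
  refine ⟨ENNReal.ofReal θ • μ₁ + ENNReal.ofReal (1 - θ) • μ₂, ⟨⟨?_⟩, ⟨K1 ∪ K2, k1.union k2, ?_⟩,
    fun s => ?_, ?_⟩, ?_⟩
  · simp [← ENNReal.ofReal_add h0 hθ']
  · have a1 : μ₁ (K1 ∪ K2)ᶜ = 0 :=
      measure_mono_null (Set.compl_subset_compl.2 Set.subset_union_left) z1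
    have a2 : μ₂ (K1 ∪ K2)ᶜ = 0 :=
      measure_mono_null (Set.compl_subset_compl.2 Set.subset_union_right) z2
    simp only [Measure.add_apply, Measure.smul_apply, a1, a2, smul_zero, add_zero]
  · exact ((i1 s).smul_measure _).add_measure ((i2 s).smul_measure _)
  · rw [hI (by fun_prop), r1, r2]
  · rw [hI hL, smul_eq_mul, smul_eq_mul]

end Pool.Agent.Lib.MP_ce3247_an
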