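import Pool.Agent.Lib.MP_ce3247_an.RmClock
import Pool.Agent.Lib.MP_ce3247_an.RmMet
import Pool.Agent.Lib.MP_ce3247_an.RmKB

/-! The metric `|dx - X dτ|^2 + (1 + P)^2 dτ^2` on `T^(d+1)`: minimizing measures and subgradients
of beta. -/

open MeasureTheory Filter Topology Set

namespace Pool.Agent.Lib.MP_ce3247_an

variable {d : ℕ}

/-- The coordinates `(x, τ)` on `ℝ^(d+1)`, with `τ` first. -/
def pr (y : E (d + 1)) : E d × ℝ := (fun j => y j.succ, y 0)

lemma pr_smooth (r : ℕ) : ContDiff ℝ r (pr (d := d)) := by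
  unfold pr
  fun_prop

lemma pr_add (y : E (d + 1)) (z : Fin (d + 1) → ℤ) :
    pr (y + ic z) = shift (fun j => z j.succ) (z 0) (pr y) := rfl

namespace Box

variable (B : Box d)

/-- The coframe. -/
noncomputable def ω (y : E (d + 1)) (j : Fin d) : E (d + 1) →L[ℝ] ℝ :=
  ContinuousLinearMap.proj j.succ - B.X (pr y) j • ContinuousLinearMap.proj 0

/-- The clock form. -/
noncomputable def ω₀ (y : E (d + 1)) : E (d + 1) →L[ℝ] ℝ :=
  (1 + B.P (pr y)) • ContinuousLinearMap.proj 0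

/-- The metric tensor. -/
noncomputable def a (y : E (d + 1)) : E (d + 1) →L[ℝ] E (d + 1) →L[ℝ] ℝ :=
  ∑ j, (B.ω y j).smulRight (B.ω y j) + (B.ω₀ y).smulRight (B.ω₀ y)

lemma a_apply (y V W : E (d + 1)) : B.a y V W =
    ∑ j, (V j.succ - V 0 * B.X (pr y) j) * (W j.succ - W 0 * B.X (pr y) j) +
      (1 + B.P (pr y)) ^ 2 * V 0 * W 0 := by
  simp only [a, ω, ω₀, add_apply, sum_apply,
    ContinuousLinearMap.smulRight_apply, smul_apply, sub_apply, ContinuousLinearMap.proj_apply,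
    smul_eq_mul]
  congr 1
  · exact Finset.sum_congr rfl fun j _ => by ring
  · ring

lemma a_eq (s : ℝ) (y V : E (d + 1)) :
    B.a y V V / 2 = B.Lt s (pr y).1 (pr V).1 (y 0) (V 0) + s * V 0 - s ^ 2 / 2 := by
  rw [a_apply]
  simp only [Lt, pr, ← sq]
  ring

/-- The metric. -/
noncomputable def met : Met (d + 1) where
  a := B.a
  smooth := fun r => by
    have hX := (B.X_smooth r).comp (pr_smooth r)
    have hP := (B.P_smooth r).comp (pr_smooth r)
    have h1 : ∀ j, ContDiff ℝ r fun y => B.ω y j := fun j =>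
      contDiff_const.sub ((contDiff_pi.1 hX j).smul contDiff_const)
    have h2 : ContDiff ℝ r B.ω₀ := (contDiff_const.add hP).smul contDiff_const
    exact (ContDiff.sum fun j _ => (h1 j).smulRight (h1 j)).add (h2.smulRight h2)
  per := fun z y => by simp only [a, ω, ω₀, pr_add, B.X_per, B.P_per]
  symm := fun y V W => by
    rw [a_apply, a_apply]
    congr 1
    · exact Finset.sum_congr rfl fun j _ => mul_comm _ _
    · ring
  coer := by
    obtain ⟨M, hM, hX⟩ := B.X_bdd
    refine ⟨(2 + 2 * M ^ 2)⁻¹, by positivity, fun y V => ?_⟩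
    have s0 : 0 ≤ ∑ j, (V j.succ - V 0 * B.X (pr y) j) ^ 2 :=
      Finset.sum_nonneg fun j _ => sq_nonneg _
    have s1 : V 0 ^ 2 ≤ (1 + B.P (pr y)) ^ 2 * V 0 * V 0 := by
      have := B.P_nonneg (pr y)
      nlinarith [mul_nonneg this (sq_nonneg (V 0)), mul_nonneg (sq_nonneg (B.P (pr y)))
        (sq_nonneg (V 0))]
    have s2 := sq_nonneg (V 0)
    have s3 := sq_nonneg M
    rw [inv_mul_le_iff₀ (by positivity), a_apply]
    simp only [← sq]
    generalize (1 + B.P (pr y)) ^ 2 * V 0 * V 0 = U at s1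
    have hU : 0 ≤ U := s2.trans s1
    rw [← Real.le_sqrt (norm_nonneg _) (by positivity),
      pi_norm_le_iff_of_nonneg (Real.sqrt_nonneg _)]
    intro j
    refine Real.abs_le_sqrt (Fin.cases ?_ (fun j => ?_) j)
    · nlinarith [mul_nonneg s3 s0, mul_nonneg s3 hU]
    · have q1 := Finset.single_le_sum (f := fun j => (V j.succ - V 0 * B.X (pr y) j) ^ 2)
        (fun j _ => sq_nonneg _) (Finset.mem_univ j)
      have q2 : B.X (pr y) j ^ 2 ≤ M ^ 2 := sq_le_sq' (abs_le.1 (hX _ j)).1 (abs_le.1 (hX _ j)).2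
      nlinarith [mul_nonneg s3 s0, mul_le_mul_of_nonneg_left s1 s3,
        mul_le_mul_of_nonneg_left q2 s2, sq_nonneg (V j.succ - 2 * (V 0 * B.X (pr y) j))]

variable {B} {Φ : ℝ → Phase (d + 1) → Phase (d + 1)} {s : ℝ}

/-- An orbit of `X` inside `P = 0` gives a minimizing measure. -/
theorem Rot.measure {h : E d} (H : B.Rot h) (hs : 0 < s) (hT : Tonelli 0 B.met.Lag Φ)
    (hc : Continuous fun q : ℝ × Phase (d + 1) => Φ q.1 q.2)
    (hl : ∀ (t₀ a b : ℝ) (x v : ℝ → E (d + 1)), (0 : ℝ) ∈ Ioo a b →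
      (∀ s ∈ Ioo a b, HasDerivAt x (v s) s ∧
        HasDerivAt (fun σ => B.met.a (x σ) (v σ)) (B.met.D (x s) (v s)) s) →
      ∀ s ∈ Ioo a b, Φ s (proj (x 0) (v 0) t₀) = proj (x s) (v s) (t₀ + s)) :
    ∃ μ ∈ Minv Φ (s • Fin.cons 1 h), ∫ z, B.met.Lag z ∂μ = s ^ 2 / 2 := by
  obtain ⟨γ, g1, g2, T, hT0, hrot⟩ := H
  obtain ⟨M, hM, hX⟩ := B.X_bdd
  set x : ℝ → E (d + 1) := fun t => Fin.cons (s * (1 + t)) (γ (s * (1 + t))) with hx
  set v : ℝ → E (d + 1) := fun t => s • Fin.cons 1 (B.X (γ (s * (1 + t)), s * (1 + t))) with hv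
  have pos : ∀ {t : ℝ}, -1 < t → 0 < s * (1 + t) := fun h => mul_pos hs (by linarith)
  have px : ∀ t, pr (x t) = (γ (s * (1 + t)), s * (1 + t)) := fun t => rfl
  have v0 : ∀ t, v t 0 = s := fun t => mul_one s
  have dx : ∀ t, -1 < t → HasDerivAt x (v t) t := fun t ht => by
    have h1 : HasDerivAt (fun t => s * (1 + t)) s t := by
      simpa using ((hasDerivAt_id t).const_add 1).const_mul s
    refine hasDerivAt_pi.2 (Fin.cases ?_ fun j => ?_)
    · rw [v0]; exact h1
    · exact hasDerivAt_pi.1 ((g1 _ (pos ht)).scomp t h1) j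
  have av : ∀ t, -1 < t → ∀ W, B.a (x t) (v t) W = s * W 0 := fun t ht W => by
    rw [a_apply, px, g2 _ (pos ht), v0, Finset.sum_eq_zero fun j _ => by simp [hv]]
    ring
  have orb : ∀ t, 0 ≤ t → Φ t (proj (x 0) (v 0) 0) = proj (x t) (v t) (0 + t) := fun t ht => by
    refine hl 0 (-1) (t + 1) x v ⟨by norm_num, by linarith⟩ (fun σ hσ => ⟨dx σ hσ.1, ?_⟩) t
      ⟨by linarith, by linarith⟩
    have hmin : IsLocalMin (fun y => B.met.a y (v σ) (v σ) / 2) (x σ) :=
      Eventually.of_forall fun y => by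
        change B.a (x σ) (v σ) (v σ) / 2 ≤ B.a y (v σ) (v σ) / 2
        rw [av σ hσ.1, B.a_eq s y, v0]
        nlinarith [B.Lt_nonneg s (pr y).1 (pr (v σ)).1 (y 0) s]
    rw [Met.D, hmin.fderiv_eq_zero]
    refine (hasDerivAt_const σ (s • ContinuousLinearMap.proj (R := ℝ)
      (φ := fun _ : Fin (d + 1) => ℝ) 0)).congr_of_eventuallyEq ?_
    filter_upwards [lt_mem_nhds hσ.1] with r hr
    exact ContinuousLinearMap.ext fun W => av r hr W
  obtain ⟨m₀, hm₀⟩ := eventually_atTop.1 (hT0.eventually_gt_atTop s)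
  set T' : ℕ → ℝ := fun m => T (m + m₀) / s - 1 with hT'
  have sh := tendsto_add_atTop_nat m₀
  have t1 : Tendsto T' atTop atTop :=
    tendsto_atTop_add_const_right _ (-1) ((hT0.comp sh).atTop_div_const hs)
  have t2 : ∀ m, 0 < T' m := fun m =>
    sub_pos.2 ((one_lt_div hs).2 (hm₀ _ (Nat.le_add_left _ _)))
  have t3 : ∀ m, s * (1 + T' m) = T (m + m₀) := fun m => by
    simp only [hT']
    field_simp
    ring
  have hK : IsCompact ((univ : Set (Tor (d + 1))) ×ˢ (Metric.closedBall (0 : E (d + 1))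
      (s * (1 + M)) ×ˢ (univ : Set UnitAddCircle))) :=
    isCompact_univ.prod ((isCompact_closedBall _ _).prod isCompact_univ)
  obtain ⟨μ, U, p1, p2, p3, hU, hlim⟩ := exists_limit hc hT.add hK t1 t2
    (z := fun _ => proj (x 0) (v 0) 0) fun m t ht => by
      rw [orb t ht.1]
      refine ⟨trivial, ?_, trivial⟩
      rw [mem_closedBall_zero_iff]
      change ‖v t‖ ≤ _
      rw [hv, norm_smul, Real.norm_of_nonneg hs.le]
      refine mul_le_mul_of_nonneg_left ((pi_norm_le_iff_of_nonneg (by linarith)).2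
        (Fin.cases (by simpa using hM) fun j => ?_)) hs.le
      exact (hX _ j).trans (by linarith)
  refine ⟨μ, ⟨p1, ⟨_, hK, p2⟩, p3, ?_⟩, ?_⟩
  · funext j
    have cj : Continuous fun z : Phase (d + 1) => z.2.1 j := by fun_prop
    rw [eval_integral fun j => Sub_integrable hK p2 (by fun_prop)]
    refine tendsto_nhds_unique (hlim _ cj) (Tendsto.mono_left ?_ hU)
    have e : ∀ m, ∫ t in (0 : ℝ)..T' m, (Φ t (proj (x 0) (v 0) 0)).2.1 j =
        x (T' m) j - x 0 j := fun m => by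
      refine intervalIntegral.integral_eq_sub_of_hasDerivAt (f := fun t => x t j) (fun t ht => ?_)
        ((cj.comp (hc.comp (continuous_id.prodMk continuous_const))).intervalIntegrable _ _)
      rw [uIcc_of_le (t2 m).le] at ht
      rw [orb t ht.1]
      exact hasDerivAt_pi.1 (dx t (by linarith [ht.1])) j
    simp only [e]
    have i0 := tendsto_inv_atTop_zero.comp t1
    refine Fin.cases ?_ (fun j => ?_) j
    · refine tendsto_const_nhds.congr fun m => ?_
      have := (t2 m).ne'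
      simp only [hx, Fin.cons_zero, Pi.smul_apply, smul_eq_mul]
      field_simp
      ring
    · have a1 := (((i0.add_const 1).const_mul s).mul
        (tendsto_pi_nhds.1 (hrot.comp sh) j)).sub (i0.mul_const (x 0 j.succ))
      simp only [zero_add, mul_one, zero_mul, sub_zero] at a1
      refine a1.congr fun m => ?_
      have := (t2 m).ne'
      have : 1 + T' m ≠ 0 := by linarith [t2 m]
      simp only [Function.comp_apply, hx, Fin.cons_succ, Pi.smul_apply, smul_eq_mul, ← t3]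
      field_simp
  · refine tendsto_nhds_unique (hlim _ B.met.Lag_cont)
      (Tendsto.mono_left (tendsto_const_nhds.congr fun m => ?_) hU)
    have e : ∫ t in (0 : ℝ)..T' m, B.met.Lag (Φ t (proj (x 0) (v 0) 0)) =
        ∫ _ in (0 : ℝ)..T' m, s ^ 2 / 2 := intervalIntegral.integral_congr fun t ht => by
      rw [uIcc_of_le (t2 m).le] at ht
      rw [orb t ht.1, Met.Lag_proj]
      change B.a (x t) (v t) (v t) / 2 = _
      rw [av t (by linarith [ht.1]), v0, sq]
    have := (t2 m).ne'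
    rw [e, intervalIntegral.integral_const, smul_eq_mul]
    field_simp
    ring

lemma Lt_scale (hs : s ≠ 0) (x v : E d) (τ u : ℝ) :
    B.Lt 1 x (s⁻¹ • v) τ (s⁻¹ * u) = s⁻¹ ^ 2 * B.Lt s x v τ u := by
  have e : ∑ j, ((s⁻¹ • v) j - s⁻¹ * u * B.X (x, τ) j) ^ 2 =
      s⁻¹ ^ 2 * ∑ j, (v j - u * B.X (x, τ) j) ^ 2 := by
    rw [Finset.mul_sum]
    exact Finset.sum_congr rfl fun j _ => by simp only [Pi.smul_apply, smul_eq_mul]; ring
  unfold Lt
  rw [e]
  field_simp

/-- The closed form `s dτ` is a subgradient. -/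
theorem sub_zero' {H : E (d + 1)} {μ : Measure (Phase (d + 1))} (hμ : μ ∈ Minv Φ H) (s : ℝ) :
    ∫ z, B.met.Lag z ∂μ = ∫ z, (B.met.Lag z - s * z.2.1 0 + s ^ 2 / 2) ∂μ + s * H 0 - s ^ 2 / 2 ∧
      0 ≤ ∫ z, (B.met.Lag z - s * z.2.1 0 + s ^ 2 / 2) ∂μ := by
  have h0 := Minv.coord hμ 0
  obtain ⟨p, ⟨K, hK, k0⟩, -, -⟩ := hμ
  have c1 : Continuous fun z : Phase (d + 1) => s * z.2.1 0 := by fun_prop
  have c2 : Continuous fun z : Phase (d + 1) => B.met.Lag z - s * z.2.1 0 := B.met.Lag_cont.sub c1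
  constructor
  · rw [integral_add (Sub_integrable hK k0 c2) (integrable_const _),
      integral_sub (Sub_integrable hK k0 B.met.Lag_cont) (Sub_integrable hK k0 c1),
      integral_const_mul, h0]
    simp only [integral_const, probReal_univ, one_smul]
    ring
  · refine integral_nonneg fun z => ?_
    have := B.a_eq s (sec z).1 z.2.1
    have e : B.met.Lag z = B.a (sec z).1 z.2.1 z.2.1 / 2 := rfl
    simp only [Pi.zero_apply]
    linarith [B.Lt_nonneg s (pr (sec z).1).1 (pr z.2.1).1 ((sec z).1 0) (z.2.1 0)]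

/-- The curve inequality gives a second subgradient. -/
theorem Pay.sub {c : E d} (h : B.Pay c) (hs : 0 < s) (hT : Tonelli 0 B.met.Lag Φ)
    (hc : Continuous fun q : ℝ × Phase (d + 1) => Φ q.1 q.2) : ∃ ε, 0 < ε ∧
      ∀ H, ∀ μ ∈ Minv Φ H, ε * ∑ j, c j * H j.succ ≤
        ∫ z, (B.met.Lag z - s * z.2.1 0 + s ^ 2 / 2) ∂μ := by
  obtain ⟨C, K, hK0, h⟩ := h.free
  refine ⟨s / K, by positivity, fun H μ hμ => ?_⟩
  have hI := (sub_zero' (B := B) hμ s).2
  have hj := Minv.coord hμ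
  obtain ⟨p, ⟨Q, hQ, q0⟩, hinv, -⟩ := hμ
  set g : Phase (d + 1) → ℝ := fun z => B.met.Lag z - s * z.2.1 0 + s ^ 2 / 2 with hg
  set l : Phase (d + 1) → ℝ := fun z => ∑ j, c j * z.2.1 (Fin.succ j) with hl
  have cL := B.met.Lag_cont
  have cg : Continuous g := by fun_prop
  have cl : Continuous l := by fun_prop
  have el : ∫ z, l z ∂μ = ∑ j, c j * H j.succ := by
    rw [integral_finsetSum _ fun j _ => Sub_integrable hQ q0 (by fun_prop)]
    simp only [integral_const_mul, hj]
  have horb : ∀ (N : ℕ) z, ∫ t in (0 : ℝ)..(s⁻¹ * N), l (Φ t z) ≤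
      C + K * s⁻¹ * ∫ t in (0 : ℝ)..(s⁻¹ * (N + 1)), g (Φ t z) := fun N z => by
    obtain ⟨t₀, x, v, hEL, hfl⟩ := hT.orbit z
    have hz : Continuous fun σ => Φ σ z := hc.comp (continuous_id.prodMk continuous_const)
    have cv : Continuous v := by simpa only [hfl, proj] using hz.snd.fst
    have dx : ∀ t j, HasDerivAt (fun t => x t j) (v t j) t := fun t => hasDerivAt_pi.1 (hEL t).1
    have d1 : ∀ r : ℝ, HasDerivAt (fun r : ℝ => s⁻¹ * r) s⁻¹ r := fun r => by
      simpa using (hasDerivAt_id r).const_mul s⁻¹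
    have k := h (fun r => (pr (x (s⁻¹ * r))).1) (fun r => s⁻¹ • (pr (v (s⁻¹ * r))).1)
      (fun r => x (s⁻¹ * r) 0) (fun r => s⁻¹ * v (s⁻¹ * r) 0)
      (fun r => hasDerivAt_pi.2 fun j => (dx (s⁻¹ * r) j.succ).scomp r (d1 r))
      (by unfold pr; fun_prop) (fun r => (dx (s⁻¹ * r) 0).scomp r (d1 r)) (by fun_prop) N
    have e1 : ∀ t, B.Lt s (pr (x t)).1 (pr (v t)).1 (x t 0) (v t 0) = g (Φ t z) := fun t => by
      have := B.a_eq s (x t) (v t)
      simp only [hg, hfl, Met.Lag_proj]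
      change _ = B.a (x t) (v t) (v t) / 2 - s * v t 0 + _
      linarith
    have e2 := int_lin c (x := fun t => (pr (x t)).1) (v := fun t => (pr (v t)).1)
      (fun t => hasDerivAt_pi.2 fun j => dx t j.succ) (by unfold pr; fun_prop) 0 (s⁻¹ * N)
    simp only [Lt_scale hs.ne', e1, mul_zero] at k
    rw [intervalIntegral.integral_const_mul,
      intervalIntegral.integral_comp_mul_left (fun t => g (Φ t z)) (inv_ne_zero hs.ne'),
      ← e2, mul_zero, inv_inv, smul_eq_mul] at k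
    simp only [hl, hfl]
    refine k.trans (le_of_eq ?_)
    simp only [hfl]
    field_simp
  have hN : ∀ N : ℕ, s⁻¹ * N * ∑ j, c j * H j.succ ≤
      C + K * s⁻¹ * (s⁻¹ * (N + 1) * ∫ z, g z ∂μ) := fun N => by
    obtain ⟨a1, a2⟩ := integral_orbit hQ q0 hc hinv cl (s⁻¹ * N)
    obtain ⟨b1, b2⟩ := integral_orbit hQ q0 hc hinv cg (s⁻¹ * (N + 1))
    have := integral_mono a1 ((integrable_const C).add (b1.const_mul (K * s⁻¹))) (horb N)
    simp only [Pi.add_apply] at this
    rw [a2, el, integral_add (integrable_const C) (b1.const_mul _), integral_const_mul, b2] at this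
    simpa using this
  by_contra hneg
  rw [not_le, div_mul_eq_mul_div, lt_div_iff₀ hK0] at hneg
  set S := ∑ j, c j * H j.succ
  set I := ∫ z, g z ∂μ
  obtain ⟨N, hN'⟩ := exists_nat_gt ((s ^ 2 * C + K * I) / (s * S - I * K))
  rw [div_lt_iff₀ (by linarith)] at hN'
  have := mul_le_mul_of_nonneg_left (hN N) (sq_nonneg s)
  have e1 : s ^ 2 * (s⁻¹ * N * S) = s * N * S := by field_simp
  have e2 : s ^ 2 * (C + K * s⁻¹ * (s⁻¹ * (N + 1) * I)) = s ^ 2 * C + K * (N + 1) * I := by
    field_simp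
  rw [e1, e2] at this
  nlinarith

end Box

theorem not_diffIn' {n k m : ℕ} (hk : n < m + k) {β : E n → EReal} {h l : E n} {b : ℝ}
    {c : Fin m → E n} (hc : LinearIndependent ℝ c) (h0 : β h = b)
    (h1 : ∀ h', ((b + ∑ j, l j * (h' j - h j) : ℝ) : EReal) ≤ β h')
    (h2 : ∀ i h', ((b + ∑ j, (l j + c i j) * (h' j - h j) : ℝ) : EReal) ≤ β h') :
    ¬ DiffIn β h k := by
  rintro ⟨W, hW, L, hl⟩
  have key : ∀ (w : W) (q : E n), (∀ h', ((b + ∑ j, q j * (h' j - h j) : ℝ) : EReal) ≤ β h') →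
      ∑ j, q j * (w : E n) j ≤ L w := by
    intro w q ha
    have : ((∑ j, q j * (w : E n) j : ℝ) : EReal) ≤ (L w : EReal) := by
      refine ge_of_tendsto (hl w) ?_
      filter_upwards [self_mem_nhdsWithin] with s hs
      have hs' : (0 : ℝ) < s := hs
      have e : ((∑ j, q j * (w : E n) j : ℝ) : EReal) = (((b + ∑ j, q j *
          ((h + s • (w : E n)) j - h j) : ℝ) : EReal) - (b : EReal)) / (s : EReal) := by
        rw [← EReal.coe_sub, ← EReal.coe_div, add_sub_cancel_left, Finset.sum_div]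
        congr 1
        refine Finset.sum_congr rfl fun j _ => ?_
        simp only [Pi.add_apply, Pi.smul_apply, smul_eq_mul]
        field_simp
        ring
      rw [h0, e]
      exact EReal.div_le_div_right_of_nonneg (by exact_mod_cast hs'.le)
        (EReal.sub_le_sub (ha _) le_rfl)
    exact_mod_cast this
  have eq : ∀ (w : W) (q : E n), (∀ h', ((b + ∑ j, q j * (h' j - h j) : ℝ) : EReal) ≤ β h') →
      ∑ j, q j * (w : E n) j = L w := fun w q ha => by
    have := key (-w) q ha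
    simp only [Submodule.coe_neg, Pi.neg_apply, mul_neg, Finset.sum_neg_distrib, map_neg] at this
    linarith [key w q ha]
  have hc2 : ∀ i (w : W), ∑ j, c i j * (w : E n) j = 0 := fun i w => by
    have a1 := eq w l h1
    have a2 := eq w (fun j => l j + c i j) (h2 i)
    simp only [add_mul, Finset.sum_add_distrib] at a2
    linarith
  let M : Matrix (Fin m) (Fin n) ℝ := Matrix.of c
  have hrank : M.rank = m := by
    have := LinearIndependent.rank_matrix (M := M) hc
    simpa using this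
  have hker : W ≤ LinearMap.ker M.mulVecLin := fun w hw => by
    rw [LinearMap.mem_ker]
    funext i
    exact hc2 i ⟨w, hw⟩
  have h3 : k ≤ Module.finrank ℝ (LinearMap.ker M.mulVecLin) :=
    hW.symm.le.trans (Submodule.finrank_mono hker)
  have h4 : M.rank + Module.finrank ℝ (LinearMap.ker M.mulVecLin) = n :=
    (LinearMap.finrank_range_add_finrank_ker M.mulVecLin).trans (Module.finrank_fin_fun ℝ)
  omega

end Pool.Agent.Lib.MP_ce3247_an
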