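import Pool.Agent.Lib.MP_ce3247_an.Data

/-! Moving finitely many labelled lattice points to other lattice points, staying apart. -/

open Finset
open scoped ContDiff

namespace Pool.Agent.Lib.MP_ce3247_an

section Route1Aux

variable {d : ℕ} {ι : Type}

/-- bounded and separated configurations -/
def Route1_Good (K : ℝ) (A : ι → E d) : Prop :=
  (∀ i, ‖A i‖ ≤ K) ∧ ∀ i j, i ≠ j → 1 / 2 ≤ ‖A i - A j‖

/-- a smooth motion through bounded and separated configurations -/
def Route1_Conn (K : ℝ) (A B : ι → E d) : Prop :=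
  ∃ r : ι → ℝ → E d, (∀ i, ContDiff ℝ ∞ (r i)) ∧ (∀ i θ, θ ≤ 0 → r i θ = A i) ∧
    (∀ i θ, 1 ≤ θ → r i θ = B i) ∧ ∀ θ, Route1_Good K fun i => r i θ

theorem Route1_trans {K : ℝ} {A B C : ι → E d} (h1 : Route1_Conn K A B) (h2 : Route1_Conn K B C) :
    Route1_Conn K A C := by
  obtain ⟨r, hr, hr0, hr1, hrg⟩ := h1
  obtain ⟨s, hs, hs0, hs1, hsg⟩ := h2
  refine ⟨fun i θ => r i (2 * θ) + s i (2 * θ - 1) - B i, fun i => ?_, fun i θ h => ?_,
    fun i θ h => ?_, fun θ => ?_⟩
  · have a1 : ContDiff ℝ ∞ fun θ : ℝ => r i (2 * θ) := (hr i).comp (by fun_prop)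
    have a2 : ContDiff ℝ ∞ fun θ : ℝ => s i (2 * θ - 1) := (hs i).comp (by fun_prop)
    exact (a1.add a2).sub contDiff_const
  · simp only
    rw [hr0 i _ (by linarith), hs0 i _ (by linarith), add_sub_cancel_right]
  · simp only
    rw [hr1 i _ (by linarith), hs1 i _ (by linarith), add_sub_cancel_left]
  · rcases le_total θ (1 / 2) with h | h
    · have : (fun i => r i (2 * θ) + s i (2 * θ - 1) - B i) = fun i => r i (2 * θ) := by
        funext i
        rw [hs0 i _ (by linarith), add_sub_cancel_right]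
      rw [this]
      exact hrg _
    · have : (fun i => r i (2 * θ) + s i (2 * θ - 1) - B i) = fun i => s i (2 * θ - 1) := by
        funext i
        rw [hr1 i _ (by linarith), add_sub_cancel_left]
      rw [this]
      exact hsg _

theorem Route1_line {K : ℝ} {A B : ι → E d}
    (h : ∀ t : ℝ, 0 ≤ t → t ≤ 1 → Route1_Good K fun i => A i + t • (B i - A i)) :
    Route1_Conn K A B := by
  refine ⟨fun i θ => A i + Real.smoothTransition θ • (B i - A i), fun i => ?_, fun i θ hθ => ?_,
    fun i θ hθ => ?_, fun θ => h _ (Real.smoothTransition.nonneg θ) (Real.smoothTransition.le_one θ)⟩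
  · exact contDiff_const.add (Real.smoothTransition.contDiff.smul contDiff_const)
  · simp [Real.smoothTransition.zero_of_nonpos hθ]
  · simp [Real.smoothTransition.one_of_one_le hθ]

theorem Route1_norm_seg {K t : ℝ} {x y : E d} (hx : ‖x‖ ≤ K) (hy : ‖y‖ ≤ K) (h0 : 0 ≤ t)
    (h1 : t ≤ 1) : ‖x + t • (y - x)‖ ≤ K := by
  have e : x + t • (y - x) = (1 - t) • x + t • y := by module
  rw [e]
  refine (norm_add_le _ _).trans ?_
  rw [norm_smul, norm_smul, Real.norm_of_nonneg h0, Real.norm_of_nonneg (by linarith)]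
  nlinarith

theorem Route1_one_le {z w : Fin d → ℤ} (h : z ≠ w) : 1 ≤ ‖ic z - ic w‖ := by
  obtain ⟨k, hk⟩ := Function.ne_iff.1 h
  refine le_trans ?_ (norm_le_pi_norm (ic z - ic w) k)
  have h1 : (1 : ℤ) ≤ |z k - w k| := Int.one_le_abs (sub_ne_zero.2 hk)
  have h2 : ((1 : ℤ) : ℝ) ≤ ((|z k - w k| : ℤ) : ℝ) := Int.cast_le.2 h1
  simpa [ic, Real.norm_eq_abs] using h2

theorem Route1_near {z w : Fin d → ℤ} (h : z ≠ w) {p : E d} (hp : ‖p - ic z‖ ≤ 1 / 2) :
    1 / 2 ≤ ‖p - ic w‖ := by
  have h1 := Route1_one_le h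
  have h2 : ‖ic z - ic w‖ ≤ ‖p - ic w‖ + ‖p - ic z‖ := by
    have e : ic z - ic w = (p - ic w) - (p - ic z) := by abel
    rw [e]
    exact norm_sub_le _ _
  linarith

theorem Route1_half {p : E d} {k : Fin d} {n : ℤ} (hp : p k = n + 1 / 2) (w : Fin d → ℤ) :
    1 / 2 ≤ ‖p - ic w‖ := by
  refine le_trans ?_ (norm_le_pi_norm (p - ic w) k)
  have e : (p - ic w) k = ((n - w k : ℤ) : ℝ) + 1 / 2 := by
    simp only [Pi.sub_apply, hp, ic]
    push_cast
    ring
  rw [e, Real.norm_eq_abs]
  rcases le_or_gt 0 (n - w k) with h | h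
  · have h1 : (0 : ℝ) ≤ ((n - w k : ℤ) : ℝ) := by exact_mod_cast h
    exact le_trans (by linarith) (le_abs_self _)
  · have h1 : ((n - w k : ℤ) : ℝ) ≤ -1 := by
      have : n - w k ≤ -1 := by omega
      exact_mod_cast this
    exact le_trans (by linarith) (neg_le_abs _)

theorem Route1_single [DecidableEq ι] {K : ℝ} {P : ι → Fin d → ℤ} (hP : Function.Injective P)
    (hK : ∀ i, ‖ic (P i)‖ ≤ K) (a : ι) {x y : E d} (hx : ‖x‖ ≤ K) (hy : ‖y‖ ≤ K)
    (h : ∀ t : ℝ, 0 ≤ t → t ≤ 1 → ∀ j, j ≠ a → 1 / 2 ≤ ‖x + t • (y - x) - ic (P j)‖) :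
    Route1_Conn K (Function.update (fun i => ic (P i)) a x)
      (Function.update (fun i => ic (P i)) a y) := by
  refine Route1_line fun t h0 h1 => ⟨fun i => ?_, fun i j hij => ?_⟩
  · rcases eq_or_ne i a with rfl | hi
    · simpa using Route1_norm_seg hx hy h0 h1
    · simpa [Function.update_of_ne hi] using hK i
  · rcases eq_or_ne i a with rfl | hi
    · simpa [Function.update_of_ne hij.symm] using h t h0 h1 j hij.symm
    · rcases eq_or_ne j a with rfl | hj
      · rw [norm_sub_rev]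
        simpa [Function.update_of_ne hi] using h t h0 h1 i hi
      · have := Route1_one_le (hP.ne hij)
        simp only [Function.update_of_ne hi, Function.update_of_ne hj, sub_self, smul_zero, add_zero]
        linarith

theorem Route1_move [DecidableEq ι] {i0 i1 : Fin d} (h01 : i0 ≠ i1) {K : ℝ} {P : ι → Fin d → ℤ}
    (hP : Function.Injective P) (hK : ∀ i, ‖ic (P i)‖ ≤ K) (a : ι) {z : Fin d → ℤ}
    (hz : ‖ic z‖ ≤ K) (hza : ∀ j, j ≠ a → z ≠ P j) :
    Route1_Conn (K + 1) (fun i => ic (P i)) fun i => ic (Function.update P a z i) := by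
  have hK0 : 0 ≤ K := (norm_nonneg _).trans hz
  have hK1 : ∀ i, ‖ic (P i)‖ ≤ K + 1 := fun i => (hK i).trans (by linarith)
  have hc : ∀ {w : Fin d → ℤ}, ‖ic w‖ ≤ K → ∀ k, |(w k : ℝ)| ≤ K := fun {w} hw k =>
    (norm_le_pi_norm (ic w) k).trans hw
  have hhalf : ∀ k : Fin d, ‖(Pi.single k (1 / 2) : E d)‖ = 1 / 2 := fun k => by
    rw [Pi.norm_single]; norm_num
  set x1 : E d := ic (P a) + Pi.single i0 (1 / 2) with hx1
  set x3 : E d := ic z + Pi.single i1 (1 / 2) with hx3
  set x2 : E d := Function.update x3 i0 (x1 i0) with hx2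
  have n1 : ‖x1‖ ≤ K + 1 := (norm_add_le _ _).trans (by rw [hhalf]; linarith [hK a])
  have n3 : ‖x3‖ ≤ K + 1 := (norm_add_le _ _).trans (by rw [hhalf]; linarith)
  have n2 : ‖x2‖ ≤ K + 1 := by
    refine (pi_norm_le_iff_of_nonneg (by linarith)).2 fun k => ?_
    rcases eq_or_ne k i0 with rfl | hk
    · rw [hx2, Function.update_self]
      exact (norm_le_pi_norm x1 k).trans n1
    · rw [hx2, Function.update_of_ne hk]
      exact (norm_le_pi_norm x3 k).trans n3
  have e1 : x1 i0 = P a i0 + 1 / 2 := by simp [hx1, ic]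
  have e2 : x2 i0 = x1 i0 := by rw [hx2, Function.update_self]
  have e3 : x3 i1 = z i1 + 1 / 2 := by simp [hx3, ic]
  have e4 : x2 i1 = x3 i1 := by rw [hx2, Function.update_of_ne h01.symm]
  have s1 := Route1_single hP hK1 a (hK1 a) n1 fun t h0 h1 j hj => by
    refine Route1_near (hP.ne hj.symm) ?_
    rw [hx1, add_sub_cancel_left, add_sub_cancel_left, norm_smul, hhalf, Real.norm_of_nonneg h0]
    linarith
  have s2 := Route1_single hP hK1 a n1 n2 fun t h0 h1 j hj => by
    refine Route1_half (k := i0) (n := P a i0) ?_ _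
    simp [e2, e1]
  have s3 := Route1_single hP hK1 a n2 n3 fun t h0 h1 j hj => by
    refine Route1_half (k := i1) (n := z i1) ?_ _
    simp [e4, e3]
  have s4 := Route1_single hP hK1 a n3 (hz.trans (by linarith)) fun t h0 h1 j hj => by
    refine Route1_near (hza j hj) ?_
    have e : x3 + t • (ic z - x3) - ic z = (1 - t) • (Pi.single i1 (1 / 2) : E d) := by
      rw [hx3]; module
    rw [e, norm_smul, hhalf, Real.norm_of_nonneg (by linarith)]
    linarith
  have s5 := Route1_trans (Route1_trans s1 s2) (Route1_trans s3 s4)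
  have f1 : Function.update (fun i => ic (P i)) a (ic (P a)) = fun i => ic (P i) :=
    Function.update_eq_self a _
  have f2 : Function.update (fun i => ic (P i)) a (ic z) =
      fun i => ic (Function.update P a z i) := by
    funext i
    rcases eq_or_ne i a with rfl | hi
    · simp
    · simp [Function.update_of_ne hi]
  rwa [f1, f2] at s5

theorem Route1_disjoint [Fintype ι] {i0 i1 : Fin d} (h01 : i0 ≠ i1) {K : ℝ}
    {P Q : ι → Fin d → ℤ} (hP : Function.Injective P) (hQ : Function.Injective Q)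
    (hPQ : ∀ i j, P i ≠ Q j) (hPK : ∀ i, ‖ic (P i)‖ ≤ K) (hQK : ∀ i, ‖ic (Q i)‖ ≤ K) :
    Route1_Conn (K + 1) (fun i => ic (P i)) fun i => ic (Q i) := by
  classical
  have key : ∀ s : Finset ι,
      Route1_Conn (K + 1) (fun i => ic (P i)) fun i => ic (if i ∈ s then Q i else P i) := by
    intro s
    induction s using Finset.induction_on with
    | empty =>
      refine Route1_line fun t _ _ => ⟨fun i => ?_, fun i j hij => ?_⟩
      · simpa using (hPK i).trans (by linarith)
      · have := Route1_one_le (hP.ne hij)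
        simp only [Finset.notMem_empty, if_false, sub_self, smul_zero, add_zero]
        linarith
    | insert a s ha ih =>
      have hC : Function.Injective fun i => if i ∈ s then Q i else P i := by
        intro i j hij
        by_cases hi : i ∈ s <;> by_cases hj : j ∈ s <;> simp only [hi, hj, if_true, if_false] at hij
        · exact hQ hij
        · exact absurd hij.symm (hPQ j i)
        · exact absurd hij (hPQ i j)
        · exact hP hij
      have hCK : ∀ i, ‖ic (if i ∈ s then Q i else P i)‖ ≤ K := fun i => by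
        split_ifs
        · exact hQK i
        · exact hPK i
      have hm := Route1_move h01 hC hCK a (hQK a) fun j hj => by
        split_ifs
        · exact hQ.ne hj.symm
        · exact (hPQ j a).symm
      have f : (fun i => ic (Function.update (fun i => if i ∈ s then Q i else P i) a (Q a) i)) =
          fun i => ic (if i ∈ insert a s then Q i else P i) := by
        funext i
        rcases eq_or_ne i a with rfl | hi
        · simp
        · simp [hi]
      rw [f] at hm
      exact Route1_trans ih hm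
  simpa using key Finset.univ

end Route1Aux

theorem exists_route {d : ℕ} {ι : Type} [Fintype ι] {i0 i1 : Fin d} (h01 : i0 ≠ i1)
    {P Q : ι → Fin d → ℤ} (hP : Function.Injective P) (hQ : Function.Injective Q) {M : ℝ}
    (hPM : ∀ i, ‖ic (P i)‖ ≤ M) (hQM : ∀ i, ‖ic (Q i)‖ ≤ M) :
    ∃ r : ι → ℝ → E d, (∀ i, ContDiff ℝ ∞ (r i)) ∧ (∀ i θ, θ ≤ 0 → r i θ = ic (P i)) ∧
      (∀ i θ, 1 ≤ θ → r i θ = ic (Q i)) ∧ (∀ i θ, ‖r i θ‖ ≤ 8 * M + 8) ∧
      ∀ i j θ, i ≠ j → 1 / 2 ≤ ‖r i θ - r j θ‖ := by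
  set c : ℤ := ⌊2 * M⌋ + 1 with hc
  have hc1 : 2 * M < c := by rw [hc]; push_cast; exact Int.lt_floor_add_one _
  have hc2 : (c : ℝ) ≤ 2 * M + 1 := by rw [hc]; push_cast; linarith [Int.floor_le (2 * M)]
  set Q2 : ι → Fin d → ℤ := fun i => Q i + Pi.single i0 c with hQ2
  have hic : ∀ i, ic (Q2 i) = ic (Q i) + Pi.single i0 (c : ℝ) := fun i => by
    funext k
    rcases eq_or_ne k i0 with rfl | hk
    · simp [hQ2, ic]
    · simp [hQ2, ic, Pi.single_eq_of_ne hk]
  have hQ2i : Function.Injective Q2 := fun i j h => hQ (add_right_cancel h)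
  have hM0 : ι → 0 ≤ M := fun i => (norm_nonneg _).trans (hPM i)
  have hQ2K : ∀ i, ‖ic (Q2 i)‖ ≤ 8 * M + 7 := fun i => by
    have h0 := hM0 i
    rw [hic]
    refine (norm_add_le _ _).trans ?_
    rw [Pi.norm_single, Real.norm_of_nonneg (by linarith)]
    linarith [hQM i]
  have hPQ : ∀ i j, P i ≠ Q2 j := fun i j h => by
    have h1 : |(P i i0 : ℝ)| ≤ M := (norm_le_pi_norm (ic (P i)) i0).trans (hPM i)
    have h2 : |(Q j i0 : ℝ)| ≤ M := (norm_le_pi_norm (ic (Q j)) i0).trans (hQM j)
    have h3 : (P i i0 : ℝ) = Q j i0 + c := by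
      rw [h]; simp [hQ2]
    linarith [(abs_le.1 h1).2, (abs_le.1 h2).1]
  have s1 := Route1_disjoint h01 hP hQ2i hPQ (K := 8 * M + 7)
    (fun i => (hPM i).trans (by linarith [hM0 i])) hQ2K
  have s2 : Route1_Conn (8 * M + 7 + 1) (fun i => ic (Q2 i)) fun i => ic (Q i) := by
    refine Route1_line fun t h0 h1 => ⟨fun i => ?_, fun i j hij => ?_⟩
    · exact Route1_norm_seg ((hQ2K i).trans (by linarith)) ((hQM i).trans (by linarith [hM0 i])) h0 h1
    · have h2 := Route1_one_le (hQ.ne hij)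
      have e : ic (Q2 i) + t • (ic (Q i) - ic (Q2 i)) - (ic (Q2 j) + t • (ic (Q j) - ic (Q2 j))) =
          ic (Q i) - ic (Q j) := by
        rw [hic, hic]; module
      simp only
      rw [e]
      linarith
  obtain ⟨r, hr, hr0, hr1, hrg⟩ := Route1_trans s1 s2
  exact ⟨r, hr, hr0, hr1, fun i θ => ((hrg θ).1 i).trans (by linarith),
    fun i j θ hij => (hrg θ).2 i j hij⟩

end Pool.Agent.Lib.MP_ce3247_an
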