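import Pool.Agent.Lib.MP_ce3247_an.Route1

/-! The strands of one level: split, route, merge. -/

open Finset
open scoped ContDiff

namespace Pool.Agent.Lib.MP_ce3247_an

structure Routes (d k : ℕ) (i0 i1 : Fin d) (len : Fin (k + 1) → ℕ)
    (w : Fin (k + 1) → ℕ → Fin (k + 1)) (R : ℝ) where
  p : Fin (k + 1) → ℕ → ℝ → E d
  J : Fin (k + 1) → ℕ → E d
  p_smooth : ∀ b i, ContDiff ℝ ∞ (p b i)
  p_init : ∀ b i θ, i < len b → θ ≤ 1 / 16 → p b i θ = J b i
  p_fin : ∀ b i θ, i < len b → 15 / 16 ≤ θ → p b i θ = J b (i + 1)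
  J_zero : ∀ b, J b 0 = 0
  J_len : ∀ b, J b (len b) = 0
  p_bd : ∀ b i θ, i < len b → ‖p b i θ‖ ≤ R
  p_00 : ∀ θ, θ ≤ 1 / 4 → p 0 0 θ = 0
  sep : ∀ b i b' i' θ, i < len b → i' < len b' → (b, i) ≠ (b', i') →
    1 / 2 ≤ ‖p b i θ - p b' i' θ‖ ∨
    (i = 0 ∧ i' = 0 ∧ θ ≤ 1 / 4 ∧ (b < b' → p b i θ i0 ≤ p b' i' θ i0) ∧
      (b' < b → p b' i' θ i0 ≤ p b i θ i0)) ∨
    (i + 1 = len b ∧ i' + 1 = len b' ∧ 3 / 4 ≤ θ ∧ (b < b' → p b i θ i1 ≤ p b' i' θ i1) ∧
      (b' < b → p b' i' θ i1 ≤ p b i θ i1))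
  col : ∀ b i b' i' θ θ', i < len b → i' < len b' → θ ≤ 1 / 4 → θ' ≤ 1 / 4 → w b i < w b' i' →
    p b i θ i0 + 1 ≤ p b' i' θ' i0
  row : ∀ b i b' i' θ θ', i < len b → i' < len b' → 3 / 4 ≤ θ → 3 / 4 ≤ θ' → w b i < w b' i' →
    p b i θ i1 + 1 ≤ p b' i' θ' i1

private theorem Route2_dig {d k m : ℕ} {len : Fin (k + 1) → ℕ} (htot : ∑ b, len b ≤ m ^ d) :
    ∃ dig : Fin (k + 1) → ℕ → Fin d → ℤ, (∀ b i j, i < len b → 0 ≤ dig b i j ∧ dig b i j < m) ∧
      ∀ b i b' i', i < len b → i' < len b' → dig b i = dig b' i' → b = b' ∧ i = i' := by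
  obtain ⟨g⟩ : Nonempty ((Σ b, Fin (len b)) ↪ (Fin d → Fin m)) :=
    Function.Embedding.nonempty_of_card_le (by simpa using htot)
  refine ⟨fun b i j => if h : i < len b then ((g ⟨b, ⟨i, h⟩⟩ j : ℕ) : ℤ) else 0,
    fun b i j h => ?_, fun b i b' i' h h' e => ?_⟩
  · simp only [dif_pos h]
    exact ⟨Int.natCast_nonneg _, Int.ofNat_lt.2 (g ⟨b, ⟨i, h⟩⟩ j).2⟩
  · have e1 : g ⟨b, ⟨i, h⟩⟩ = g ⟨b', ⟨i', h'⟩⟩ := funext fun j => by
      have := congrFun e j
      simp only [dif_pos h, dif_pos h'] at this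
      exact Fin.ext (by exact_mod_cast this)
    have e2 := g.injective e1
    exact ⟨congrArg Sigma.fst e2, congrArg (fun x : Σ b, Fin (len b) => (x.2 : ℕ)) e2⟩

private theorem Route2_route {d k : ℕ} {i0 i1 : Fin d} (h01 : i0 ≠ i1) {len : Fin (k + 1) → ℕ}
    {P Q : Fin (k + 1) → ℕ → Fin d → ℤ}
    (hP : ∀ b i b' i', i < len b → i' < len b' → P b i = P b' i' → b = b' ∧ i = i')
    (hQ : ∀ b i b' i', i < len b → i' < len b' → Q b i = Q b' i' → b = b' ∧ i = i') {M : ℝ}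
    (hPM : ∀ b i, i < len b → ‖ic (P b i)‖ ≤ M) (hQM : ∀ b i, i < len b → ‖ic (Q b i)‖ ≤ M) :
    ∃ r : Fin (k + 1) → ℕ → ℝ → E d, (∀ b i, ContDiff ℝ ∞ (r b i)) ∧
      (∀ b i θ, i < len b → θ ≤ 0 → r b i θ = ic (P b i)) ∧
      (∀ b i θ, i < len b → 1 ≤ θ → r b i θ = ic (Q b i)) ∧
      (∀ b i θ, i < len b → ‖r b i θ‖ ≤ 8 * M + 8) ∧
      ∀ b i b' i' θ, i < len b → i' < len b' → (b, i) ≠ (b', i') →
        1 / 2 ≤ ‖r b i θ - r b' i' θ‖ := by
  have inj : ∀ {P : Fin (k + 1) → ℕ → Fin d → ℤ},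
      (∀ b i b' i', i < len b → i' < len b' → P b i = P b' i' → b = b' ∧ i = i') →
      Function.Injective fun x : Σ b, Fin (len b) => P x.1 x.2 := by
    rintro P hP ⟨b, i, h⟩ ⟨b', i', h'⟩ e
    obtain ⟨rfl, rfl⟩ := hP b i b' i' h h' e
    rfl
  obtain ⟨r, h1, h2, h3, h4, h5⟩ := exists_route (ι := Σ b, Fin (len b)) h01 (inj hP) (inj hQ)
    (M := M) (fun x => hPM _ _ x.2.2) (fun x => hQM _ _ x.2.2)
  refine ⟨fun b i => if h : i < len b then r ⟨b, ⟨i, h⟩⟩ else fun _ => 0, fun b i => ?_,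
    fun b i θ h hθ => ?_, fun b i θ h hθ => ?_, fun b i θ h => ?_, fun b i b' i' θ h h' hne => ?_⟩
  · by_cases h : i < len b
    · simp only [dif_pos h]
      exact h1 _
    · simp only [dif_neg h]
      exact contDiff_const
  · simp only [dif_pos h]
    exact h2 _ _ hθ
  · simp only [dif_pos h]
    exact h3 _ _ hθ
  · simp only [dif_pos h]
    exact h4 _ _
  · simp only [dif_pos h, dif_pos h']
    refine h5 _ _ _ fun e => hne ?_
    exact congrArg (fun x : Σ b, Fin (len b) => (x.1, (x.2 : ℕ))) e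

private theorem Route2_J {d k m : ℕ} {i0 i1 : Fin d} (h01 : i0 ≠ i1) {len : Fin (k + 1) → ℕ}
    (w : Fin (k + 1) → ℕ → Fin (k + 1)) (htot : ∑ b, len b ≤ m ^ d) :
    ∃ J : Fin (k + 1) → ℕ → Fin d → ℤ, (∀ b, J b 0 = 0) ∧ (∀ b, J b (len b) = 0) ∧
      (∀ b i j, 0 < i → i < len b → (k : ℤ) + 1 ≤ J b i j ∧ J b i j ≤ (k + 1) * (m + 1)) ∧
      (∀ b i b' i', 0 < i → i < len b → 0 < i' → i' < len b' → J b i = J b' i' →
        b = b' ∧ i = i') ∧
      (∀ b i b' i', 0 < i → i < len b → 0 < i' → i' < len b' → w b i < w b' i' →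
        J b i i0 + 1 ≤ J b' i' i0) ∧
      ∀ b i b' i', i + 1 < len b → i' + 1 < len b' → w b i < w b' i' →
        J b (i + 1) i1 + 1 ≤ J b' (i' + 1) i1 := by
  obtain ⟨dig, hd, hinj⟩ := Route2_dig htot
  let c : Fin (k + 1) → ℕ → Fin d → ℕ := fun b i j =>
    if j = i0 then w b i else if j = i1 then w b (i - 1) else 0
  have hc : ∀ b i j, c b i j ≤ k := fun b i j => by
    simp only [c]
    split_ifs
    · exact Nat.lt_succ_iff.1 (w _ _).2
    · exact Nat.lt_succ_iff.1 (w _ _).2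
    · exact Nat.zero_le _
  let J : Fin (k + 1) → ℕ → Fin d → ℤ := fun b i j =>
    if 0 < i ∧ i < len b then m * (c b i j : ℤ) + (k + 1) + dig b i j else 0
  have hJ : ∀ b i j, 0 < i → i < len b → J b i j = m * (c b i j : ℤ) + (k + 1) + dig b i j :=
    fun b i j h h' => if_pos ⟨h, h'⟩
  have hlt : ∀ b i b' i' j, 0 < i → i < len b → 0 < i' → i' < len b' → c b i j < c b' i' j →
      J b i j + 1 ≤ J b' i' j := fun b i b' i' j h1 h2 h3 h4 h5 => by
    rw [hJ _ _ _ h1 h2, hJ _ _ _ h3 h4]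
    have e1 := hd b i j h2
    have e2 := hd b' i' j h4
    have e3 : (c b i j : ℤ) + 1 ≤ c b' i' j := by exact_mod_cast h5
    have e4 := mul_le_mul_of_nonneg_left e3 (Int.natCast_nonneg m)
    linarith [e1.2, e2.1]
  refine ⟨J, fun b => funext fun j => if_neg fun h => lt_irrefl _ h.1,
    fun b => funext fun j => if_neg fun h => lt_irrefl _ h.2, fun b i j h1 h2 => ?_,
    fun b i b' i' h1 h2 h3 h4 e => hinj _ _ _ _ h2 h4 (funext fun j => ?_),
    fun b i b' i' h1 h2 h3 h4 h5 => hlt _ _ _ _ _ h1 h2 h3 h4 (by simpa [c] using h5),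
    fun b i b' i' h2 h4 h5 => hlt _ _ _ _ _ (Nat.succ_pos _) h2 (Nat.succ_pos _) h4
      (by simpa [c, h01.symm] using h5)⟩
  · rw [hJ _ _ _ h1 h2]
    have e1 := hd b i j h2
    have e3 : (c b i j : ℤ) ≤ k := by exact_mod_cast hc b i j
    have e4 := mul_le_mul_of_nonneg_left e3 (Int.natCast_nonneg m)
    have e5 := mul_nonneg (Int.natCast_nonneg m) (Int.natCast_nonneg (c b i j))
    constructor <;> linarith [e1.1, e1.2]
  · have e0 := congrFun e j
    have e1 : c b i j = c b' i' j := by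
      rcases lt_trichotomy (c b i j) (c b' i' j) with h | h | h
      · have := hlt _ _ _ _ _ h1 h2 h3 h4 h
        omega
      · exact h
      · have := hlt _ _ _ _ _ h3 h4 h1 h2 h
        omega
    rw [hJ _ _ _ h1 h2, hJ _ _ _ h3 h4, e1] at e0
    linarith

private theorem Route2_norm {d : ℕ} {z : Fin d → ℤ} {M : ℝ} (hM : 0 ≤ M)
    (h : ∀ j, 0 ≤ z j ∧ (z j : ℝ) ≤ M) : ‖ic z‖ ≤ M := by
  refine (pi_norm_le_iff_of_nonneg hM).2 fun j => ?_
  have h0 : (0 : ℝ) ≤ z j := by exact_mod_cast (h j).1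
  rw [ic, Real.norm_eq_abs, abs_of_nonneg h0]
  exact (h j).2

private theorem Route2_far {d : ℕ} {x y : E d} (j : Fin d) (h : x j + 1 ≤ y j ∨ y j + 1 ≤ x j) :
    1 / 2 ≤ ‖x - y‖ := by
  refine le_trans ?_ (norm_le_pi_norm (x - y) j)
  rw [Pi.sub_apply, Real.norm_eq_abs, le_abs]
  rcases h with h | h
  · right; linarith
  · left; linarith

theorem exists_routes {d k m : ℕ} {i0 i1 : Fin d} (h01 : i0 ≠ i1) {len : Fin (k + 1) → ℕ}
    {w : Fin (k + 1) → ℕ → Fin (k + 1)} (hlen : ∀ b, 2 ≤ len b) (hw0 : ∀ b, w b 0 = 0)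
    (hw1 : ∀ b, w b (len b - 1) = 0) (htot : ∑ b, len b ≤ m ^ d) :
    Nonempty (Routes d k i0 i1 len w (16 * (k + 1) * (m + 1))) := by
  obtain ⟨J, hJ0, hJl, hJb, hJi, hJc, hJr⟩ := Route2_J h01 w htot
  let P : Fin (k + 1) → ℕ → Fin d → ℤ := fun b i =>
    if i = 0 then Pi.single i0 ((b : ℕ) : ℤ) else J b i
  let Q : Fin (k + 1) → ℕ → Fin d → ℤ := fun b i =>
    if i + 1 = len b then Pi.single i1 ((b : ℕ) : ℤ) else J b (i + 1)
  have hbk : ∀ b : Fin (k + 1), ((b : ℕ) : ℤ) ≤ k := fun b => by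
    exact_mod_cast Nat.lt_succ_iff.1 b.2
  have hbk' : ∀ b : Fin (k + 1), ((b : ℕ) : ℝ) ≤ k := fun b => by
    exact_mod_cast Nat.lt_succ_iff.1 b.2
  have hk0 : (0 : ℝ) ≤ k := Nat.cast_nonneg k
  have hm0 : (0 : ℝ) ≤ m := Nat.cast_nonneg m
  have hkm : (0 : ℝ) ≤ k * m := mul_nonneg hk0 hm0
  have hM : (0 : ℝ) ≤ (k + 1) * (m + 1) := by positivity
  have hsn : ∀ (b : Fin (k + 1)) (j : Fin d),
      ‖ic (Pi.single j ((b : ℕ) : ℤ) : Fin d → ℤ)‖ ≤ (k + 1) * (m + 1) := fun b j =>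
    Route2_norm hM fun j' => by
      rw [Pi.single_apply]
      split_ifs
      · refine ⟨Int.natCast_nonneg _, ?_⟩
        have := hbk' b
        push_cast
        linarith
      · exact ⟨le_rfl, by simpa using hM⟩
  have hJn : ∀ b i, 0 < i → i < len b → ‖ic (J b i)‖ ≤ (k + 1) * (m + 1) := fun b i h1 h2 =>
    Route2_norm hM fun j => ⟨by have := (hJb b i j h1 h2).1; omega,
      by exact_mod_cast (hJb b i j h1 h2).2⟩
  obtain ⟨r, hr1, hr2, hr3, hr4, hr5⟩ := Route2_route h01 (len := len) (P := P) (Q := Q)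
    (M := (k + 1) * (m + 1)) (fun b i b' i' h h' e => by
      simp only [P] at e
      split_ifs at e with a1 a2 a2
      · have := congrFun e i0
        simp only [Pi.single_eq_same] at this
        exact ⟨Fin.ext (by exact_mod_cast this), a1.trans a2.symm⟩
      · have := congrFun e i0
        simp only [Pi.single_eq_same] at this
        have h1 := (hJb b' i' i0 (Nat.pos_of_ne_zero a2) h').1
        have h2 := hbk b
        omega
      · have := congrFun e i0
        simp only [Pi.single_eq_same] at this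
        have h1 := (hJb b i i0 (Nat.pos_of_ne_zero a1) h).1
        have h2 := hbk b'
        omega
      · exact hJi _ _ _ _ (Nat.pos_of_ne_zero a1) h (Nat.pos_of_ne_zero a2) h' e)
    (fun b i b' i' h h' e => by
      simp only [Q] at e
      split_ifs at e with a1 a2 a2
      · have := congrFun e i1
        simp only [Pi.single_eq_same] at this
        obtain rfl : b = b' := Fin.ext (by exact_mod_cast this)
        exact ⟨rfl, by omega⟩
      · have := congrFun e i1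
        simp only [Pi.single_eq_same] at this
        have h1 := (hJb b' (i' + 1) i1 (Nat.succ_pos _) (by omega)).1
        have h2 := hbk b
        omega
      · have := congrFun e i1
        simp only [Pi.single_eq_same] at this
        have h1 := (hJb b (i + 1) i1 (Nat.succ_pos _) (by omega)).1
        have h2 := hbk b'
        omega
      · have := hJi _ _ _ _ (Nat.succ_pos _) (by omega) (Nat.succ_pos _) (by omega) e
        exact ⟨this.1, by omega⟩)
    (fun b i h => by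
      simp only [P]
      split_ifs with a1
      · exact hsn _ _
      · exact hJn _ _ (Nat.pos_of_ne_zero a1) h)
    (fun b i h => by
      simp only [Q]
      split_ifs with a1
      · exact hsn _ _
      · exact hJn _ _ (Nat.succ_pos _) (by omega))
  let u : ℝ → ℝ := fun θ => Real.smoothTransition ((θ - 1 / 16) * (16 / 3))
  let v : ℝ → ℝ := fun θ => Real.smoothTransition ((θ - 3 / 4) * (16 / 3))
  have hu : ∀ θ, 0 ≤ u θ ∧ u θ ≤ 1 := fun θ =>
    ⟨Real.smoothTransition.nonneg _, Real.smoothTransition.le_one _⟩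
  have hv : ∀ θ, 0 ≤ v θ ∧ v θ ≤ 1 := fun θ =>
    ⟨Real.smoothTransition.nonneg _, Real.smoothTransition.le_one _⟩
  have hu0 : ∀ θ, θ ≤ 1 / 16 → u θ = 0 := fun θ h =>
    Real.smoothTransition.zero_of_nonpos (by linarith)
  have hu1 : ∀ θ, 1 / 4 ≤ θ → u θ = 1 := fun θ h =>
    Real.smoothTransition.one_of_one_le (by linarith)
  have hv0 : ∀ θ, θ ≤ 3 / 4 → v θ = 0 := fun θ h =>
    Real.smoothTransition.zero_of_nonpos (by linarith)
  have hv1 : ∀ θ, 15 / 16 ≤ θ → v θ = 1 := fun θ h =>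
    Real.smoothTransition.one_of_one_le (by linarith)
  let A : Fin (k + 1) → ℕ → E d := fun b i => if i = 0 then Pi.single i0 ((b : ℕ) : ℝ) else 0
  let B : Fin (k + 1) → ℕ → E d := fun b i =>
    if i + 1 = len b then Pi.single i1 ((b : ℕ) : ℝ) else 0
  let p : Fin (k + 1) → ℕ → ℝ → E d := fun b i θ =>
    r b i (2 * θ - 1 / 2) - (1 - u θ) • A b i - v θ • B b i
  have hic : ∀ (j : Fin d) (b : Fin (k + 1)),
      ic (Pi.single j ((b : ℕ) : ℤ) : Fin d → ℤ) = Pi.single j ((b : ℕ) : ℝ) := fun j b => by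
    funext j'
    simp only [ic, Pi.single_apply]
    split_ifs <;> simp
  have hic0 : ic (0 : Fin d → ℤ) = 0 := by
    funext j
    simp [ic]
  have e1 : ∀ b θ, θ ≤ 1 / 4 → p b 0 θ = u θ • (Pi.single i0 ((b : ℕ) : ℝ) : E d) :=
    fun b θ h => by
      have := hlen b
      simp only [p, hr2 b 0 (2 * θ - 1 / 2) (by omega) (by linarith), hv0 θ (by linarith), P, A,
        if_true, hic, zero_smul, sub_zero, sub_smul, one_smul, sub_sub_cancel]
  have e2 : ∀ b i θ, 0 < i → i < len b → θ ≤ 1 / 4 → p b i θ = ic (J b i) :=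
    fun b i θ h0 hi h => by
      simp only [p, hr2 b i (2 * θ - 1 / 2) hi (by linarith), hv0 θ (by linarith), P, A,
        if_neg h0.ne', zero_smul, smul_zero, sub_zero]
  have e3 : ∀ b i θ, i + 1 = len b → 3 / 4 ≤ θ →
      p b i θ = (1 - v θ) • (Pi.single i1 ((b : ℕ) : ℝ) : E d) := fun b i θ hi h => by
    simp only [p, hr3 b i (2 * θ - 1 / 2) (by omega) (by linarith), hu1 θ (by linarith), Q, B,
      if_pos hi, hic, sub_self, sub_zero, sub_smul, one_smul]
  have e4 : ∀ b i θ, i + 1 < len b → 3 / 4 ≤ θ → p b i θ = ic (J b (i + 1)) :=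
    fun b i θ hi h => by
      simp only [p, hr3 b i (2 * θ - 1 / 2) (by omega) (by linarith), hu1 θ (by linarith), Q, B,
        if_neg hi.ne, sub_self, zero_smul, smul_zero, sub_zero]
  have e5 : ∀ b i θ, (i ≠ 0 ∨ 1 / 4 ≤ θ) → (i + 1 ≠ len b ∨ θ ≤ 3 / 4) →
      p b i θ = r b i (2 * θ - 1 / 2) := fun b i θ h1 h2 => by
    have a1 : (1 - u θ) • A b i = 0 := by
      rcases h1 with h | h
      · simp [A, h]
      · simp [hu1 θ h]
    have a2 : v θ • B b i = 0 := by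
      rcases h2 with h | h
      · simp [B, h]
      · simp [hv0 θ h]
    simp only [p, a1, a2, sub_zero]
  have hJb' : ∀ b i j, 0 < i → i < len b → (k : ℝ) + 1 ≤ ic (J b i) j := fun b i j h1 h2 => by
    have := (hJb b i j h1 h2).1
    rw [ic]
    exact_mod_cast this
  have c0 : ∀ b b' i' θ θ', 0 < i' → i' < len b' → θ ≤ 1 / 4 → θ' ≤ 1 / 4 →
      p b 0 θ i0 + 1 ≤ p b' i' θ' i0 := fun b b' i' θ θ' h1 h2 h3 h4 => by
    rw [e1 b θ h3, e2 b' i' θ' h1 h2 h4]
    simp only [Pi.smul_apply, Pi.single_eq_same, smul_eq_mul]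
    have := mul_le_of_le_one_left (Nat.cast_nonneg (α := ℝ) (b : ℕ)) (hu θ).2
    linarith [hJb' b' i' i0 h1 h2, hbk' b]
  have c1 : ∀ b i b' i' θ θ', i + 1 = len b → i' + 1 < len b' → 3 / 4 ≤ θ → 3 / 4 ≤ θ' →
      p b i θ i1 + 1 ≤ p b' i' θ' i1 := fun b i b' i' θ θ' h1 h2 h3 h4 => by
    rw [e3 b i θ h1 h3, e4 b' i' θ' h2 h4]
    simp only [Pi.smul_apply, Pi.single_eq_same, smul_eq_mul]
    have := mul_le_of_le_one_left (Nat.cast_nonneg (α := ℝ) (b : ℕ))
      (show 1 - v θ ≤ 1 by linarith [(hv θ).1])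
    linarith [hJb' b' (i' + 1) i1 (Nat.succ_pos _) h2, hbk' b]
  have hsk : ∀ (j : Fin d) (b : Fin (k + 1)), ‖(Pi.single j ((b : ℕ) : ℝ) : E d)‖ ≤ k :=
    fun j b => by
      rw [Pi.norm_single, Real.norm_natCast]
      exact hbk' b
  have hA : ∀ b i, ‖A b i‖ ≤ k := fun b i => by
    simp only [A]
    split_ifs
    · exact hsk _ _
    · simp
  have hB : ∀ b i, ‖B b i‖ ≤ k := fun b i => by
    simp only [B]
    split_ifs
    · exact hsk _ _
    · simp
  have hcast : ∀ {b b' : Fin (k + 1)}, b < b' → ((b : ℕ) : ℝ) ≤ (b' : ℕ) := fun h => by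
    exact_mod_cast h.le
  refine ⟨⟨p, fun b i => ic (J b i), fun b i => ?_, fun b i θ hi h => ?_, fun b i θ hi h => ?_,
    fun b => by rw [hJ0, hic0], fun b => by rw [hJl, hic0], fun b i θ hi => ?_, fun θ h => ?_,
    fun b i b' i' θ hi hi' hne => ?_, fun b i b' i' θ θ' hi hi' h h' hw => ?_,
    fun b i b' i' θ θ' hi hi' h h' hw => ?_⟩⟩
  · have su : ContDiff ℝ ∞ u := Real.smoothTransition.contDiff.comp (by fun_prop)
    have sv : ContDiff ℝ ∞ v := Real.smoothTransition.contDiff.comp (by fun_prop)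
    have sr : ContDiff ℝ ∞ fun θ : ℝ => r b i (2 * θ - 1 / 2) := (hr1 b i).comp (by fun_prop)
    exact (sr.sub ((contDiff_const.sub su).smul contDiff_const)).sub (sv.smul contDiff_const)
  · rcases Nat.eq_zero_or_pos i with rfl | h0
    · rw [e1 b θ (by linarith), hu0 θ h, zero_smul, hJ0, hic0]
    · exact e2 b i θ h0 hi (by linarith)
  · rcases (Nat.succ_le_of_lt hi).eq_or_lt with h0 | h0
    · have h0' : i + 1 = len b := h0
      rw [e3 b i θ h0 (by linarith), hv1 θ h, sub_self, zero_smul, h0', hJl, hic0]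
    · exact e4 b i θ h0 (by linarith)
  · have a1 : ‖(1 - u θ) • A b i‖ ≤ k := by
      rw [norm_smul, Real.norm_eq_abs, abs_of_nonneg (by linarith [(hu θ).2])]
      exact (mul_le_of_le_one_left (norm_nonneg _) (by linarith [(hu θ).1])).trans (hA b i)
    have a2 : ‖v θ • B b i‖ ≤ k := by
      rw [norm_smul, Real.norm_eq_abs, abs_of_nonneg (hv θ).1]
      exact (mul_le_of_le_one_left (norm_nonneg _) (hv θ).2).trans (hB b i)
    have a3 := hr4 b i (2 * θ - 1 / 2) hi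
    have a4 := (norm_sub_le _ _).trans (add_le_add ((norm_sub_le _ _).trans (add_le_add a3 a1)) a2)
    refine a4.trans ?_
    linarith
  · rw [e1 0 θ h]
    simp
  · by_cases t1 : θ ≤ 1 / 4
    · rcases Nat.eq_zero_or_pos i with rfl | h0 <;> rcases Nat.eq_zero_or_pos i' with rfl | h0'
      · refine Or.inr (Or.inl ⟨rfl, rfl, t1, fun h => ?_, fun h => ?_⟩)
        all_goals
          rw [e1 b θ t1, e1 b' θ t1]
          simp only [Pi.smul_apply, Pi.single_eq_same, smul_eq_mul]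
          exact mul_le_mul_of_nonneg_left (hcast h) (hu θ).1
      · exact Or.inl (Route2_far i0 (Or.inl (c0 b b' i' θ θ h0' hi' t1 t1)))
      · exact Or.inl (Route2_far i0 (Or.inr (c0 b' b i θ θ h0 hi t1 t1)))
      · rw [e5 b i θ (Or.inl h0.ne') (Or.inr (by linarith)),
          e5 b' i' θ (Or.inl h0'.ne') (Or.inr (by linarith))]
        exact Or.inl (hr5 _ _ _ _ _ hi hi' hne)
    · by_cases t2 : 3 / 4 ≤ θ
      · rcases (Nat.succ_le_of_lt hi).eq_or_lt with h0 | h0 <;>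
          rcases (Nat.succ_le_of_lt hi').eq_or_lt with h0' | h0'
        · refine Or.inr (Or.inr ⟨h0, h0', t2, fun h => ?_, fun h => ?_⟩)
          all_goals
            rw [e3 b i θ h0 t2, e3 b' i' θ h0' t2]
            simp only [Pi.smul_apply, Pi.single_eq_same, smul_eq_mul]
            exact mul_le_mul_of_nonneg_left (hcast h) (by linarith [(hv θ).2])
        · exact Or.inl (Route2_far i1 (Or.inl (c1 b i b' i' θ θ h0 h0' t2 t2)))
        · exact Or.inl (Route2_far i1 (Or.inr (c1 b' i' b i θ θ h0' h0 t2 t2)))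
        · rw [e5 b i θ (Or.inr (by linarith)) (Or.inl h0.ne),
            e5 b' i' θ (Or.inr (by linarith)) (Or.inl h0'.ne)]
          exact Or.inl (hr5 _ _ _ _ _ hi hi' hne)
      · rw [e5 b i θ (Or.inr (by linarith)) (Or.inr (by linarith)),
          e5 b' i' θ (Or.inr (by linarith)) (Or.inr (by linarith))]
        exact Or.inl (hr5 _ _ _ _ _ hi hi' hne)
  · have h0' : 0 < i' := Nat.pos_of_ne_zero (by
      rintro rfl
      rw [hw0 b'] at hw
      exact absurd hw (Fin.not_lt_zero _))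
    rcases Nat.eq_zero_or_pos i with rfl | h0
    · exact c0 b b' i' θ θ' h0' hi' h h'
    · rw [e2 b i θ h0 hi h, e2 b' i' θ' h0' hi' h']
      have := hJc b i b' i' h0 hi h0' hi' hw
      simp only [ic]
      exact_mod_cast this
  · have h0' : i' + 1 < len b' := by
      by_contra hcon
      obtain rfl : i' = len b' - 1 := by omega
      rw [hw1 b'] at hw
      exact absurd hw (Fin.not_lt_zero _)
    rcases (Nat.succ_le_of_lt hi).eq_or_lt with h0 | h0
    · exact c1 b i b' i' θ θ' h0 h0' h h'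
    · rw [e4 b i θ h0 h, e4 b' i' θ' h0' h']
      have := hJr b i b' i' h0 h0' hw
      simp only [ic]
      exact_mod_cast this

end Pool.Agent.Lib.MP_ce3247_an
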