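import Pool.Agent.Lib.MP_ce3247_an.Cur1
import Pool.Agent.Lib.MP_ce3247_an.EqFix

/-! Strands over different tubes are far apart. -/

open Finset
open scoped ContDiff

namespace Pool.Agent.Lib.MP_ce3247_an.Geo

variable {d k : ℕ} (S : Geo d k)

/-- The distance between far points of level `n` curves. -/
noncomputable def Sep_σ : ℕ → ℝ
  | 0 => S.σ0
  | n + 1 => S.ρ ^ (n + 1) / 2

/-- Two points on level `n` curves are far, or splitting, or merging. -/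
def Sep_Q (n : ℕ) (a a' : Fin (k + 1)) (θ θ' : ℝ) (x x' : E d) : Prop :=
  S.Sep_σ n ≤ ‖x - x'‖ ∨
    (a ≠ a' ∧ θ ≤ 1 / 4 ∧ θ' ≤ 1 / 4 ∧ (a < a' → x S.i0 ≤ x' S.i0) ∧
      (a' < a → x' S.i0 ≤ x S.i0)) ∨
    (a ≠ a' ∧ 3 / 4 ≤ θ ∧ 3 / 4 ≤ θ' ∧ (a < a' → x S.i1 ≤ x' S.i1) ∧
      (a' < a → x' S.i1 ≤ x S.i1))

/-- The separation property of the level `n` curves. -/
def Sep_P (n : ℕ) : Prop :=
  ∀ (a a' : Fin (k + 1)) (m m' : ℤ) (z z' : Fin d → ℤ) (t : ℝ), 0 ≤ t - m → t - m < S.ℓ n a →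
    0 ≤ t - m' → t - m' < S.ℓ n a' → (a, m, z) ≠ (a', m', z') →
    S.Sep_Q n a a' ((t - m) / S.ℓ n a) ((t - m') / S.ℓ n a') (ic z + S.Γ n a (t - m))
      (ic z' + S.Γ n a' (t - m'))

/-- The separation property of the strands over the level `n` curves. -/
def Sep_T (n : ℕ) : Prop :=
  ∀ (a a' b b' : Fin (k + 1)) (m m' : ℤ) (z z' : Fin d → ℤ) (i i' : ℕ) (t : ℝ),
    S.Val n a m b i t → S.Val n a' m' b' i' t → (a, m, z) ≠ (a', m', z') →
    S.ρ ^ (n + 1) ≤ ‖S.sub n a m z b i t - S.sub n a' m' z' b' i' t‖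

lemma Sep_σ_ge (n : ℕ) : (2 * S.R + 1) * S.ρ ^ (n + 1) ≤ S.Sep_σ n := by
  have h1 := S.ρ_small
  have h2 := S.ρ_pos
  have h3 := S.R_nonneg
  have h4 := S.σ0_le
  have h5 := S.σ0_pos
  cases n with
  | zero =>
    simp only [Sep_σ, zero_add, pow_one]
    nlinarith [mul_nonneg h2.le h3]
  | succ n =>
    have h6 : (2 * S.R + 1) * S.ρ ≤ 1 / 2 := by nlinarith [mul_nonneg h2.le h3]
    have h7 : 0 < S.ρ ^ (n + 1) := pow_pos h2 _
    simp only [Sep_σ]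
    calc (2 * S.R + 1) * S.ρ ^ (n + 1 + 1) = (2 * S.R + 1) * S.ρ * S.ρ ^ (n + 1) := by ring
      _ ≤ 1 / 2 * S.ρ ^ (n + 1) := by gcongr
      _ = S.ρ ^ (n + 1) / 2 := by ring

lemma Sep_coord {r : ℝ} (hr : 0 ≤ r) {x x' u u' : E d} {j : Fin d} (hx : x j ≤ x' j)
    (hu : u j + 1 ≤ u' j) : r ≤ ‖(x + r • u) - (x' + r • u')‖ := by
  refine le_trans ?_ (norm_le_pi_norm _ j)
  simp only [Pi.sub_apply, Pi.add_apply, Pi.smul_apply, smul_eq_mul, Real.norm_eq_abs]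
  refine le_trans ?_ (neg_le_abs _)
  nlinarith [mul_le_mul_of_nonneg_left hu hr]

lemma Sep_zero : S.Sep_P 0 := by
  intro a a' m m' z z' t h0 h1 h0' h1' hne
  simp only [ℓ, Nat.cast_one] at h1 h1'
  have hm : m = m' := by
    have e1 : (m : ℝ) < m' + 1 := by linarith
    have e2 : (m' : ℝ) < m + 1 := by linarith
    have e3 : m < m' + 1 := by exact_mod_cast e1
    have e4 : m' < m + 1 := by exact_mod_cast e2
    omega
  subst hm
  have hne' : (a, z) ≠ (a', z') := by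
    intro h
    apply hne
    rw [Prod.mk.injEq] at h
    rw [h.1, h.2]
  simp only [Sep_Q, Sep_σ, ℓ, Γ, Nat.cast_one, div_one]
  rcases S.bs.G0_sep a a' z z' (t - m) hne' with h | h | h
  · exact Or.inl h
  · exact Or.inr (Or.inl ⟨h.1, h.2.1, h.2.1, h.2.2⟩)
  · exact Or.inr (Or.inr ⟨h.1, h.2.1, h.2.1, h.2.2⟩)

lemma Sep_T_of_P {n : ℕ} (hP : S.Sep_P n) : S.Sep_T n := by
  rintro a a' b b' m m' z z' i i' t ⟨hi, hw, h0, h1⟩ ⟨hi', hw', h0', h1'⟩ hne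
  have hr : 0 < S.ρ ^ (n + 1) := pow_pos S.ρ_pos _
  unfold sub
  rcases hP a a' m m' z z' t h0 h1 h0' h1' hne with h | ⟨ha, e, e', c, c'⟩ | ⟨ha, e, e', c, c'⟩
  · set x := ic z + S.Γ n a (t - m)
    set x' := ic z' + S.Γ n a' (t - m')
    have b1 := S.rt.p_bd b i ((t - m) / S.ℓ n a) hi
    have b2 := S.rt.p_bd b' i' ((t - m') / S.ℓ n a') hi'
    set u := S.rt.p b i ((t - m) / S.ℓ n a)
    set u' := S.rt.p b' i' ((t - m') / S.ℓ n a')
    have e1 : x - x' = (x + S.ρ ^ (n + 1) • u - (x' + S.ρ ^ (n + 1) • u')) -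
        S.ρ ^ (n + 1) • (u - u') := by
      rw [smul_sub]
      abel
    have e2 : ‖S.ρ ^ (n + 1) • (u - u')‖ ≤ S.ρ ^ (n + 1) * (2 * S.R) := by
      rw [norm_smul, Real.norm_of_nonneg hr.le]
      gcongr
      linarith [norm_sub_le u u']
    have e3 := norm_sub_le (x + S.ρ ^ (n + 1) • u - (x' + S.ρ ^ (n + 1) • u'))
      (S.ρ ^ (n + 1) • (u - u'))
    rw [← e1] at e3
    have e4 := S.Sep_σ_ge n
    linarith
  · rcases lt_or_gt_of_ne ha with hl | hl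
    · exact Sep_coord hr.le (c hl) (S.rt.col b i b' i' _ _ hi hi' e e' (by rwa [hw, hw']))
    · rw [norm_sub_rev]
      exact Sep_coord hr.le (c' hl) (S.rt.col b' i' b i _ _ hi' hi e' e (by rwa [hw, hw']))
  · rcases lt_or_gt_of_ne ha with hl | hl
    · exact Sep_coord hr.le (c hl) (S.rt.row b i b' i' _ _ hi hi' e e' (by rwa [hw, hw']))
    · rw [norm_sub_rev]
      exact Sep_coord hr.le (c' hl) (S.rt.row b' i' b i _ _ hi' hi e' e (by rwa [hw, hw']))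

lemma Sep_first {n : ℕ} {b : Fin (k + 1)} {s : ℝ} (h0 : 0 ≤ s)
    (h : (s - S.Tm n b 0) / S.ℓ n (S.w b 0) ≤ 1 / 4) : s / S.ℓ (n + 1) b ≤ 1 / 4 := by
  rw [S.Tm_zero, Nat.cast_zero, sub_zero] at h
  have h1 : S.ℓ n (S.w b 0) ≤ S.ℓ (n + 1) b := by
    have h2 := (S.Tm_mono n b).monotone (show 0 + 1 ≤ S.len b by have := S.len_two b; omega)
    rwa [S.Tm_succ, S.Tm_zero, zero_add, S.Tm_len] at h2
  have h3 : (0 : ℝ) < S.ℓ n (S.w b 0) := by exact_mod_cast S.ℓ_pos n (S.w b 0)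
  refine le_trans ?_ h
  gcongr

lemma Sep_last {n : ℕ} {b : Fin (k + 1)} {i : ℕ} (hi : i + 1 = S.len b) {s : ℝ}
    (h : 3 / 4 ≤ (s - S.Tm n b i) / S.ℓ n (S.w b i)) : 3 / 4 ≤ s / S.ℓ (n + 1) b := by
  have h1 : S.ℓ (n + 1) b = S.Tm n b i + S.ℓ n (S.w b i) := by
    rw [← S.Tm_succ, hi, S.Tm_len]
  have h3 : (0 : ℝ) < S.ℓ n (S.w b i) := by exact_mod_cast S.ℓ_pos n (S.w b i)
  have h4 : (0 : ℝ) ≤ S.Tm n b i := Nat.cast_nonneg _
  rw [le_div_iff₀ h3] at h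
  rw [h1, Nat.cast_add, le_div_iff₀ (by positivity)]
  linarith

lemma Sep_P_of_T {n : ℕ} (hT : S.Sep_T n) : S.Sep_P (n + 1) := by
  intro b b' m m' z z' t h0 h1 h0' h1' hne
  have hr : 0 < S.ρ ^ (n + 1) := pow_pos S.ρ_pos _
  obtain ⟨i, hv, he⟩ := S.exists_sub n b m z h0 h1
  obtain ⟨i', hv', he'⟩ := S.exists_sub n b' m' z' h0' h1'
  rw [he, he']
  by_cases hb : (S.w b i, m + S.Tm n b i, z + S.Kp n b i) =
      (S.w b' i', m' + S.Tm n b' i', z' + S.Kp n b' i')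
  swap
  · refine Or.inl (le_trans ?_ (hT _ _ _ _ _ _ _ _ _ _ _ hv hv' hb))
    simp only [Sep_σ]
    linarith
  simp only [Prod.mk.injEq] at hb
  obtain ⟨ea, em, ez⟩ := hb
  have hbi : (b, i) ≠ (b', i') := by
    intro h
    rw [Prod.mk.injEq] at h
    obtain ⟨rfl, rfl⟩ := h
    apply hne
    rw [add_right_cancel em, add_right_cancel ez]
  have t1 : t - ((m + S.Tm n b i : ℤ) : ℝ) = t - m - S.Tm n b i := by
    push_cast
    ring
  have t2 : t - ((m + S.Tm n b i : ℤ) : ℝ) = t - m' - S.Tm n b' i' := by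
    rw [em]
    push_cast
    ring
  unfold sub
  rw [← ea, ← em, ← ez]
  set x := ic (z + S.Kp n b i) + S.Γ n (S.w b i) (t - ((m + S.Tm n b i : ℤ) : ℝ))
  set θ := (t - ((m + S.Tm n b i : ℤ) : ℝ)) / S.ℓ n (S.w b i) with hθ
  have mono : ∀ (u u' : E d) (j : Fin d), u j ≤ u' j →
      (x + S.ρ ^ (n + 1) • u) j ≤ (x + S.ρ ^ (n + 1) • u') j := by
    intro u u' j h
    simp only [Pi.add_apply, Pi.smul_apply, smul_eq_mul]
    gcongr
  rcases S.rt.sep b i b' i' θ hv.1 hv'.1 hbi with h | ⟨e, e', h, c, c'⟩ | ⟨e, e', h, c, c'⟩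
  · refine Or.inl ?_
    rw [add_sub_add_left_eq_sub, ← smul_sub, norm_smul, Real.norm_of_nonneg hr.le]
    simp only [Sep_σ]
    nlinarith
  · subst e e'
    refine Or.inr (Or.inl ⟨fun hh => hbi (by rw [hh]), S.Sep_first h0 ?_, S.Sep_first h0' ?_,
      fun hl => mono _ _ _ (c hl), fun hl => mono _ _ _ (c' hl)⟩)
    · rwa [← t1]
    · rwa [← t2, ← ea]
  · refine Or.inr (Or.inr ⟨fun hh => hbi ?_, S.Sep_last e ?_, S.Sep_last e' ?_,
      fun hl => mono _ _ _ (c hl), fun hl => mono _ _ _ (c' hl)⟩)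
    · subst hh
      rw [show i = i' by omega]
    · rwa [← t1]
    · rwa [← t2, ← ea]

lemma Sep_all (n : ℕ) : S.Sep_P n := by
  induction n with
  | zero => exact S.Sep_zero
  | succ n ih => exact S.Sep_P_of_T (S.Sep_T_of_P ih)

theorem sep (n : ℕ) {a a' b b' : Fin (k + 1)} {m m' : ℤ} {z z' : Fin d → ℤ} {i i' : ℕ} {t : ℝ}
    (h : S.Val n a m b i t) (h' : S.Val n a' m' b' i' t) (hne : (a, m, z) ≠ (a', m', z')) :
    S.ρ ^ (n + 1) ≤ ‖S.sub n a m z b i t - S.sub n a' m' z' b' i' t‖ :=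
  S.Sep_T_of_P (S.Sep_all n) a a' b b' m m' z z' i i' t h h' hne

end Pool.Agent.Lib.MP_ce3247_an.Geo
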