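import Pool.Agent.Lib.MP_ce3247_an.Est
import Pool.Agent.Lib.MP_ce3247_an.Pot

/-! From the self-similar data to the analytic data. -/

open Finset Filter Topology
open scoped ContDiff

namespace Pool.Agent.Lib.MP_ce3247_an.Geo

variable {d k : ℕ} (S : Geo d k)

private lemma ToData_sq (u : E d) : ‖u‖ ^ 2 ≤ ∑ j, u j ^ 2 := by
  have h0 : 0 ≤ ∑ j, u j ^ 2 := sum_nonneg fun j _ => sq_nonneg _
  have h1 : ‖u‖ ≤ √(∑ j, u j ^ 2) := by
    refine (pi_norm_le_iff_of_nonneg (Real.sqrt_nonneg _)).2 fun j => ?_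
    exact Real.abs_le_sqrt (single_le_sum (f := fun j => u j ^ 2) (fun j _ => sq_nonneg _)
      (mem_univ j))
  calc ‖u‖ ^ 2 ≤ √(∑ j, u j ^ 2) ^ 2 := pow_le_pow_left₀ (norm_nonneg _) h1 2
    _ = _ := Real.sq_sqrt h0

private lemma ToData_split (A : E d × ℝ →L[ℝ] ℝ) (v x : E d) :
    A (v, 1) = A (x, 1) + A (v - x, 0) := by
  rw [← map_add]
  congr 1
  ext <;> simp

private lemma ToData_young (A : E d × ℝ →L[ℝ] ℝ) (v x : E d) {a b : ℝ} (h1 : A (x, 1) ≤ a)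
    (h2 : |A (v - x, 0)| ≤ b * ‖v - x‖) :
    A (v, 1) ≤ (∑ j, (v j - x j) ^ 2) / 2 + (a + b ^ 2) := by
  have h3 := ToData_sq (v - x)
  simp only [Pi.sub_apply] at h3
  rw [ToData_split A v x]
  nlinarith [le_abs_self (A (v - x, 0)), sq_nonneg (b - ‖v - x‖), sq_nonneg b]

private lemma ToData_domF {μ : ℝ} (hμ : |S.lam| ≤ μ) :
    ∃ C, 0 ≤ C ∧ ∀ C2, C ≤ C2 → ∀ P : E d × ℝ → ℝ, Continuous P →
    (∀ y, 0 ≤ P y) → (∀ y, y ∉ S.In 0 → C2 ≤ P y) → (∀ n y, y ∉ S.In (n + 1) →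
      C2 * (μ / S.L) ^ n + C2 * ((μ / S.ρ) ^ n) ^ 2 ≤ P y) →
    ∀ y v, fderiv ℝ S.F y (v, 1) ≤ (∑ j, (v j - S.X y j) ^ 2) / 2 + P y := by
  classical
  obtain ⟨Ce, he0, he⟩ := S.F_est
  obtain ⟨Cg, hg0, hg⟩ := S.F_glob
  refine ⟨Ce + Ce ^ 2 + Cg + Cg ^ 2, by positivity, fun C2 hC P hP hP0 hP1 hP2 y v => ?_⟩
  have hρ := S.ρ_pos
  have hL := S.one_lt_L
  have q1 : 0 ≤ |S.lam| / S.L := by positivity
  have q2 : 0 ≤ |S.lam| / S.ρ := by positivity
  have q1' : |S.lam| / S.L < 1 := by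
    rw [div_lt_one (by linarith)]
    linarith [S.lam_lt, S.ρ_lt]
  have q2' : |S.lam| / S.ρ < 1 := (div_lt_one hρ).2 S.lam_lt
  have key : ∀ y : E d × ℝ, (∀ m : ℤ, y.2 ≠ m) →
      fderiv ℝ S.F y (v, 1) ≤ (∑ j, (v j - S.X y j) ^ 2) / 2 + P y := by
    intro y hy
    by_cases hall : ∀ n, y ∈ S.In n
    · have h1 : ∀ n : ℕ, fderiv ℝ S.F y (v, 1) ≤ (∑ j, (v j - S.X y j) ^ 2) / 2 +
          (Ce * (|S.lam| / S.L) ^ n + (Ce * (|S.lam| / S.ρ) ^ n) ^ 2) := fun n =>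
        ToData_young _ v _ (he n y (hall n) hy).1 ((he n y (hall n) hy).2 _)
      have h2 : Tendsto (fun n : ℕ => (∑ j, (v j - S.X y j) ^ 2) / 2 +
          (Ce * (|S.lam| / S.L) ^ n + (Ce * (|S.lam| / S.ρ) ^ n) ^ 2)) atTop
          (𝓝 ((∑ j, (v j - S.X y j) ^ 2) / 2 + (Ce * 0 + (Ce * 0) ^ 2))) :=
        tendsto_const_nhds.add
          (((tendsto_pow_atTop_nhds_zero_of_lt_one q1 q1').const_mul Ce).add
            (((tendsto_pow_atTop_nhds_zero_of_lt_one q2 q2').const_mul Ce).pow 2))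
      have h3 := ge_of_tendsto' h2 h1
      have := hP0 y
      nlinarith
    · have hex : ∃ n, y ∉ S.In n := not_forall.1 hall
      have hspec := Nat.find_spec hex
      rcases hn : Nat.find hex with _ | n
      · rw [hn] at hspec
        have h1 := ToData_young _ v _ (hg y).1 ((hg y).2 _)
        have h2 := hP1 y hspec
        nlinarith [sq_nonneg Ce]
      · rw [hn] at hspec
        have hin : y ∈ S.In n := by
          by_contra hc
          have := Nat.find_min' hex hc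
          omega
        have h1 := ToData_young _ v _ (he n y hin hy).1 ((he n y hin hy).2 _)
        have h2 := hP2 n y hspec
        have h5 : Ce ≤ C2 := by nlinarith [sq_nonneg Ce, sq_nonneg Cg]
        have h6 : Ce ^ 2 ≤ C2 := by nlinarith [sq_nonneg Cg]
        have h7 : 0 ≤ C2 := he0.trans h5
        have h8 : 0 < S.L := by linarith
        have h3 : Ce * (|S.lam| / S.L) ^ n ≤ C2 * (μ / S.L) ^ n := by gcongr
        have h4 : Ce ^ 2 * ((|S.lam| / S.ρ) ^ n) ^ 2 ≤ C2 * ((μ / S.ρ) ^ n) ^ 2 := by gcongr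
        rw [mul_pow] at h1
        linarith
  have hd : Dense {y : E d × ℝ | ∀ m : ℤ, y.2 ≠ m} := by
    have h1 : Dense (Set.range (Int.cast : ℤ → ℝ))ᶜ :=
      (Set.countable_range _).dense_compl ℝ
    refine ((dense_univ (X := E d)).prod h1).mono fun y hy m hm => ?_
    exact hy.2 ⟨m, hm.symm⟩
  have hX := S.X_smooth.continuous
  have hF : Continuous (fderiv ℝ S.F) := S.F_smooth.continuous_fderiv one_ne_zero
  have hcl : IsClosed {y : E d × ℝ |
      fderiv ℝ S.F y (v, 1) ≤ (∑ j, (v j - S.X y j) ^ 2) / 2 + P y} :=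
    isClosed_le (hF.clm_apply continuous_const) (by fun_prop)
  exact hcl.closure_subset_iff.2 key (hd y)

private lemma ToData_fderiv (j : Fin d) (y : E d × ℝ) (v : E d) :
    fderiv ℝ (fun y : E d × ℝ => S.ζ (y.1 j)) y (v, 1) = deriv S.ζ (y.1 j) * v j := by
  have h1 : HasDerivAt S.ζ (deriv S.ζ (y.1 j)) (y.1 j) :=
    (S.ζ_smooth.differentiable (by simp) _).hasDerivAt
  have h2 : HasFDerivAt (fun y : E d × ℝ => y.1 j)
      ((ContinuousLinearMap.proj j).comp (ContinuousLinearMap.fst ℝ (E d) ℝ)) y :=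
    ((ContinuousLinearMap.proj (R := ℝ) (φ := fun _ : Fin d => ℝ) j).comp
      (ContinuousLinearMap.fst ℝ (E d) ℝ)).hasFDerivAt
  have h3 := (h1.comp_hasFDerivAt y h2).fderiv
  have h4 : (fun y : E d × ℝ => S.ζ (y.1 j)) = S.ζ ∘ fun y : E d × ℝ => y.1 j := rfl
  rw [h4, h3]
  simp

private lemma ToData_domZ : ∃ C, 0 ≤ C ∧ ∀ C2, C ≤ C2 → ∀ P : E d × ℝ → ℝ,
    (∀ y, 0 ≤ P y) → (∀ y, y ∉ S.In 0 → C2 ≤ P y) → ∀ j : Fin d, k ≤ j.val → ∀ y v,
    fderiv ℝ (fun y : E d × ℝ => S.ζ (y.1 j)) y (v, 1) ≤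
      (∑ j, (v j - S.X y j) ^ 2) / 2 + P y := by
  obtain ⟨Cz, hz0, hz⟩ := S.ζ_glob
  obtain ⟨B, hB0, hB⟩ := bdd_of_per S.X_smooth.continuous S.X_per
  refine ⟨Cz * B + Cz ^ 2, by positivity, fun C2 hC P hP0 hP1 j hj y v => ?_⟩
  rw [ToData_fderiv]
  have h0 : (v j - S.X y j) ^ 2 ≤ ∑ j, (v j - S.X y j) ^ 2 :=
    single_le_sum (f := fun j => (v j - S.X y j) ^ 2) (fun j _ => sq_nonneg _) (mem_univ j)
  by_cases hy : y ∈ S.In 0
  · rw [S.ζ_est j hj y hy]
    nlinarith [hP0 y, sq_nonneg (v j - S.X y j)]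
  · have h1 := hP1 y hy
    have h2 : |S.X y j| ≤ B := (norm_le_pi_norm (S.X y) j).trans (hB y)
    have h3 : deriv S.ζ (y.1 j) * S.X y j ≤ Cz * B := by
      refine (le_abs_self _).trans ?_
      rw [abs_mul]
      exact mul_le_mul (hz _) h2 (abs_nonneg _) hz0
    have h4 : deriv S.ζ (y.1 j) ^ 2 ≤ Cz ^ 2 := by
      rw [← sq_abs]
      exact pow_le_pow_left₀ (abs_nonneg _) (hz _) 2
    nlinarith [sq_nonneg (deriv S.ζ (y.1 j) - (v j - S.X y j)), sq_nonneg Cz]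

private lemma ToData_rot {h : E d}
    (hrot : Tendsto (fun n => ((S.ℓ n 0 : ℝ))⁻¹ • ic (S.κ n 0)) atTop (𝓝 h)) :
    ∃ T : ℕ → ℝ, Tendsto T atTop atTop ∧
      Tendsto (fun n => (T n)⁻¹ • S.γ (T n)) atTop (𝓝 h) := by
  refine ⟨fun n => (S.ℓ n 0 : ℝ), ?_, ?_⟩
  · refine tendsto_atTop_mono (fun n => ?_) (tendsto_pow_atTop_atTop_of_one_lt S.one_lt_L)
    exact S.ℓ_ge n 0
  · have hρ := S.ρ_pos
    have hρ1 : S.ρ < 1 := by linarith [S.ρ_lt]
    have h1 : Tendsto (fun n => ((S.ℓ n 0 : ℝ))⁻¹ • (S.γ (S.ℓ n 0) - ic (S.κ n 0))) atTop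
        (𝓝 0) := by
      have h2 : Tendsto (fun n : ℕ => 2 * S.R * S.ρ * S.ρ ^ n) atTop (𝓝 0) := by
        simpa using (tendsto_pow_atTop_nhds_zero_of_lt_one hρ.le hρ1).const_mul (2 * S.R * S.ρ)
      refine squeeze_zero_norm (fun n => ?_) h2
      have h3 : (1 : ℝ) ≤ S.ℓ n 0 := by exact_mod_cast S.ℓ_pos n 0
      have h4 := S.γ_near n (t := S.ℓ n 0) (by linarith) le_rfl
      rw [S.Γ_fin n 0 (by linarith)] at h4
      rw [norm_smul, norm_inv, Real.norm_of_nonneg (by linarith)]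
      calc _ ≤ 1 * ‖S.γ (S.ℓ n 0) - ic (S.κ n 0)‖ :=
            mul_le_mul_of_nonneg_right (inv_le_one_of_one_le₀ h3) (norm_nonneg _)
        _ ≤ _ := by rw [one_mul]; refine h4.trans_eq ?_; ring
    have h5 := h1.add hrot
    rw [zero_add] at h5
    refine h5.congr fun n => ?_
    rw [← smul_add, sub_add_cancel]

/-- The coordinates without homology. -/
private def ToData_ix (hk : k ≤ d) (i : Fin (d - k)) : Fin d := ⟨k + i.val, by omega⟩

private lemma ToData_ind (hk : k ≤ d) {s : ℕ} {c : Fin s → E d}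
    (hc0 : ∀ i (j : Fin d), k ≤ j.val → c i j = 0) (hc : LinearIndependent ℝ c) :
    LinearIndependent ℝ
      (Sum.elim c fun i : Fin (d - k) => (Pi.single (ToData_ix hk i) 1 : E d)) := by
  rw [Fintype.linearIndependent_iff]
  intro g hg
  rw [Fintype.sum_sum_type] at hg
  simp only [Sum.elim_inl, Sum.elim_inr] at hg
  have h0 : ∀ i, g (.inr i) = 0 := fun i => by
    have h1 := congrFun hg (ToData_ix hk i)
    simp only [Pi.add_apply, Pi.smul_apply, Finset.sum_apply, smul_eq_mul, Pi.zero_apply] at h1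
    rw [Finset.sum_eq_zero fun i' _ => by rw [hc0 _ _ (by simp [ToData_ix]), mul_zero], zero_add,
      Finset.sum_eq_single i] at h1
    · simpa using h1
    · intro i' _ hne
      rw [Pi.single_eq_of_ne, mul_zero]
      intro h2
      have := congrArg Fin.val h2
      simp only [ToData_ix] at this
      exact hne (Fin.ext (by omega))
    · simp
  simp only [h0, zero_smul, Finset.sum_const_zero, add_zero] at hg
  rintro (i | i)
  · exact Fintype.linearIndependent_iff.1 hc _ hg i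
  · exact h0 i

theorem exists_data (hk : k ≤ d) {s j r : ℕ} (hr : 2 ≤ r) (hrd : r ≤ d) (hs : 1 ≤ s)
    (hj : j + s = k) (T : Fin s → Geo d k) (hX : ∀ i, (T i).X = S.X) (hI : ∀ i, (T i).In = S.In)
    (hL : ∀ i, (T i).L = S.L) (hρ : ∀ i, (T i).ρ = S.ρ) {μ : ℝ} (hμ : ∀ i, |(T i).lam| ≤ μ)
    (hV1 : μ < S.ρ ^ r * S.L) (hV2 : μ ^ 2 < S.ρ ^ (r + 2))
    {h : E d} (h0 : ∀ j : Fin d, k ≤ j.val → h j = 0)
    (hc0 : ∀ i (j : Fin d), k ≤ j.val → (T i).c j = 0) (hc : LinearIndependent ℝ fun i => (T i).c)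
    (ha : ∀ i, ∑ j, (T i).c j * h j = (T i).a0)
    (hrot : Tendsto (fun n => ((S.ℓ n 0 : ℝ))⁻¹ • ic (S.κ n 0)) atTop (𝓝 h)) :
    ∃ D : Data d (j + 1), D.h = h ∧ D.r = r := by
  choose C1 h1 hF using fun i => ToData_domF (T i) (hμ i)
  obtain ⟨C2, h2, hZ⟩ := ToData_domZ S
  have h3 : 0 ≤ ∑ i, C1 i := sum_nonneg fun i _ => h1 i
  obtain ⟨P, hPs, hPp, hP0, hPγ, hP1, hP2⟩ := S.exists_P
    ((abs_nonneg _).trans (hμ ⟨0, hs⟩)) hV1 hV2 (∑ i, C1 i + C2) (by positivity)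
  have hix : ∀ i : Fin (d - k), k ≤ (ToData_ix hk i).val := fun i => by simp [ToData_ix]
  let e : Fin (d - (j + 1) + 1) ≃ Fin s ⊕ Fin (d - k) :=
    (finCongr (by omega)).trans finSumFinEquiv.symm
  refine ⟨{
    X := S.X
    P := P
    γ := S.γ
    h := h
    c := fun i => Sum.elim (fun i => (T i).c)
      (fun i : Fin (d - k) => (Pi.single (ToData_ix hk i) 1 : E d)) (e i)
    F := fun i => Sum.elim (fun i => (T i).F)
      (fun (i : Fin (d - k)) (y : E d × ℝ) => S.ζ (y.1 (ToData_ix hk i))) (e i)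
    r := r
    two_le := hr
    X_smooth := S.X_smooth.of_le (by exact_mod_cast hrd)
    P_smooth := hPs
    X_per := S.X_per
    P_per := hPp
    P_nonneg := hP0
    γ_deriv := S.γ_deriv
    γ_P := hPγ
    rot := ToData_rot S hrot
    c_ind := (ToData_ind hk hc0 hc).comp e e.injective
    F_smooth := fun i => ?_
    F_per := fun i z m y => ?_
    dom := fun i y v => ?_ }, rfl, rfl⟩
  · rcases e i with i | i
    · exact (T i).F_smooth
    · exact (S.ζ_smooth.of_le (by simp)).comp (by fun_prop)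
  · rcases e i with i | i
    · simp only [Sum.elim_inl, ha]
      exact (T i).F_per z m y
    · simp only [Sum.elim_inr]
      have e1 : (shift z m y).1 (ToData_ix hk i) =
          y.1 (ToData_ix hk i) + (z (ToData_ix hk i) : ℝ) := rfl
      have e2 : ∀ f : Fin d → ℝ, ∑ j, (Pi.single (ToData_ix hk i) 1 : E d) j * f j =
          f (ToData_ix hk i) := fun f => by
        simp [Pi.single_apply]
      rw [e1, S.ζ_add, e2, e2, h0 _ (hix i)]
      ring
  · rcases e i with i | i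
    · have h4 := single_le_sum (f := C1) (fun i _ => h1 i) (mem_univ i)
      have h5 := hF i (∑ i, C1 i + C2) (by linarith) P hPs.continuous hP0
      rw [hX, hI, hL, hρ] at h5
      exact h5 hP1 hP2 y v
    · exact hZ (∑ i, C1 i + C2) (by linarith) P hP0 hP1 _ (hix i) y v

end Pool.Agent.Lib.MP_ce3247_an.Geo
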