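import Pool.Agent.Lib.MP_ce3247_an.Cur2
import Pool.Agent.Lib.MP_ce3247_an.Sep
import Pool.Agent.Lib.MP_ce3247_an.Per

/-! Sums over all tubes of one level. -/

open Finset Filter Topology
open scoped ContDiff

namespace Pool.Agent.Lib.MP_ce3247_an.Geo

variable {d k : ℕ} {S : Geo d k} {F : Type*} [NormedAddCommGroup F] [NormedSpace ℝ F]
  {G : Fin (k + 1) → E d × ℝ → F} {n : ℕ}

lemma Tube_ic_zero : ic (0 : Fin d → ℤ) = 0 := by
  funext j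
  simp [ic]

lemma Tube_ic_add (z z' : Fin d → ℤ) : ic (z + z') = ic z + ic z' := by
  funext j
  simp [ic]

lemma sub_shift (n : ℕ) (a : Fin (k + 1)) (m : ℤ) (z : Fin d → ℤ) (b : Fin (k + 1)) (i : ℕ)
    (t : ℝ) : S.sub n a m z b i t = ic z + S.sub n a 0 0 b i (t - m) := by
  simp only [sub, Tube_ic_zero, Int.cast_zero, sub_zero, zero_add, add_assoc]

omit [NormedSpace ℝ F] in
lemma per_shift (G : Fin (k + 1) → E d × ℝ → F) (z : Fin d → ℤ) (m : ℤ) (y : E d × ℝ) :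
    per G (shift z m y) = per G y := by
  unfold per
  rw [← finsum_comp_equiv ((Equiv.refl (Fin (k + 1))).prodCongr
    ((Equiv.addRight m).prodCongr (Equiv.addRight z)))]
  refine finsum_congr fun q => ?_
  obtain ⟨a, m', z'⟩ := q
  simp only [Equiv.prodCongr_apply, Prod.map_apply, Equiv.coe_refl, id, Equiv.coe_addRight, shift,
    Tube_ic_add, Int.cast_add, add_sub_add_right_eq_sub]

omit [NormedSpace ℝ F] in
/-- An active translate lies near one of its strands, away from the ends of the tube. -/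
lemma Tube_act (h : S.Supp n G) {a : Fin (k + 1)} {m : ℤ} {z : Fin d → ℤ} {y : E d × ℝ}
    (hy : G a (y.1 - ic z, y.2 - m) ≠ 0) : 1 / 16 < y.2 - m ∧ y.2 - m < S.ℓ n a - 1 / 16 ∧
      ∃ b i, i < S.len b ∧ S.w b i = a ∧ ‖y.1 - S.sub n a m z b i y.2‖ < S.ρ ^ (n + 1) / 4 := by
  obtain ⟨h1, h2, b, i, h3, h4, h5⟩ := h a _ hy
  refine ⟨h1, h2, b, i, h3, h4, ?_⟩
  rw [sub_shift, ← sub_sub]
  exact h5

omit [NormedSpace ℝ F] in
lemma Supp.loc (h : S.Supp n G) (y : E d × ℝ) : ∃ q : Fin (k + 1) × ℤ × (Fin d → ℤ),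
    ∀ᶠ y' in 𝓝 y, ∀ q', q' ≠ q → G q'.1 (y'.1 - ic q'.2.2, y'.2 - q'.2.1) = 0 := by
  obtain ⟨C, hC, hlip⟩ := S.sub_lip
  have hρ : 0 < S.ρ ^ (n + 1) := pow_pos S.ρ_pos _
  obtain ⟨δ, hδ0, hδ1, hδ2⟩ : ∃ δ : ℝ, 0 < δ ∧ δ ≤ 1 / 16 ∧ (1 + C) * δ ≤ S.ρ ^ (n + 1) / 4 := by
    refine ⟨min (1 / 16) (S.ρ ^ (n + 1) / 4 / (1 + C)), by positivity, min_le_left _ _, ?_⟩
    rw [← le_div_iff₀' (by positivity)]
    exact min_le_right _ _
  have key : ∀ (q : Fin (k + 1) × ℤ × (Fin d → ℤ)) (y' : E d × ℝ), y' ∈ Metric.ball y δ →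
      G q.1 (y'.1 - ic q.2.2, y'.2 - q.2.1) ≠ 0 → ∃ b i, S.Val n q.1 q.2.1 b i y.2 ∧
        ‖y.1 - S.sub n q.1 q.2.1 q.2.2 b i y.2‖ < S.ρ ^ (n + 1) / 2 := by
    intro q y' hy' hq
    obtain ⟨h1, h2, b, i, h3, h4, h5⟩ := Tube_act h hq
    rw [Metric.mem_ball, Prod.dist_eq, max_lt_iff, dist_eq_norm, Real.dist_eq] at hy'
    obtain ⟨g1, g2⟩ := hy'
    have g3 := abs_lt.1 g2
    refine ⟨b, i, ⟨h3, h4, by linarith, by linarith⟩, ?_⟩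
    have g4 := (hlip n q.1 q.2.1 q.2.2 b i y'.2 y.2 h3).trans
      (mul_le_mul_of_nonneg_left g2.le hC)
    have e : y.1 - S.sub n q.1 q.2.1 q.2.2 b i y.2 = -(y'.1 - y.1) +
        (y'.1 - S.sub n q.1 q.2.1 q.2.2 b i y'.2) +
        (S.sub n q.1 q.2.1 q.2.2 b i y'.2 - S.sub n q.1 q.2.1 q.2.2 b i y.2) := by abel
    rw [e]
    refine (norm_add₃_le).trans_lt ?_
    rw [norm_neg]
    linarith
  by_cases hex : ∃ q : Fin (k + 1) × ℤ × (Fin d → ℤ), ∃ y' ∈ Metric.ball y δ,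
      G q.1 (y'.1 - ic q.2.2, y'.2 - q.2.1) ≠ 0
  · obtain ⟨q, y₀, hy₀, hq⟩ := hex
    refine ⟨q, ?_⟩
    filter_upwards [Metric.ball_mem_nhds y hδ0] with y' hy' q' hne
    by_contra hq'
    obtain ⟨b, i, h1, h2⟩ := key q y₀ hy₀ hq
    obtain ⟨b', i', h1', h2'⟩ := key q' y' hy' hq'
    have h3 := S.sep n (z := q'.2.2) (z' := q.2.2) h1' h1 hne
    have h4 := norm_sub_le_norm_sub_add_norm_sub (S.sub n q'.1 q'.2.1 q'.2.2 b' i' y.2) y.1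
      (S.sub n q.1 q.2.1 q.2.2 b i y.2)
    rw [norm_sub_rev] at h2'
    linarith
  · push Not at hex
    refine ⟨(0, 0, 0), ?_⟩
    filter_upwards [Metric.ball_mem_nhds y hδ0] with y' hy' q' _
    exact hex q' y' hy'

omit [NormedSpace ℝ F] in
lemma Supp.eventuallyEq (h : S.Supp n G) (y : E d × ℝ) : ∃ (a : Fin (k + 1)) (m : ℤ)
    (z : Fin d → ℤ), per G =ᶠ[𝓝 y] fun y' => G a (y'.1 - ic z, y'.2 - m) := by
  obtain ⟨q, hq⟩ := h.loc y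
  refine ⟨q.1, q.2.1, q.2.2, ?_⟩
  filter_upwards [hq] with y' hy'
  exact finsum_eq_single _ q hy'

lemma Supp.contDiff (h : S.Supp n G) {r : ℕ} (hG : ∀ a, ContDiff ℝ r (G a)) :
    ContDiff ℝ r (per G) := by
  refine contDiff_iff_contDiffAt.2 fun y => ?_
  obtain ⟨a, m, z, he⟩ := h.eventuallyEq y
  refine ContDiffAt.congr_of_eventuallyEq ?_ he
  exact ((hG a).comp ((contDiff_fst.sub contDiff_const).prodMk
    (contDiff_snd.sub contDiff_const))).contDiffAt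

lemma Supp.bound (h : S.Supp n G) {j : ℕ} {M : ℝ}
    (hb : ∀ a y, ‖iteratedFDeriv ℝ j (G a) y‖ ≤ M) (y : E d × ℝ) :
    ‖iteratedFDeriv ℝ j (per G) y‖ ≤ M := by
  obtain ⟨a, m, z, he⟩ := h.eventuallyEq y
  have e : (fun y' : E d × ℝ => G a (y'.1 - ic z, y'.2 - m)) =
      fun y' => G a (y' - (ic z, (m : ℝ))) := rfl
  rw [(he.iteratedFDeriv ℝ j).eq_of_nhds, e, iteratedFDeriv_comp_sub]
  exact hb _ _

omit [NormedSpace ℝ F] in
lemma Supp.eval (h : S.Supp n G) {a b : Fin (k + 1)} {m : ℤ} {z : Fin d → ℤ} {i : ℕ}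
    {y : E d × ℝ} (hv : S.Val n a m b i y.2)
    (hy : ‖y.1 - S.sub n a m z b i y.2‖ ≤ S.ρ ^ (n + 1) / 2) :
    per G y = G a (y.1 - ic z, y.2 - m) := by
  refine finsum_eq_single (fun q : Fin (k + 1) × ℤ × (Fin d → ℤ) =>
    G q.1 (y.1 - ic q.2.2, y.2 - q.2.1)) (a, m, z) fun q hne => ?_
  by_contra hq
  obtain ⟨h1, h2, b', i', h3, h4, h5⟩ := Tube_act h hq
  have hρ : 0 < S.ρ ^ (n + 1) := pow_pos S.ρ_pos _
  have hv' : S.Val n q.1 q.2.1 b' i' y.2 := ⟨h3, h4, by linarith, by linarith⟩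
  have h6 := S.sep n (z := q.2.2) (z' := z) hv' hv hne
  have h7 := norm_sub_le_norm_sub_add_norm_sub (S.sub n q.1 q.2.1 q.2.2 b' i' y.2) y.1
    (S.sub n a m z b i y.2)
  rw [norm_sub_rev] at h5
  linarith

omit [NormedSpace ℝ F] in
lemma Supp.ne_zero (h : S.Supp n G) {y : E d × ℝ} (hy : per G y ≠ 0) : ∃ a m z b i,
    S.Val n a m b i y.2 ∧ ‖y.1 - S.sub n a m z b i y.2‖ < S.ρ ^ (n + 1) / 4 := by
  obtain ⟨q, hq⟩ : ∃ q : Fin (k + 1) × ℤ × (Fin d → ℤ),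
      G q.1 (y.1 - ic q.2.2, y.2 - q.2.1) ≠ 0 := by
    by_contra hcon
    push Not at hcon
    exact hy (finsum_eq_zero_of_forall_eq_zero hcon)
  obtain ⟨h1, h2, b, i, h3, h4, h5⟩ := Tube_act h hq
  exact ⟨q.1, q.2.1, q.2.2, b, i, ⟨h3, h4, by linarith, by linarith⟩, h5⟩

/-- Nesting: a point near a strand of level `n + 1` is in the explicit region of level `n`. -/
lemma nest {a b : Fin (k + 1)} {m : ℤ} {z : Fin d → ℤ} {i : ℕ} {y : E d × ℝ}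
    (hv : S.Val (n + 1) a m b i y.2)
    (hy : ‖y.1 - S.sub (n + 1) a m z b i y.2‖ ≤ S.ρ ^ (n + 2) / 2) :
    ∃ i', S.Val n (S.w a i') (m + S.Tm n a i') a i' y.2 ∧
      ‖y.1 - S.sub n (S.w a i') (m + S.Tm n a i') (z + S.Kp n a i') a i' y.2‖ <
        S.ρ ^ (n + 1) / 8 := by
  obtain ⟨i', h1, h2⟩ := S.exists_sub n a m z hv.2.2.1 hv.2.2.2
  refine ⟨i', h1, ?_⟩
  rw [← h2]
  have hρ : 0 < S.ρ ^ (n + 1) := pow_pos S.ρ_pos _
  have hρ2 : 0 < S.ρ ^ (n + 2) := pow_pos S.ρ_pos _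
  have e : y.1 - (ic z + S.Γ (n + 1) a (y.2 - m)) = (y.1 - S.sub (n + 1) a m z b i y.2) +
      S.ρ ^ (n + 2) • S.rt.p b i ((y.2 - m) / S.ℓ (n + 1) a) := by
    simp only [sub]
    abel
  have h3 : ‖S.ρ ^ (n + 2) • S.rt.p b i ((y.2 - m) / S.ℓ (n + 1) a)‖ ≤ S.ρ ^ (n + 2) * S.R := by
    rw [norm_smul, Real.norm_eq_abs, abs_of_pos hρ2]
    exact mul_le_mul_of_nonneg_left (S.rt.p_bd _ _ _ hv.1) hρ2.le
  have h4 : S.ρ ^ (n + 2) * (S.R + 1) ≤ S.ρ ^ (n + 1) * (1 / 256) := by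
    rw [pow_succ, mul_assoc]
    refine mul_le_mul_of_nonneg_left ?_ hρ.le
    linarith [S.ρ_small, S.σ0_le]
  rw [e]
  refine (norm_add_le _ _).trans_lt ?_
  linarith

end Pool.Agent.Lib.MP_ce3247_an.Geo
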