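import Pool.Agent.Lib.MP_ce3247_an.Tube
import Pool.Agent.Lib.MP_ce3247_an.Bn

/-! The vector field. -/

open Finset Filter Topology
open scoped ContDiff

namespace Pool.Agent.Lib.MP_ce3247_an.Geo

variable {d k : ℕ} (S : Geo d k)

lemma XF_ρ_le_one : S.ρ ≤ 1 := S.ρ_lt.trans (by norm_num)

lemma XF_q_nonneg : 0 ≤ S.ρ / S.L := div_nonneg S.ρ_pos.le (zero_le_one.trans S.one_lt_L.le)

lemma XF_q_lt : S.ρ / S.L < 1 :=
  (div_lt_one (zero_lt_one.trans S.one_lt_L)).2 (S.XF_ρ_le_one.trans_lt S.one_lt_L)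

lemma Xn_bound : ∃ C, 0 ≤ C ∧ ∀ n y, ‖S.Xn n y‖ ≤ C * (S.ρ / S.L) ^ n := by
  obtain ⟨C, hC, h⟩ := S.Xt_bound 0
  refine ⟨C, hC, fun n y => ?_⟩
  have := (S.Xt_supp n).bound (j := 0) (fun a y => h n a 0 y le_rfl) y
  rwa [norm_iteratedFDeriv_zero, pow_zero, mul_one] at this

lemma X_smooth : ContDiff ℝ d S.X := by
  obtain ⟨C, hC, h⟩ := S.Xt_bound d
  have hρ := S.ρ_pos
  have hL : 0 < S.L := zero_lt_one.trans S.one_lt_L
  have hd : S.ρ ^ d = S.ρ ^ (d - 1) * S.ρ := by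
    rw [← pow_succ, Nat.sub_add_cancel (le_trans (by norm_num) S.two_le)]
  have hq0 : 0 ≤ S.ρ / S.L * (S.ρ⁻¹) ^ d := by positivity
  have hq1 : S.ρ / S.L * (S.ρ⁻¹) ^ d < 1 := by
    have e : S.ρ / S.L * (S.ρ⁻¹) ^ d = 1 / (S.ρ ^ (d - 1) * S.L) := by
      rw [inv_pow, hd]
      field_simp
    rw [e]
    exact (div_lt_one (by positivity)).2 S.hX
  have hs : Summable fun n : ℕ => C * (S.ρ / S.L) ^ n * ((S.ρ ^ (n + 1))⁻¹) ^ d := by
    refine ((summable_geometric_of_lt_one hq0 hq1).mul_left (C * (S.ρ⁻¹) ^ d)).congr fun n => ?_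
    rw [← inv_pow, ← pow_mul, mul_comm (n + 1) d, pow_mul, mul_pow, pow_succ]
    ring
  have key : ContDiff ℝ (d : ℕ∞) fun y => ∑' n, S.Xn n y := by
    refine contDiff_tsum (v := fun _ n => C * (S.ρ / S.L) ^ n * ((S.ρ ^ (n + 1))⁻¹) ^ d)
      (fun n => ?_) (fun _ _ => hs) (fun j n y hj => ?_)
    · exact (S.Xt_supp n).contDiff (r := d) fun a =>
        (S.Xt_smooth n a).of_le (by exact_mod_cast le_top)
    · have hj' : j ≤ d := by exact_mod_cast hj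
      refine ((S.Xt_supp n).bound (fun a y => h n a j y hj') y).trans ?_
      refine mul_le_mul_of_nonneg_left (pow_le_pow_right₀ ?_ hj') ?_
      · exact (one_le_inv₀ (by positivity)).2 (pow_le_one₀ hρ.le S.XF_ρ_le_one)
      · have := S.XF_q_nonneg
        positivity
  exact key

lemma X_per (z : Fin d → ℤ) (m : ℤ) (y : E d × ℝ) : S.X (shift z m y) = S.X y := by
  simp only [X, Xn, per_shift]

lemma XF_eval (n : ℕ) {a b : Fin (k + 1)} {m : ℤ} {z : Fin d → ℤ} {i : ℕ} {y : E d × ℝ}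
    (hv : S.Val n a m b i y.2) (hy : ‖y.1 - S.sub n a m z b i y.2‖ < S.ρ ^ (n + 1) / 8) :
    S.Xn n y = S.U n a (y.2 - m) := by
  have hp : 0 < S.ρ ^ (n + 1) := pow_pos S.ρ_pos _
  have h1 := (S.Xt_supp n).eval hv (z := z) (by linarith)
  rw [Xn, h1, S.Bn_one hv hy.le, one_smul]

lemma XF_piece (n : ℕ) {a : Fin (k + 1)} {m : ℤ} {i : ℕ} {t : ℝ}
    (hv : S.Val n (S.w a i) (m + S.Tm n a i) a i t) :
    deriv (S.Γ (n + 1) a) (t - m) =
      deriv (S.Γ n (S.w a i)) (t - (m + S.Tm n a i : ℤ)) + S.U (n + 1) a (t - m) := by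
  obtain ⟨h1, -, h3, h4⟩ := hv
  have e : t - ((m + S.Tm n a i : ℤ) : ℝ) = t - m - S.Tm n a i := by
    push_cast
    ring
  rw [e] at h3 h4 ⊢
  exact S.deriv_piece n a h1 h3 h4.le

lemma X_explicit (n : ℕ) {a b : Fin (k + 1)} {m : ℤ} {z : Fin d → ℤ} {i : ℕ} {y : E d × ℝ}
    (hv : S.Val n a m b i y.2) (hy : ‖y.1 - S.sub n a m z b i y.2‖ < S.ρ ^ (n + 1) / 8) :
    ∑ j ∈ range (n + 1), S.Xn j y = deriv (S.Γ n a) (y.2 - m) := by
  induction n generalizing a b m z i with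
  | zero =>
    rw [sum_range_one, S.XF_eval 0 hv hy]
    rfl
  | succ n ih =>
    have hp : 0 < S.ρ ^ (n + 1 + 1) := pow_pos S.ρ_pos _
    obtain ⟨i', hv', hy'⟩ := nest hv (z := z) (by linarith)
    rw [sum_range_succ, ih hv' hy', S.XF_eval (n + 1) hv hy, S.XF_piece n hv']

lemma XF_tail : ∃ C, 0 ≤ C ∧ ∀ y, (Summable fun n => S.Xn n y) ∧
    ∀ N, ‖∑' j, S.Xn (j + N) y‖ ≤ C * (S.ρ / S.L) ^ N := by
  obtain ⟨C, hC, h⟩ := S.Xn_bound
  have h0 := S.XF_q_nonneg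
  have h1 := S.XF_q_lt
  have h2 : 0 ≤ (1 - S.ρ / S.L)⁻¹ := inv_nonneg.2 (by linarith)
  refine ⟨C * (1 - S.ρ / S.L)⁻¹, by positivity, fun y => ⟨?_, fun N => ?_⟩⟩
  · exact Summable.of_norm_bounded ((summable_geometric_of_lt_one h0 h1).mul_left C) fun n => h n y
  · have h3 := (hasSum_geometric_of_lt_one h0 h1).mul_left (C * (S.ρ / S.L) ^ N)
    refine (tsum_of_norm_bounded h3 fun j => ?_).trans (le_of_eq (by ring))
    refine (h _ y).trans (le_of_eq ?_)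
    rw [pow_add]
    ring

lemma X_close : ∃ C, 0 ≤ C ∧ ∀ n a m z b i (y : E d × ℝ), S.Val n a m b i y.2 →
    ‖y.1 - S.sub n a m z b i y.2‖ < S.ρ ^ (n + 1) / 4 →
    ‖S.X y - deriv (S.Γ n a) (y.2 - m)‖ ≤ C * (S.ρ / S.L) ^ n := by
  obtain ⟨C0, hC0, h0⟩ := S.XF_tail
  obtain ⟨C1, hC1, h1⟩ := S.Γ_bound 1
  obtain ⟨C2, hC2, h2⟩ := S.U_bound 0
  refine ⟨C0 + C1 + C2, by positivity, fun n a m z b i y hv hy => ?_⟩
  cases n with
  | zero =>
    have e1 := (h0 y).2 0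
    have e2 := h1 0 a 1 (y.2 - m) le_rfl le_rfl
    rw [iteratedDeriv_one] at e2
    simp only [add_zero, pow_zero, mul_one] at e1 ⊢
    refine (norm_sub_le _ _).trans ?_
    have e3 : ‖S.X y‖ ≤ C0 := e1
    linarith
  | succ n =>
    have hp : 0 < S.ρ ^ (n + 1 + 1) := pow_pos S.ρ_pos _
    obtain ⟨i', hv', hy'⟩ := nest hv (z := z) (by linarith)
    have e1 := (h0 y).2 (n + 1)
    have e2 := h2 (n + 1) a 0 (y.2 - m) le_rfl
    rw [iteratedDeriv_zero] at e2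
    have e3 : S.X y - deriv (S.Γ (n + 1) a) (y.2 - m) =
        ∑' j, S.Xn (j + (n + 1)) y - S.U (n + 1) a (y.2 - m) := by
      rw [X, ← (h0 y).1.sum_add_tsum_nat_add (n + 1), S.X_explicit n hv' hy', S.XF_piece n hv']
      abel
    rw [e3]
    refine (norm_sub_le _ _).trans ?_
    have e4 : 0 ≤ C1 * (S.ρ / S.L) ^ (n + 1) := mul_nonneg hC1 (pow_nonneg S.XF_q_nonneg _)
    linarith

lemma γ_deriv (t : ℝ) (ht : 0 < t) : HasDerivAt S.γ (S.X (S.γ t, t)) t := by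
  obtain ⟨C, -, hC⟩ := S.X_close
  have hd : ∀ n : ℕ, 4 * t < n → HasDerivAt S.γ (deriv (S.Γ n 0) t) t := by
    intro n hn
    have h1 : HasDerivAt (S.Γ n 0) (deriv (S.Γ n 0) t) t :=
      ((S.Γ_smooth n 0).differentiable (by simp) t).hasDerivAt
    refine h1.congr_of_eventuallyEq ?_
    have h2 : ∀ᶠ s in 𝓝 t, s < (n : ℝ) / 4 := eventually_lt_nhds (by linarith)
    filter_upwards [h2] with s hs
    exact S.γ_eq (by linarith)
  have hb : ∀ n : ℕ, 4 * t < n → ‖S.X (S.γ t, t) - deriv S.γ t‖ ≤ C * (S.ρ / S.L) ^ n := by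
    intro n hn
    have hl : 4 * t < (S.ℓ n 0 : ℝ) := by
      have h1 : n ≤ S.ℓ n 0 := (Nat.lt_two_pow_self).le.trans (S.ℓ_ge_two n 0)
      exact hn.trans_le (by exact_mod_cast h1)
    have hv : S.Val n 0 0 0 0 (S.γ t, t).2 := by
      refine ⟨lt_of_lt_of_le (by norm_num) (S.len_two 0), S.w_first 0, ?_, ?_⟩
      · simpa using ht.le
      · have : t < (S.ℓ n 0 : ℝ) := by linarith
        simpa using this
    have hz : (S.γ t, t).1 - S.sub n 0 0 0 0 0 (S.γ t, t).2 = 0 := by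
      have h1 : t / (S.ℓ n 0 : ℝ) ≤ 1 / 4 := by
        rw [div_le_iff₀ (by linarith)]
        linarith
      have h2 : ic (0 : Fin d → ℤ) = 0 := by
        funext j
        simp [ic]
      simp only [sub, Int.cast_zero, sub_zero, h2, zero_add, S.rt.p_00 _ h1, smul_zero, add_zero]
      rw [S.γ_eq hn.le, sub_self]
    have h3 := hC n 0 0 0 0 0 (S.γ t, t) hv (by
      rw [hz, norm_zero]
      have := pow_pos S.ρ_pos (n + 1)
      linarith)
    rw [(hd n hn).deriv]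
    simpa using h3
  have hlim : Tendsto (fun n : ℕ => C * (S.ρ / S.L) ^ n) atTop (𝓝 0) := by
    simpa using (tendsto_pow_atTop_nhds_zero_of_lt_one S.XF_q_nonneg S.XF_q_lt).const_mul C
  have hev : ∀ᶠ n : ℕ in atTop, 4 * t < n :=
    tendsto_natCast_atTop_atTop.eventually_gt_atTop (4 * t)
  have h0 : ‖S.X (S.γ t, t) - deriv S.γ t‖ ≤ 0 :=
    ge_of_tendsto hlim (hev.mono fun n hn => hb n hn)
  rw [sub_eq_zero.1 (norm_le_zero_iff.1 h0)]
  obtain ⟨n, hn⟩ := hev.exists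
  exact (hd n hn).differentiableAt.hasDerivAt

end Pool.Agent.Lib.MP_ce3247_an.Geo
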